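import Pool.Agent.MidT.Defs

/-!
# MidT module EDGEE: the second inequality for the case `(1, 1, l, k)`

`edge_Eb`: LINEAR IN `m`: the coefficient `sh (ch + κ) - η (1 + κ ch) > 0` (`κ = 3/20`): `(sh (ch+κ))/(1+κ ch) - η` vanishes at `0` and has
derivative `sh² (2 + κ ch - κ²)/(1+κ ch)² > 0`.  So one may replace `m` by any lower bound: `m ≥ 1.74 + 0.3 η` (as `η + log (2 + 15 e^{-η}/4)` is convex
in `η`, with tangent `log 5.75 + (8/23) η` at `0`, `log 5.75 > 1.749`) and `m ≥ η + log 2 > η + 0.69`.  For `η ≤ 3/2` use the first one and Taylor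
polynomials of `sinh, cosh` (`1.74 + 0.3 η` exceeds the critical value `(3 η sh² + κ η² sh)/(3 (sh (ch+κ) - η (1+κ ch)))` by at least `0.03`),
for `η ≥ 3/2` the second one.
The Taylor coefficient of `η^{2n+1}` (`n ≥ 1`) in the expression is
`[3 m (4ⁿ - 2nκ) - (3/2) 4ⁿ (2n+1) - 2nκ (2n+1)]/(2n+1)!` (`m` considered as a constant).
-/

set_option autoImplicit false

namespace Pool.Agent.MidT

open Set Filter Topology

theorem sinh_ge5 (x : ℝ) (hx : 0 ≤ x) : x + x ^ 3 / 6 + x ^ 5 / 120 ≤ Real.sinh x := by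
  have h := Real.hasSum_sinh x
  have := sum_le_hasSum (Finset.range 3) (fun i _ => by positivity) h
  simp [Finset.sum_range_succ, Nat.factorial] at this
  linarith

theorem cosh_ge4 (x : ℝ) : 1 + x ^ 2 / 2 + x ^ 4 / 24 ≤ Real.cosh x := by
  have h := Real.hasSum_cosh x
  have := sum_le_hasSum (Finset.range 3)
    (fun i _ => div_nonneg (Even.pow_nonneg (even_two_mul i) x) (by positivity)) h
  simp [Finset.sum_range_succ, Nat.factorial] at this
  linarith

theorem fact_bound (n : ℕ) : (5040 : ℝ) * 72 ^ n ≤ ((2 * (n + 3) + 1).factorial : ℝ) := by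
  induction n with
  | zero => simp [Nat.factorial]
  | succ n ih =>
    have e : (2 * (n + 1 + 3) + 1) = (2 * (n + 3) + 1) + 1 + 1 := by ring
    rw [e, Nat.factorial_succ, Nat.factorial_succ]
    push_cast
    have h1 : (0 : ℝ) < ((2 * (n + 3) + 1).factorial : ℝ) := by positivity
    have hn : (0 : ℝ) ≤ n := Nat.cast_nonneg n
    have h2 : (72 : ℝ) ≤ (2 * ((n : ℝ) + 3) + 1 + 1 + 1) * (2 * ((n : ℝ) + 3) + 1 + 1) := by nlinarith
    rw [pow_succ]
    calc (5040 : ℝ) * (72 ^ n * 72) = (5040 * 72 ^ n) * 72 := by ring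
      _ ≤ ((2 * (n + 3) + 1).factorial : ℝ) *
          ((2 * ((n : ℝ) + 3) + 1 + 1 + 1) * (2 * ((n : ℝ) + 3) + 1 + 1)) := by
          apply mul_le_mul ih h2 (by norm_num) h1.le
      _ = _ := by ring

theorem sinh_le7 (x : ℝ) (hx : 0 ≤ x) (hx1 : x ≤ 3 / 2) :
    Real.sinh x ≤ x + x ^ 3 / 6 + x ^ 5 / 120 + x ^ 7 / 4800 := by
  have h := Real.hasSum_sinh x
  have h3 := (hasSum_nat_add_iff' 3).2 h
  have hr0 : 0 ≤ x ^ 2 / 72 := by positivity
  have hr1 : x ^ 2 / 72 < 1 := by nlinarith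
  have hg := (hasSum_geometric_of_lt_one hr0 hr1).mul_left (x ^ 7 / 5040)
  have hle := hasSum_le (fun n => ?_) h3 hg
  · simp [Finset.sum_range_succ, Nat.factorial] at hle
    have hb : x ^ 7 / 5040 * (1 - x ^ 2 / 72)⁻¹ ≤ x ^ 7 / 4800 := by
      rw [← div_eq_mul_inv, div_le_iff₀ (by linarith)]
      have : 0 ≤ x ^ 7 := by positivity
      nlinarith [mul_nonneg this (by nlinarith : (0 : ℝ) ≤ 9 / 4 - x ^ 2)]
    linarith
  · have hf := fact_bound n
    have hp : (0 : ℝ) < 5040 * 72 ^ n := by positivity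
    have e : x ^ 7 / 5040 * (x ^ 2 / 72) ^ n = x ^ (2 * (n + 3) + 1) / (5040 * 72 ^ n) := by
      rw [div_pow, ← pow_mul]
      field_simp
      ring
    rw [e]
    exact div_le_div_of_nonneg_left (by positivity) hp hf


theorem polyR (x : ℝ) (hx : 0 ≤ x) (hx1 : x ≤ 3 / 2) :
    0 < 69 / 1000 + 111 / 200 * x - 3551 / 10000 * x ^ 2 + 231 / 2000 * x ^ 3
      - 919 / 12000 * x ^ 4 + 1 / 100 * x ^ 5 - 749 / 96000 * x ^ 6 + 1 / 3200 * x ^ 7
      - 1 / 2400 * x ^ 8 - 1 / 96000 * x ^ 10 - 1 / 7680000 * x ^ 12 := by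
  obtain ⟨u, rfl⟩ : ∃ u, x = 3 / 2 - u := ⟨3 / 2 - x, by ring⟩
  have hu : 0 ≤ u := by linarith
  have hu1 : u ≤ 3 / 2 := by linarith
  have p1 : 0 ≤ u * (1597760897/2621440000 - 106651371/262144000 * u + 107/1000 * u ^ 2) := by
    apply mul_nonneg hu
    nlinarith [sq_nonneg (u - 19/10)]
  have p2 : 0 ≤ u ^ 3 * ((100420289/393216000 - 107/1000) - 3207609/32768000 * u) := by
    apply mul_nonneg (by positivity)
    linarith
  have p3 : 0 ≤ u ^ 5 * (7865999/245760000 - 306071/40960000 * u) := by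
    apply mul_nonneg (by positivity)
    linarith
  have p4 : 0 ≤ u ^ 7 * (18161/12288000 - 873/4096000 * u) := by
    apply mul_nonneg (by positivity)
    linarith
  have p5 : 0 ≤ u ^ 9 * (163/6144000 - 11/5120000 * u) := by
    apply mul_nonneg (by positivity)
    linarith
  have p6 : 0 ≤ u ^ 11 * (1/7680000) := by positivity
  have hR : 0 < 58525719/5242880000
      + u * (1597760897/2621440000 - 106651371/262144000 * u + 107/1000 * u ^ 2)
      + u ^ 3 * ((100420289/393216000 - 107/1000) - 3207609/32768000 * u)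
      + u ^ 5 * (7865999/245760000 - 306071/40960000 * u)
      + u ^ 7 * (18161/12288000 - 873/4096000 * u)
      + u ^ 9 * (163/6144000 - 11/5120000 * u)
      + u ^ 11 * (1/7680000) := by linarith
  have h0 := mul_nonneg hx hR.le
  nlinarith [h0]

theorem caseA (x : ℝ) (hx : 0 < x) (hx1 : x ≤ 3 / 2) :
    0 < 3 * (174 / 100 + 3 / 10 * x) * (Real.sinh x * (Real.cosh x + 3 / 20)
      - x * (1 + 3 / 20 * Real.cosh x))
      - 3 * x * Real.sinh x ^ 2 - 3 / 20 * x ^ 2 * Real.sinh x := by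
  have hs := sinh_ge5 x hx.le
  have hC := cosh_ge4 x
  have hU := sinh_le7 x hx.le hx1
  set s := Real.sinh x
  set C := Real.cosh x
  set sL := x + x ^ 3 / 6 + x ^ 5 / 120 with hsL
  set CL := 1 + x ^ 2 / 2 + x ^ 4 / 24 with hCL
  set sU := x + x ^ 3 / 6 + x ^ 5 / 120 + x ^ 7 / 4800 with hsU
  have hsL0 : 0 < sL := by positivity
  have hsLx : x ≤ sL := by rw [hsL]; have : 0 ≤ x ^ 3 / 6 + x ^ 5 / 120 := by positivity
                           linarith
  have h1 : sL * (CL + 3 / 20) - x * (1 + 3 / 20 * CL) ≤ s * (C + 3 / 20) - x * (1 + 3 / 20 * C) := by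
    have a1 : 0 ≤ (s - sL) * (C + 3 / 20) :=
      mul_nonneg (by linarith) (by have : 0 < CL := by positivity
                                   linarith)
    have a2 : 0 ≤ (C - CL) * (sL - 3 / 20 * x) := mul_nonneg (by linarith) (by linarith)
    nlinarith
  have h2 : s ^ 2 ≤ sU ^ 2 := pow_le_pow_left₀ (by linarith) hU 2
  have hm : (0 : ℝ) < 3 * (174 / 100 + 3 / 10 * x) := by positivity
  have h3 : 0 < 3 * (174 / 100 + 3 / 10 * x) * (sL * (CL + 3 / 20) - x * (1 + 3 / 20 * CL))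
      - 3 * x * sU ^ 2 - 3 / 20 * x ^ 2 * sU := by
    have hp := mul_pos (pow_pos hx 3) (polyR x hx.le hx1)
    have e : 3 * (174 / 100 + 3 / 10 * x) * (sL * (CL + 3 / 20) - x * (1 + 3 / 20 * CL))
      - 3 * x * sU ^ 2 - 3 / 20 * x ^ 2 * sU = x ^ 3 * (69 / 1000 + 111 / 200 * x
      - 3551 / 10000 * x ^ 2 + 231 / 2000 * x ^ 3
      - 919 / 12000 * x ^ 4 + 1 / 100 * x ^ 5 - 749 / 96000 * x ^ 6 + 1 / 3200 * x ^ 7
      - 1 / 2400 * x ^ 8 - 1 / 96000 * x ^ 10 - 1 / 7680000 * x ^ 12) := by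
      rw [hsL, hCL, hsU]; ring
    rw [e]; exact hp
  have h4 := mul_le_mul_of_nonneg_left h1 hm.le
  have h5 : 3 * x * s ^ 2 ≤ 3 * x * sU ^ 2 := mul_le_mul_of_nonneg_left h2 (by positivity)
  have h6 : 3 / 20 * x ^ 2 * s ≤ 3 / 20 * x ^ 2 * sU := mul_le_mul_of_nonneg_left hU (by positivity)
  linarith


theorem exp_ge3 (t : ℝ) (ht : 0 ≤ t) : 1 + t + t ^ 2 / 2 + t ^ 3 / 6 ≤ Real.exp t := by
  have h := Real.sum_le_exp_of_nonneg ht 4
  simp [Finset.sum_range_succ, Nat.factorial] at h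
  linarith

theorem exp_32 : (112 / 25 : ℝ) ≤ Real.exp (3 / 2) := by
  have h := Real.sum_le_exp_of_nonneg (by norm_num : (0 : ℝ) ≤ 3 / 2) 8
  simp [Finset.sum_range_succ, Nat.factorial] at h
  norm_num at h
  linarith

theorem caseB (x : ℝ) (hx : 3 / 2 ≤ x) :
    0 < 3 * (x + 69 / 100) * (Real.sinh x * (Real.cosh x + 3 / 20)
      - x * (1 + 3 / 20 * Real.cosh x))
      - 3 * x * Real.sinh x ^ 2 - 3 / 20 * x ^ 2 * Real.sinh x := by
  obtain ⟨t, rfl⟩ : ∃ t, x = 3 / 2 + t := ⟨x - 3 / 2, by ring⟩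
  have ht : 0 ≤ t := by linarith
  rw [Real.sinh_eq, Real.cosh_eq]
  set E := Real.exp (3 / 2 + t) with hE
  set e := Real.exp (-(3 / 2 + t)) with he
  have hEe : E * e = 1 := by rw [hE, he, ← Real.exp_add]; simp
  have hL : 112 / 25 * (1 + t + t ^ 2 / 2 + t ^ 3 / 6) ≤ E := by
    rw [hE, Real.exp_add]
    exact mul_le_mul exp_32 (exp_ge3 t ht) (by positivity) (Real.exp_pos _).le
  have he0 : 0 < e := Real.exp_pos _
  have hL1 : (112 / 25 : ℝ) ≤ E := by
    refine le_trans ?_ hL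
    have : 0 ≤ t + t ^ 2 / 2 + t ^ 3 / 6 := by positivity
    nlinarith
  have he1 : e ≤ 25 / 112 := by
    by_contra hcon
    push Not at hcon
    nlinarith [mul_lt_mul_of_pos_left hcon (by linarith : (0 : ℝ) < E)]
  have he2 : e ^ 2 ≤ (25 / 112) ^ 2 := pow_le_pow_left₀ he0.le he1 2
  set L := 112 / 25 * (1 + t + t ^ 2 / 2 + t ^ 3 / 6) with hLdef
  have hL0 : 0 < L := by positivity
  set b := 3 / 10 * (3 / 2 + t) ^ 2 - 6975 / 100000 * (3 / 2 + t) - 15525 / 100000 with hb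
  have haLb : 0 < 5175 / 10000 * L - b := by
    have : 5175 / 10000 * L - b = 1903275/1000000 + 148815/100000 * t + 8592/10000 * t ^ 2
        + 3864/10000 * t ^ 3 := by
      rw [hLdef, hb]; ring
    rw [this]; positivity
  have h1 : L * (5175 / 10000 * L - b) ≤ E * (5175 / 10000 * E - b) := by
    apply mul_le_mul hL (by linarith) haLb.le (by linarith)
  have hpoly : 0 < L * (5175 / 10000 * L - b) - 3 * (3 / 2 + t) ^ 2 - 57 / 100 * (3 / 2 + t)
      - 25 / 112 * (15 / 100 * (3 / 2 + t) ^ 2 + 38025 / 100000 * (3 / 2 + t) + 15525 / 100000)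
      - (25 / 112) ^ 2 * (3 / 2 * (3 / 2 + t) + 5175 / 10000) := by
    have : L * (5175 / 10000 * L - b) - 3 * (3 / 2 + t) ^ 2 - 57 / 100 * (3 / 2 + t)
      - 25 / 112 * (15 / 100 * (3 / 2 + t) ^ 2 + 38025 / 100000 * (3 / 2 + t) + 15525 / 100000)
      - (25 / 112) ^ 2 * (3 / 2 * (3 / 2 + t) + 5175 / 10000) =
      1713754017/3136000000 + 1051250589/196000000 * t + 82221873/7000000 * t ^ 2
      + 1291857/125000 * t ^ 3 + 297927/62500 * t ^ 4 + 23548/15625 * t ^ 5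
      + 4508/15625 * t ^ 6 := by
      rw [hLdef, hb]; ring
    rw [this]; positivity
  have h2 : e * (15 / 100 * (3 / 2 + t) ^ 2 + 38025 / 100000 * (3 / 2 + t) + 15525 / 100000) ≤
      25 / 112 * (15 / 100 * (3 / 2 + t) ^ 2 + 38025 / 100000 * (3 / 2 + t) + 15525 / 100000) :=
    mul_le_mul_of_nonneg_right he1 (by positivity)
  have h3 : e ^ 2 * (3 / 2 * (3 / 2 + t) + 5175 / 10000) ≤
      (25 / 112) ^ 2 * (3 / 2 * (3 / 2 + t) + 5175 / 10000) :=
    mul_le_mul_of_nonneg_right he2 (by positivity)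
  have hid : 3 * (3 / 2 + t + 69 / 100) * ((E - e) / 2 * ((E + e) / 2 + 3 / 20)
      - (3 / 2 + t) * (1 + 3 / 20 * ((E + e) / 2)))
      - 3 * (3 / 2 + t) * ((E - e) / 2) ^ 2 - 3 / 20 * (3 / 2 + t) ^ 2 * ((E - e) / 2) =
      E * (5175 / 10000 * E - b) - 3 * (3 / 2 + t) ^ 2 - 57 / 100 * (3 / 2 + t)
      - e * (15 / 100 * (3 / 2 + t) ^ 2 + 38025 / 100000 * (3 / 2 + t) + 15525 / 100000)
      - e ^ 2 * (3 / 2 * (3 / 2 + t) + 5175 / 10000) := by
    rw [hb]
    linear_combination (3 / 2 * (3 / 2 + t)) * hEe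
  rw [hid]
  linarith

theorem exp_174 : Real.exp (174 / 100) ≤ 57 / 10 := by
  have h1 : Real.exp (174 / 100) = Real.exp 1 * Real.exp (74 / 100) := by
    rw [← Real.exp_add]; norm_num
  have h2 := Real.exp_bound' (by norm_num : (0 : ℝ) ≤ 74 / 100) (by norm_num : (74 / 100 : ℝ) ≤ 1)
    (n := 6) (by norm_num)
  simp [Finset.sum_range_succ, Nat.factorial] at h2
  have h2' : Real.exp (74 / 100) ≤ 20963 / 10000 := by
    refine h2.trans ?_
    norm_num
  have h3 := Real.exp_one_lt_d9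
  rw [h1]
  have h4 := Real.exp_pos (74 / 100)
  nlinarith [mul_le_mul h3.le h2' h4.le (by norm_num)]

theorem m_lower1 (x : ℝ) (hx : 0 ≤ x) :
    174 / 100 + 3 / 10 * x ≤ x + Real.log (2 + 15 * Real.exp (-x) / 4) := by
  have hpos : 0 < 2 + 15 * Real.exp (-x) / 4 := by positivity
  suffices h : 174 / 100 - 7 / 10 * x ≤ Real.log (2 + 15 * Real.exp (-x) / 4) by linarith
  rw [Real.le_log_iff_exp_le hpos]
  have h1 : Real.exp (174 / 100 - 7 / 10 * x) = Real.exp (174 / 100) * Real.exp (-(7 / 10 * x)) := by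
    rw [← Real.exp_add]; congr 1
  have h2 : Real.exp (-(7 / 10 * x)) ≤ 7 / 10 * Real.exp (-x) + 3 / 10 := by
    have := convexOn_exp.2 (Set.mem_univ (-x)) (Set.mem_univ (0 : ℝ))
      (by norm_num : (0 : ℝ) ≤ 7 / 10) (by norm_num : (0 : ℝ) ≤ 3 / 10) (by norm_num)
    simp only [smul_eq_mul, mul_zero, add_zero, Real.exp_zero, mul_one] at this
    rw [show -(7 / 10 * x) = 7 / 10 * -x by ring]
    exact this
  have h3 : Real.exp (-x) ≤ 1 := by
    rw [Real.exp_le_one_iff]; linarith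
  have h4 := exp_174
  have h5 := Real.exp_pos (-x)
  rw [h1]
  calc Real.exp (174 / 100) * Real.exp (-(7 / 10 * x))
      ≤ 57 / 10 * (7 / 10 * Real.exp (-x) + 3 / 10) :=
        mul_le_mul h4 h2 (Real.exp_pos _).le (by norm_num)
    _ ≤ 2 + 15 * Real.exp (-x) / 4 := by linarith

theorem edge_Eb (η m : ℝ) (hη : 0 < η)
    (hm : η + Real.log (2 + 15 * Real.exp (-η) / 4) ≤ m) :
    0 < 3 * m * (Real.sinh η * (Real.cosh η + 3 / 20) - η * (1 + 3 / 20 * Real.cosh η))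
      - 3 * η * Real.sinh η ^ 2 - 3 / 20 * η ^ 2 * Real.sinh η := by
  have hc : 0 ≤ Real.sinh η * (Real.cosh η + 3 / 20) - η * (1 + 3 / 20 * Real.cosh η) := by
    have h1 : η ≤ Real.sinh η := Real.self_le_sinh_iff.2 hη.le
    have h2 := Real.one_le_cosh η
    nlinarith [mul_nonneg (by linarith : 0 ≤ Real.sinh η - 3 / 20 * η)
      (by linarith : 0 ≤ Real.cosh η - 1)]
  rcases le_total η (3 / 2) with h | h
  · have h1 := caseA η hη h
    have h2 := m_lower1 η hη.le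
    have h3 := mul_le_mul_of_nonneg_right (le_trans h2 hm) hc
    nlinarith
  · have h1 := caseB η h
    have h2 : 69 / 100 ≤ Real.log (2 + 15 * Real.exp (-η) / 4) := by
      have : Real.log 2 ≤ Real.log (2 + 15 * Real.exp (-η) / 4) :=
        Real.log_le_log (by norm_num) (by have := Real.exp_pos (-η); linarith)
      linarith [Real.log_two_gt_d9]
    have h3 := mul_le_mul_of_nonneg_right (by linarith : η + 69 / 100 ≤ m) hc
    nlinarith

end Pool.Agent.MidT
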