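import Pool.Agent.MidT.EdgeI
import Pool.Agent.MidT.EdgeE

/-!
# MidT module EDGED: the sign of the derivative at a zero, case `(1, 1, l, k)`

Notation: `sh = sinh η`, `C = cosh η`, `e^m`, `Γ(m, η) = η (e^m - C) - 3 m sh`, `Δ = cosh m - C`, `κ = 3/20`, `y = e^{-η}`, `P = e^{m-η}`.

`edge_root`: `m ↦ Γ(m, η)` is convex, `Γ(0, η) = η (1 - C) < 0`, and `Γ(m₀, η) < 0` for `m₀ = η + log P₀`, `P₀ = 2 + 15y/4`: indeed
`e^{m₀} - C = P₀/y - (1+y²)/(2y) = (3 + 15y/2 - y²)/(2y)`, `sh = (1-y²)/(2y)`, and `η (3 + 15y/2 - y²) < 3 (η + log P₀)(1-y²)` is `edge_lb`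
(`η = log (1/y)`).  A convex function that is negative at `0` and at `m₀` is negative on `[0, m₀]`.  So `Γ(m, η) = 0`, `m > 0` gives `m > m₀`.

`edge_pos`: with `b = 2 sh/Δ`: `2 sh(m) sh - b (ch(m) C - 1) = 2 sh N1/Δ`, `N1 = sh(m) Δ - C ch(m) + 1`, and
`2 (ch(m) C - 1) - b sh(m) sh = 2 D1/Δ`, `D1 = (C ch(m) - 1) Δ - sh(m) sh²`.  (`Δ > 0` as `m > η`.)
In `y, P`: `Δ = (P-1)(P-y²)/(2Py)`, `N1 = [(P-1)(P-y²)(P²-(1+y²)P-y²) - (1-y²)²P²]/(4P²y²)`,
`D1 = [((1+y²)(P²+y²) - 4Py²)(P-1)(P-y²) - P (P²-y²)(1-y²)²]/(8P²y³)`, and (polynomial identity)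
`8P²y³ ((C+κ) N1 - D1) = 2y [ (P-1)(P-y²)(κ(P²-(1+y²)P-y²) - (1+y²)y) - (1-y²)² P (κP + y) ]`, so `edge_Ea` is `D1 ≤ (C+κ) N1`.  Also `N1 > 0` (`edge_Ea`, or
polynomial positivity for `P ≥ 2 + 15y/4`).
At `Γ = 0`: `e^m - C = 3 m sh/η`, so `Γ_η = (e^m - C) - η sh - 3 m C = -(3m(C - sh/η) + η sh) =: -X`, `X > 0`; `Γ_m = η e^m - 3 sh`.  `edge_Eb` (times `1/η`) says
`X (C+κ) < Γ_m sh`.  Hence `Γ_m sh N1 > X (C+κ) N1 ≥ X D1`, i.e. `Γ_m sh N1 + Γ_η D1 > 0`.

`edge_deriv`: `m = tau l + tau k`, `η = tau l - tau k > 0`; `l = coth ((m+η)/2)`, `k = coth ((m-η)/2)` (`tau x = log ((x+1)/(x-1))/2`), `b = k - l = 2 sh/Δ`,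
`k + l = 2 sh(m)/Δ`, `1/(l²-1) = sinh²((m+η)/2)`, `1/(k²-1) = sinh²((m-η)/2)`.  `EF l k = Γ(m, η)/Δ`:
`EF = (m+η)/2 (1+2l-k) - (m-η)/2 (1+2k-l) = η - (3m/2) b + (η/2)(k+l)`.
With `l' = (b-2)/4`, `k' = (b+2)/4` : `4 m' = 2 sh(m) sh - b (ch(m) C - 1)`, `4 η' = 2 (ch(m) C - 1) - b sh(m) sh`.  The derivative of `EF` along this
direction at a zero is `(Γ_m m' + Γ_η η')/Δ`.  In Lean: the explicit expression in `edge_deriv` in terms of `m, η`
(it is `(1/Δ)(Γ_m m' + Γ_η η') - Γ Δ'/Δ²`, `Γ = 0`), an algebraic identity in `e^m, e^η, m, η`; alternatively along a curve: `b ↦ EF(l(b), k(b)) = Γ/Δ` and uniqueness of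
derivatives.
-/

set_option autoImplicit false

namespace Pool.Agent.MidT

open Set Filter Topology

/-- `sinh η < η cosh η` for `η > 0` -/
theorem edgeD_sinh_lt (η : ℝ) (hη : 0 < η) : Real.sinh η < η * Real.cosh η := by
  have hmono : StrictMonoOn (fun x : ℝ => x * Real.cosh x - Real.sinh x) (Set.Ici 0) := by
    apply strictMonoOn_of_deriv_pos (convex_Ici 0)
    · exact ((continuous_id.mul Real.continuous_cosh).sub Real.continuous_sinh).continuousOn
    · intro x hx
      rw [interior_Ici] at hx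
      have hx' : (0 : ℝ) < x := hx
      have hd : HasDerivAt (fun x : ℝ => x * Real.cosh x - Real.sinh x)
          (1 * Real.cosh x + x * Real.sinh x - Real.cosh x) x :=
        ((hasDerivAt_id x).mul (Real.hasDerivAt_cosh x)).sub (Real.hasDerivAt_sinh x)
      rw [hd.deriv]
      have : 0 < x * Real.sinh x := mul_pos hx' (Real.sinh_pos_iff.2 hx')
      linarith
  have h := hmono (Set.mem_Ici.2 le_rfl) (Set.mem_Ici.2 hη.le) hη
  simp only [zero_mul, Real.sinh_zero, sub_zero] at h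
  linarith

theorem edge_root (η m : ℝ) (hη : 0 < η) (hm : 0 < m)
    (h : η * (Real.exp m - Real.cosh η) - 3 * m * Real.sinh η = 0) :
    η + Real.log (2 + 15 * Real.exp (-η) / 4) < m := by
  by_contra hcon
  push Not at hcon
  set y : ℝ := Real.exp (-η) with hy
  have hy0 : 0 < y := Real.exp_pos _
  have hy1 : y < 1 := by
    rw [hy, Real.exp_lt_one_iff]
    linarith
  have hey : Real.exp η = 1 / y := by
    rw [hy, Real.exp_neg]
    simp
  have hlogy : Real.log (1 / y) = η := by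
    rw [← hey, Real.log_exp]
  have hP0 : (0 : ℝ) < 2 + 15 * y / 4 := by positivity
  set Lg : ℝ := Real.log (2 + 15 * y / 4) with hLg
  have hLgpos : 0 < Lg := Real.log_pos (by linarith)
  have hlb := edge_lb y hy0 hy1
  rw [hlogy, ← hLg] at hlb
  have hC : Real.cosh η = (1 / y + y) / 2 := by
    rw [Real.cosh_eq, hey, ← hy]
  have hS : Real.sinh η = (1 / y - y) / 2 := by
    rw [Real.sinh_eq, hey, ← hy]
  have h1y : 0 < 1 - y ^ 2 := by nlinarith
  set m0 : ℝ := η + Lg with hm0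
  have hm0pos : 0 < m0 := by positivity
  have hexpm0 : Real.exp m0 = (2 + 15 * y / 4) / y := by
    rw [hm0, Real.exp_add, hLg, Real.exp_log hP0, hey]
    ring
  -- value at m0
  have hneg0 : η * (Real.exp m0 - Real.cosh η) - 3 * m0 * Real.sinh η < 0 := by
    rw [hexpm0, hC, hS, hm0]
    have h2 : η * (y * (15 + 4 * y)) < Lg * (6 * (1 - y ^ 2)) := by
      rw [div_mul_eq_mul_div, div_lt_iff₀ (by positivity)] at hlb
      linarith
    have h3 : η * ((2 + 15 * y / 4) / y - (1 / y + y) / 2) - 3 * (η + Lg) * ((1 / y - y) / 2)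
        = (η * (y * (15 + 4 * y)) - Lg * (6 * (1 - y ^ 2))) / (4 * y) := by
      field_simp
      ring
    rw [h3]
    exact div_neg_of_neg_of_pos (by linarith) (by positivity)
  have hneg1 : η * (Real.exp 0 - Real.cosh η) - 3 * 0 * Real.sinh η < 0 := by
    have : 1 < Real.cosh η := Real.one_lt_cosh.2 hη.ne'
    rw [Real.exp_zero]
    nlinarith
  set θ : ℝ := m / m0 with hθ
  have hθ0 : 0 < θ := div_pos hm hm0pos
  have hθ1 : θ ≤ 1 := by
    rw [hθ, div_le_one hm0pos]
    exact hcon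
  have hmθ : m = (1 - θ) * 0 + θ * m0 := by
    rw [hθ]
    field_simp
    ring
  have hconv := convexOn_exp.2 (Set.mem_univ (0 : ℝ)) (Set.mem_univ m0)
    (show 0 ≤ 1 - θ by linarith) hθ0.le (by ring)
  simp only [smul_eq_mul] at hconv
  rw [← hmθ] at hconv
  have hfin : η * (Real.exp m - Real.cosh η) - 3 * m * Real.sinh η
      ≤ (1 - θ) * (η * (Real.exp 0 - Real.cosh η) - 3 * 0 * Real.sinh η)
        + θ * (η * (Real.exp m0 - Real.cosh η) - 3 * m0 * Real.sinh η) := by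
    have h5 := mul_le_mul_of_nonneg_left hconv hη.le
    have h6 : 3 * m * Real.sinh η = θ * (3 * m0 * Real.sinh η) := by
      rw [hθ]
      field_simp
    rw [h6]
    nlinarith
  have h7 : (1 - θ) * (η * (Real.exp 0 - Real.cosh η) - 3 * 0 * Real.sinh η) ≤ 0 :=
    mul_nonpos_of_nonneg_of_nonpos (by linarith) hneg1.le
  have h8 : θ * (η * (Real.exp m0 - Real.cosh η) - 3 * m0 * Real.sinh η) < 0 :=
    mul_neg_of_pos_of_neg hθ0 hneg0
  linarith

theorem edge_pos (η m b : ℝ) (hη : 0 < η) (hm : 0 < m)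
    (h : η * (Real.exp m - Real.cosh η) - 3 * m * Real.sinh η = 0)
    (hb : b = 2 * Real.sinh η / (Real.cosh m - Real.cosh η)) :
    0 < (η * Real.exp m - 3 * Real.sinh η) *
        (2 * Real.sinh m * Real.sinh η - b * (Real.cosh m * Real.cosh η - 1))
      + (Real.exp m - Real.cosh η - η * Real.sinh η - 3 * m * Real.cosh η) *
        (2 * (Real.cosh m * Real.cosh η - 1) - b * (Real.sinh m * Real.sinh η)) := by
  have hroot := edge_root η m hη hm h
  have hEb := edge_Eb η m hη hroot.le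
  set y : ℝ := Real.exp (-η) with hy
  have hy0 : 0 < y := Real.exp_pos _
  have hy1 : y < 1 := by
    rw [hy, Real.exp_lt_one_iff]
    linarith
  have hey : Real.exp η = 1 / y := by
    rw [hy, Real.exp_neg]
    simp
  set P : ℝ := Real.exp (m - η) with hP
  have hP0 : 0 < P := Real.exp_pos _
  have hPge : 2 + 15 * y / 4 ≤ P := by
    have h1 : Real.log (2 + 15 * y / 4) ≤ m - η := by linarith
    have h2 : (0 : ℝ) < 2 + 15 * y / 4 := by positivity
    calc 2 + 15 * y / 4 = Real.exp (Real.log (2 + 15 * y / 4)) := (Real.exp_log h2).symm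
      _ ≤ P := Real.exp_le_exp.2 h1
  have hem : Real.exp m = P / y := by
    rw [hP, Real.exp_sub, hey]
    field_simp
  have hem' : Real.exp (-m) = y / P := by
    rw [Real.exp_neg, hem, inv_div]
  have hC : Real.cosh η = (1 / y + y) / 2 := by
    rw [Real.cosh_eq, hey, ← hy]
  have hS : Real.sinh η = (1 / y - y) / 2 := by
    rw [Real.sinh_eq, hey, ← hy]
  have hCm : Real.cosh m = (P / y + y / P) / 2 := by
    rw [Real.cosh_eq, hem, hem']
  have hSm : Real.sinh m = (P / y - y / P) / 2 := by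
    rw [Real.sinh_eq, hem, hem']
  have hEa := edge_Ea y P hy0 hy1 hPge
  have hshpos : 0 < Real.sinh η := Real.sinh_pos_iff.2 hη
  have hP2 : 2 < P := by
    have : (0 : ℝ) < 15 * y / 4 := by positivity
    linarith
  have hy2 : y ^ 2 < 1 := by nlinarith
  have hPy : 0 < P - y ^ 2 := by linarith
  -- Δ
  have hΔeq : Real.cosh m - Real.cosh η = (P - 1) * (P - y ^ 2) / (2 * P * y) := by
    rw [hCm, hC]
    field_simp
    ring
  have hΔ : 0 < Real.cosh m - Real.cosh η := by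
    rw [hΔeq]
    exact div_pos (mul_pos (by linarith) hPy) (by positivity)
  set Δ : ℝ := Real.cosh m - Real.cosh η with hΔdef
  set N1 : ℝ := Real.sinh m * Δ - Real.cosh η * Real.cosh m + 1 with hN1
  set D1 : ℝ := (Real.cosh η * Real.cosh m - 1) * Δ - Real.sinh m * Real.sinh η ^ 2 with hD1
  have hN1eq : N1 = ((P - 1) * (P - y ^ 2) * (P ^ 2 - (1 + y ^ 2) * P - y ^ 2)
      - (1 - y ^ 2) ^ 2 * P ^ 2) / (4 * P ^ 2 * y ^ 2) := by
    rw [hN1, hΔeq, hSm, hC, hCm]
    field_simp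
    ring
  have hN1pos : 0 < N1 := by
    rw [hN1eq]
    refine div_pos ?_ (by positivity)
    have ha : 0 < (P - 1) * (P - y ^ 2) := mul_pos (by linarith) hPy
    have hb1 : 0 < (P - 1) * (P - y ^ 2) * ((1 + y ^ 2) * y) := mul_pos ha (by positivity)
    have hc1 : 0 < (1 - y ^ 2) ^ 2 * P * y :=
      mul_pos (mul_pos (pow_pos (by linarith) 2) hP0) hy0
    nlinarith
  have hDN : D1 ≤ (Real.cosh η + 3 / 20) * N1 := by
    have hid : (Real.cosh η + 3 / 20) * N1 - D1
        = (2 * y * ((P - 1) * (P - y ^ 2) * (3 / 20 * (P ^ 2 - (1 + y ^ 2) * P - y ^ 2)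
          - (1 + y ^ 2) * y) - (1 - y ^ 2) ^ 2 * P * (3 / 20 * P + y))) / (8 * P ^ 2 * y ^ 3) := by
      rw [hN1, hD1, hΔeq, hSm, hC, hCm, hS]
      field_simp
      ring
    have h0 : 0 ≤ (Real.cosh η + 3 / 20) * N1 - D1 := by
      rw [hid]
      refine div_nonneg (mul_nonneg (by positivity) ?_) (by positivity)
      linarith
    linarith
  -- the two brackets
  have hbr1 : 2 * Real.sinh m * Real.sinh η - b * (Real.cosh m * Real.cosh η - 1)
      = 2 * Real.sinh η * N1 / Δ := by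
    rw [hb, hN1]
    field_simp
    ring
  have hbr2 : 2 * (Real.cosh m * Real.cosh η - 1) - b * (Real.sinh m * Real.sinh η)
      = 2 * D1 / Δ := by
    rw [hb, hD1]
    field_simp
  rw [hbr1, hbr2]
  set sh : ℝ := Real.sinh η with hsh
  set C : ℝ := Real.cosh η with hCdef
  set E : ℝ := Real.exp m with hEdef
  have hXpos : 0 < 3 * m * (η * C - sh) + η ^ 2 * sh := by
    have := edgeD_sinh_lt η hη
    have h1 : 0 < 3 * m * (η * C - sh) := mul_pos (by positivity) (by linarith)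
    positivity
  have hcs : C ^ 2 - sh ^ 2 = 1 := Real.cosh_sq_sub_sinh_sq η
  have hkey : (3 * m * (η * C - sh) + η ^ 2 * sh) * (C + 3 / 20) < η * sh * (η * E - 3 * sh) := by
    have hηE : η * E = η * C + 3 * m * sh := by linarith
    have hid : η * sh * (η * E - 3 * sh) - (3 * m * (η * C - sh) + η ^ 2 * sh) * (C + 3 / 20)
        = 3 * m * (sh * (C + 3 / 20) - η * (1 + 3 / 20 * C))
          - 3 * η * sh ^ 2 - 3 / 20 * η ^ 2 * sh := by
      rw [hηE]
      linear_combination (-3 * m * η) * hcs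
    linarith
  have hGe : η * (E - C - η * sh - 3 * m * C) = -(3 * m * (η * C - sh) + η ^ 2 * sh) := by
    linear_combination h
  have hmain : 0 < η * ((η * E - 3 * sh) * (sh * N1) + (E - C - η * sh - 3 * m * C) * D1) := by
    have h1 : η * ((η * E - 3 * sh) * (sh * N1) + (E - C - η * sh - 3 * m * C) * D1)
        = η * sh * (η * E - 3 * sh) * N1 - (3 * m * (η * C - sh) + η ^ 2 * sh) * D1 := by
      linear_combination D1 * hGe
    rw [h1]
    have h2 : (3 * m * (η * C - sh) + η ^ 2 * sh) * D1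
        ≤ (3 * m * (η * C - sh) + η ^ 2 * sh) * ((C + 3 / 20) * N1) :=
      mul_le_mul_of_nonneg_left hDN hXpos.le
    have h3 : (3 * m * (η * C - sh) + η ^ 2 * sh) * (C + 3 / 20) * N1
        < η * sh * (η * E - 3 * sh) * N1 := mul_lt_mul_of_pos_right hkey hN1pos
    nlinarith
  have hmain2 : 0 < (η * E - 3 * sh) * (sh * N1) + (E - C - η * sh - 3 * m * C) * D1 :=
    (pos_iff_pos_of_mul_pos hmain).1 hη
  have hfin : (η * E - 3 * sh) * (2 * sh * N1 / Δ) + (E - C - η * sh - 3 * m * C) * (2 * D1 / Δ)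
      = 2 * ((η * E - 3 * sh) * (sh * N1) + (E - C - η * sh - 3 * m * C) * D1) / Δ := by
    ring
  rw [hfin]
  exact div_pos (by linarith) hΔ

/-- the function whose sign is the sign of the derivative of the volume -/
noncomputable def EF (l k : ℝ) : ℝ := tau l * (1 + 2 * l - k) - tau k * (1 + 2 * k - l)

theorem edge_deriv (l k : ℝ) (hl : 1 < l) (hlk : l < k) (h : EF l k = 0) :
    0 < ((k - l - 2) / 4) * (-((1 + 2 * l - k) / (l ^ 2 - 1)) + 2 * tau l + tau k)
      + ((k - l + 2) / 4) * ((1 + 2 * k - l) / (k ^ 2 - 1) - tau l - 2 * tau k) := by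
  have hk : 1 < k := lt_trans hl hlk
  have hl1 : 0 < l - 1 := by linarith
  have hk1 : 0 < k - 1 := by linarith
  have hA : 1 < (l + 1) / (l - 1) := by
    rw [one_lt_div hl1]
    linarith
  have hB : 1 < (k + 1) / (k - 1) := by
    rw [one_lt_div hk1]
    linarith
  have hBA : (k + 1) / (k - 1) < (l + 1) / (l - 1) := by
    rw [div_lt_div_iff₀ hk1 hl1]
    nlinarith
  have hak : tau k < tau l := by
    unfold tau
    have := Real.log_lt_log (by linarith) hBA
    linarith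
  have hk0 : 0 < tau k := by
    unfold tau
    have := Real.log_pos hB
    linarith
  set a : ℝ := tau l with ha
  set c : ℝ := tau k with hc
  set p : ℝ := Real.exp a with hp
  set q : ℝ := Real.exp c with hq
  have hp0 : 0 < p := Real.exp_pos _
  have hq0 : 0 < q := Real.exp_pos _
  have hq1 : 1 < q := by
    rw [hq]
    exact Real.one_lt_exp_iff.2 hk0
  have hpq : q < p := Real.exp_lt_exp.2 hak
  have hp2 : p ^ 2 = (l + 1) / (l - 1) := by
    rw [hp, ← Real.exp_nat_mul, ha]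
    unfold tau
    rw [show ((2 : ℕ) : ℝ) * (Real.log ((l + 1) / (l - 1)) / 2) = Real.log ((l + 1) / (l - 1)) by
      push_cast; ring]
    exact Real.exp_log (by linarith)
  have hq2 : q ^ 2 = (k + 1) / (k - 1) := by
    rw [hq, ← Real.exp_nat_mul, hc]
    unfold tau
    rw [show ((2 : ℕ) : ℝ) * (Real.log ((k + 1) / (k - 1)) / 2) = Real.log ((k + 1) / (k - 1)) by
      push_cast; ring]
    exact Real.exp_log (by linarith)
  have hp21 : 0 < p ^ 2 - 1 := by nlinarith
  have hq21 : 0 < q ^ 2 - 1 := by nlinarith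
  have hleq : l = (p ^ 2 + 1) / (p ^ 2 - 1) := by
    rw [eq_div_iff hp21.ne']
    rw [eq_div_iff hl1.ne'] at hp2
    linarith
  have hkeq : k = (q ^ 2 + 1) / (q ^ 2 - 1) := by
    rw [eq_div_iff hq21.ne']
    rw [eq_div_iff hk1.ne'] at hq2
    linarith
  have hem : Real.exp (a + c) = p * q := Real.exp_add a c
  have heη : Real.exp (a - c) = p / q := Real.exp_sub a c
  have hem' : Real.exp (-(a + c)) = 1 / (p * q) := by
    rw [Real.exp_neg, hem, one_div]
  have heη' : Real.exp (-(a - c)) = q / p := by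
    rw [Real.exp_neg, heη, inv_div]
  have hCm : Real.cosh (a + c) = (p * q + 1 / (p * q)) / 2 := by
    rw [Real.cosh_eq, hem, hem']
  have hSm : Real.sinh (a + c) = (p * q - 1 / (p * q)) / 2 := by
    rw [Real.sinh_eq, hem, hem']
  have hC : Real.cosh (a - c) = (p / q + q / p) / 2 := by
    rw [Real.cosh_eq, heη, heη']
  have hS : Real.sinh (a - c) = (p / q - q / p) / 2 := by
    rw [Real.sinh_eq, heη, heη']
  have hΔeq : Real.cosh (a + c) - Real.cosh (a - c)
      = (p ^ 2 - 1) * (q ^ 2 - 1) / (2 * (p * q)) := by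
    rw [hCm, hC]
    field_simp
    ring
  have hΔ : 0 < (p ^ 2 - 1) * (q ^ 2 - 1) / (2 * (p * q)) :=
    div_pos (mul_pos hp21 hq21) (by positivity)
  have hb : k - l = 2 * Real.sinh (a - c) / (Real.cosh (a + c) - Real.cosh (a - c)) := by
    rw [hΔeq, hS, hleq, hkeq]
    field_simp
    ring
  have hEF : a * (1 + 2 * l - k) - c * (1 + 2 * k - l) = 0 := h
  have hG : (a - c) * (Real.exp (a + c) - Real.cosh (a - c)) - 3 * (a + c) * Real.sinh (a - c)
      = (a * (1 + 2 * l - k) - c * (1 + 2 * k - l)) * ((p ^ 2 - 1) * (q ^ 2 - 1) / (2 * (p * q))) := by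
    rw [hem, hC, hS, hleq, hkeq]
    field_simp
    ring
  have hG0 : (a - c) * (Real.exp (a + c) - Real.cosh (a - c)) - 3 * (a + c) * Real.sinh (a - c) = 0 := by
    rw [hG, hEF, zero_mul]
  have hpos := edge_pos (a - c) (a + c) (k - l) (by linarith) (by linarith) hG0 hb
  -- the identity
  have hid : (((k - l - 2) / 4) * (-((1 + 2 * l - k) / (l ^ 2 - 1)) + 2 * a + c)
      + ((k - l + 2) / 4) * ((1 + 2 * k - l) / (k ^ 2 - 1) - a - 2 * c))
        * (4 * ((p ^ 2 - 1) * (q ^ 2 - 1) / (2 * (p * q))))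
      = ((((a - c) * Real.exp (a + c) - 3 * Real.sinh (a - c)) *
        (2 * Real.sinh (a + c) * Real.sinh (a - c) - (k - l) * (Real.cosh (a + c) * Real.cosh (a - c) - 1))
      + (Real.exp (a + c) - Real.cosh (a - c) - (a - c) * Real.sinh (a - c)
          - 3 * (a + c) * Real.cosh (a - c)) *
        (2 * (Real.cosh (a + c) * Real.cosh (a - c) - 1)
          - (k - l) * (Real.sinh (a + c) * Real.sinh (a - c)))))
      - (a * (1 + 2 * l - k) - c * (1 + 2 * k - l)) *
        (Real.sinh (a + c) * (2 * Real.sinh (a + c) * Real.sinh (a - c)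
          - (k - l) * (Real.cosh (a + c) * Real.cosh (a - c) - 1))
        - Real.sinh (a - c) * (2 * (Real.cosh (a + c) * Real.cosh (a - c) - 1)
          - (k - l) * (Real.sinh (a + c) * Real.sinh (a - c)))) := by
    have hl2 : l ^ 2 - 1 = 4 * p ^ 2 / (p ^ 2 - 1) ^ 2 := by
      rw [hleq]
      field_simp
      ring
    have hk2 : k ^ 2 - 1 = 4 * q ^ 2 / (q ^ 2 - 1) ^ 2 := by
      rw [hkeq]
      field_simp
      ring
    rw [hl2, hk2, hem, hC, hS, hCm, hSm, hleq, hkeq]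
    field_simp
    ring
  rw [hEF, zero_mul, sub_zero] at hid
  have h4Δ : 0 < 4 * ((p ^ 2 - 1) * (q ^ 2 - 1) / (2 * (p * q))) := by linarith
  rw [← hid] at hpos
  exact (pos_iff_pos_of_mul_pos hpos).2 h4Δ

end Pool.Agent.MidT
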