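import Pool.Agent.MidT.Crit
import Pool.Agent.MidT.EdgeD

/-!
# MidT module EDGEZ: `(1, 1, l, k)` with `1 < l < k` is never a local maximum

`q = 4(k+l) - (k-l)²`.  Curve in the parameter `b` near `b₀ = k - l`: `c(b) = (1, 1, (s-b)/2, (s+b)/2)`, `s = (q + b²)/4`, in `DD q`;
`v = (0, 0, (b-2)/4, (b+2)/4)`, `nn v = (b/2, b/2, 1, -1)`, `∑ v_i n_i = 0`, `e_0 = e_1 = (1+l)(1+k)`, `e_2 = 2(1+k)`, `e_3 = 2(1+l)`
(`e_c = (4+q+n_c²)/4`, `l = c 2`, `k = c 3`), `N_0 = N_1 = tau l + tau k`, `N_2 = tau k`, `N_3 = tau l` (`T 0 = T 1 = 0`).  `schl_face` with `Z = {0, 1}`: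
`V' = -(√(4+q)/4) [ b (tau l + tau k)/((1+l)(1+k)) + tau k/(2(1+k)) - tau l/(2(1+l)) ] = (√(4+q)/(8(1+l)(1+k))) EF l k`.
At a local maximum `EF l k = 0` (`IsLocalMax.hasDerivAt_eq_zero`), and the derivative of `b ↦ EF (c b 2) (c b 3)` is the expression of `edge_deriv`, `> 0`:
`not_localMax_of_deriv2`, `isLocalMax_of_curve`.
-/

set_option autoImplicit false

namespace Pool.Agent.MidT

open MeasureTheory Set Filter Topology

/-- third coordinate of the curve -/
noncomputable def ezl (q b : ℝ) : ℝ := ((q + b ^ 2) / 4 - b) / 2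

/-- fourth coordinate of the curve -/
noncomputable def ezk (q b : ℝ) : ℝ := ((q + b ^ 2) / 4 + b) / 2

theorem ezl_deriv (q b : ℝ) : HasDerivAt (ezl q) ((b - 2) / 4) b := by
  unfold ezl
  have h := ((((hasDerivAt_pow 2 b).const_add q).div_const 4).sub (hasDerivAt_id b)).div_const 2
  refine h.congr_deriv ?_
  push_cast
  ring

theorem ezk_deriv (q b : ℝ) : HasDerivAt (ezk q) ((b + 2) / 4) b := by
  unfold ezk
  have h := ((((hasDerivAt_pow 2 b).const_add q).div_const 4).add (hasDerivAt_id b)).div_const 2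
  refine h.congr_deriv ?_
  push_cast
  ring

theorem ez_Qk (q b : ℝ) : Qk ![1, 1, ezl q b, ezk q b] = q := by
  unfold Qk ezl ezk
  simp [Fin.sum_univ_four]
  ring

theorem ez_dV (q b l k : ℝ) (hl : 1 < l) (hk : 1 < k) (hq : 0 < 4 + q) (hb : k - l = b)
    (hQ : Qk ![1, 1, l, k] = q) :
    dV (fun i => if i ∈ ({0, 1} : Finset (Fin 4)) then 0 else tau ((![1, 1, l, k] : R4) i))
      ![1, 1, l, k] ![0, 0, (b - 2) / 4, (b + 2) / 4] =
      Real.sqrt (4 + q) / (8 * ((1 + l) * (1 + k))) * EF l k := by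
  have hs : Real.sqrt (4 + q) * Real.sqrt (4 + q) = 4 + q := Real.mul_self_sqrt hq.le
  have hs0 : Real.sqrt (4 + q) ≠ 0 := (Real.sqrt_pos.2 hq).ne'
  have hQ' : q = 4 * (k + l) - (k - l) ^ 2 := by
    rw [← hQ]
    unfold Qk
    simp [Fin.sum_univ_four]
    ring
  have n0 : nn ![1, 1, l, k] 0 = l + k := by
    unfold nn; simp [Fin.sum_univ_four]; ring
  have n1 : nn ![1, 1, l, k] 1 = l + k := by
    unfold nn; simp [Fin.sum_univ_four]; ring
  have n2 : nn ![1, 1, l, k] 2 = 2 + k - l := by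
    unfold nn; simp [Fin.sum_univ_four]; ring
  have n3 : nn ![1, 1, l, k] 3 = 2 + l - k := by
    unfold nn; simp [Fin.sum_univ_four]; ring
  have v0 : nn ![0, 0, (b - 2) / 4, (b + 2) / 4] 0 = b / 2 := by
    unfold nn; simp [Fin.sum_univ_four]; ring
  have v1 : nn ![0, 0, (b - 2) / 4, (b + 2) / 4] 1 = b / 2 := by
    unfold nn; simp [Fin.sum_univ_four]; ring
  have v2 : nn ![0, 0, (b - 2) / 4, (b + 2) / 4] 2 = 1 := by
    unfold nn; simp [Fin.sum_univ_four]; ring
  have v3 : nn ![0, 0, (b - 2) / 4, (b + 2) / 4] 3 = -1 := by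
    unfold nn; simp [Fin.sum_univ_four]; ring
  have hsum : ∑ i, (![0, 0, (b - 2) / 4, (b + 2) / 4] : R4) i * nn ![1, 1, l, k] i = 0 := by
    rw [Fin.sum_univ_four, n0, n1, n2, n3]
    simp
    rw [← hb]
    ring
  have hl1 : 1 + l ≠ 0 := by linarith
  have hk1 : 1 + k ≠ 0 := by linarith
  have d0 : 4 + q + (l + k) ^ 2 = 4 * ((1 + l) * (1 + k)) := by rw [hQ']; ring
  have d2 : 4 + q + (2 + k - l) ^ 2 = 8 * (1 + k) := by rw [hQ']; ring
  have d3 : 4 + q + (2 + l - k) ^ 2 = 8 * (1 + l) := by rw [hQ']; ring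
  have o0 : om ![1, 1, l, k] ![0, 0, (b - 2) / 4, (b + 2) / 4] 0 =
      (4 + q) * (b / 2) / (4 * ((1 + l) * (1 + k))) := by
    unfold om
    rw [hsum, hQ, n0, v0, d0, zero_mul, sub_zero]
  have o1 : om ![1, 1, l, k] ![0, 0, (b - 2) / 4, (b + 2) / 4] 1 =
      (4 + q) * (b / 2) / (4 * ((1 + l) * (1 + k))) := by
    unfold om
    rw [hsum, hQ, n1, v1, d0, zero_mul, sub_zero]
  have o2 : om ![1, 1, l, k] ![0, 0, (b - 2) / 4, (b + 2) / 4] 2 =
      (4 + q) * 1 / (8 * (1 + k)) := by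
    unfold om
    rw [hsum, hQ, n2, v2, d2, zero_mul, sub_zero]
  have o3 : om ![1, 1, l, k] ![0, 0, (b - 2) / 4, (b + 2) / 4] 3 =
      (4 + q) * (-1) / (8 * (1 + l)) := by
    unfold om
    rw [hsum, hQ, n3, v3, d3, zero_mul, sub_zero]
  unfold dV
  rw [hQ]
  simp only [Fin.sum_univ_four]
  rw [o0, o1, o2, o3]
  have t0 : (if (0 : Fin 4) ∈ ({0, 1} : Finset (Fin 4)) then 0 else
      tau ((![1, 1, l, k] : R4) 0)) = 0 := by simp
  have t1 : (if (1 : Fin 4) ∈ ({0, 1} : Finset (Fin 4)) then 0 else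
      tau ((![1, 1, l, k] : R4) 1)) = 0 := by simp
  have t2 : (if (2 : Fin 4) ∈ ({0, 1} : Finset (Fin 4)) then 0 else
      tau ((![1, 1, l, k] : R4) 2)) = tau l := by
    rw [if_neg (by decide)]; rfl
  have t3 : (if (3 : Fin 4) ∈ ({0, 1} : Finset (Fin 4)) then 0 else
      tau ((![1, 1, l, k] : R4) 3)) = tau k := by
    rw [if_neg (by decide)]; rfl
  rw [t0, t1, t2, t3]
  unfold EF
  rw [← hb]
  generalize Real.sqrt (4 + q) = S at *
  rw [← hs]
  field_simp
  ring

theorem edge_not_max (l k : ℝ) (hl : 1 < l) (hlk : l < k) (q : ℝ) (hq : 0 < q)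
    (hQ : Qk ![1, 1, l, k] = q) : ¬ IsLocalMaxOn VV (DD q) ![1, 1, l, k] := by
  intro hmax
  have hQ' : q = 4 * (k + l) - (k - l) ^ 2 := by
    rw [← hQ]
    unfold Qk
    simp [Fin.sum_univ_four]
    ring
  have hl0 : ezl q (k - l) = l := by
    unfold ezl; rw [hQ']; ring
  have hk0 : ezk q (k - l) = k := by
    unfold ezk; rw [hQ']; ring
  have hev : ∀ᶠ b in 𝓝 (k - l), 1 < ezl q b ∧ 1 < ezk q b := by
    have h1 : ∀ᶠ b in 𝓝 (k - l), 1 < ezl q b := by
      refine (ezl_deriv q (k - l)).continuousAt.eventually (lt_mem_nhds ?_)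
      rw [hl0]; exact hl
    have h2 : ∀ᶠ b in 𝓝 (k - l), 1 < ezk q b := by
      refine (ezk_deriv q (k - l)).continuousAt.eventually (lt_mem_nhds ?_)
      rw [hk0]; linarith
    exact h1.and h2
  obtain ⟨ε, hε, hall⟩ := Metric.eventually_nhds_iff.1 hev
  have hin : ∀ b ∈ Ioo (k - l - ε) (k - l + ε), 1 < ezl q b ∧ 1 < ezk q b := by
    intro b hb
    refine hall ?_
    rw [Real.dist_eq, abs_lt]
    constructor <;> linarith [hb.1, hb.2]
  set c : ℝ → R4 := fun b => ![1, 1, ezl q b, ezk q b] with hc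
  have hcd : ∀ b, HasDerivAt c ![0, 0, (b - 2) / 4, (b + 2) / 4] b := by
    intro b
    rw [hasDerivAt_pi]
    intro i
    fin_cases i
    · exact hasDerivAt_const _ _
    · exact hasDerivAt_const _ _
    · exact ezl_deriv q b
    · exact ezk_deriv q b
  have hder : ∀ b ∈ Ioo (k - l - ε) (k - l + ε), HasDerivAt (fun s => VV (c s))
      (Real.sqrt (4 + q) / (8 * ((1 + ezl q b) * (1 + ezk q b))) * EF (ezl q b) (ezk q b)) b := by
    intro b hb
    have h := schl_face c (fun b => ![0, 0, (b - 2) / 4, (b + 2) / 4]) (k - l - ε) (k - l + ε)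
      {0, 1} (fun t _ => hcd t) ?_ ?_ ?_ ?_ b hb
    · rw [ez_dV q b (ezl q b) (ezk q b) (hin b hb).1 (hin b hb).2 (by linarith) (by
        unfold ezl ezk; ring) (ez_Qk q b)] at h
      exact h
    · refine (continuous_pi fun i => ?_).continuousOn
      fin_cases i
      · exact continuous_const
      · exact continuous_const
      · exact (continuous_id.sub continuous_const).div_const _
      · exact (continuous_id.add continuous_const).div_const _
    · intro t _ i hi
      fin_cases i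
      · rfl
      · rfl
      · exact absurd hi (by decide)
      · exact absurd hi (by decide)
    · intro t ht i hi
      fin_cases i
      · exact absurd (by decide) hi
      · exact absurd (by decide) hi
      · exact (hin t ht).1
      · exact (hin t ht).2
    · intro t _
      show 0 < 4 + Qk ![1, 1, ezl q t, ezk q t]
      rw [ez_Qk]
      linarith
  have hmem : k - l ∈ Ioo (k - l - ε) (k - l + ε) := ⟨by linarith, by linarith⟩
  have hnh : Ioo (k - l - ε) (k - l + ε) ∈ 𝓝 (k - l) := Ioo_mem_nhds hmem.1 hmem.2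
  have hc0 : c (k - l) = ![1, 1, l, k] := by
    show ![1, 1, ezl q (k - l), ezk q (k - l)] = ![1, 1, l, k]
    rw [hl0, hk0]
  have hloc : IsLocalMax (fun s => VV (c s)) (k - l) := by
    refine isLocalMax_of_curve q _ hmax c (k - l) (hcd _).continuousAt hc0 ?_
    filter_upwards [hnh] with s hs
    refine ⟨fun i => ?_, ez_Qk q s⟩
    fin_cases i
    · exact le_rfl
    · exact le_rfl
    · exact (hin s hs).1.le
    · exact (hin s hs).2.le
  have hpos : ∀ b ∈ Ioo (k - l - ε) (k - l + ε),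
      0 < Real.sqrt (4 + q) / (8 * ((1 + ezl q b) * (1 + ezk q b))) := by
    intro b hb
    have h1 := (hin b hb).1
    have h2 := (hin b hb).2
    have h3 : 0 < 1 + ezl q b := by linarith
    have h4 : 0 < 1 + ezk q b := by linarith
    have h5 : 0 < Real.sqrt (4 + q) := Real.sqrt_pos.2 (by linarith)
    positivity
  have hE0 : EF l k = 0 := by
    have h1 := hloc.hasDerivAt_eq_zero (hder _ hmem)
    have h2 := (mul_eq_zero.1 h1).resolve_left (hpos _ hmem).ne'
    rwa [hl0, hk0] at h2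
  have hR : HasDerivAt (fun b => EF (ezl q b) (ezk q b))
      (((k - l - 2) / 4) * (-((1 + 2 * l - k) / (l ^ 2 - 1)) + 2 * tau l + tau k)
      + ((k - l + 2) / 4) * ((1 + 2 * k - l) / (k ^ 2 - 1) - tau l - 2 * tau k)) (k - l) := by
    have e1 := ezl_deriv q (k - l)
    have e2 := ezk_deriv q (k - l)
    have t1 : HasDerivAt tau (-(1 / (l ^ 2 - 1))) (ezl q (k - l)) := by
      rw [hl0]; exact tau_hasDerivAt l hl
    have t2 : HasDerivAt tau (-(1 / (k ^ 2 - 1))) (ezk q (k - l)) := by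
      rw [hk0]; exact tau_hasDerivAt k (by linarith)
    have u1 := HasDerivAt.comp (k - l) t1 e1
    have u2 := HasDerivAt.comp (k - l) t2 e2
    have w1 := ((e1.const_mul 2).const_add 1).sub e2
    have w2 := ((e2.const_mul 2).const_add 1).sub e1
    have h := (u1.mul w1).sub (u2.mul w2)
    unfold EF
    refine h.congr_deriv ?_
    simp only [Function.comp, Pi.sub_apply, hl0, hk0]
    ring
  refine not_localMax_of_deriv2 (fun s => VV (c s)) (fun b => EF (ezl q b) (ezk q b))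
    (fun b => Real.sqrt (4 + q) / (8 * ((1 + ezl q b) * (1 + ezk q b)))) _ (k - l) ?_ ?_ ?_ hR
    (edge_deriv l k hl hlk hE0) hloc
  · filter_upwards [hnh] with s hs
    exact hder s hs
  · filter_upwards [hnh] with s hs
    exact hpos s hs
  · show EF (ezl q (k - l)) (ezk q (k - l)) = 0
    rw [hl0, hk0]
    exact hE0

end Pool.Agent.MidT
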