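import Pool.Agent.MidT.CritF

/-!
# MidT module FACEB: `(1, k, k, l)` with `1 < k < l` is never a local maximum

`q = Qk ![1,k,k,l] = 4k(1+l) - (l-1)² > 0`.  `crit_face_pair` (`c = 1`, `d = 3`), `e_0 = 1 + k² + 2kl`:
(*) `(tau k - tau l) e_0 = (2 tau k + tau l)(1+k)(l-k)`.
Curve `c(a) = (1, (u+a)/2, (u-a)/2, l)`, `w = 1 + l`, `u = (a² + c₀)/(2w)`, `c₀ = q - w² + 2(1+l²)` (`u(0) = 2k`), in `DD q`; `u' = a/w`,
`v = (0, (u'+1)/2, (u'-1)/2, 0)`, `nn v = (u', -1, 1, u')`, `∑ v_i n_i = 0`.  `schl_face`, `Z = {0}`, `T_0 = 0`.  With `k₁ = (u+a)/2`, `k₂ = (u-a)/2`: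
`e_1 = (1+k₂)(1+l)`, `e_2 = (1+k₁)(1+l)`, `e_3 = (1+k₁)(1+k₂)`, `e_0 = 1 + k₁k₂ + (k₁+k₂) l` (`e_c = (4+q+n_c²)/4`), `N_1 = tau k₂ + tau l`,
`N_2 = tau k₁ + tau l`, `N_3 = tau k₁ + tau k₂`, `N_0 = tau k₁ + tau k₂ + tau l`;
`V' = -(√(4+q)/4) [ (1/(1+l)) (ψ k₁ - ψ k₂) + (a/w)(N_0/e_0 + N_3/e_3) ]`, `ψ x = (tau x + tau l)/(1+x)`.
The bracket vanishes at `a = 0`; its derivative there is
`(1/(1+l)) [ -1/((k²-1)(1+k)) - (tau k + tau l)/(1+k)² + (2 tau k + tau l)/e_0 + 2 tau k/(1+k)² ]`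
` = (1/(1+l)) [ -1/((k²-1)(1+k)) + (tau k - tau l)/(1+k)² + (tau k - tau l)/((1+k)(l-k)) ]` by (*)
` = -(1/((1+l)(1+k))) [ 1/(k²-1) - (tau k - tau l)(l+1)/((1+k)(l-k)) ] < 0`, since with `y = (l-k)/((k-1)(l+1)) > 0`:
`tau k - tau l = (1/2) log (1 + 2y) < y` (`Real.log_lt_sub_one_of_pos`).  Conclude with `not_localMax_of_deriv2`, `isLocalMax_of_curve`.
-/

set_option autoImplicit false

namespace Pool.Agent.MidT

open MeasureTheory Set Filter Topology

namespace FaceB

theorem tau_sub_lt (k l : ℝ) (hk : 1 < k) (hkl : k < l) :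
    tau k - tau l < (l - k) / ((k - 1) * (l + 1)) := by
  unfold tau
  have h1 : 0 < k - 1 := by linarith
  have h2 : 0 < l - 1 := by linarith
  have h3 : 0 < k + 1 := by linarith
  have h4 : 0 < l + 1 := by linarith
  have h5 : 0 < (l - k) / ((k - 1) * (l + 1)) := div_pos (by linarith) (by positivity)
  have e1 : Real.log ((k + 1) / (k - 1)) - Real.log ((l + 1) / (l - 1)) =
      Real.log (1 + 2 * ((l - k) / ((k - 1) * (l + 1)))) := by
    rw [← Real.log_div (by positivity) (by positivity)]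
    congr 1
    field_simp
    ring
  have e2 : Real.log (1 + 2 * ((l - k) / ((k - 1) * (l + 1)))) <
      1 + 2 * ((l - k) / ((k - 1) * (l + 1))) - 1 :=
    Real.log_lt_sub_one_of_pos (by linarith) (by linarith)
  linarith

/-- the two moving coordinates -/
noncomputable def k1 (k l a : ℝ) : ℝ := k + a / 2 + a ^ 2 / (4 * (1 + l))

noncomputable def k2 (k l a : ℝ) : ℝ := k - a / 2 + a ^ 2 / (4 * (1 + l))

/-- the curve -/
noncomputable def cu (k l a : ℝ) : R4 := ![1, k1 k l a, k2 k l a, l]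

/-- the velocity -/
noncomputable def ve (l a : ℝ) : R4 := ![0, 1 / 2 + a / (2 * (1 + l)), -(1 / 2) + a / (2 * (1 + l)), 0]

theorem k1_deriv (k l a : ℝ) (hl : 1 < l) :
    HasDerivAt (k1 k l) (1 / 2 + a / (2 * (1 + l))) a := by
  unfold k1
  have h1 : HasDerivAt (fun a : ℝ => k + a / 2 + a ^ 2 / (4 * (1 + l)))
      (0 + 1 / 2 + ((2 : ℕ) * a ^ (2 - 1) * 1) / (4 * (1 + l))) a :=
    ((hasDerivAt_const a k).add ((hasDerivAt_id a).div_const 2)).add
      (((hasDerivAt_id a).pow 2).div_const _)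
  convert h1 using 1
  have : 1 + l ≠ 0 := by intro h; linarith
  field_simp
  norm_num
  ring

theorem k2_deriv (k l a : ℝ) (hl : 1 < l) :
    HasDerivAt (k2 k l) (-(1 / 2) + a / (2 * (1 + l))) a := by
  unfold k2
  have h1 : HasDerivAt (fun a : ℝ => k - a / 2 + a ^ 2 / (4 * (1 + l)))
      (0 - 1 / 2 + ((2 : ℕ) * a ^ (2 - 1) * 1) / (4 * (1 + l))) a :=
    ((hasDerivAt_const a k).sub ((hasDerivAt_id a).div_const 2)).add
      (((hasDerivAt_id a).pow 2).div_const _)
  convert h1 using 1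
  have : 1 + l ≠ 0 := by intro h; linarith
  field_simp
  norm_num
  ring

theorem cu_deriv (k l a : ℝ) (hl : 1 < l) : HasDerivAt (cu k l) (ve l a) a := by
  rw [hasDerivAt_pi]
  intro i
  fin_cases i
  · exact hasDerivAt_const a 1
  · exact k1_deriv k l a hl
  · exact k2_deriv k l a hl
  · exact hasDerivAt_const a l

theorem Qk_cu (k l a : ℝ) (hl : 1 < l) : Qk (cu k l a) = Qk ![1, k, k, l] := by
  simp only [Qk, cu, k1, k2, Fin.sum_univ_four, Matrix.cons_val_zero, Matrix.cons_val_one,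
    Matrix.cons_val]
  have : 1 + l ≠ 0 := by intro h; linarith
  field_simp
  ring

theorem cu_zero (k l : ℝ) : cu k l 0 = ![1, k, k, l] := by
  simp [cu, k1, k2]

/-- the bracket -/
noncomputable def RR (k l a : ℝ) : ℝ :=
  -(((tau (k1 k l a) + tau l) / (1 + k1 k l a) - (tau (k2 k l a) + tau l) / (1 + k2 k l a)) /
    (1 + l)) - a / (1 + l) *
    ((tau (k1 k l a) + tau (k2 k l a) + tau l) /
      (1 + k1 k l a * k2 k l a + (k1 k l a + k2 k l a) * l) +
      (tau (k1 k l a) + tau (k2 k l a)) / ((1 + k1 k l a) * (1 + k2 k l a)))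

theorem dV_eq (k l a q : ℝ) (hk : 1 < k) (hl : 1 < l) (hq : 0 < q) (hQ : Qk ![1, k, k, l] = q)
    (h1 : 1 < k1 k l a) (h2 : 1 < k2 k l a) :
    dV (fun i => if i ∈ ({0} : Finset (Fin 4)) then 0 else tau (cu k l a i)) (cu k l a) (ve l a) =
      (Real.sqrt (4 + q) / 4) * RR k l a := by
  have hQa : Qk (cu k l a) = q := (Qk_cu k l a hl).trans hQ
  have hwne : 1 + l ≠ 0 := by intro h; linarith
  have hQ' : q = 4 * k * (1 + l) - (l - 1) ^ 2 := by
    rw [← hQ]
    simp only [Qk, Fin.sum_univ_four, Matrix.cons_val_zero, Matrix.cons_val_one, Matrix.cons_val]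
    ring
  have hvn : (∑ i, ve l a i * nn (cu k l a) i) = 0 := by
    simp only [nn, ve, cu, k1, k2, Fin.sum_univ_four, Matrix.cons_val_zero, Matrix.cons_val_one,
      Matrix.cons_val]
    field_simp
    ring
  have hs : 0 < 4 + q := by linarith
  have n0 : nn (ve l a) 0 = a / (1 + l) := by
    simp only [nn, ve, Fin.sum_univ_four, Matrix.cons_val_zero, Matrix.cons_val_one,
      Matrix.cons_val]
    field_simp
    ring
  have n1 : nn (ve l a) 1 = -1 := by
    simp only [nn, ve, Fin.sum_univ_four, Matrix.cons_val_zero, Matrix.cons_val_one,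
      Matrix.cons_val]
    field_simp
    ring
  have n2 : nn (ve l a) 2 = 1 := by
    simp only [nn, ve, Fin.sum_univ_four, Matrix.cons_val_zero, Matrix.cons_val_one,
      Matrix.cons_val]
    field_simp
    ring
  have n3 : nn (ve l a) 3 = a / (1 + l) := by
    simp only [nn, ve, Fin.sum_univ_four, Matrix.cons_val_zero, Matrix.cons_val_one,
      Matrix.cons_val]
    field_simp
    ring
  have hE : ∀ c, 4 + q + nn (cu k l a) c ^ 2 = 4 * (1 + ((∑ i, cu k l a i) - cu k l a c) ^ 2 / 2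
      - ((∑ i, cu k l a i ^ 2) - cu k l a c ^ 2) / 2) := by
    intro c
    rw [← four_add, hQa]
  set x := k1 k l a with hx
  set y := k2 k l a with hy
  have e0 : 4 + q + nn (cu k l a) 0 ^ 2 = 4 * (1 + x * y + (x + y) * l) := by
    rw [hE]
    simp only [cu, Fin.sum_univ_four, Matrix.cons_val_zero, Matrix.cons_val_one, Matrix.cons_val]
    ring
  have e1 : 4 + q + nn (cu k l a) 1 ^ 2 = 4 * ((1 + y) * (1 + l)) := by
    rw [hE]
    simp only [cu, Fin.sum_univ_four, Matrix.cons_val_zero, Matrix.cons_val_one, Matrix.cons_val]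
    ring
  have e2 : 4 + q + nn (cu k l a) 2 ^ 2 = 4 * ((1 + x) * (1 + l)) := by
    rw [hE]
    simp only [cu, Fin.sum_univ_four, Matrix.cons_val_zero, Matrix.cons_val_one, Matrix.cons_val]
    ring
  have e3 : 4 + q + nn (cu k l a) 3 ^ 2 = 4 * ((1 + x) * (1 + y)) := by
    rw [hE]
    simp only [cu, Fin.sum_univ_four, Matrix.cons_val_zero, Matrix.cons_val_one, Matrix.cons_val]
    ring
  have hsq : Real.sqrt (4 + q) * Real.sqrt (4 + q) = 4 + q := Real.mul_self_sqrt hs.le
  have hsp : 0 < Real.sqrt (4 + q) := Real.sqrt_pos.2 hs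
  have hxy : 0 < 1 + x * y + (x + y) * l := by
    have : 0 < x * y := mul_pos (by linarith) (by linarith)
    have : 0 < (x + y) * l := mul_pos (by linarith) (by linarith)
    linarith
  have hx1 : 0 < 1 + x := by linarith
  have hy1 : 0 < 1 + y := by linarith
  have hl1 : 0 < 1 + l := by linarith
  have hT : ∀ i, (fun i => if i ∈ ({0} : Finset (Fin 4)) then (0 : ℝ) else tau (cu k l a i)) i =
      (![0, tau x, tau y, tau l] : R4) i := by
    intro i
    fin_cases i <;> simp [cu, hx, hy]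
  have hT' : (fun i => if i ∈ ({0} : Finset (Fin 4)) then (0 : ℝ) else tau (cu k l a i)) =
      (![0, tau x, tau y, tau l] : R4) := funext hT
  rw [hT']
  unfold dV om
  rw [hvn, hQa]
  simp only [Fin.sum_univ_four, n0, n1, n2, n3, e0, e1, e2, e3, Matrix.cons_val_zero,
    Matrix.cons_val_one, Matrix.cons_val]
  unfold RR
  rw [← hx, ← hy]
  have hinv : 1 / Real.sqrt (4 + q) = Real.sqrt (4 + q) / (4 + q) := by
    rw [div_eq_div_iff hsp.ne' hs.ne']
    linarith
  rw [hinv]
  field_simp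
  ring

theorem RR_deriv (k l : ℝ) (hk : 1 < k) (hl : 1 < l) :
    HasDerivAt (RR k l) (-((-(1 / (k ^ 2 - 1)) / (1 + k) - (tau k + tau l) / (1 + k) ^ 2) /
      (1 + l)) - 1 / (1 + l) * ((2 * tau k + tau l) / (1 + k ^ 2 + 2 * k * l) +
        2 * tau k / (1 + k) ^ 2)) 0 := by
  have hk10 : k1 k l 0 = k := by simp [k1]
  have hk20 : k2 k l 0 = k := by simp [k2]
  have hl1 : 1 + l ≠ 0 := by intro h; linarith
  have hkk : 1 + k ≠ 0 := by intro h; linarith
  have d1 : HasDerivAt (k1 k l) (1 / 2) 0 := by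
    have := k1_deriv k l 0 hl
    simpa using this
  have d2 : HasDerivAt (k2 k l) (-(1 / 2)) 0 := by
    have := k2_deriv k l 0 hl
    simpa using this
  have t1 : HasDerivAt (fun a => tau (k1 k l a)) (-(1 / (k ^ 2 - 1)) * (1 / 2)) 0 := by
    have h : HasDerivAt tau (-(1 / (k ^ 2 - 1))) (k1 k l 0) := by
      rw [hk10]; exact tau_hasDerivAt k hk
    exact h.comp 0 d1
  have t2 : HasDerivAt (fun a => tau (k2 k l a)) (-(1 / (k ^ 2 - 1)) * (-(1 / 2))) 0 := by
    have h : HasDerivAt tau (-(1 / (k ^ 2 - 1))) (k2 k l 0) := by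
      rw [hk20]; exact tau_hasDerivAt k hk
    exact h.comp 0 d2
  have p1 : HasDerivAt (fun a => (tau (k1 k l a) + tau l) / (1 + k1 k l a))
      ((-(1 / (k ^ 2 - 1)) * (1 / 2) * (1 + k) - (tau k + tau l) * (1 / 2)) / (1 + k) ^ 2) 0 := by
    have := (t1.add_const (tau l)).div (d1.const_add 1) (by rw [hk10]; exact hkk)
    rw [hk10] at this
    exact this
  have p2 : HasDerivAt (fun a => (tau (k2 k l a) + tau l) / (1 + k2 k l a))
      ((-(1 / (k ^ 2 - 1)) * (-(1 / 2)) * (1 + k) - (tau k + tau l) * (-(1 / 2))) /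
        (1 + k) ^ 2) 0 := by
    have := (t2.add_const (tau l)).div (d2.const_add 1) (by rw [hk20]; exact hkk)
    rw [hk20] at this
    exact this
  have g : DifferentiableAt ℝ (fun a => (tau (k1 k l a) + tau (k2 k l a) + tau l) /
      (1 + k1 k l a * k2 k l a + (k1 k l a + k2 k l a) * l) +
      (tau (k1 k l a) + tau (k2 k l a)) / ((1 + k1 k l a) * (1 + k2 k l a))) 0 := by
    have D1 := d1.differentiableAt
    have D2 := d2.differentiableAt
    have T1 := t1.differentiableAt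
    have T2 := t2.differentiableAt
    have hpos : 0 < 1 + k * k + (k + k) * l := by positivity
    refine ((T1.add T2).add_const _).div (((D1.mul D2).const_add 1).add ((D1.add D2).mul_const l))
      ?_ |>.add ?_
    · show 1 + k1 k l 0 * k2 k l 0 + (k1 k l 0 + k2 k l 0) * l ≠ 0
      rw [hk10, hk20]
      exact hpos.ne'
    · refine (T1.add T2).div ((D1.const_add 1).mul (D2.const_add 1)) ?_
      show (1 + k1 k l 0) * (1 + k2 k l 0) ≠ 0
      rw [hk10, hk20]
      positivity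
  have g' := ((hasDerivAt_id (0 : ℝ)).div_const (1 + l)).mul g.hasDerivAt
  have hR := ((p1.sub p2).div_const (1 + l)).neg.sub g'
  have hfin := hR.congr_deriv (g' := -((-(1 / (k ^ 2 - 1)) / (1 + k) - (tau k + tau l) / (1 + k) ^ 2) /
      (1 + l)) - 1 / (1 + l) * ((2 * tau k + tau l) / (1 + k ^ 2 + 2 * k * l) +
        2 * tau k / (1 + k) ^ 2)) (by
    simp only [hk10, hk20, id, zero_div, zero_mul, add_zero]
    have hk2 : k ^ 2 - 1 ≠ 0 := by
      have : 0 < k ^ 2 - 1 := by nlinarith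
      exact this.ne'
    have e : 1 + k * k + (k + k) * l = 1 + k ^ 2 + 2 * k * l := by ring
    rw [e]
    have hpos : 1 + k ^ 2 + 2 * k * l ≠ 0 := by positivity
    field_simp
    ring)
  exact hfin

theorem deriv_pos (k l : ℝ) (hk : 1 < k) (hkl : k < l)
    (hc : (tau k - tau l) * (1 + k ^ 2 + 2 * k * l) = (2 * tau k + tau l) * (1 + k) * (l - k)) :
    0 < -((-(1 / (k ^ 2 - 1)) / (1 + k) - (tau k + tau l) / (1 + k) ^ 2) /
      (1 + l)) - 1 / (1 + l) * ((2 * tau k + tau l) / (1 + k ^ 2 + 2 * k * l) +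
        2 * tau k / (1 + k) ^ 2) := by
  have hlt := tau_sub_lt k l hk hkl
  have h1 : 0 < k - 1 := by linarith
  have h2 : 0 < l - k := by linarith
  have h3 : 0 < k + 1 := by linarith
  have h4 : 0 < l + 1 := by linarith
  have hk2 : 0 < k ^ 2 - 1 := by nlinarith
  have hpos : 0 < 1 + k ^ 2 + 2 * k * l := by
    have : 0 < k * l := mul_pos (by linarith) (by linarith)
    nlinarith
  have e1 : (2 * tau k + tau l) / (1 + k ^ 2 + 2 * k * l) =
      (tau k - tau l) / ((1 + k) * (l - k)) := by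
    rw [div_eq_div_iff hpos.ne' (by positivity)]
    linear_combination -hc
  rw [e1]
  have e2 : -((-(1 / (k ^ 2 - 1)) / (1 + k) - (tau k + tau l) / (1 + k) ^ 2) /
      (1 + l)) - 1 / (1 + l) * ((tau k - tau l) / ((1 + k) * (l - k)) +
        2 * tau k / (1 + k) ^ 2) =
      1 / ((1 + k) ^ 2 * (l - k)) * ((l - k) / ((k - 1) * (l + 1)) - (tau k - tau l)) := by
    have e3 : k ^ 2 - 1 = (k - 1) * (k + 1) := by ring
    have e4 : l + 1 = 1 + l := by ring
    have h5 : 1 + l ≠ 0 := by rw [← e4]; exact h4.ne'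
    rw [e3, e4]
    field_simp
    ring
  rw [e2]
  have : 0 < (l - k) / ((k - 1) * (l + 1)) - (tau k - tau l) := by linarith
  positivity

end FaceB

theorem faceB_not_max (k l : ℝ) (hk : 1 < k) (hkl : k < l) (q : ℝ) (hq : 0 < q)
    (hQ : Qk ![1, k, k, l] = q) : ¬ IsLocalMaxOn VV (DD q) ![1, k, k, l] := by
  intro hmax
  have hl : 1 < l := hk.trans hkl
  have hcrit := crit_face_pair q hq ![1, k, k, l] rfl (by
    intro i hi
    fin_cases i
    · exact absurd rfl hi
    · exact hk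
    · exact hk
    · exact hl) hQ hmax 1 3 (by decide) (by decide)
  have hcrit' : (tau k - tau l) * (1 + k ^ 2 + 2 * k * l) =
      (2 * tau k + tau l) * (1 + k) * (l - k) := by
    simp only [Matrix.cons_val_one, Matrix.cons_val_zero, Matrix.cons_val] at hcrit
    have h1 : (1 + k) * (1 + l) ≠ 0 := by positivity
    apply mul_left_cancel₀ h1
    linear_combination hcrit
  have hk1c : ContinuousAt (FaceB.k1 k l) 0 := (FaceB.k1_deriv k l 0 hl).continuousAt
  have hk2c : ContinuousAt (FaceB.k2 k l) 0 := (FaceB.k2_deriv k l 0 hl).continuousAt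
  have hk10 : FaceB.k1 k l 0 = k := by simp [FaceB.k1]
  have hk20 : FaceB.k2 k l 0 = k := by simp [FaceB.k2]
  have ev1 : ∀ᶠ s in 𝓝 (0 : ℝ), 1 < FaceB.k1 k l s :=
    hk1c.eventually (lt_mem_nhds (by rw [hk10]; exact hk))
  have ev2 : ∀ᶠ s in 𝓝 (0 : ℝ), 1 < FaceB.k2 k l s :=
    hk2c.eventually (lt_mem_nhds (by rw [hk20]; exact hk))
  obtain ⟨ε, hε, hall⟩ := Metric.eventually_nhds_iff.1 (ev1.and ev2)
  have hall' : ∀ s ∈ Ioo (-ε) ε, 1 < FaceB.k1 k l s ∧ 1 < FaceB.k2 k l s := by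
    intro s hs
    apply hall
    rw [Real.dist_eq, sub_zero]
    exact abs_lt.2 hs
  have hder : ∀ s ∈ Ioo (-ε) ε, HasDerivAt (fun s => VV (FaceB.cu k l s))
      ((Real.sqrt (4 + q) / 4) * FaceB.RR k l s) s := by
    intro s hs
    have h := schl_face (FaceB.cu k l) (FaceB.ve l) (-ε) ε {0}
      (fun t _ => FaceB.cu_deriv k l t hl)
      (by
        refine Continuous.continuousOn (continuous_pi fun i => ?_)
        fin_cases i
        · exact continuous_const
        · show Continuous (fun a : ℝ => 1 / 2 + a / (2 * (1 + l)))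
          fun_prop
        · show Continuous (fun a : ℝ => -(1 / 2) + a / (2 * (1 + l)))
          fun_prop
        · exact continuous_const)
      (by
        intro t _ i hi
        rw [Finset.mem_singleton] at hi
        rw [hi]
        rfl)
      (by
        intro t ht i hi
        rw [Finset.mem_singleton] at hi
        fin_cases i
        · exact absurd rfl hi
        · exact (hall' t ht).1
        · exact (hall' t ht).2
        · exact hl)
      (by
        intro t _
        rw [FaceB.Qk_cu k l t hl, hQ]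
        linarith) s hs
    rw [FaceB.dV_eq k l s q hk hl hq hQ (hall' s hs).1 (hall' s hs).2] at h
    exact h
  have hnhds : Ioo (-ε) ε ∈ 𝓝 (0 : ℝ) := Ioo_mem_nhds (by linarith) hε
  refine not_localMax_of_deriv2 (fun s => VV (FaceB.cu k l s)) (FaceB.RR k l)
    (fun _ => Real.sqrt (4 + q) / 4) _ 0
    (Filter.mem_of_superset hnhds hder) (Eventually.of_forall fun _ => ?_) ?_
    (FaceB.RR_deriv k l hk hl) (FaceB.deriv_pos k l hk hkl hcrit') ?_
  · have : 0 < Real.sqrt (4 + q) := Real.sqrt_pos.2 (by linarith)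
    positivity
  · simp [FaceB.RR, hk10, hk20]
  · refine isLocalMax_of_curve q _ hmax (FaceB.cu k l) 0
      (FaceB.cu_deriv k l 0 hl).continuousAt (FaceB.cu_zero k l) ?_
    refine Filter.mem_of_superset hnhds ?_
    intro s hs
    refine ⟨?_, (FaceB.Qk_cu k l s hl).trans hQ⟩
    intro i
    fin_cases i
    · exact le_refl (1 : ℝ)
    · exact (hall' s hs).1.le
    · exact (hall' s hs).2.le
    · exact hl.le

end Pool.Agent.MidT
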