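import Pool.Agent.MidT.Defs

/-!
# MidT module FACEI: the inequality for `(1, k, k, l)`, `1 < l < k`

`FC k l = tau k (3k²+2k+1-2l) - tau l (1+3kl-k+l)` (`= (tau k - tau l)(1+k²+2kl) + (2 tau k + tau l)(1+k)(k-l)`).
Claim: if `1 < l < k` and `FC k l = 0`, then `F' := F_l + k' F_k > 0` for `k' = -(2k+1-l)/(2(1+l))`,
`F_k = -(3k²+2k+1-2l)/(k²-1) + tau k (6k+2) - tau l (3l-1)`, `F_l = -2 tau k + (1+3kl-k+l)/(l²-1) - tau l (3k+1)`.

PROOF.  `x = (k-1)/(k+1) = e^{-2 tau k}`, `y = (l-1)/(l+1) = e^{-2 tau l}`, `0 < y < x < 1`, `w = x/y > 1`, `W = 1/(x²y) > w`,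
`g(t) = 1/log t - 1/(t-1)`, strictly decreasing on `(1,∞)` (`g' = -1/(t log² t) + 1/(t-1)² < 0` as `log t < √t - 1/√t`).
(a) `D := log [ (k-l)(k+1)(2 tau k + tau l)/((tau l - tau k)(1+k²+2kl)) ]` (sign `D` = sign `FC`) equals
`log L(x,y) - log L(1, x²y)`, `L(x,y) = (x-y)/(log x - log y)`, because `x - y = 2(k-l)/((k+1)(l+1))`, `1 - x²y = 2(1+k²+2kl)/((k+1)²(l+1))`,
`log x - log y = 2(tau l - tau k)`, `-log (x²y) = 2(2 tau k + tau l)`.
(b) For `w` fixed put `H(s) = -s + log L(1, 1/w) - log L(1, e^{-3s}/w)`, `s ≥ 0`; `H(0) = 0`, `H(-log x) = D = 0`,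
`H'(s) = -1 + 3 g(w e^{3s})`, strictly decreasing.  Rolle on `[0, -log x]`: `H'(0) > 0 > H'(-log x)`, i.e. `g(w) > 1/3 > g(W)`.
(c) The derivative of `D` in the direction `(k', 1)`: `D_ξ = 1 - g(w) - 2 g(W)`, `D_η = g(w) - g(W)` (`ξ = log x`, `η = log y`),
`ξ' = 2k'/(k²-1)`, `η' = 2/(l²-1)`, so `D' = (2/(l²-1)) (1/M) [M D_η - D_ξ]`, `M = 2(k²-1)/((l-1)(2k+1-l))`.
`M/w = 2(k+1)²/((l+1)(2k+1-l)) ≥ 2` (AM-GM: `(l+1) + (2k+1-l) = 2(k+1)`).  As `D_η > 0`:
`M D_η - D_ξ ≥ 2w (g(w) - g(W)) - 1 + g(w) + 2 g(W) = (2w+1) g(w) - 1 - (2w-2) g(W) > (2w+1)/3 - 1 - (2w-2)/3 = 0`.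
(d) At `FC = 0`: `F' = (positive) * D'`:  `FC = A - B` with `A = (k-l)(k+1)(2 tau k + tau l)`, `B = (tau l - tau k)(1+k²+2kl)`, `D = log (A/B)`, `A = B > 0`,
`D' = (A' - B')/A = F'/A`.
(In Lean: it may be easier to do everything along a curve: `k(s)`, `l(s)` with these velocities, or to verify (c) as an algebraic identity:
`F'/A = (2/(l²-1)) D_η + (2k'/(k²-1)) D_ξ` modulo `FC = 0`, with `log w = 2(tau l - tau k)`, `log W = 2(2 tau k + tau l)`.)
-/

set_option autoImplicit false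

namespace Pool.Agent.MidT

open Set Filter Topology

/-- the function whose sign is the sign of the derivative of the volume -/
noncomputable def FC (k l : ℝ) : ℝ :=
  tau k * (3 * k ^ 2 + 2 * k + 1 - 2 * l) - tau l * (1 + 3 * k * l - k + l)

theorem FC_eq (k l : ℝ) : FC k l = (tau k - tau l) * (1 + k ^ 2 + 2 * k * l)
    + (2 * tau k + tau l) * (1 + k) * (k - l) := by
  unfold FC
  ring

namespace FaceIAux

/-- `1/u - 1/(e^u - 1)` -/
noncomputable def G (u : ℝ) : ℝ := 1 / u - 1 / (Real.exp u - 1)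

theorem exp_sub_one_pos {u : ℝ} (hu : 0 < u) : 0 < Real.exp u - 1 := by
  have := Real.add_one_lt_exp hu.ne'
  linarith

theorem G_hasDerivAt {u : ℝ} (hu : 0 < u) :
    HasDerivAt G (-(1 / u ^ 2) + Real.exp u / (Real.exp u - 1) ^ 2) u := by
  have h1 := exp_sub_one_pos hu
  have h2 : HasDerivAt (fun u : ℝ => 1 / u) (-(1 / u ^ 2)) u := by
    have := hasDerivAt_inv hu.ne'
    simpa [one_div] using this
  have h3 : HasDerivAt (fun u : ℝ => 1 / (Real.exp u - 1))
      (-(Real.exp u / (Real.exp u - 1) ^ 2)) u := by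
    have := ((Real.hasDerivAt_exp u).sub_const 1).fun_inv h1.ne'
    simpa [one_div, neg_div] using this
  have h4 := h2.sub h3
  refine (h4.congr_deriv ?_).congr_of_eventuallyEq (Filter.Eventually.of_forall fun x => rfl)
  ring

theorem G_deriv_neg {u : ℝ} (hu : 0 < u) :
    -(1 / u ^ 2) + Real.exp u / (Real.exp u - 1) ^ 2 < 0 := by
  have h1 := exp_sub_one_pos hu
  have h2 : u / 2 < Real.sinh (u / 2) := Real.self_lt_sinh_iff.2 (by linarith)
  rw [Real.sinh_eq] at h2
  have hp := Real.exp_pos (u / 2)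
  have h3 : Real.exp (u / 2) * Real.exp (-(u / 2)) = 1 := by
    rw [← Real.exp_add]
    simp
  have h4 : Real.exp (u / 2) * Real.exp (u / 2) = Real.exp u := by
    rw [← Real.exp_add]
    congr 1
    ring
  have h5 : u * Real.exp (u / 2) < Real.exp u - 1 := by
    have h6 : u < Real.exp (u / 2) - Real.exp (-(u / 2)) := by linarith
    have h7 := mul_lt_mul_of_pos_right h6 hp
    nlinarith
  have h6 : u ^ 2 * Real.exp u < (Real.exp u - 1) ^ 2 := by
    have h7 : 0 ≤ u * Real.exp (u / 2) := by positivity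
    have h8 := mul_self_lt_mul_self h7 h5
    nlinarith
  have h9 : Real.exp u / (Real.exp u - 1) ^ 2 < 1 / u ^ 2 := by
    rw [div_lt_div_iff₀ (by positivity) (by positivity)]
    linarith
  linarith

theorem G_anti {u v : ℝ} (hu : 0 < u) (huv : u < v) : G v < G u := by
  have h := strictAntiOn_of_deriv_neg (D := Ioi (0 : ℝ)) (f := G) (convex_Ioi 0)
    (fun x hx => (G_hasDerivAt hx).continuousAt.continuousWithinAt) (fun x hx => by
      rw [interior_Ioi] at hx
      rw [(G_hasDerivAt hx).deriv]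
      exact G_deriv_neg hx)
  exact h hu (hu.trans huv) huv

theorem K_hasDerivAt {u : ℝ} (hu : 0 < u) :
    HasDerivAt (fun u : ℝ => -u / 3 + Real.log u - Real.log (1 - Real.exp (-u)))
      (G u - 1 / 3) u := by
  have h1 := exp_sub_one_pos hu
  have h0 : Real.exp (-u) = (Real.exp u)⁻¹ := Real.exp_neg u
  have hpos := Real.exp_pos u
  have h2 : 0 < 1 - Real.exp (-u) := by
    rw [h0]
    have : (Real.exp u)⁻¹ < 1 := inv_lt_one_of_one_lt₀ (by linarith)
    linarith
  have h3 : HasDerivAt (fun u : ℝ => 1 - Real.exp (-u)) (Real.exp (-u)) u := by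
    have h4 : HasDerivAt (fun u : ℝ => Real.exp (-u)) (Real.exp (-u) * (-1)) u :=
      (hasDerivAt_neg u).exp
    have h5 := h4.const_sub 1
    refine h5.congr_deriv ?_
    ring
  have h6 : HasDerivAt (fun u : ℝ => -u / 3) (-1 / 3) u := by
    have := (hasDerivAt_neg u).div_const 3
    exact this
  have h7 := ((h6.add (Real.hasDerivAt_log hu.ne')).sub (h3.log h2.ne'))
  refine h7.congr_deriv ?_
  unfold G
  rw [h0]
  have hu' := hu.ne'
  have h1' := h1.ne'
  have hpos' := hpos.ne'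
  rw [h0] at h2
  have h2' := h2.ne'
  field_simp
  ring

theorem G_third {u v : ℝ} (hu : 0 < u) (huv : u < v)
    (h : -u / 3 + Real.log u - Real.log (1 - Real.exp (-u)) =
      -v / 3 + Real.log v - Real.log (1 - Real.exp (-v))) : 1 / 3 < G u ∧ G v < 1 / 3 := by
  obtain ⟨x, hx, hx0⟩ := exists_hasDerivAt_eq_zero
    (f := fun u : ℝ => -u / 3 + Real.log u - Real.log (1 - Real.exp (-u)))
    (f' := fun u => G u - 1 / 3) huv
    (fun y hy => (K_hasDerivAt (lt_of_lt_of_le hu hy.1)).continuousAt.continuousWithinAt) h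
    (fun y hy => K_hasDerivAt (hu.trans hy.1))
  have h1 := G_anti hu hx.1
  have h2 := G_anti (hu.trans hx.1) hx.2
  have hx1 : G x - 1 / 3 = 0 := hx0
  constructor <;> linarith

end FaceIAux

open FaceIAux

theorem faceC_deriv (k l : ℝ) (hl : 1 < l) (hlk : l < k) (hF : FC k l = 0) :
    0 < (-2 * tau k + (1 + 3 * k * l - k + l) / (l ^ 2 - 1) - tau l * (3 * k + 1))
      + (-(2 * k + 1 - l) / (2 * (1 + l))) *
        (-(3 * k ^ 2 + 2 * k + 1 - 2 * l) / (k ^ 2 - 1) + tau k * (6 * k + 2)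
          - tau l * (3 * l - 1)) := by
  have hk : 1 < k := hl.trans hlk
  have hk1 : 0 < k - 1 := by linarith
  have hl1 : 0 < l - 1 := by linarith
  have hkl : 0 < k - l := by linarith
  have hA := tau_pos k hk
  have hB := tau_pos l hl
  have hb : 0 < 3 * k ^ 2 + 2 * k + 1 - 2 * l := by nlinarith
  have ha : 0 < 1 + 3 * k * l - k + l := by nlinarith [mul_pos hk1 hl1]
  obtain ⟨lam, hlam⟩ : ∃ lam, lam = tau l / (3 * k ^ 2 + 2 * k + 1 - 2 * l) := ⟨_, rfl⟩
  have hlpos : 0 < lam := by rw [hlam]; positivity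
  have hBl : tau l = lam * (3 * k ^ 2 + 2 * k + 1 - 2 * l) := by
    rw [hlam]
    exact (div_mul_cancel₀ _ hb.ne').symm
  have hAl : tau k = lam * (1 + 3 * k * l - k + l) := by
    unfold FC at hF
    rw [hBl] at hF
    have : (3 * k ^ 2 + 2 * k + 1 - 2 * l) * (tau k - lam * (1 + 3 * k * l - k + l)) = 0 := by
      linarith
    rcases mul_eq_zero.1 this with h | h
    · exact absurd h hb.ne'
    · linarith
  obtain ⟨R, hR⟩ : ∃ R, R = k ^ 2 + 2 * k * l + 1 := ⟨_, rfl⟩
  have hRpos : 0 < R := by rw [hR]; nlinarith [mul_pos (by linarith : 0 < k) (by linarith : 0 < l)]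
  -- exponentials
  have hek : Real.exp (2 * tau k) = (k + 1) / (k - 1) := by
    unfold tau
    rw [show 2 * (Real.log ((k + 1) / (k - 1)) / 2) = Real.log ((k + 1) / (k - 1)) by ring]
    exact Real.exp_log (by positivity)
  have hel : Real.exp (2 * tau l) = (l + 1) / (l - 1) := by
    unfold tau
    rw [show 2 * (Real.log ((l + 1) / (l - 1)) / 2) = Real.log ((l + 1) / (l - 1)) by ring]
    exact Real.exp_log (by positivity)
  obtain ⟨u, hu⟩ : ∃ u, u = 6 * lam * (k - l) * (k + 1) := ⟨_, rfl⟩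
  obtain ⟨v, hv⟩ : ∃ v, v = 6 * lam * R := ⟨_, rfl⟩
  have hupos : 0 < u := by rw [hu]; positivity
  have hu2 : u = 2 * tau l - 2 * tau k := by rw [hu, hAl, hBl]; ring
  have hv2 : v = 2 * tau k + 2 * tau k + 2 * tau l := by rw [hv, hAl, hBl, hR]; ring
  have huv : u < v := by linarith
  have heu : Real.exp u = (k - 1) * (l + 1) / ((k + 1) * (l - 1)) := by
    rw [hu2, Real.exp_sub, hek, hel]
    field_simp
  have hev : Real.exp v = (k + 1) ^ 2 * (l + 1) / ((k - 1) ^ 2 * (l - 1)) := by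
    rw [hv2, Real.exp_add, Real.exp_add, hek, hel]
    field_simp
  have hgu : G u = 1 / (6 * lam * (k - l) * (k + 1)) - (k + 1) * (l - 1) / (2 * (k - l)) := by
    unfold G
    rw [heu, ← hu]
    congr 1
    have h1 : (k - 1) * (l + 1) / ((k + 1) * (l - 1)) - 1 = 2 * (k - l) / ((k + 1) * (l - 1)) := by
      field_simp
      ring
    rw [h1]
    field_simp
  have hgv : G v = 1 / (6 * lam * R) - (k - 1) ^ 2 * (l - 1) / (2 * R) := by
    unfold G
    rw [hev, ← hv]
    congr 1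
    have h1 : (k + 1) ^ 2 * (l + 1) / ((k - 1) ^ 2 * (l - 1)) - 1
        = 2 * R / ((k - 1) ^ 2 * (l - 1)) := by
      rw [hR]
      field_simp
      ring
    rw [h1]
    field_simp
  -- equal values
  have hK : -u / 3 + Real.log u - Real.log (1 - Real.exp (-u)) =
      -v / 3 + Real.log v - Real.log (1 - Real.exp (-v)) := by
    have h1 : 1 - Real.exp (-u) = 2 * (k - l) / ((k - 1) * (l + 1)) := by
      rw [Real.exp_neg, heu]
      field_simp
      ring
    have h2 : 1 - Real.exp (-v) = 2 * R / ((k + 1) ^ 2 * (l + 1)) := by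
      rw [Real.exp_neg, hev, hR]
      field_simp
      ring
    have h3 : 0 < 2 * (k - l) / ((k - 1) * (l + 1)) := by positivity
    have h4 : 0 < 2 * R / ((k + 1) ^ 2 * (l + 1)) := by positivity
    have h5 : Real.log u - Real.log (1 - Real.exp (-u)) =
        Real.log (3 * lam * (k + 1) * (k - 1) * (l + 1)) := by
      rw [h1, ← Real.log_div hupos.ne' h3.ne', hu]
      congr 1
      field_simp
      ring
    have h6 : Real.log v - Real.log (1 - Real.exp (-v)) =
        Real.log (3 * lam * (k + 1) * (k - 1) * (l + 1)) + 2 * tau k := by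
      rw [h2, ← Real.log_div (hupos.trans huv).ne' h4.ne', hv]
      have h7 : 2 * tau k = Real.log ((k + 1) / (k - 1)) := by
        unfold tau
        ring
      rw [h7, ← Real.log_mul (by positivity) (by positivity)]
      congr 1
      field_simp
      ring
    linarith
  obtain ⟨hp, hq⟩ := G_third hupos huv hK
  obtain ⟨p, hpe⟩ : ∃ p, p = G u := ⟨_, rfl⟩
  obtain ⟨q, hqe⟩ : ∃ q, q = G v := ⟨_, rfl⟩
  rw [← hpe] at hp hgu
  rw [← hqe] at hq hgv
  -- the identity
  have hP : 6 * lam * (k - l) * (k + 1) * p = 1 - 3 * lam * (k + 1) ^ 2 * (l - 1) := by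
    rw [hgu]
    field_simp
    ring
  have hQ : 6 * lam * R * q = 1 - 3 * lam * (k - 1) ^ 2 * (l - 1) := by
    rw [hgv]
    field_simp
    ring
  have hid : (-2 * tau k + (1 + 3 * k * l - k + l) / (l ^ 2 - 1) - tau l * (3 * k + 1))
      + (-(2 * k + 1 - l) / (2 * (1 + l))) *
        (-(3 * k ^ 2 + 2 * k + 1 - 2 * l) / (k ^ 2 - 1) + tau k * (6 * k + 2)
          - tau l * (3 * l - 1)) =
      3 * lam * (k - l) * (k + 1) * R * ((2 / (l ^ 2 - 1)) * (p - q)
        - (2 * k + 1 - l) / ((1 + l) * (k ^ 2 - 1)) * (1 - p - 2 * q)) := by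
    have h1 : 3 * lam * (k - l) * (k + 1) * R * ((2 / (l ^ 2 - 1)) * (p - q)
        - (2 * k + 1 - l) / ((1 + l) * (k ^ 2 - 1)) * (1 - p - 2 * q)) =
        (1 / (l ^ 2 - 1)) * (R * (6 * lam * (k - l) * (k + 1) * p)
          - (k - l) * (k + 1) * (6 * lam * R * q))
        - (2 * k + 1 - l) / ((1 + l) * (k ^ 2 - 1)) * (3 * lam * (k - l) * (k + 1) * R
          - R * (6 * lam * (k - l) * (k + 1) * p) / 2 - (k - l) * (k + 1) * (6 * lam * R * q)) := by
      ring
    rw [h1, hP, hQ, hAl, hBl, hR, show l ^ 2 - 1 = (l - 1) * (l + 1) by ring,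
      show k ^ 2 - 1 = (k - 1) * (k + 1) by ring]
    field_simp
    ring
  rw [hid]
  refine mul_pos (by positivity) ?_
  obtain ⟨w, hw⟩ : ∃ w, w = (k - 1) * (l + 1) / ((k + 1) * (l - 1)) := ⟨_, rfl⟩
  obtain ⟨M, hM⟩ : ∃ M, M = 2 * (k ^ 2 - 1) / ((l - 1) * (2 * k + 1 - l)) := ⟨_, rfl⟩
  have h2k : 0 < 2 * k + 1 - l := by linarith
  have hk21 : 0 < k ^ 2 - 1 := by nlinarith
  have hw1 : 1 < w := by
    rw [hw, one_lt_div (by positivity)]
    nlinarith
  have hMw : 2 * w ≤ M := by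
    rw [hM, hw, ← mul_div_assoc, div_le_div_iff₀ (by positivity) (by positivity)]
    have h1 : 2 * (k ^ 2 - 1) * ((k + 1) * (l - 1)) -
        2 * ((k - 1) * (l + 1)) * ((l - 1) * (2 * k + 1 - l)) =
        2 * (k - 1) * (l - 1) * (k - l) ^ 2 := by ring
    have h2 : 0 ≤ 2 * (k - 1) * (l - 1) * (k - l) ^ 2 := by positivity
    linarith
  have h3 : 0 < M * (p - q) - (1 - p - 2 * q) := by
    have h4 : 2 * w * (p - q) ≤ M * (p - q) :=
      mul_le_mul_of_nonneg_right hMw (by linarith)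
    have h5 : (2 * w + 1) * (1 / 3) < (2 * w + 1) * p :=
      mul_lt_mul_of_pos_left hp (by linarith)
    have h6 : (2 * w - 2) * q < (2 * w - 2) * (1 / 3) :=
      mul_lt_mul_of_pos_left hq (by linarith)
    nlinarith
  have h4 : (2 / (l ^ 2 - 1)) * (p - q)
        - (2 * k + 1 - l) / ((1 + l) * (k ^ 2 - 1)) * (1 - p - 2 * q) =
      ((2 * k + 1 - l) / ((1 + l) * (k ^ 2 - 1))) * (M * (p - q) - (1 - p - 2 * q)) := by
    have h5 : (2 * k + 1 - l) / ((1 + l) * (k ^ 2 - 1)) * M = 2 / (l ^ 2 - 1) := by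
      rw [hM, show l ^ 2 - 1 = (l - 1) * (l + 1) by ring]
      have := h2k.ne'
      have := hk21.ne'
      field_simp
      ring
    rw [← h5]
    ring
  rw [h4]
  exact mul_pos (by positivity) h3

end Pool.Agent.MidT
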