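import Pool.Agent.MidT.CritF
import Pool.Agent.MidT.FaceI

/-!
# MidT module FACEC: `(1, k, k, l)` with `1 < l < k` is never a local maximum

`q = 4k(1+l) - (l-1)²`.  Curve in the parameter `s` near `l`: `c(s) = (1, κ(s), κ(s), s)`, `κ(s) = (q + (s-1)²)/(4(1+s))`, `κ(l) = k`,
`κ' = (s-1-2κ)/(2(1+s)) = -(2κ+1-s)/(2(1+s))`.  `v = (0, κ', κ', 1)`, `nn v = (2κ'+1, 1, 1, 2κ'-1)`, `∑ v_i n_i = 0`; `2κ'+1 = (2s-2κ)/(1+s)`,
`2κ'-1 = -2(1+κ)/(1+s)`.  `schl_face` with `Z = {0}`: `e_0 = 1+κ²+2κs`, `e_1 = e_2 = (1+κ)(1+s)`, `e_3 = (1+κ)²` (`e_c = (4+q+n_c²)/4`),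
`N_0 = 2 tau κ + tau s`, `N_1 = N_2 = tau κ + tau s`, `N_3 = 2 tau κ`, and
`V' = -(√(4+q)/4) ∑ N_c (nn v)_c/e_c = (√(4+q)/(2(1+s))) [ (tau κ - tau s)/(1+κ) + (2 tau κ + tau s)(κ-s)/e_0 ] = (√(4+q)/(2(1+s)(1+κ)e_0)) FC κ s`.
At a local maximum `FC k l = 0` (or `crit_face_pair`), and the derivative of `s ↦ FC (κ s) s` at `l` is the expression of `faceC_deriv`, `> 0`:
`not_localMax_of_deriv2` (`C s = √(4+q)/(2(1+s)(1+κ)e_0)`, `R s = FC (κ s) s`), `isLocalMax_of_curve`.
-/

set_option autoImplicit false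

namespace Pool.Agent.MidT

open MeasureTheory Set Filter Topology

theorem faceC_dV (k s p : ℝ) (hs : 1 < s) (hk : 1 < k) (hp : p = (s - 1 - 2 * k) / (2 * (1 + s))) :
    dV (fun i => if i ∈ ({0} : Finset (Fin 4)) then 0 else tau ((![1, k, k, s] : R4) i))
      ![1, k, k, s] ![0, p, p, 1] =
    (Real.sqrt (4 + Qk ![1, k, k, s]) / (2 * (1 + s) * (1 + k) * (1 + k ^ 2 + 2 * k * s)))
      * FC k s := by
  have hQ : 4 + Qk ![1, k, k, s] = 4 + 4 * k * (1 + s) - (s - 1) ^ 2 := by
    simp only [Qk, Fin.sum_univ_four]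
    simp
    ring
  have e0 : 4 + Qk ![1, k, k, s] + nn ![1, k, k, s] 0 ^ 2 = 4 * (1 + k ^ 2 + 2 * k * s) := by
    rw [hQ]
    simp only [nn, Fin.sum_univ_four]
    simp
    ring
  have e1 : 4 + Qk ![1, k, k, s] + nn ![1, k, k, s] 1 ^ 2 = 4 * ((1 + k) * (1 + s)) := by
    rw [hQ]
    simp only [nn, Fin.sum_univ_four]
    simp
    ring
  have e2 : 4 + Qk ![1, k, k, s] + nn ![1, k, k, s] 2 ^ 2 = 4 * ((1 + k) * (1 + s)) := by
    rw [hQ]
    simp only [nn, Fin.sum_univ_four]
    simp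
    ring
  have e3 : 4 + Qk ![1, k, k, s] + nn ![1, k, k, s] 3 ^ 2 = 4 * (1 + k) ^ 2 := by
    rw [hQ]
    simp only [nn, Fin.sum_univ_four]
    simp
    ring
  have hs1 : (1 + s) ≠ 0 := by positivity
  have hk1 : (1 + k) ≠ 0 := by positivity
  have hE : (1 + k ^ 2 + 2 * k * s) ≠ 0 := by positivity
  have hv : ∑ i, (![0, p, p, 1] : R4) i * nn ![1, k, k, s] i = 0 := by
    simp only [nn, Fin.sum_univ_four]
    simp
    rw [hp]
    field_simp
    ring
  set D := 4 + Qk ![1, k, k, s] with hDdef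
  have o0 : om ![1, k, k, s] ![0, p, p, 1] 0 = D * (2 * p + 1) / (4 * (1 + k ^ 2 + 2 * k * s)) := by
    unfold om
    rw [hv, ← hDdef, e0]
    simp only [nn, Fin.sum_univ_four]
    simp
    congr 1
    ring
  have o1 : om ![1, k, k, s] ![0, p, p, 1] 1 = D / (4 * ((1 + k) * (1 + s))) := by
    unfold om
    rw [hv, ← hDdef, e1]
    simp only [nn, Fin.sum_univ_four]
    simp
    congr 1
    ring
  have o2 : om ![1, k, k, s] ![0, p, p, 1] 2 = D / (4 * ((1 + k) * (1 + s))) := by
    unfold om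
    rw [hv, ← hDdef, e2]
    simp only [nn, Fin.sum_univ_four]
    simp
    congr 1
    ring
  have o3 : om ![1, k, k, s] ![0, p, p, 1] 3 = D * (2 * p - 1) / (4 * (1 + k) ^ 2) := by
    unfold om
    rw [hv, ← hDdef, e3]
    simp only [nn, Fin.sum_univ_four]
    simp
    congr 1
    ring
  unfold dV
  rw [← hDdef]
  simp only [Fin.sum_univ_four]
  rw [o0, o1, o2, o3]
  have t0 : (if (0 : Fin 4) ∈ ({0} : Finset (Fin 4)) then (0 : ℝ) else tau ((![1, k, k, s] : R4) 0)) = 0 := by
    simp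
  have t1 : (if (1 : Fin 4) ∈ ({0} : Finset (Fin 4)) then (0 : ℝ) else tau ((![1, k, k, s] : R4) 1)) = tau k := by
    simp
  have t2 : (if (2 : Fin 4) ∈ ({0} : Finset (Fin 4)) then (0 : ℝ) else tau ((![1, k, k, s] : R4) 2)) = tau k := by
    simp
  have t3 : (if (3 : Fin 4) ∈ ({0} : Finset (Fin 4)) then (0 : ℝ) else tau ((![1, k, k, s] : R4) 3)) = tau s := by
    simp
  rw [t0, t1, t2, t3]
  have hX : (0 + tau k + tau k + tau s - 0) * (D * (2 * p + 1) / (4 * (1 + k ^ 2 + 2 * k * s)))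
      + (0 + tau k + tau k + tau s - tau k) * (D / (4 * ((1 + k) * (1 + s))))
      + (0 + tau k + tau k + tau s - tau k) * (D / (4 * ((1 + k) * (1 + s))))
      + (0 + tau k + tau k + tau s - tau s) * (D * (2 * p - 1) / (4 * (1 + k) ^ 2))
      = D * (-(FC k s / (2 * (1 + s) * (1 + k) * (1 + k ^ 2 + 2 * k * s)))) := by
    rw [hp]
    unfold FC
    field_simp
    ring
  rw [hX]
  have hsq : 1 / Real.sqrt D * D = Real.sqrt D := by
    rcases lt_or_ge 0 D with h | h
    · have h1 : Real.sqrt D ≠ 0 := (Real.sqrt_pos.mpr h).ne'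
      rw [div_mul_eq_mul_div, one_mul, div_eq_iff h1]
      exact (Real.mul_self_sqrt h.le).symm
    · rw [Real.sqrt_eq_zero_of_nonpos h]
      simp
  calc -(1 / Real.sqrt D) * (D * (-(FC k s / (2 * (1 + s) * (1 + k) * (1 + k ^ 2 + 2 * k * s)))))
      = (1 / Real.sqrt D * D) * (FC k s / (2 * (1 + s) * (1 + k) * (1 + k ^ 2 + 2 * k * s))) := by ring
    _ = _ := by rw [hsq]; ring

theorem faceC_not_max (k l : ℝ) (hl : 1 < l) (hlk : l < k) (q : ℝ) (hq : 0 < q)
    (hQ : Qk ![1, k, k, l] = q) : ¬ IsLocalMaxOn VV (DD q) ![1, k, k, l] := by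
  intro h
  have hQ' : q + (l - 1) ^ 2 = 4 * k * (1 + l) := by
    rw [← hQ]
    simp only [Qk, Fin.sum_univ_four]
    simp
    ring
  set κ : ℝ → ℝ := fun s => (q + (s - 1) ^ 2) / (4 * (1 + s)) with hκ
  set p : ℝ → ℝ := fun s => (s - 1 - 2 * κ s) / (2 * (1 + s)) with hp
  have hκl : κ l = k := by
    simp only [hκ]
    rw [hQ']
    have : (1 + l) ≠ 0 := by positivity
    field_simp
  have hκd : ∀ s : ℝ, 1 < s → HasDerivAt κ (p s) s := by
    intro s hs
    have h1 : (4 * (1 + s)) ≠ 0 := by positivity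
    have h2 : HasDerivAt (fun s : ℝ => q + (s - 1) ^ 2) (2 * (s - 1)) s := by
      have := (((hasDerivAt_id s).sub_const 1).pow 2).const_add q
      simpa using this
    have h3 : HasDerivAt (fun s : ℝ => 4 * (1 + s)) 4 s := by
      have := ((hasDerivAt_id s).const_add 1).const_mul 4
      simpa using this
    have h4 := h2.div h3 h1
    have e : (2 * (s - 1) * (4 * (1 + s)) - (q + (s - 1) ^ 2) * 4) / (4 * (1 + s)) ^ 2 = p s := by
      simp only [hp, hκ]
      have : (1 + s) ≠ 0 := by positivity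
      field_simp
      ring
    rw [e] at h4
    exact h4
  have hev : ∀ᶠ s in 𝓝 l, 1 < s ∧ s < κ s := by
    have h1 : ∀ᶠ s in 𝓝 l, 1 < s := lt_mem_nhds hl
    have h2 : ContinuousAt (fun s => κ s - s) l :=
      (hκd l hl).continuousAt.sub continuousAt_id
    have h3 : ∀ᶠ s in 𝓝 l, 0 < κ s - s := by
      apply h2.eventually_const_lt
      simp only [hκl]
      linarith
    filter_upwards [h1, h3] with s hs1 hs3
    exact ⟨hs1, by linarith⟩
  obtain ⟨a, b, hab, hsub⟩ := mem_nhds_iff_exists_Ioo_subset.mp hev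
  set c : ℝ → R4 := fun s => ![1, κ s, κ s, s] with hc
  set v : ℝ → R4 := fun s => ![0, p s, p s, 1] with hv
  have hcd : ∀ s, 1 < s → HasDerivAt c (v s) s := by
    intro s hs
    rw [hasDerivAt_pi]
    intro i
    fin_cases i
    · simpa [hc, hv] using hasDerivAt_const s (1 : ℝ)
    · simpa [hc, hv] using hκd s hs
    · simpa [hc, hv] using hκd s hs
    · simpa [hc, hv] using hasDerivAt_id' s
  have hQc : ∀ s, 1 < s → Qk (c s) = q := by
    intro s hs
    have h1 : (1 + s) ≠ 0 := by positivity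
    simp only [Qk, Fin.sum_univ_four, hc, hκ]
    simp
    field_simp
    ring
  have hpc : ∀ s, 1 < s → ContinuousAt p s := by
    intro s hs
    have h1 : (2 * (1 + s)) ≠ 0 := by positivity
    have h2 := (hκd s hs).continuousAt
    simp only [hp]
    have h3 : ContinuousAt (fun s : ℝ => s - 1 - 2 * κ s) s :=
      (continuousAt_id.sub continuousAt_const).sub (continuousAt_const.mul h2)
    have h4 : ContinuousAt (fun s : ℝ => 2 * (1 + s)) s := by fun_prop
    exact ContinuousAt.div₀ h3 h4 h1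
  have hderiv : ∀ s ∈ Ioo a b, HasDerivAt (fun s => VV (c s))
      (dV (fun i => if i ∈ ({0} : Finset (Fin 4)) then 0 else tau (c s i)) (c s) (v s)) s := by
    intro s hs
    apply schl_face c v a b {0} (fun t ht => hcd t (hsub ht).1)
    · intro t ht
      apply ContinuousAt.continuousWithinAt
      rw [continuousAt_pi]
      intro i
      fin_cases i
      · simpa [hv] using continuousAt_const
      · simpa [hv] using hpc t (hsub ht).1
      · simpa [hv] using hpc t (hsub ht).1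
      · simpa [hv] using continuousAt_const
    · intro t ht i hi
      simp only [Finset.mem_singleton] at hi
      subst hi
      simp [hc]
    · intro t ht i hi
      have h1 := hsub ht
      simp only [Set.mem_ofPred_eq] at h1
      fin_cases i
      · simp at hi
      · simp [hc]; linarith [h1.1, h1.2]
      · simp [hc]; linarith [h1.1, h1.2]
      · simp [hc]; linarith [h1.1, h1.2]
    · intro t ht
      rw [hQc t (hsub ht).1]
      linarith
    · exact hs
  have hV : ∀ s ∈ Ioo a b, HasDerivAt (fun s => VV (c s))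
      ((Real.sqrt (4 + q) / (2 * (1 + s) * (1 + κ s) * (1 + κ s ^ 2 + 2 * κ s * s)))
        * FC (κ s) s) s := by
    intro s hs
    have h1 := hderiv s hs
    have h2 := hsub hs
    simp only [Set.mem_ofPred_eq] at h2
    have h3 := faceC_dV (κ s) s (p s) h2.1 (by linarith [h2.1, h2.2]) rfl
    have h4 := hQc s h2.1
    simp only [hc] at h4
    rw [h4] at h3
    have h5 : dV (fun i => if i ∈ ({0} : Finset (Fin 4)) then 0 else tau (c s i)) (c s) (v s) =
        (Real.sqrt (4 + q) / (2 * (1 + s) * (1 + κ s) * (1 + κ s ^ 2 + 2 * κ s * s)))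
        * FC (κ s) s := h3
    rw [h5] at h1
    exact h1
  have hloc : IsLocalMax (fun s => VV (c s)) l := by
    apply isLocalMax_of_curve q _ h c l (hcd l hl).continuousAt
    · simp [hc, hκl]
    · filter_upwards [hev] with s hs
      refine ⟨?_, hQc s hs.1⟩
      intro i
      fin_cases i
      · simp [hc]
      · simp [hc]; linarith [hs.1, hs.2]
      · simp [hc]; linarith [hs.1, hs.2]
      · simp [hc]; linarith [hs.1, hs.2]
  have hlab : l ∈ Ioo a b := hab
  have hC : ∀ s ∈ Ioo a b,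
      0 < Real.sqrt (4 + q) / (2 * (1 + s) * (1 + κ s) * (1 + κ s ^ 2 + 2 * κ s * s)) := by
    intro s hs
    have h2 := hsub hs
    simp only [Set.mem_ofPred_eq] at h2
    have h3 : 0 < κ s := by linarith [h2.1, h2.2]
    have h4 : 0 < s := by linarith [h2.1]
    have h5 : 0 < Real.sqrt (4 + q) := Real.sqrt_pos.mpr (by linarith)
    positivity
  have hR0 : FC k l = 0 := by
    have h1 := hloc.hasDerivAt_eq_zero (hV l hlab)
    have h2 := hC l hlab
    rw [hκl] at h1 h2
    rcases mul_eq_zero.mp h1 with h3 | h3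
    · exact absurd h3 h2.ne'
    · exact h3
  have hk1 : 1 < k := by linarith
  have hR : HasDerivAt (fun s => FC (κ s) s)
      ((-2 * tau k + (1 + 3 * k * l - k + l) / (l ^ 2 - 1) - tau l * (3 * k + 1))
      + (-(2 * k + 1 - l) / (2 * (1 + l))) *
        (-(3 * k ^ 2 + 2 * k + 1 - 2 * l) / (k ^ 2 - 1) + tau k * (6 * k + 2)
          - tau l * (3 * l - 1))) l := by
    have g1 : HasDerivAt κ (p l) l := hκd l hl
    have g2 : HasDerivAt (fun s => tau (κ s)) (-(1 / (k ^ 2 - 1)) * p l) l := by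
      have h1 : HasDerivAt tau (-(1 / (k ^ 2 - 1))) (κ l) := by
        rw [hκl]
        exact tau_hasDerivAt k hk1
      exact h1.comp l g1
    have g3 : HasDerivAt tau (-(1 / (l ^ 2 - 1))) l := tau_hasDerivAt l hl
    have g4 : HasDerivAt (fun s => 3 * κ s ^ 2 + 2 * κ s + 1 - 2 * s)
        (6 * k * p l + 2 * p l - 2) l := by
      have h1 := (((g1.pow 2).const_mul 3).add (g1.const_mul 2)).add_const 1
      have h2 := h1.sub ((hasDerivAt_id l).const_mul 2)
      refine (h2.congr_of_eventuallyEq (Filter.Eventually.of_forall ?_)).congr_deriv ?_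
      · intro s
        simp
      · rw [hκl]
        norm_num
        ring
    have g5 : HasDerivAt (fun s => 1 + 3 * κ s * s - κ s + s)
        (3 * (p l * l + k) - p l + 1) l := by
      have h1 := ((g1.mul (hasDerivAt_id l)).const_mul 3)
      have h2 := ((h1.const_add 1).sub g1).add (hasDerivAt_id l)
      refine (h2.congr_of_eventuallyEq (Filter.Eventually.of_forall ?_)).congr_deriv ?_
      · intro s
        simp
        ring
      · rw [hκl]
        simp
    have g6 := (g2.mul g4).sub (g3.mul g5)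
    have hpl : p l = -(2 * k + 1 - l) / (2 * (1 + l)) := by
      simp only [hp, hκl]
      congr 1
      ring
    refine (g6.congr_of_eventuallyEq (Filter.Eventually.of_forall ?_)).congr_deriv ?_
    · intro s
      simp [FC]
    · rw [← hpl, hκl]
      ring
  exact not_localMax_of_deriv2 (fun s => VV (c s)) (fun s => FC (κ s) s)
    (fun s => Real.sqrt (4 + q) / (2 * (1 + s) * (1 + κ s) * (1 + κ s ^ 2 + 2 * κ s * s))) _ l
    (by filter_upwards [Ioo_mem_nhds hlab.1 hlab.2] with s hs using hV s hs)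
    (by filter_upwards [Ioo_mem_nhds hlab.1 hlab.2] with s hs using hC s hs)
    (by simpa [hκl] using hR0) hR (faceC_deriv k l hl hlk hR0) hloc

end Pool.Agent.MidT
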