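import Pool.Agent.MidT.FaceA
import Pool.Agent.MidT.FaceB
import Pool.Agent.MidT.FaceC

/-!
# MidT module FACE: on the face `k 0 = 1` only `(1, k, k, k)` can be a local maximum

`face_two_values`, permutations (`localMaxOn_perm`) to the form `![1, k, k, l]`, `faceB_not_max`, `faceC_not_max`.
-/

set_option autoImplicit false

namespace Pool.Agent.MidT

open MeasureTheory Set Filter Topology

theorem face_kkl (q : ℝ) (hq : 0 < q) (k l : ℝ) (hk : 1 < k) (hl : 1 < l)
    (hQ : Qk ![1, k, k, l] = q) (h : IsLocalMaxOn VV (DD q) ![1, k, k, l]) : k = l := by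
  rcases lt_trichotomy k l with h1 | h1 | h1
  · exact absurd h (faceB_not_max k l hk h1 q hq hQ)
  · exact h1
  · exact absurd h (faceC_not_max k l hl h1 q hq hQ)

theorem face_max (q : ℝ) (hq : 0 < q) (k : R4) (h0 : k 0 = 1) (hk : ∀ i, i ≠ 0 → 1 < k i)
    (hQ : Qk k = q) (h : IsLocalMaxOn VV (DD q) k) : k 1 = k 2 ∧ k 2 = k 3 := by
  have h1 := hk 1 (by decide)
  have h2 := hk 2 (by decide)
  have h3 := hk 3 (by decide)
  rcases face_two_values q hq k h0 hk hQ h with e | e | e
  · have hk' : k = ![1, k 1, k 1, k 3] := by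
      ext i; fin_cases i <;> simp [h0, e]
    have := face_kkl q hq (k 1) (k 3) h1 h3 (by rw [← hk']; exact hQ) (by rw [← hk']; exact h)
    exact ⟨e, by rw [← e, this]⟩
  · -- `k 2 = k 3`: permute `1 ↔ 3`
    have hp := localMaxOn_perm q k (Equiv.swap 1 3) h
    have hQp := Qk_perm k (Equiv.swap 1 3)
    have hk' : (fun i => k (Equiv.swap 1 3 i)) = ![1, k 3, k 3, k 1] := by
      ext i; fin_cases i <;> simp [h0, e, Equiv.swap_apply_def]
    rw [hk'] at hp hQp
    have := face_kkl q hq (k 3) (k 1) h3 h1 (by rw [hQp]; exact hQ) hp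
    exact ⟨by rw [e, this], e⟩
  · -- `k 1 = k 3`: permute `2 ↔ 3`
    have hp := localMaxOn_perm q k (Equiv.swap 2 3) h
    have hQp := Qk_perm k (Equiv.swap 2 3)
    have hk' : (fun i => k (Equiv.swap 2 3 i)) = ![1, k 1, k 1, k 2] := by
      ext i; fin_cases i <;> simp [h0, e, Equiv.swap_apply_def]
    rw [hk'] at hp hQp
    have := face_kkl q hq (k 1) (k 2) h1 h2 (by rw [hQp]; exact hQ) hp
    exact ⟨this, by rw [← this, e]⟩

end Pool.Agent.MidT
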