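import Pool.Agent.MidT.Int
import Pool.Agent.MidT.Face
import Pool.Agent.MidT.EdgeZ

/-!
# MidT module CLS: classification of the local maxima

Number of `i` with `k i = 1`: `0` is impossible (`int_not_max`); `1`: permute (`localMaxOn_perm`, `VV_perm`, `Qk_perm`) to `k 0 = 1`, `face_max`; `2`: permute to
`![1, 1, l, k]`, `l ≤ k`, `edge_not_max` gives `l = k`; `3`: `![1, 1, 1, x]`; `4` is excluded.
-/

set_option autoImplicit false

namespace Pool.Agent.MidT

open MeasureTheory Set Filter Topology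

/-- the conclusion -/
def Concl (q : ℝ) (k : R4) : Prop :=
  ∃ x : ℝ, 1 < x ∧ ((VV k = VV ![1, x, x, x] ∧ Qk ![1, x, x, x] = q) ∨
      (VV k = VV ![1, 1, x, x] ∧ Qk ![1, 1, x, x] = q) ∨
      (VV k = VV ![1, 1, 1, x] ∧ Qk ![1, 1, 1, x] = q))

theorem concl_perm (q : ℝ) (k : R4) (σ : Equiv.Perm (Fin 4))
    (h : Concl q (fun i => k (σ i))) : Concl q k := by
  obtain ⟨x, hx, h⟩ := h
  exact ⟨x, hx, by rwa [VV_perm k σ] at h⟩

theorem cls1 (q : ℝ) (hq : 0 < q) (k : R4) (h0 : k 0 = 1) (hk : ∀ i, i ≠ 0 → 1 < k i)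
    (hQ : Qk k = q) (h : IsLocalMaxOn VV (DD q) k) : Concl q k := by
  obtain ⟨e1, e2⟩ := face_max q hq k h0 hk hQ h
  have hk' : k = ![1, k 1, k 1, k 1] := by
    ext i; fin_cases i <;> simp [h0, ← e1, ← e2]
  refine ⟨k 1, hk 1 (by decide), Or.inl ⟨?_, ?_⟩⟩
  · rw [← hk']
  · rw [← hk']; exact hQ

theorem cls2' (q : ℝ) (hq : 0 < q) (k : R4) (h0 : k 0 = 1) (h1 : k 1 = 1) (h2 : 1 < k 2)
    (h23 : k 2 ≤ k 3) (hQ : Qk k = q) (h : IsLocalMaxOn VV (DD q) k) : Concl q k := by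
  have hk' : k = ![1, 1, k 2, k 3] := by
    ext i; fin_cases i <;> simp [h0, h1]
  rcases h23.lt_or_eq with hlt | heq
  · exact absurd (by rw [← hk']; exact h)
      (edge_not_max (k 2) (k 3) h2 hlt q hq (by rw [← hk']; exact hQ))
  · rw [← heq] at hk'
    refine ⟨k 2, h2, Or.inr (Or.inl ⟨?_, ?_⟩)⟩
    · rw [← hk']
    · rw [← hk']; exact hQ

theorem cls2 (q : ℝ) (hq : 0 < q) (k : R4) (h0 : k 0 = 1) (h1 : k 1 = 1) (h2 : 1 < k 2)
    (h3 : 1 < k 3) (hQ : Qk k = q) (h : IsLocalMaxOn VV (DD q) k) : Concl q k := by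
  rcases le_total (k 2) (k 3) with hle | hle
  · exact cls2' q hq k h0 h1 h2 hle hQ h
  · apply concl_perm q k (Equiv.swap 2 3)
    apply cls2' q hq _ _ _ _ _ ((Qk_perm k _).trans hQ) (localMaxOn_perm q k _ h)
    · simpa [Equiv.swap_apply_def]
    · simpa [Equiv.swap_apply_def]
    · simpa [Equiv.swap_apply_def]
    · simpa [Equiv.swap_apply_def]

theorem cls3 (q : ℝ) (k : R4) (h0 : k 0 = 1) (h1 : k 1 = 1) (h2 : k 2 = 1)
    (h3 : 1 < k 3) (hQ : Qk k = q) : Concl q k := by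
  have hk' : k = ![1, 1, 1, k 3] := by
    ext i; fin_cases i <;> simp [h0, h1, h2]
  refine ⟨k 3, h3, Or.inr (Or.inr ⟨?_, ?_⟩)⟩
  · rw [← hk']
  · rw [← hk']; exact hQ

theorem clsA (q : ℝ) (hq : 0 < q) (k : R4) (h1 : ∀ i, 1 ≤ k i) (hQ : Qk k = q)
    (hne : k ≠ (fun _ => 1)) (h : IsLocalMaxOn VV (DD q) k) : Concl q k := by
  have hlt : ∀ i, k i ≠ 1 → 1 < k i := fun i hi => lt_of_le_of_ne (h1 i) (Ne.symm hi)
  by_cases e0 : k 0 = 1 <;> by_cases e1 : k 1 = 1 <;> by_cases e2 : k 2 = 1 <;>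
    by_cases e3 : k 3 = 1
  · exact absurd (by ext i; fin_cases i <;> simp [e0, e1, e2, e3]) hne
  · exact cls3 q k e0 e1 e2 (hlt 3 e3) hQ
  · refine concl_perm q k (Equiv.swap 2 3) (cls3 q _ ?_ ?_ ?_ ?_ ((Qk_perm k _).trans hQ))
    · simpa [Equiv.swap_apply_def]
    · simpa [Equiv.swap_apply_def]
    · simpa [Equiv.swap_apply_def]
    · simpa [Equiv.swap_apply_def] using hlt 2 e2
  · exact cls2 q hq k e0 e1 (hlt 2 e2) (hlt 3 e3) hQ h
  · refine concl_perm q k (Equiv.swap 1 3) (cls3 q _ ?_ ?_ ?_ ?_ ((Qk_perm k _).trans hQ))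
    · simpa [Equiv.swap_apply_def]
    · simpa [Equiv.swap_apply_def]
    · simpa [Equiv.swap_apply_def]
    · simpa [Equiv.swap_apply_def] using hlt 1 e1
  · refine concl_perm q k (Equiv.swap 1 2) (cls2 q hq _ ?_ ?_ ?_ ?_ ((Qk_perm k _).trans hQ)
      (localMaxOn_perm q k _ h))
    · simpa [Equiv.swap_apply_def]
    · simpa [Equiv.swap_apply_def]
    · simpa [Equiv.swap_apply_def] using hlt 1 e1
    · simpa [Equiv.swap_apply_def] using hlt 3 e3
  · refine concl_perm q k (Equiv.swap 1 3) (cls2 q hq _ ?_ ?_ ?_ ?_ ((Qk_perm k _).trans hQ)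
      (localMaxOn_perm q k _ h))
    · simpa [Equiv.swap_apply_def]
    · simpa [Equiv.swap_apply_def]
    · simpa [Equiv.swap_apply_def] using hlt 2 e2
    · simpa [Equiv.swap_apply_def] using hlt 1 e1
  · refine cls1 q hq k e0 ?_ hQ h
    intro i hi
    fin_cases i
    · exact absurd rfl hi
    · exact hlt 1 e1
    · exact hlt 2 e2
    · exact hlt 3 e3
  · refine concl_perm q k (Equiv.swap 0 3) (cls3 q _ ?_ ?_ ?_ ?_ ((Qk_perm k _).trans hQ))
    · simpa [Equiv.swap_apply_def]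
    · simpa [Equiv.swap_apply_def]
    · simpa [Equiv.swap_apply_def]
    · simpa [Equiv.swap_apply_def] using hlt 0 e0
  · refine concl_perm q k (Equiv.swap 0 2) (cls2 q hq _ ?_ ?_ ?_ ?_ ((Qk_perm k _).trans hQ)
      (localMaxOn_perm q k _ h))
    · simpa [Equiv.swap_apply_def]
    · simpa [Equiv.swap_apply_def]
    · simpa [Equiv.swap_apply_def] using hlt 0 e0
    · simpa [Equiv.swap_apply_def] using hlt 3 e3
  · refine concl_perm q k (Equiv.swap 0 3) (cls2 q hq _ ?_ ?_ ?_ ?_ ((Qk_perm k _).trans hQ)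
      (localMaxOn_perm q k _ h))
    · simpa [Equiv.swap_apply_def]
    · simpa [Equiv.swap_apply_def]
    · simpa [Equiv.swap_apply_def] using hlt 2 e2
    · simpa [Equiv.swap_apply_def] using hlt 0 e0
  · refine concl_perm q k (Equiv.swap 0 1) (cls1 q hq _ ?_ ?_ ((Qk_perm k _).trans hQ)
      (localMaxOn_perm q k _ h))
    · simpa [Equiv.swap_apply_def]
    · intro i hi
      fin_cases i
      · exact absurd rfl hi
      · simpa [Equiv.swap_apply_def] using hlt 0 e0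
      · simpa [Equiv.swap_apply_def] using hlt 2 e2
      · simpa [Equiv.swap_apply_def] using hlt 3 e3
  · refine concl_perm q k ((Equiv.swap 0 2) * (Equiv.swap 1 3)) (cls2 q hq _ ?_ ?_ ?_ ?_
      ((Qk_perm k _).trans hQ) (localMaxOn_perm q k _ h))
    · simpa [Equiv.swap_apply_def]
    · simpa [Equiv.swap_apply_def]
    · simpa [Equiv.swap_apply_def] using hlt 0 e0
    · simpa [Equiv.swap_apply_def] using hlt 1 e1
  · refine concl_perm q k (Equiv.swap 0 2) (cls1 q hq _ ?_ ?_ ((Qk_perm k _).trans hQ)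
      (localMaxOn_perm q k _ h))
    · simpa [Equiv.swap_apply_def]
    · intro i hi
      fin_cases i
      · exact absurd rfl hi
      · simpa [Equiv.swap_apply_def] using hlt 1 e1
      · simpa [Equiv.swap_apply_def] using hlt 0 e0
      · simpa [Equiv.swap_apply_def] using hlt 3 e3
  · refine concl_perm q k (Equiv.swap 0 3) (cls1 q hq _ ?_ ?_ ((Qk_perm k _).trans hQ)
      (localMaxOn_perm q k _ h))
    · simpa [Equiv.swap_apply_def]
    · intro i hi
      fin_cases i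
      · exact absurd rfl hi
      · simpa [Equiv.swap_apply_def] using hlt 1 e1
      · simpa [Equiv.swap_apply_def] using hlt 2 e2
      · simpa [Equiv.swap_apply_def] using hlt 0 e0
  · refine absurd h (int_not_max q hq k ?_ hQ)
    intro i
    fin_cases i
    · exact hlt 0 e0
    · exact hlt 1 e1
    · exact hlt 2 e2
    · exact hlt 3 e3

theorem cls (q : ℝ) (hq : 0 < q) (k : R4) (hk : k ∈ DD q) (hne : k ≠ (fun _ => 1))
    (h : IsLocalMaxOn VV (DD q) k) :
    ∃ x : ℝ, 1 < x ∧ ((VV k = VV ![1, x, x, x] ∧ Qk ![1, x, x, x] = q) ∨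
      (VV k = VV ![1, 1, x, x] ∧ Qk ![1, 1, x, x] = q) ∨
      (VV k = VV ![1, 1, 1, x] ∧ Qk ![1, 1, 1, x] = q)) :=
  clsA q hq k hk.1 hk.2 hne h

end Pool.Agent.MidT
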