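import Pool.Agent.MidT.SchlFace

/-!
# MidT module CRIT: tools for local maxima of the volume on `DD q`

`isLocalMax_of_curve`: `Tendsto c (𝓝 t) (𝓝[DD q] k)` and `Filter.Tendsto.eventually`.
`not_localMax_of_deriv2`: `R a > 0` for small `a > t` (`hasDerivAt` of `R`), so `V' > 0` on `(t, t + ε)`, `V` is continuous at `t`,
`strictMonoOn_of_deriv_pos` on `Icc t (t + ε)`, so `V (t + ε') > V t` for all small `ε'`.
`Qk_perm`, `VV_perm` (`Phi_perm`), `localMaxOn_perm`: `k ↦ k ∘ σ` is a homeomorphism of `R4` preserving `DD q` and `VV`.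

-/

set_option autoImplicit false

namespace Pool.Agent.MidT

open MeasureTheory Set Filter Topology

theorem isLocalMax_of_curve (q : ℝ) (k : R4) (h : IsLocalMaxOn VV (DD q) k) (c : ℝ → R4) (t : ℝ)
    (hc : ContinuousAt c t) (h0 : c t = k) (hD : ∀ᶠ s in 𝓝 t, c s ∈ DD q) :
    IsLocalMax (fun s => VV (c s)) t := by
  have h1 : Tendsto c (𝓝 t) (𝓝[DD q] k) := by
    rw [← h0]
    exact tendsto_nhdsWithin_iff.2 ⟨hc, hD⟩
  have h2 := h1.eventually h
  rw [← h0] at h2
  exact h2

theorem not_localMax_of_deriv2 (V R : ℝ → ℝ) (C : ℝ → ℝ) (R' t : ℝ)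
    (hV : ∀ᶠ s in 𝓝 t, HasDerivAt V (C s * R s) s) (hC : ∀ᶠ s in 𝓝 t, 0 < C s)
    (hR0 : R t = 0) (hR : HasDerivAt R R' t) (hR' : 0 < R') : ¬ IsLocalMax V t := by
  intro hmax
  have h1 : ∀ᶠ s in 𝓝[≠] t, 0 < slope R t s := by
    have := hasDerivAt_iff_tendsto_slope.1 hR
    exact this.eventually (lt_mem_nhds hR')
  have h2 : ∀ᶠ s in 𝓝 t, s ≠ t → 0 < slope R t s := by
    rw [eventually_nhdsWithin_iff] at h1
    exact h1
  have h3 : ∀ᶠ s in 𝓝 t, V s ≤ V t := hmax
  obtain ⟨ε, hε, hall⟩ := Metric.eventually_nhds_iff.1 (hV.and (hC.and (h2.and h3)))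
  have hb : ∀ s, t ≤ s → s ≤ t + ε / 2 → dist s t < ε := by
    intro s hs1 hs2
    rw [Real.dist_eq, abs_of_nonneg (by linarith)]
    linarith
  have hmono : StrictMonoOn V (Icc t (t + ε / 2)) := by
    apply strictMonoOn_of_deriv_pos (convex_Icc _ _)
    · intro s hs
      exact (hall (hb s hs.1 hs.2)).1.continuousAt.continuousWithinAt
    · intro s hs
      rw [interior_Icc] at hs
      have hh := hall (hb s hs.1.le hs.2.le)
      rw [hh.1.deriv]
      have h4 := hh.2.2.1 (ne_of_gt hs.1)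
      rw [slope_def_field, hR0, sub_zero] at h4
      have h5 : 0 < s - t := by linarith [hs.1]
      have h6 : 0 < R s := by
        by_contra hcon
        have : R s / (s - t) ≤ 0 := div_nonpos_of_nonpos_of_nonneg (not_lt.1 hcon) h5.le
        linarith
      exact mul_pos hh.2.1 h6
  have h7 := hmono (left_mem_Icc.2 (by linarith)) (right_mem_Icc.2 (by linarith))
    (by linarith : t < t + ε / 2)
  have h8 := (hall (hb (t + ε / 2) (by linarith) le_rfl)).2.2.2
  linarith

theorem Qk_perm (k : R4) (σ : Equiv.Perm (Fin 4)) : Qk (fun i => k (σ i)) = Qk k := by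
  unfold Qk
  rw [Equiv.sum_comp σ k, Equiv.sum_comp σ (fun i => k i ^ 2)]

theorem VV_perm (k : R4) (σ : Equiv.Perm (Fin 4)) : VV (fun i => k (σ i)) = VV k := by
  unfold VV
  rw [Qk_perm, Phi_perm]

theorem localMaxOn_perm (q : ℝ) (k : R4) (σ : Equiv.Perm (Fin 4)) (h : IsLocalMaxOn VV (DD q) k) :
    IsLocalMaxOn VV (DD q) (fun i => k (σ i)) := by
  have hcont : Continuous (fun x : R4 => (fun i => x (σ.symm i) : R4)) :=
    continuous_pi fun i => continuous_apply _
  have h1 : Tendsto (fun x : R4 => (fun i => x (σ.symm i) : R4)) (𝓝[DD q] (fun i => k (σ i)))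
      (𝓝[DD q] k) := by
    rw [tendsto_nhdsWithin_iff]
    constructor
    · have h2 := (hcont.tendsto (fun i => k (σ i))).mono_left
        (nhdsWithin_le_nhds (s := DD q))
      simpa using h2
    · refine eventually_nhdsWithin_of_forall fun x hx => ⟨fun i => hx.1 _, ?_⟩
      rw [Qk_perm x σ.symm]
      exact hx.2
  have h3 := h1.eventually h
  refine h3.mono fun x hx => ?_
  rw [VV_perm x σ.symm] at hx
  rw [VV_perm k σ]
  exact hx

end Pool.Agent.MidT
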