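import Pool.Agent.MidT.Crit

/-!
# MidT module CRITF: first order condition at a local maximum, one ideal vertex

`crit_face` (`k 0 = 1`, the others `> 1`).  Now `ζ` with `∑ k_i ζ_i = 0` and `ζ 0 = ζ 1 + ζ 2 + ζ 3` (i.e. `v 0 = 0`, `v = (nn ζ)/4`).
With `α_i = (k_i + 1)/2` (`i = 1, 2, 3`): `Qk (1, 2 α - 1) = 4 ((∑ α)² - 2 ∑ α²) - 4`, so the curve
`c(t) = (1, 2 λ(t) (α + t v/2) - 1)`, `λ(t) = √(((q+4)/4) / ((∑(α + t v/2))² - 2 ∑ (α + t v/2)²))` is in `DD q`, with `λ' 0 = 0`.
(the derivative of the form at `0` is `∑_{i≥1} v_i (∑ α - 2 α_i) = (1/2) ∑_{i ≥ 1} v_i (nn k i + ...)`; check: `∑ α - 2 α_i = (σ + 2)/2 - (k_i + 1) = n_i / 2`.)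
`schl_face` with `Z = {0}` (it needs the velocity on an interval: `c` is smooth near `0`; take `v(t) = deriv c t` or the explicit formula).
`crit_face_pair` (from `crit_face` with `ζ c = 1 + k d`, `ζ d = -(1 + k c)`, `ζ 0 = k d - k c`): put
`Π = (1+k 1)(1+k 2)(1+k 3)`, `e_0 = 1 + k 1 k 2 + k 1 k 3 + k 2 k 3`.  `4 + q + n_c² = 4 Π/(1 + k c)` for `c ≥ 1`, `4 + q + n_0² = 4 e_0`,
`N_c = T̂ - T_c` with `T̂ = T 1 + T 2 + T 3`; so `(T̂ - T_c)(1+k c)(1+k d)/Π - (T̂ - T_d)(1+k c)(1 + k d)/Π + T̂ (k d - k c)/e_0 = 0`, i.e.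
`(T_c - T_d) (1 + k c)(1 + k d) e_0 = T̂ Π (k d - k c)`.
-/

set_option autoImplicit false

namespace Pool.Agent.MidT

open MeasureTheory Set Filter Topology

theorem Qk_vec (A B C : ℝ) : Qk ![1, 2 * A - 1, 2 * B - 1, 2 * C - 1] =
    4 * (2 * (A * B + A * C + B * C) - A ^ 2 - B ^ 2 - C ^ 2) - 4 := by
  simp only [Qk, Fin.sum_univ_four, Matrix.cons_val_zero, Matrix.cons_val_one, Matrix.cons_val]
  ring

theorem dV_face (x y z : ℝ) (hx : 1 < x) (hy : 1 < y) (hz : 1 < z) (hQ : 0 < Qk ![1, x, y, z])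
    (h : dV (fun i => if i ∈ ({0} : Finset (Fin 4)) then 0 else tau ((![1, x, y, z] : R4) i))
      ![1, x, y, z] ![0, -(1 + x), 1 + y, y - x] = 0) :
    (tau x - tau y) * (1 + x) * (1 + y) * (1 + x * y + x * z + y * z) =
      (tau x + tau y + tau z) * ((1 + x) * (1 + y) * (1 + z)) * (y - x) := by
  have hs : 0 < Real.sqrt (4 + Qk ![1, x, y, z]) := Real.sqrt_pos.2 (by linarith)
  unfold dV at h
  have h2 := (mul_eq_zero.1 h).resolve_left (by
    have : 1 / Real.sqrt (4 + Qk ![1, x, y, z]) ≠ 0 := by positivity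
    exact neg_ne_zero.2 this)
  have hQ2 : Qk ![1, x, y, z] = 2 * (x + y + z + x * y + x * z + y * z) - 1 - x ^ 2 - y ^ 2
      - z ^ 2 := by
    simp only [Qk, Fin.sum_univ_four, Matrix.cons_val_zero, Matrix.cons_val_one, Matrix.cons_val]
    ring
  have n0 : nn ![1, x, y, z] 0 = x + y + z - 1 := by
    simp only [nn, Fin.sum_univ_four, Matrix.cons_val_zero, Matrix.cons_val_one, Matrix.cons_val]
    ring
  have n1 : nn ![1, x, y, z] 1 = 1 - x + y + z := by
    simp only [nn, Fin.sum_univ_four, Matrix.cons_val_zero, Matrix.cons_val_one, Matrix.cons_val]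
    ring
  have n2 : nn ![1, x, y, z] 2 = 1 + x - y + z := by
    simp only [nn, Fin.sum_univ_four, Matrix.cons_val_zero, Matrix.cons_val_one, Matrix.cons_val]
    ring
  have n3 : nn ![1, x, y, z] 3 = 1 + x + y - z := by
    simp only [nn, Fin.sum_univ_four, Matrix.cons_val_zero, Matrix.cons_val_one, Matrix.cons_val]
    ring
  have v0 : nn ![0, -(1 + x), 1 + y, y - x] 0 = 2 * (y - x) := by
    simp only [nn, Fin.sum_univ_four, Matrix.cons_val_zero, Matrix.cons_val_one, Matrix.cons_val]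
    ring
  have v1 : nn ![0, -(1 + x), 1 + y, y - x] 1 = 2 * (1 + y) := by
    simp only [nn, Fin.sum_univ_four, Matrix.cons_val_zero, Matrix.cons_val_one, Matrix.cons_val]
    ring
  have v2 : nn ![0, -(1 + x), 1 + y, y - x] 2 = -(2 * (1 + x)) := by
    simp only [nn, Fin.sum_univ_four, Matrix.cons_val_zero, Matrix.cons_val_one, Matrix.cons_val]
    ring
  have v3 : nn ![0, -(1 + x), 1 + y, y - x] 3 = 0 := by
    simp only [nn, Fin.sum_univ_four, Matrix.cons_val_zero, Matrix.cons_val_one, Matrix.cons_val]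
    ring
  have hk0 : (∑ i, (![0, -(1 + x), 1 + y, y - x] : R4) i * nn ![1, x, y, z] i) = 0 := by
    rw [Fin.sum_univ_four, n0, n1, n2, n3]
    simp only [Matrix.cons_val_zero, Matrix.cons_val_one, Matrix.cons_val]
    ring
  have d0 : 4 + Qk ![1, x, y, z] + nn ![1, x, y, z] 0 ^ 2 = 4 * (1 + x * y + x * z + y * z) := by
    rw [hQ2, n0]; ring
  have d1 : 4 + Qk ![1, x, y, z] + nn ![1, x, y, z] 1 ^ 2 = 4 * ((1 + y) * (1 + z)) := by
    rw [hQ2, n1]; ring
  have d2 : 4 + Qk ![1, x, y, z] + nn ![1, x, y, z] 2 ^ 2 = 4 * ((1 + x) * (1 + z)) := by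
    rw [hQ2, n2]; ring
  have e0 : 0 < 1 + x * y + x * z + y * z := by positivity
  have ex : 0 < 1 + x := by linarith
  have ey : 0 < 1 + y := by linarith
  have ez : 0 < 1 + z := by linarith
  unfold om at h2
  rw [hk0] at h2
  simp only [Fin.sum_univ_four] at h2
  rw [d0, d1, d2, v0, v1, v2, v3] at h2
  have t0 : (if (0 : Fin 4) ∈ ({0} : Finset (Fin 4)) then (0 : ℝ) else tau ((![1, x, y, z] : R4) 0))
      = 0 := by simp
  have t1 : (if (1 : Fin 4) ∈ ({0} : Finset (Fin 4)) then (0 : ℝ) else tau ((![1, x, y, z] : R4) 1))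
      = tau x := by simp
  have t2 : (if (2 : Fin 4) ∈ ({0} : Finset (Fin 4)) then (0 : ℝ) else tau ((![1, x, y, z] : R4) 2))
      = tau y := by
    rw [if_neg (by decide)]
    rfl
  have t3 : (if (3 : Fin 4) ∈ ({0} : Finset (Fin 4)) then (0 : ℝ) else tau ((![1, x, y, z] : R4) 3))
      = tau z := by
    rw [if_neg (by decide)]
    rfl
  rw [t0, t1, t2, t3] at h2
  have hq4 : (4 + Qk ![1, x, y, z]) ≠ 0 := by
    have : 0 < 4 + Qk ![1, x, y, z] := by linarith
    exact this.ne'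
  have h3 : (tau x + tau y + tau z) * (y - x) / (1 + x * y + x * z + y * z)
      + (tau y - tau x) / (1 + z) = 0 := by
    have h4 : (4 + Qk ![1, x, y, z]) / 2 *
        ((tau x + tau y + tau z) * (y - x) / (1 + x * y + x * z + y * z)
          + (tau y - tau x) / (1 + z)) = 0 := by
      rw [← h2]
      field_simp
      ring
    exact (mul_eq_zero.1 h4).resolve_left (div_ne_zero hq4 two_ne_zero)
  have h5 : (tau x + tau y + tau z) * (y - x) * (1 + z) +
      (tau y - tau x) * (1 + x * y + x * z + y * z) = 0 := by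
    have := congrArg (fun w => w * ((1 + x * y + x * z + y * z) * (1 + z))) h3
    simp only [zero_mul] at this
    rw [← this]
    field_simp
  linear_combination (-(1 + x) * (1 + y)) * h5

theorem face12 (q : ℝ) (hq : 0 < q) (x y z : ℝ) (hx : 1 < x) (hy : 1 < y) (hz : 1 < z)
    (hQ : Qk ![1, x, y, z] = q) (h : IsLocalMaxOn VV (DD q) ![1, x, y, z]) :
    (tau x - tau y) * (1 + x) * (1 + y) * (1 + x * y + x * z + y * z) =
      (tau x + tau y + tau z) * ((1 + x) * (1 + y) * (1 + z)) * (y - x) := by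
  obtain ⟨a, rfl⟩ : ∃ a, x = 2 * a - 1 := ⟨(x + 1) / 2, by ring⟩
  obtain ⟨b, rfl⟩ : ∃ b, y = 2 * b - 1 := ⟨(y + 1) / 2, by ring⟩
  obtain ⟨g, rfl⟩ : ∃ g, z = 2 * g - 1 := ⟨(z + 1) / 2, by ring⟩
  have ha : 1 < a := by linarith
  have hb : 1 < b := by linarith
  have hg : 1 < g := by linarith
  apply dV_face _ _ _ hx hy hz (by rw [hQ]; exact hq)
  have hP : 0 < (q + 4) / 4 := by linarith
  have hP1 : 2 * (a * b + a * g + b * g) - a ^ 2 - b ^ 2 - g ^ 2 = (q + 4) / 4 := by
    rw [Qk_vec] at hQ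
    linarith
  generalize hP0 : (q + 4) / 4 = P at hP hP1
  have hqP : q = 4 * P - 4 := by linarith
  -- the scaling factor
  let L : ℝ → ℝ := fun t => Real.sqrt (P / (P - 4 * a * b * t ^ 2))
  let L' : ℝ → ℝ := fun t => L t * (4 * a * b * t) / (P - 4 * a * b * t ^ 2)
  let k : ℝ → R4 := fun t => ![1, 2 * (L t * (a - t * a)) - 1, 2 * (L t * (b + t * b)) - 1,
    2 * (L t * (g + t * (b - a))) - 1]
  let v : ℝ → R4 := fun t => ![0, 2 * (L' t * (a - t * a) + L t * (-a)),
    2 * (L' t * (b + t * b) + L t * b), 2 * (L' t * (g + t * (b - a)) + L t * (b - a))]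
  have hL0 : L 0 = 1 := by
    simp only [L]
    rw [show P - 4 * a * b * 0 ^ 2 = P by ring, div_self hP.ne', Real.sqrt_one]
  have hLd : ∀ t, 0 < P - 4 * a * b * t ^ 2 → HasDerivAt L (L' t) t := by
    intro t ht
    have h1 : HasDerivAt (fun t : ℝ => P - 4 * a * b * t ^ 2) (-(4 * a * b * (2 * t))) t := by
      have := ((hasDerivAt_pow 2 t).const_mul (4 * a * b)).const_sub P
      simpa using this
    have h2 : HasDerivAt (fun t : ℝ => P / (P - 4 * a * b * t ^ 2))
        ((0 * (P - 4 * a * b * t ^ 2) - P * (-(4 * a * b * (2 * t)))) /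
          (P - 4 * a * b * t ^ 2) ^ 2) t :=
      (hasDerivAt_const t P).div h1 ht.ne'
    have hpos : 0 < P / (P - 4 * a * b * t ^ 2) := by positivity
    have h3 := h2.sqrt hpos.ne'
    have hLt : 0 < L t := Real.sqrt_pos.2 hpos
    have hsq : L t * L t = P / (P - 4 * a * b * t ^ 2) := Real.mul_self_sqrt hpos.le
    have h4 : (0 * (P - 4 * a * b * t ^ 2) - P * (-(4 * a * b * (2 * t)))) /
          (P - 4 * a * b * t ^ 2) ^ 2 / (2 * Real.sqrt (P / (P - 4 * a * b * t ^ 2))) = L' t := by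
      have h5 : Real.sqrt (P / (P - 4 * a * b * t ^ 2)) = L t := rfl
      rw [h5]
      simp only [L']
      rw [div_eq_iff (by positivity)]
      have h6 : L t * (4 * a * b * t) / (P - 4 * a * b * t ^ 2) * (2 * L t) =
          (L t * L t) * ((8 * a * b * t) / (P - 4 * a * b * t ^ 2)) := by ring
      rw [h6, hsq]
      field_simp
      ring
    rw [h4] at h3
    exact h3
  have hdenc : Continuous (fun t : ℝ => P - 4 * a * b * t ^ 2) := by fun_prop
  have hden0 : 0 < P - 4 * a * b * (0 : ℝ) ^ 2 := by simpa using hP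
  have hLc0 : ContinuousAt L 0 := (hLd 0 hden0).continuousAt
  have ev1 : ∀ᶠ t in 𝓝 (0 : ℝ), 0 < P - 4 * a * b * t ^ 2 :=
    hdenc.continuousAt.eventually (lt_mem_nhds hden0)
  have evA : ∀ᶠ t in 𝓝 (0 : ℝ), 1 < 2 * (L t * (a - t * a)) - 1 := by
    have hc : ContinuousAt (fun t => 2 * (L t * (a - t * a)) - 1) 0 := by fun_prop
    have h0 : 1 < 2 * (L 0 * (a - 0 * a)) - 1 := by rw [hL0]; linarith
    exact hc.eventually (lt_mem_nhds h0)
  have evB : ∀ᶠ t in 𝓝 (0 : ℝ), 1 < 2 * (L t * (b + t * b)) - 1 := by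
    have hc : ContinuousAt (fun t => 2 * (L t * (b + t * b)) - 1) 0 := by fun_prop
    have h0 : 1 < 2 * (L 0 * (b + 0 * b)) - 1 := by rw [hL0]; linarith
    exact hc.eventually (lt_mem_nhds h0)
  have evC : ∀ᶠ t in 𝓝 (0 : ℝ), 1 < 2 * (L t * (g + t * (b - a))) - 1 := by
    have hc : ContinuousAt (fun t => 2 * (L t * (g + t * (b - a))) - 1) 0 := by fun_prop
    have h0 : 1 < 2 * (L 0 * (g + 0 * (b - a))) - 1 := by rw [hL0]; linarith
    exact hc.eventually (lt_mem_nhds h0)
  obtain ⟨ε, hε, hall⟩ := Metric.eventually_nhds_iff.1 (ev1.and (evA.and (evB.and evC)))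
  have hin : ∀ t ∈ Ioo (-ε) ε, dist t 0 < ε := by
    intro t ht
    rw [Real.dist_eq, sub_zero, abs_lt]
    exact ht
  have hQk : ∀ t ∈ Ioo (-ε) ε, Qk (k t) = q := by
    intro t ht
    have h1 := (hall (hin t ht)).1
    have hpos : 0 < P / (P - 4 * a * b * t ^ 2) := by positivity
    have hsq : L t * L t = P / (P - 4 * a * b * t ^ 2) := Real.mul_self_sqrt hpos.le
    simp only [k]
    rw [Qk_vec]
    have h2 : 2 * (L t * (a - t * a) * (L t * (b + t * b)) +
        L t * (a - t * a) * (L t * (g + t * (b - a))) +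
        L t * (b + t * b) * (L t * (g + t * (b - a)))) - (L t * (a - t * a)) ^ 2 -
        (L t * (b + t * b)) ^ 2 - (L t * (g + t * (b - a))) ^ 2 =
        (L t * L t) * ((2 * (a * b + a * g + b * g) - a ^ 2 - b ^ 2 - g ^ 2)
          - 4 * a * b * t ^ 2) := by ring
    rw [h2, hsq, hP1, div_mul_cancel₀ _ h1.ne', hqP]
  have hkd : ∀ t ∈ Ioo (-ε) ε, HasDerivAt k (v t) t := by
    intro t ht
    have h1 := hLd t (hall (hin t ht)).1
    rw [hasDerivAt_pi]
    intro i
    fin_cases i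
    · exact hasDerivAt_const t 1
    · have h2 : HasDerivAt (fun t : ℝ => a - t * a) (-a) t := by
        have := ((hasDerivAt_id t).mul_const a).const_sub a
        simpa using this
      exact ((h1.mul h2).const_mul 2).sub_const 1
    · have h2 : HasDerivAt (fun t : ℝ => b + t * b) b t := by
        have := ((hasDerivAt_id t).mul_const b).const_add b
        simpa using this
      exact ((h1.mul h2).const_mul 2).sub_const 1
    · have h2 : HasDerivAt (fun t : ℝ => g + t * (b - a)) (b - a) t := by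
        have := ((hasDerivAt_id t).mul_const (b - a)).const_add g
        simpa using this
      exact ((h1.mul h2).const_mul 2).sub_const 1
  have hLc : ContinuousOn L (Ioo (-ε) ε) := fun t ht =>
    (hLd t (hall (hin t ht)).1).continuousAt.continuousWithinAt
  have hLc' : ContinuousOn L' (Ioo (-ε) ε) := by
    apply ContinuousOn.div
    · exact hLc.mul (by fun_prop)
    · exact hdenc.continuousOn
    · intro t ht
      exact (hall (hin t ht)).1.ne'
  have hv : ContinuousOn v (Ioo (-ε) ε) := by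
    rw [continuousOn_pi]
    intro i
    fin_cases i
    · exact continuousOn_const
    · exact ((hLc'.mul (by fun_prop)).add (hLc.mul continuousOn_const)).const_mul 2
    · exact ((hLc'.mul (by fun_prop)).add (hLc.mul continuousOn_const)).const_mul 2
    · exact ((hLc'.mul (by fun_prop)).add (hLc.mul continuousOn_const)).const_mul 2
  have h0mem : (0 : ℝ) ∈ Ioo (-ε) ε := ⟨by linarith, hε⟩
  have hZ : ∀ t ∈ Ioo (-ε) ε, ∀ i ∈ ({0} : Finset (Fin 4)), k t i = 1 := by
    intro t ht i hi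
    rw [Finset.mem_singleton] at hi
    rw [hi]
    rfl
  have hgt : ∀ t ∈ Ioo (-ε) ε, ∀ i, i ∉ ({0} : Finset (Fin 4)) → 1 < k t i := by
    intro t ht i hi
    have h1 := (hall (hin t ht)).2
    fin_cases i
    · exact absurd (Finset.mem_singleton_self _) hi
    · exact h1.1
    · exact h1.2.1
    · exact h1.2.2
  have hmain := schl_face k v (-ε) ε {0} hkd hv hZ hgt
    (fun t ht => by rw [hQk t ht]; linarith) 0 h0mem
  have hk0 : k 0 = ![1, 2 * a - 1, 2 * b - 1, 2 * g - 1] := by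
    simp only [k, hL0]
    simp
  have hL'0 : L' 0 = 0 := by simp [L']
  have hv0 : v 0 = ![0, -(1 + (2 * a - 1)), 1 + (2 * b - 1), 2 * b - 1 - (2 * a - 1)] := by
    simp only [v, hL0, hL'0]
    ext i
    fin_cases i
    · rfl
    · simp
    · simp
    · simp
      ring
  have hloc : IsLocalMax (fun s => VV (k s)) 0 := by
    apply isLocalMax_of_curve q _ h k 0 (hkd 0 h0mem).continuousAt hk0
    filter_upwards [Ioo_mem_nhds h0mem.1 h0mem.2] with t ht
    refine ⟨fun i => ?_, hQk t ht⟩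
    by_cases hi : i ∈ ({0} : Finset (Fin 4))
    · exact (hZ t ht i hi).ge
    · exact (hgt t ht i hi).le
  have hz := hloc.hasDerivAt_eq_zero hmain
  rw [hk0, hv0] at hz
  exact hz

theorem crit_face_pair (q : ℝ) (hq : 0 < q) (k : R4) (h0 : k 0 = 1) (hk : ∀ i, i ≠ 0 → 1 < k i)
    (hQ : Qk k = q) (h : IsLocalMaxOn VV (DD q) k) (c d : Fin 4) (hc : c ≠ 0) (hd : d ≠ 0) :
    (tau (k c) - tau (k d)) * (1 + k c) * (1 + k d) * (1 + k 1 * k 2 + k 1 * k 3 + k 2 * k 3) =
      (tau (k 1) + tau (k 2) + tau (k 3)) * ((1 + k 1) * (1 + k 2) * (1 + k 3)) * (k d - k c) := by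
  have key : ∀ σ : Equiv.Perm (Fin 4), σ 0 = 0 →
      (tau (k (σ 1)) - tau (k (σ 2))) * (1 + k (σ 1)) * (1 + k (σ 2)) *
        (1 + k (σ 1) * k (σ 2) + k (σ 1) * k (σ 3) + k (σ 2) * k (σ 3)) =
      (tau (k (σ 1)) + tau (k (σ 2)) + tau (k (σ 3))) *
        ((1 + k (σ 1)) * (1 + k (σ 2)) * (1 + k (σ 3))) * (k (σ 2) - k (σ 1)) := by
    intro σ hσ
    have e : (fun i => k (σ i)) = ![1, k (σ 1), k (σ 2), k (σ 3)] := by
      ext i
      fin_cases i
      · simp [hσ, h0]
      · rfl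
      · rfl
      · rfl
    have hne : ∀ j : Fin 4, j ≠ 0 → σ j ≠ 0 := by
      intro j hj hcon
      apply hj
      apply σ.injective
      rw [hcon, hσ]
    apply face12 q hq _ _ _ (hk _ (hne 1 (by decide))) (hk _ (hne 2 (by decide)))
      (hk _ (hne 3 (by decide)))
    · rw [← e, Qk_perm, hQ]
    · rw [← e]
      exact localMaxOn_perm q k σ h
  have k12 := key (Equiv.refl _) rfl
  have k13 := key (Equiv.swap 2 3) (by decide)
  have k32 := key (Equiv.swap 1 3) (by decide)
  have s1 : (Equiv.swap (2 : Fin 4) 3) 1 = 1 := by decide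
  have s2 : (Equiv.swap (2 : Fin 4) 3) 2 = 3 := by decide
  have s3 : (Equiv.swap (2 : Fin 4) 3) 3 = 2 := by decide
  have r1 : (Equiv.swap (1 : Fin 4) 3) 1 = 3 := by decide
  have r2 : (Equiv.swap (1 : Fin 4) 3) 2 = 2 := by decide
  have r3 : (Equiv.swap (1 : Fin 4) 3) 3 = 1 := by decide
  simp only [Equiv.refl_apply] at k12
  rw [s1, s2, s3] at k13
  rw [r1, r2, r3] at k32
  have hcs : c = 1 ∨ c = 2 ∨ c = 3 := by
    fin_cases c
    · exact absurd rfl hc
    · left; rfl
    · right; left; rfl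
    · right; right; rfl
  have hds : d = 1 ∨ d = 2 ∨ d = 3 := by
    fin_cases d
    · exact absurd rfl hd
    · left; rfl
    · right; left; rfl
    · right; right; rfl
  rcases hcs with rfl | rfl | rfl <;> rcases hds with rfl | rfl | rfl
  · ring
  · linear_combination k12
  · linear_combination k13
  · linear_combination -k12
  · ring
  · linear_combination -k32
  · linear_combination -k13
  · linear_combination k32
  · ring

end Pool.Agent.MidT
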