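import Pool.Agent.MidT.Crit

/-!
# MidT module CRITI: first order condition at a local maximum, all vertices proper

`crit_int` (all `k_i > 1`).  For `ζ` with `∑ k_i ζ_i = 0` put `v = (nn ζ)/4`, so `nn v = ζ` (`nn_nn`, linearity) and
`∑ v_i nn k i = ∑ ζ_i k_i = 0`.  The curve `c(t) = √(q / Qk (k + t v)) • (k + t v)` lies in `DD q` for small `t` (`Qk (λ x) = λ² Qk x`),
`c 0 = k`, `c' 0 = v` (the derivative of `Qk (k + t v)` at `0` is `2 ∑ v_i nn k i = 0`).  `schl` at `t = 0` gives the derivative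
`dV T k v = -(1/√(4+q)) ∑_c N_c (4+q) ζ_c / (4 + q + n_c²)`, which vanishes (`IsLocalMax.hasDerivAt_eq_zero`).
`crit_pair`: `ζ = k_d e_c - k_c e_d`.

-/

set_option autoImplicit false

namespace Pool.Agent.MidT

open MeasureTheory Set Filter Topology

theorem Qk_line (k v : R4) (hv : ∑ i, v i * nn k i = 0) (t : ℝ) :
    Qk (fun i => k i + t * v i) = Qk k + t ^ 2 * Qk v := by
  have h : Qk (fun i => k i + t * v i) = Qk k + t ^ 2 * Qk v + 2 * t * ∑ i, v i * nn k i := by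
    unfold Qk nn
    simp only [Fin.sum_univ_four]
    ring
  rw [h, hv]; ring

theorem Qk_smul (s : ℝ) (k : R4) : Qk (fun i => s * k i) = s ^ 2 * Qk k := by
  unfold Qk
  simp only [Fin.sum_univ_four]
  ring

theorem crit_int (q : ℝ) (hq : 0 < q) (k : R4) (hk : ∀ i, 1 < k i) (hQ : Qk k = q)
    (h : IsLocalMaxOn VV (DD q) k) (ζ : R4) (hζ : ∑ i, k i * ζ i = 0) :
    ∑ c, ((∑ j, tau (k j)) - tau (k c)) * ζ c / (4 + q + nn k c ^ 2) = 0 := by
  obtain ⟨v, hvdef⟩ : ∃ v : R4, v = fun i => nn ζ i / 4 := ⟨_, rfl⟩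
  have hv0 : ∑ i, v i * nn k i = 0 := by
    rw [hvdef, ← hζ]
    unfold nn
    simp only [Fin.sum_univ_four]
    ring
  have hnv : ∀ c, nn v c = ζ c := by
    intro c
    have h1 : nn v c = nn (nn ζ) c / 4 := by
      rw [hvdef]; unfold nn; simp only [Fin.sum_univ_four]; ring
    rw [h1, nn_nn]; ring
  obtain ⟨g, hg⟩ : ∃ g : ℝ → ℝ, g = fun t => q + t ^ 2 * Qk v := ⟨_, rfl⟩
  obtain ⟨s, hs⟩ : ∃ s : ℝ → ℝ, s = fun t => Real.sqrt (q / g t) := ⟨_, rfl⟩
  obtain ⟨c, hc⟩ : ∃ c : ℝ → R4, c = fun t i => s t * (k i + t * v i) := ⟨_, rfl⟩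
  have hg0 : g 0 = q := by rw [hg]; ring
  have hgd : HasDerivAt g 0 0 := by
    rw [hg]
    have h1 : HasDerivAt (fun t : ℝ => q + t ^ 2 * Qk v) ((2 : ℕ) * (0 : ℝ) ^ (2 - 1) * 1 * Qk v) 0 :=
      (((hasDerivAt_id (0 : ℝ)).pow 2).mul_const (Qk v)).const_add q
    simpa using h1
  have hs0 : s 0 = 1 := by rw [hs]; simp only; rw [hg0, div_self hq.ne']; simp
  have hsd : HasDerivAt s 0 0 := by
    have h1 : HasDerivAt (fun t => q / g t) ((0 * g 0 - q * 0) / g 0 ^ 2) 0 :=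
      (hasDerivAt_const (0 : ℝ) q).div hgd (by rw [hg0]; exact hq.ne')
    have h2 := h1.sqrt (by rw [hg0, div_self hq.ne']; norm_num)
    rw [hs]
    simpa using h2
  have hc0 : c 0 = k := by rw [hc]; funext i; simp [hs0]
  have hcd : HasDerivAt c v 0 := by
    rw [hc, hasDerivAt_pi]
    intro i
    have h1 : HasDerivAt (fun t : ℝ => k i + t * v i) (1 * v i) 0 :=
      ((hasDerivAt_id (0 : ℝ)).mul_const (v i)).const_add (k i)
    have h2 : HasDerivAt (fun t : ℝ => s t * (k i + t * v i))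
      (0 * (k i + 0 * v i) + s 0 * (1 * v i)) 0 := hsd.mul h1
    have h3 : (0 * (k i + 0 * v i) + s 0 * (1 * v i)) = v i := by rw [hs0]; ring
    rw [h3] at h2
    exact h2
  have hD : ∀ᶠ t in 𝓝 (0 : ℝ), c t ∈ DD q := by
    have h1 : ∀ᶠ t in 𝓝 (0 : ℝ), 0 < g t :=
      hgd.continuousAt.eventually (lt_mem_nhds (by rw [hg0]; exact hq))
    have h2 : ∀ᶠ t in 𝓝 (0 : ℝ), ∀ i, 1 < c t i := by
      rw [Filter.eventually_all]
      intro i
      have h3 : ContinuousAt (fun t => c t i) 0 := (continuousAt_pi.1 hcd.continuousAt) i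
      exact h3.eventually (lt_mem_nhds (by show 1 < c 0 i; rw [hc0]; exact hk i))
    filter_upwards [h1, h2] with t ht1 ht2
    refine ⟨fun i => (ht2 i).le, ?_⟩
    have h4 : c t = fun i => s t * (fun i => k i + t * v i) i := by rw [hc]
    rw [h4, Qk_smul, Qk_line k v hv0, hQ, hs]
    simp only
    rw [Real.sq_sqrt (by positivity)]
    rw [hg] at ht1 ⊢
    simp only at ht1 ⊢
    field_simp
  have hmax := isLocalMax_of_curve q k h c 0 hcd.continuousAt hc0 hD
  have hder := schl c v 0 hcd (by intro i; rw [hc0]; exact hk i) (by rw [hc0, hQ]; linarith)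
  have hz := hmax.hasDerivAt_eq_zero hder
  rw [hc0] at hz
  unfold dV om at hz
  rw [hQ, hv0] at hz
  have h4q : 0 < 4 + q := by linarith
  have hsq : 0 < Real.sqrt (4 + q) := Real.sqrt_pos.2 h4q
  have h5 : ∑ c, ((∑ j, tau (k j)) - tau (k c)) *
      (((4 + q) * nn v c - 0 * nn k c) / (4 + q + nn k c ^ 2)) = 0 := by
    rcases mul_eq_zero.1 hz with h6 | h6
    · exfalso
      rw [neg_eq_zero, one_div, inv_eq_zero] at h6
      exact hsq.ne' h6
    · exact h6
  have h7 : ∑ c, ((∑ j, tau (k j)) - tau (k c)) *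
      (((4 + q) * nn v c - 0 * nn k c) / (4 + q + nn k c ^ 2)) =
      (4 + q) * ∑ c, ((∑ j, tau (k j)) - tau (k c)) * ζ c / (4 + q + nn k c ^ 2) := by
    rw [Finset.mul_sum]
    apply Finset.sum_congr rfl
    intro c _
    rw [hnv c]
    ring
  rw [h7] at h5
  exact (mul_eq_zero.1 h5).resolve_left h4q.ne'

theorem crit_pair (q : ℝ) (hq : 0 < q) (k : R4) (hk : ∀ i, 1 < k i) (hQ : Qk k = q)
    (h : IsLocalMaxOn VV (DD q) k) (c d : Fin 4) :
    ((∑ j, tau (k j)) - tau (k c)) * k d * (4 + q + nn k d ^ 2) =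
      ((∑ j, tau (k j)) - tau (k d)) * k c * (4 + q + nn k c ^ 2) := by
  by_cases hcd : c = d
  · rw [hcd]
  have h1 := crit_int q hq k hk hQ h
    (fun i => (if i = c then k d else 0) - (if i = d then k c else 0)) (by
      simp only [mul_sub, mul_ite, mul_zero, Finset.sum_sub_distrib, Finset.sum_ite_eq',
        Finset.mem_univ, if_true]
      ring)
  have h2 : ∀ i, ((∑ j, tau (k j)) - tau (k i)) *
      ((if i = c then k d else 0) - (if i = d then k c else 0)) / (4 + q + nn k i ^ 2)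
      = (if i = c then ((∑ j, tau (k j)) - tau (k i)) * k d / (4 + q + nn k i ^ 2) else 0)
        - (if i = d then ((∑ j, tau (k j)) - tau (k i)) * k c / (4 + q + nn k i ^ 2) else 0) := by
    intro i
    split_ifs <;> ring
  simp only [h2, Finset.sum_sub_distrib, Finset.sum_ite_eq', Finset.mem_univ, if_true] at h1
  have hc : 0 < 4 + q + nn k c ^ 2 := by positivity
  have hd : 0 < 4 + q + nn k d ^ 2 := by positivity
  rw [sub_eq_zero, div_eq_div_iff hc.ne' hd.ne'] at h1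
  exact h1

end Pool.Agent.MidT
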