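import Mathlib

/-!
# Midscribed tetrahedra in hyperbolic 3-space: definitions for the supremum of the volumes

A tetrahedron midscribed to a ball of radius `r` (all six edges tangent) has four tangent lengths
`τ_i` (the edge `ij` has length `τ_i + τ_j`).  Put `k_i = coth τ_i > 1`.  Then
`Qk k = (∑ k_i)² - 2 ∑ k_i² = 4 / sinh² r`, and every such `k` occurs.  The volume is
`VV k = √(4 + Qk k) * Phi k`, `Phi k = ∫_{y > 0} exp (- qf k y / 2) dy` (4-dimensional orthant),
`qf k y = (k · y)² + (∑ y)² - 2 ∑ y²` (Gram form of the vertices in the Lorentz space).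
`k_i = 1` is an ideal vertex.  `tau x = arcoth x`.
-/

set_option autoImplicit false

namespace Pool.Agent.MidT

open MeasureTheory

abbrev R4 := Fin 4 → ℝ

/-- the Gram form -/
def qf (k y : R4) : ℝ := (∑ i, k i * y i) ^ 2 + (∑ i, y i) ^ 2 - 2 * ∑ i, y i ^ 2

/-- the open orthant -/
def Orth (n : ℕ) : Set (Fin n → ℝ) := {y | ∀ i, 0 < y i}

/-- the Gaussian integral -/
noncomputable def Phi (k : R4) : ℝ := ∫ y in Orth 4, Real.exp (-(qf k y) / 2)

/-- the Descartes form -/
def Qk (k : R4) : ℝ := (∑ i, k i) ^ 2 - 2 * ∑ i, k i ^ 2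

/-- the volume -/
noncomputable def VV (k : R4) : ℝ := Real.sqrt (4 + Qk k) * Phi k

/-- `arcoth` -/
noncomputable def tau (x : ℝ) : ℝ := Real.log ((x + 1) / (x - 1)) / 2

/-- `n_c = σ - 2 k_c` -/
def nn (k : R4) (c : Fin 4) : ℝ := (∑ i, k i) - 2 * k c

/-- derivative of `(2/ρ) * arctan (ρ n_c / 2)`, `ρ = 2 / √(4 + Qk k)`, in the direction `v` -/
noncomputable def om (k v : R4) (c : Fin 4) : ℝ :=
  ((4 + Qk k) * nn v c - (∑ i, v i * nn k i) * nn k c) / (4 + Qk k + nn k c ^ 2)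

/-- the differential of the volume at `k` in the direction `v`, `T i = tau (k i)` (or `0` if the
vertex `i` is ideal) -/
noncomputable def dV (T k v : R4) : ℝ :=
  -(1 / Real.sqrt (4 + Qk k)) * ∑ c, ((∑ j, T j) - T c) * om k v c

/-- the closed domain -/
def DD (q : ℝ) : Set R4 := {k | (∀ i, 1 ≤ k i) ∧ Qk k = q}

/-- the volume of the tetrahedron with parameters `1, k, k, k` (one ideal vertex) -/
noncomputable def W1 (k : ℝ) : ℝ :=
  3 * Real.sqrt 3 * ∫ x in Set.Ioi k, tau x / (3 * x ^ 2 + 1)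

/-- the volume of the tetrahedron with parameters `1, 1, k, k` (two ideal vertices) -/
noncomputable def W2 (k : ℝ) : ℝ :=
  3 * ∫ x in Set.Ioi k, tau x / ((1 + x) * Real.sqrt (1 + 2 * x))

/-- the volume of the tetrahedron with parameters `1, 1, 1, k` (three ideal vertices) -/
noncomputable def W3 (k : ℝ) : ℝ :=
  W2 1 - 3 / 2 * ∫ x in (1 : ℝ)..k, tau x / Real.sqrt ((7 - x) * (1 + x))

/-! ## Algebraic facts -/

theorem four_add (k : R4) (c : Fin 4) :
    4 + Qk k + nn k c ^ 2 = 4 * (1 + ((∑ i, k i) - k c) ^ 2 / 2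
      - ((∑ i, k i ^ 2) - k c ^ 2) / 2) := by
  unfold Qk nn
  ring

theorem den_pos (k : R4) (hq : 0 < 4 + Qk k) (c : Fin 4) : 0 < 4 + Qk k + nn k c ^ 2 := by
  positivity

theorem Qk_eq (k : R4) : Qk k = ∑ i, k i * nn k i := by
  unfold Qk nn
  simp only [Fin.sum_univ_four]
  ring

theorem nn_nn (k : R4) (c : Fin 4) : nn (nn k) c = 4 * k c := by
  fin_cases c <;> simp [nn, Fin.sum_univ_four] <;> ring

theorem tau_pos (x : ℝ) (hx : 1 < x) : 0 < tau x := by
  unfold tau
  have h : 1 < (x + 1) / (x - 1) := by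
    rw [lt_div_iff₀ (by linarith)]
    linarith
  have := Real.log_pos h
  positivity

theorem tau_hasDerivAt (x : ℝ) (hx : 1 < x) : HasDerivAt tau (-(1 / (x ^ 2 - 1))) x := by
  unfold tau
  have h1 : x - 1 ≠ 0 := by intro h; linarith
  have h2 : x + 1 ≠ 0 := by intro h; linarith
  have h3 : HasDerivAt (fun x : ℝ => (x + 1) / (x - 1))
      ((1 * (x - 1) - (x + 1) * 1) / (x - 1) ^ 2) x :=
    ((hasDerivAt_id x).add_const 1).div ((hasDerivAt_id x).sub_const 1) h1
  have h4 := (h3.log (div_ne_zero h2 h1)).div_const 2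
  have key : (1 * (x - 1) - (x + 1) * 1) / (x - 1) ^ 2 / ((x + 1) / (x - 1)) / 2
      = -(1 / (x ^ 2 - 1)) := by
    rw [show x ^ 2 - 1 = (x - 1) * (x + 1) by ring]
    field_simp
    ring
  rw [key] at h4
  exact h4

end Pool.Agent.MidT
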