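import Pool.Agent.MidT.Dom3

/-!
# MidT module DIFF: `Phi` is differentiable where all `k_i > 1`

For `k_i ≥ 1 + δ`: `qf k y ≥ δ' ∑ y_i²` on the orthant (`k_i² - 1 ≥ δ'`, off-diagonal terms `≥ 0`), so all functions
`y_i y_j exp (- qf k y / 2)` are integrable (product of one-dimensional Gaussians,
`integrable_exp_neg_mul_sq`, or `|y|² e^{-δ'|y|²/2} ≤ C e^{-δ'|y|²/4}`), locally uniformly in `k`.
`hasFDerivAt_integral_of_dominated_of_fderiv_le` with derivative of the integrand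
`v ↦ - (k · y) (v · y) exp (- qf k y / 2)` (note `∂_v (qf k y / 2) = (k · y) (v · y)`).
-/

set_option autoImplicit false

namespace Pool.Agent.MidT

open MeasureTheory

/-- the second moments -/
noncomputable def Mm (k : R4) (i j : Fin 4) : ℝ :=
  ∫ y in Orth 4, y i * y j * Real.exp (-(qf k y) / 2)

theorem qf_ge_sq (k y : R4) (δ : ℝ) (hδ : 0 ≤ δ) (hk : ∀ i, 1 + δ ≤ k i) (hy : ∀ i, 0 ≤ y i) :
    δ * ∑ i, y i ^ 2 ≤ qf k y := by
  have h1 : qf k y = (∑ i, (k i ^ 2 - 1) * y i ^ 2) +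
      2 * ((k 0 * k 1 + 1) * (y 0 * y 1) + (k 0 * k 2 + 1) * (y 0 * y 2) +
      (k 0 * k 3 + 1) * (y 0 * y 3) + (k 1 * k 2 + 1) * (y 1 * y 2) +
      (k 1 * k 3 + 1) * (y 1 * y 3) + (k 2 * k 3 + 1) * (y 2 * y 3)) := by
    simp only [qf, Fin.sum_univ_four]
    ring
  have hk0 : ∀ i, 0 ≤ k i := fun i => by linarith [hk i]
  have h2 : δ * ∑ i, y i ^ 2 ≤ ∑ i, (k i ^ 2 - 1) * y i ^ 2 := by
    rw [Finset.mul_sum]
    refine Finset.sum_le_sum fun i _ => ?_
    refine mul_le_mul_of_nonneg_right ?_ (sq_nonneg _)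
    nlinarith [hk i, hk0 i]
  have h3 : ∀ i j, 0 ≤ (k i * k j + 1) * (y i * y j) := fun i j =>
    mul_nonneg (by have := mul_nonneg (hk0 i) (hk0 j); linarith) (mul_nonneg (hy i) (hy j))
  rw [h1]
  have := h3 0 1
  have := h3 0 2
  have := h3 0 3
  have := h3 1 2
  have := h3 1 3
  have := h3 2 3
  linarith

namespace DiffAux

theorem orth_meas : MeasurableSet (Orth 4) := by
  have h : Orth 4 = ⋂ i, {y : R4 | 0 < y i} := by
    ext y
    simp [Orth]
  rw [h]
  exact MeasurableSet.iInter fun i => measurableSet_lt measurable_const (measurable_pi_apply i)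

theorem gauss_int {b : ℝ} (hb : 0 < b) :
    Integrable (fun y : R4 => Real.exp (-b * ∑ i, y i ^ 2)) := by
  have h1 : (fun y : R4 => Real.exp (-b * ∑ i, y i ^ 2)) =
      fun y : R4 => ∏ i, Real.exp (-b * y i ^ 2) := by
    funext y
    rw [← Real.exp_sum, Finset.mul_sum]
  rw [h1]
  exact Integrable.fintype_prod (f := fun _ : Fin 4 => fun x : ℝ => Real.exp (-b * x ^ 2))
    fun _ => integrable_exp_neg_mul_sq hb

theorem qf_cont (k : R4) : Continuous (fun y : R4 => qf k y) := by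
  unfold qf
  fun_prop

theorem exp_cont (k : R4) : Continuous (fun y : R4 => Real.exp (-(qf k y) / 2)) := by
  have := qf_cont k
  fun_prop

theorem exists_delta (k : R4) (hk : ∀ i, 1 < k i) : ∃ δ : ℝ, 0 < δ ∧ ∀ i, 1 + 2 * δ ≤ k i := by
  obtain ⟨m, hm⟩ := Finite.exists_min k
  refine ⟨(k m - 1) / 2, by linarith [hk m], fun i => ?_⟩
  linarith [hm i]

theorem sq_exp_le {δ u : ℝ} (hδ : 0 < δ) : u * Real.exp (-(δ * u) / 2) ≤
    4 / δ * Real.exp (-(δ / 4) * u) := by
  have h1 : δ / 4 * u ≤ Real.exp (δ / 4 * u) := by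
    have := Real.add_one_le_exp (δ / 4 * u)
    linarith
  have h2 : Real.exp (-(δ * u) / 2) = Real.exp (-(δ / 4) * u) * Real.exp (-(δ / 4) * u) := by
    rw [← Real.exp_add]
    congr 1
    ring
  have h3 : Real.exp (δ / 4 * u) * Real.exp (-(δ / 4) * u) = 1 := by
    rw [← Real.exp_add]
    simp
  have h4 : u ≤ 4 / δ * Real.exp (δ / 4 * u) := by
    rw [div_mul_eq_mul_div, le_div_iff₀ hδ]
    linarith
  have hp := Real.exp_pos (-(δ / 4) * u)
  calc u * Real.exp (-(δ * u) / 2)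
      = u * Real.exp (-(δ / 4) * u) * Real.exp (-(δ / 4) * u) := by rw [h2]; ring
    _ ≤ 4 / δ * Real.exp (δ / 4 * u) * Real.exp (-(δ / 4) * u) * Real.exp (-(δ / 4) * u) := by
        gcongr
    _ = 4 / δ * (Real.exp (δ / 4 * u) * Real.exp (-(δ / 4) * u)) * Real.exp (-(δ / 4) * u) := by
        ring
    _ = 4 / δ * Real.exp (-(δ / 4) * u) := by rw [h3, mul_one]

theorem bound {k : R4} {δ : ℝ} (hδ : 0 < δ) (hk : ∀ i, 1 + δ ≤ k i) {y : R4}
    (hy : y ∈ Orth 4) : (∑ i, y i) ^ 2 * Real.exp (-(qf k y) / 2) ≤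
      16 / δ * Real.exp (-(δ / 4) * ∑ i, y i ^ 2) := by
  have hy0 : ∀ i, 0 ≤ y i := fun i => (hy i).le
  have h1 := qf_ge_sq k y δ hδ.le hk hy0
  have h2 : (∑ i, y i) ^ 2 ≤ 4 * ∑ i, y i ^ 2 := by
    simp only [Fin.sum_univ_four]
    nlinarith [sq_nonneg (y 0 - y 1), sq_nonneg (y 0 - y 2), sq_nonneg (y 0 - y 3),
      sq_nonneg (y 1 - y 2), sq_nonneg (y 1 - y 3), sq_nonneg (y 2 - y 3)]
  have h3 : Real.exp (-(qf k y) / 2) ≤ Real.exp (-(δ * ∑ i, y i ^ 2) / 2) := by
    apply Real.exp_le_exp.2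
    linarith
  have h4 := sq_exp_le (u := ∑ i, y i ^ 2) hδ
  have h5 : 0 ≤ ∑ i, y i ^ 2 := Finset.sum_nonneg fun i _ => sq_nonneg _
  calc (∑ i, y i) ^ 2 * Real.exp (-(qf k y) / 2)
      ≤ (4 * ∑ i, y i ^ 2) * Real.exp (-(δ * ∑ i, y i ^ 2) / 2) := by gcongr
    _ = 4 * ((∑ i, y i ^ 2) * Real.exp (-(δ * ∑ i, y i ^ 2) / 2)) := by ring
    _ ≤ 4 * (4 / δ * Real.exp (-(δ / 4) * ∑ i, y i ^ 2)) := by gcongr
    _ = 16 / δ * Real.exp (-(δ / 4) * ∑ i, y i ^ 2) := by ring

theorem le_sum {y : R4} (hy : y ∈ Orth 4) (i : Fin 4) : y i ≤ ∑ j, y j :=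
  Finset.single_le_sum (f := y) (fun j _ => (hy j).le) (Finset.mem_univ i)

theorem sum_nn {y : R4} (hy : y ∈ Orth 4) : 0 ≤ ∑ j, y j :=
  Finset.sum_nonneg fun j _ => (hy j).le

end DiffAux

open DiffAux

theorem integrable_mul (k : R4) (hk : ∀ i, 1 < k i) (i j : Fin 4) :
    IntegrableOn (fun y : R4 => y i * y j * Real.exp (-(qf k y) / 2)) (Orth 4) := by
  obtain ⟨δ, hδ, hkδ⟩ := exists_delta k hk
  have hg : IntegrableOn (fun y : R4 => 16 / δ * Real.exp (-(δ / 4) * ∑ i, y i ^ 2)) (Orth 4) :=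
    ((gauss_int (by positivity : (0 : ℝ) < δ / 4)).const_mul (16 / δ)).integrableOn
  refine Integrable.mono' hg ?_ ?_
  · have := exp_cont k
    exact Continuous.aestronglyMeasurable (by fun_prop)
  · filter_upwards [ae_restrict_mem orth_meas] with y hy
    have h1 : 0 ≤ y i * y j * Real.exp (-(qf k y) / 2) :=
      mul_nonneg (mul_nonneg (hy i).le (hy j).le) (Real.exp_pos _).le
    rw [Real.norm_eq_abs, abs_of_nonneg h1]
    have h2 : y i * y j ≤ (∑ i, y i) ^ 2 := by
      rw [sq]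
      exact mul_le_mul (le_sum hy i) (le_sum hy j) (hy j).le (sum_nn hy)
    have h3 := bound hδ (fun i => by linarith [hkδ i]) hy (k := k)
    calc y i * y j * Real.exp (-(qf k y) / 2)
        ≤ (∑ i, y i) ^ 2 * Real.exp (-(qf k y) / 2) := by gcongr
      _ ≤ _ := h3

namespace DiffAux

/-- the functional `v ↦ ∑ y_j v_j` -/
noncomputable def dotL (y : R4) : R4 →L[ℝ] ℝ :=
  ∑ j, y j • ContinuousLinearMap.proj (R := ℝ) (φ := fun _ : Fin 4 => ℝ) j

theorem dotL_apply (y v : R4) : dotL y v = ∑ j, y j * v j := by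
  simp [dotL]

theorem dotL_norm {y : R4} (hy : y ∈ Orth 4) : ‖dotL y‖ ≤ ∑ j, y j := by
  refine ContinuousLinearMap.opNorm_le_bound _ (sum_nn hy) fun v => ?_
  rw [dotL_apply, Finset.sum_mul]
  refine (norm_sum_le _ _).trans (Finset.sum_le_sum fun j _ => ?_)
  rw [norm_mul, Real.norm_eq_abs (y j), abs_of_nonneg (hy j).le]
  exact mul_le_mul_of_nonneg_left (norm_le_pi_norm v j) (hy j).le

theorem dotL_cont : Continuous dotL := by
  unfold dotL
  fun_prop

/-- derivative of the integrand -/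
noncomputable def F' (k y : R4) : R4 →L[ℝ] ℝ :=
  (Real.exp (-(qf k y) / 2) * -(∑ i, k i * y i)) • dotL y

theorem F'_cont (k : R4) : Continuous (F' k) := by
  have h1 := exp_cont k
  have h2 := dotL_cont
  unfold F'
  exact (h1.mul (by fun_prop)).smul h2

theorem F_diff (y k : R4) :
    HasFDerivAt (fun k : R4 => Real.exp (-(qf k y) / 2)) (F' k y) k := by
  have h1 : HasFDerivAt (fun k : R4 => ∑ i, k i * y i) (dotL y) k := by
    have h2 : (fun k : R4 => ∑ i, k i * y i) = fun k => dotL y k := by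
      funext v
      rw [dotL_apply]
      exact Finset.sum_congr rfl fun j _ => mul_comm _ _
    rw [h2]
    exact (dotL y).hasFDerivAt
  have h3 : HasFDerivAt (fun k : R4 => -(qf k y) / 2)
      (-(∑ i, k i * y i) • dotL y) k := by
    have h4 := ((h1.pow 2).const_mul (-(1 / 2 : ℝ))).add_const
      (-((∑ i, y i) ^ 2 - 2 * ∑ i, y i ^ 2) / 2)
    refine (h4.congr_fderiv ?_).congr_of_eventuallyEq ?_
    · ext v
      simp
      ring
    · filter_upwards with k'
      simp only [qf]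
      ring
  have h5 := h3.exp
  refine h5.congr_fderiv ?_
  unfold F'
  rw [smul_smul]

theorem Phi_fderiv (k : R4) (hk : ∀ i, 1 < k i) :
    HasFDerivAt Phi (∫ y in Orth 4, F' k y) k ∧ IntegrableOn (F' k) (Orth 4) := by
  obtain ⟨δ, hδ, hkδ⟩ := exists_delta k hk
  set K : ℝ := (∑ i, |k i|) + 1 with hK
  have hK0 : 0 ≤ K := by
    have : 0 ≤ ∑ i, |k i| := Finset.sum_nonneg fun i _ => abs_nonneg _
    linarith
  have hki : ∀ i, k i < K := by
    intro i
    have h1 := Finset.single_le_sum (f := fun i => |k i|) (fun j _ => abs_nonneg _)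
      (Finset.mem_univ i)
    have h2 := le_abs_self (k i)
    have h3 : |k i| ≤ ∑ i, |k i| := h1
    linarith
  set s : Set R4 := {k' | ∀ i, 1 + δ < k' i ∧ k' i < K} with hs
  have hsn : s ∈ nhds k := by
    have ho : IsOpen s := by
      have : s = ⋂ i, ({k' : R4 | 1 + δ < k' i} ∩ {k' | k' i < K}) := by
        ext v
        simp [hs]
      rw [this]
      exact isOpen_iInter_of_finite fun i =>
        (isOpen_lt continuous_const (continuous_apply i)).inter
          (isOpen_lt (continuous_apply i) continuous_const)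
    exact ho.mem_nhds fun i => ⟨by linarith [hkδ i], hki i⟩
  have hbd : ∀ k' ∈ s, ∀ y ∈ Orth 4,
      ‖F' k' y‖ ≤ K * (16 / δ * Real.exp (-(δ / 4) * ∑ i, y i ^ 2)) := by
    intro k' hk' y hy
    have h0 : ∀ i, 0 ≤ k' i := fun i => by linarith [(hk' i).1]
    have h1 : 0 ≤ ∑ i, k' i * y i := Finset.sum_nonneg fun i _ => mul_nonneg (h0 i) (hy i).le
    have h2 : ∑ i, k' i * y i ≤ K * ∑ i, y i := by
      rw [Finset.mul_sum]
      exact Finset.sum_le_sum fun i _ => mul_le_mul_of_nonneg_right (hk' i).2.le (hy i).le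
    have h3 : ‖F' k' y‖ ≤ Real.exp (-(qf k' y) / 2) * (∑ i, k' i * y i) * ∑ i, y i := by
      unfold F'
      rw [norm_smul, norm_mul, norm_neg, Real.norm_eq_abs, Real.norm_eq_abs,
        abs_of_pos (Real.exp_pos _), abs_of_nonneg h1]
      exact mul_le_mul_of_nonneg_left (dotL_norm hy)
        (mul_nonneg (Real.exp_pos _).le h1)
    have h4 := bound hδ (fun i => (hk' i).1.le) hy (k := k')
    have he := Real.exp_pos (-(qf k' y) / 2)
    have hs0 := sum_nn hy
    calc ‖F' k' y‖ ≤ Real.exp (-(qf k' y) / 2) * (∑ i, k' i * y i) * ∑ i, y i := h3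
      _ ≤ Real.exp (-(qf k' y) / 2) * (K * ∑ i, y i) * ∑ i, y i := by gcongr
      _ = K * ((∑ i, y i) ^ 2 * Real.exp (-(qf k' y) / 2)) := by ring
      _ ≤ K * (16 / δ * Real.exp (-(δ / 4) * ∑ i, y i ^ 2)) := by gcongr
  have hg : IntegrableOn (fun y : R4 => K * (16 / δ * Real.exp (-(δ / 4) * ∑ i, y i ^ 2)))
      (Orth 4) :=
    (((gauss_int (by positivity : (0 : ℝ) < δ / 4)).const_mul (16 / δ)).const_mul K).integrableOn
  have hks : k ∈ s := mem_of_mem_nhds hsn
  constructor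
  · refine hasFDerivAt_integral_of_dominated_of_fderiv_le (F := fun k y => Real.exp (-(qf k y) / 2))
      (F' := F') (s := s)
      (bound := fun y : R4 => K * (16 / δ * Real.exp (-(δ / 4) * ∑ i, y i ^ 2)))
      hsn ?_ ?_ ?_ ?_ hg ?_
    · exact Filter.Eventually.of_forall fun k' => (exp_cont k').aestronglyMeasurable
    · exact integrable_exp k fun i => (hk i).le
    · exact (F'_cont k).aestronglyMeasurable
    · filter_upwards [ae_restrict_mem orth_meas] with y hy k' hk'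
      exact hbd k' hk' y hy
    · exact Filter.Eventually.of_forall fun y k' _ => F_diff y k'
  · refine Integrable.mono' hg (F'_cont k).aestronglyMeasurable ?_
    filter_upwards [ae_restrict_mem orth_meas] with y hy
    exact hbd k hks y hy

end DiffAux

/-- differentiability of `Phi` along differentiable curves -/
theorem Phi_hasDerivAt (k : ℝ → R4) (v : R4) (t : ℝ) (hk : HasDerivAt k v t)
    (h1 : ∀ i, 1 < k t i) :
    HasDerivAt (fun s => Phi (k s)) (-∑ i, ∑ j, k t i * v j * Mm (k t) i j) t := by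
  obtain ⟨hf, hint⟩ := Phi_fderiv (k t) h1
  have h2 := hf.comp_hasDerivAt t hk
  have h3 : (∫ y in Orth 4, F' (k t) y) v = -∑ i, ∑ j, k t i * v j * Mm (k t) i j := by
    rw [ContinuousLinearMap.integral_apply hint v]
    have h4 : ∀ y : R4, F' (k t) y v =
        ∑ i, ∑ j, -(k t i * v j) * (y i * y j * Real.exp (-(qf (k t) y) / 2)) := by
      intro y
      unfold F'
      rw [smul_apply, dotL_apply, smul_eq_mul]
      simp only [Fin.sum_univ_four]
      ring
    simp_rw [h4]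
    have hi : ∀ i j, Integrable (fun y : R4 =>
        -(k t i * v j) * (y i * y j * Real.exp (-(qf (k t) y) / 2))) (volume.restrict (Orth 4)) :=
      fun i j => (integrable_mul (k t) h1 i j).const_mul _
    rw [integral_finsetSum _ fun i _ => integrable_finsetSum _ fun j _ => hi i j]
    rw [← Finset.sum_neg_distrib]
    refine Finset.sum_congr rfl fun i _ => ?_
    rw [integral_finsetSum _ fun j _ => hi i j, ← Finset.sum_neg_distrib]
    refine Finset.sum_congr rfl fun j _ => ?_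
    rw [integral_const_mul, neg_mul]
    rfl
  rw [← h3]
  exact h2

end Pool.Agent.MidT
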