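import Pool.Agent.MidT.Defs

/-!
# MidT module DOM: integrability of the Gaussian integrand on `{k | ∀ i, 1 ≤ k i}` (ideal vertices included)

Write `e2 y = ∑_{i<j} y_i y_j`.  For `y ≥ 0`, `k ≥ 1`:
`qf k y = ∑ (k_i² - 1) y_i² + 2 ∑_{i<j} (k_i k_j + 1) y_i y_j ≥ 4 e2 y`, so `exp (- qf k y / 2) ≤ exp (- 2 e2 y)`.

INTEGRABILITY of `exp (-2 e2)` on `Orth 4`: pointwise bound by a product of one-variable functions,
`exp (- 2 e2 y) ≤ ∏ ph (y i)` with `ph t = t^(-1/2)` for `0 < t ≤ 1` and `ph t = t^(-3/2)` for `t > 1`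
(if `M` is the largest coordinate and `M > 1`, then `exp (- 2 M t) ≤ M^(-1/2) ph t` for `0 < t ≤ M`).
-/

set_option autoImplicit false

namespace Pool.Agent.MidT

open MeasureTheory

theorem qf_eq (k y : R4) : qf k y = ∑ i, ∑ j, (k i * k j + 1 - if i = j then 2 else 0) * y i * y j := by
  simp only [qf, Fin.sum_univ_four]
  norm_num [Fin.ext_iff]
  ring

theorem qf_ge (k y : R4) (hk : ∀ i, 1 ≤ k i) (hy : ∀ i, 0 ≤ y i) :
    4 * (y 0 * y 1 + y 0 * y 2 + y 0 * y 3 + y 1 * y 2 + y 1 * y 3 + y 2 * y 3) ≤ qf k y := by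
  have h1 : ∀ i, 0 ≤ (k i * k i - 1) * (y i * y i) := fun i =>
    mul_nonneg (by nlinarith [hk i]) (mul_self_nonneg _)
  have h2 : ∀ i j, 0 ≤ (k i * k j - 1) * (y i * y j) := fun i j =>
    mul_nonneg (by nlinarith [hk i, hk j]) (mul_nonneg (hy i) (hy j))
  have e : qf k y - 4 * (y 0 * y 1 + y 0 * y 2 + y 0 * y 3 + y 1 * y 2 + y 1 * y 3 + y 2 * y 3)
      = (k 0 * k 0 - 1) * (y 0 * y 0) + (k 1 * k 1 - 1) * (y 1 * y 1)
        + (k 2 * k 2 - 1) * (y 2 * y 2) + (k 3 * k 3 - 1) * (y 3 * y 3)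
        + 2 * ((k 0 * k 1 - 1) * (y 0 * y 1) + (k 0 * k 2 - 1) * (y 0 * y 2)
          + (k 0 * k 3 - 1) * (y 0 * y 3) + (k 1 * k 2 - 1) * (y 1 * y 2)
          + (k 1 * k 3 - 1) * (y 1 * y 3) + (k 2 * k 3 - 1) * (y 2 * y 3)) := by
    simp only [qf, Fin.sum_univ_four]
    ring
  have := h1 0
  have := h1 1
  have := h1 2
  have := h1 3
  have := h2 0 1
  have := h2 0 2
  have := h2 0 3
  have := h2 1 2
  have := h2 1 3
  have := h2 2 3
  linarith

/-- the one-variable majorant -/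
private noncomputable def ph (t : ℝ) : ℝ :=
  (Set.Ioc (0 : ℝ) 1).indicator (fun t => t ^ (-(1 / 2 : ℝ))) t
    + (Set.Ioi (1 : ℝ)).indicator (fun t => t ^ (-(3 / 2 : ℝ))) t

private theorem ph_small (t : ℝ) (h0 : 0 < t) (h1 : t ≤ 1) : ph t = t ^ (-(1 / 2 : ℝ)) := by
  unfold ph
  rw [Set.indicator_of_mem (show t ∈ Set.Ioc (0 : ℝ) 1 from ⟨h0, h1⟩),
    Set.indicator_of_notMem (show t ∉ Set.Ioi (1 : ℝ) from not_lt.mpr h1), add_zero]

private theorem ph_large (t : ℝ) (h1 : 1 < t) : ph t = t ^ (-(3 / 2 : ℝ)) := by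
  unfold ph
  rw [Set.indicator_of_notMem (show t ∉ Set.Ioc (0 : ℝ) 1 from fun h => absurd h.2 (not_le.mpr h1)),
    Set.indicator_of_mem (show t ∈ Set.Ioi (1 : ℝ) from h1), zero_add]

private theorem ph_integrable : Integrable ph := by
  have h1 : IntegrableOn (fun t : ℝ => t ^ (-(1 / 2 : ℝ))) (Set.Ioc (0 : ℝ) 1) := by
    have := intervalIntegral.intervalIntegrable_rpow' (a := 0) (b := 1)
      (show (-1 : ℝ) < -(1 / 2 : ℝ) by norm_num)
    rwa [intervalIntegrable_iff_integrableOn_Ioc_of_le zero_le_one] at this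
  have h2 : IntegrableOn (fun t : ℝ => t ^ (-(3 / 2 : ℝ))) (Set.Ioi (1 : ℝ)) :=
    integrableOn_Ioi_rpow_of_lt (by norm_num) one_pos
  exact (h1.integrable_indicator measurableSet_Ioc).add (h2.integrable_indicator measurableSet_Ioi)

private theorem ph_nonneg (t : ℝ) : 0 ≤ ph t := by
  unfold ph
  refine add_nonneg (Set.indicator_nonneg (fun x hx => Real.rpow_nonneg hx.1.le _) _)
    (Set.indicator_nonneg (fun x hx => Real.rpow_nonneg (le_trans zero_le_one (le_of_lt hx)) _) _)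

private theorem exp_le (M t : ℝ) (hM : 1 < M) (ht : 0 < t) :
    Real.exp (-(2 * (M * t))) ≤ M ^ (-(1 / 2 : ℝ)) * ph t := by
  have hM0 : 0 < M := by linarith
  have lM := Real.log_le_sub_one_of_pos hM0
  have lt := Real.log_le_sub_one_of_pos ht
  rcases le_or_gt t 1 with h | h
  · rw [ph_small t ht h, ← Real.mul_rpow hM0.le ht.le,
      Real.rpow_def_of_pos (mul_pos hM0 ht), Real.exp_le_exp]
    have := Real.log_le_sub_one_of_pos (mul_pos hM0 ht)
    nlinarith [mul_pos hM0 ht]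
  · rw [ph_large t h, Real.rpow_def_of_pos hM0, Real.rpow_def_of_pos ht, ← Real.exp_add,
      Real.exp_le_exp]
    nlinarith [mul_pos hM0 ht, mul_pos (sub_pos.mpr hM) (sub_pos.mpr h)]

private theorem bnd (M a b c : ℝ) (ha : 0 < a) (hb : 0 < b) (hc : 0 < c)
    (haM : a ≤ M) (hbM : b ≤ M) (hcM : c ≤ M) :
    Real.exp (-(2 * (M * a + M * b + M * c + a * b + a * c + b * c)))
      ≤ ph M * ph a * ph b * ph c := by
  have hM0 : 0 < M := lt_of_lt_of_le ha haM
  have hab := mul_pos ha hb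
  have hac := mul_pos ha hc
  have hbc := mul_pos hb hc
  rcases le_or_gt M 1 with h | h
  · have one : ∀ t : ℝ, 0 < t → t ≤ 1 → 1 ≤ ph t := fun t h0 h1 => by
      rw [ph_small t h0 h1]
      exact Real.one_le_rpow_of_pos_of_le_one_of_nonpos h0 h1 (by norm_num)
    have e1 : Real.exp (-(2 * (M * a + M * b + M * c + a * b + a * c + b * c))) ≤ 1 := by
      rw [Real.exp_le_one_iff]
      have := mul_pos hM0 ha
      have := mul_pos hM0 hb
      have := mul_pos hM0 hc
      linarith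
    have p0 := one M hM0 h
    have p1 := one a ha (haM.trans h)
    have p2 := one b hb (hbM.trans h)
    have p3 := one c hc (hcM.trans h)
    have q1 : 1 ≤ ph M * ph a := one_le_mul_of_one_le_of_one_le p0 p1
    have q2 : 1 ≤ ph M * ph a * ph b := one_le_mul_of_one_le_of_one_le q1 p2
    have q3 : 1 ≤ ph M * ph a * ph b * ph c := one_le_mul_of_one_le_of_one_le q2 p3
    exact e1.trans q3
  · have e1 : Real.exp (-(2 * (M * a + M * b + M * c + a * b + a * c + b * c)))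
        ≤ Real.exp (-(2 * (M * a))) * Real.exp (-(2 * (M * b))) * Real.exp (-(2 * (M * c))) := by
      rw [← Real.exp_add, ← Real.exp_add, Real.exp_le_exp]
      linarith
    refine e1.trans ?_
    have n0 : 0 ≤ M ^ (-(1 / 2 : ℝ)) := Real.rpow_nonneg hM0.le _
    have e2 : Real.exp (-(2 * (M * a))) * Real.exp (-(2 * (M * b))) * Real.exp (-(2 * (M * c)))
        ≤ (M ^ (-(1 / 2 : ℝ)) * ph a) * (M ^ (-(1 / 2 : ℝ)) * ph b)
          * (M ^ (-(1 / 2 : ℝ)) * ph c) :=
      mul_le_mul (mul_le_mul (exp_le M a h ha) (exp_le M b h hb) (Real.exp_pos _).le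
        (mul_nonneg n0 (ph_nonneg _))) (exp_le M c h hc) (Real.exp_pos _).le
        (mul_nonneg (mul_nonneg n0 (ph_nonneg _)) (mul_nonneg n0 (ph_nonneg _)))
    refine e2.trans (le_of_eq ?_)
    have e3 : ph M = M ^ (-(1 / 2 : ℝ)) * M ^ (-(1 / 2 : ℝ)) * M ^ (-(1 / 2 : ℝ)) := by
      rw [ph_large M h, ← Real.rpow_add hM0, ← Real.rpow_add hM0]
      norm_num
    rw [e3]
    ring

private theorem bnd4 (y : R4) (hy : ∀ i, 0 < y i) :
    Real.exp (-(2 * (y 0 * y 1 + y 0 * y 2 + y 0 * y 3 + y 1 * y 2 + y 1 * y 3 + y 2 * y 3)))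
      ≤ ∏ i, ph (y i) := by
  rw [Fin.prod_univ_four]
  obtain ⟨i, -, hi⟩ := Finset.exists_max_image Finset.univ y ⟨0, Finset.mem_univ 0⟩
  have h0 := hi 0 (Finset.mem_univ _)
  have h1 := hi 1 (Finset.mem_univ _)
  have h2 := hi 2 (Finset.mem_univ _)
  have h3 := hi 3 (Finset.mem_univ _)
  fin_cases i
  · have := bnd (y 0) (y 1) (y 2) (y 3) (hy 1) (hy 2) (hy 3) h1 h2 h3
    exact this
  · have := bnd (y 1) (y 0) (y 2) (y 3) (hy 0) (hy 2) (hy 3) h0 h2 h3
    refine le_trans (le_of_eq ?_) (this.trans (le_of_eq ?_))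
    · congr 1; ring
    · ring
  · have := bnd (y 2) (y 0) (y 1) (y 3) (hy 0) (hy 1) (hy 3) h0 h1 h3
    refine le_trans (le_of_eq ?_) (this.trans (le_of_eq ?_))
    · congr 1; ring
    · ring
  · have := bnd (y 3) (y 0) (y 1) (y 2) (hy 0) (hy 1) (hy 2) h0 h1 h2
    refine le_trans (le_of_eq ?_) (this.trans (le_of_eq ?_))
    · congr 1; ring
    · ring

private theorem orth_meas : MeasurableSet (Orth 4) := by
  have : Orth 4 = ⋂ i, {y : Fin 4 → ℝ | 0 < y i} := by
    ext y; simp [Orth]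
  rw [this]
  exact MeasurableSet.iInter fun i => measurableSet_lt measurable_const (measurable_pi_apply i)

theorem integrable_one : IntegrableOn
    (fun y : R4 => Real.exp (-(2 * (y 0 * y 1 + y 0 * y 2 + y 0 * y 3 + y 1 * y 2 + y 1 * y 3 + y 2 * y 3))))
    (Orth 4) := by
  have hI : Integrable (fun y : R4 => ∏ i, ph (y i)) :=
    Integrable.fintype_prod (f := fun _ : Fin 4 => ph) (fun _ => ph_integrable)
  refine hI.integrableOn.mono' ?_ ?_
  · refine Continuous.aestronglyMeasurable ?_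
    fun_prop
  · refine (ae_restrict_iff' orth_meas).mpr (Filter.Eventually.of_forall fun y hy => ?_)
    rw [Real.norm_of_nonneg (Real.exp_pos _).le]
    exact bnd4 y hy

theorem integrable_exp (k : R4) (hk : ∀ i, 1 ≤ k i) :
    IntegrableOn (fun y : R4 => Real.exp (-(qf k y) / 2)) (Orth 4) := by
  refine integrable_one.mono' ?_ ?_
  · refine Continuous.aestronglyMeasurable ?_
    unfold qf
    fun_prop
  · refine (ae_restrict_iff' orth_meas).mpr (Filter.Eventually.of_forall fun y hy => ?_)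
    rw [Real.norm_of_nonneg (Real.exp_pos _).le, Real.exp_le_exp]
    have := qf_ge k y hk (fun i => (hy i).le)
    linarith

end Pool.Agent.MidT
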