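import Pool.Agent.MidT.Dom

/-!
# MidT module DOM2: continuity, positivity and symmetry of `Phi` on `{k | ∀ i, 1 ≤ k i}`

CONTINUITY: dominated convergence (`continuousWithinAt_of_dominated` / `continuousOn_of_dominated`),
`k ↦ exp (- qf k y / 2)` is continuous, bound `exp (-2 e2 y)` (`qf_ge`, `integrable_one`).
POSITIVITY: the integrand is positive and the orthant has positive measure (`setIntegral_pos_iff_support_of_nonneg_ae`).
PERMUTATION: `volume_preserving_piCongrLeft` or `MeasurableEquiv.piCongrLeft`; `qf (k ∘ σ) (y ∘ σ) = qf k y`.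
-/

set_option autoImplicit false

namespace Pool.Agent.MidT

open MeasureTheory

theorem dom2_isOpen_Orth (n : ℕ) : IsOpen (Orth n) := by
  have h : Orth n = ⋂ i : Fin n, {y : Fin n → ℝ | 0 < y i} := by
    ext y
    simp [Orth]
  rw [h]
  exact isOpen_iInter_of_finite fun i => isOpen_lt continuous_const (continuous_apply i)

theorem dom2_measurable_Orth (n : ℕ) : MeasurableSet (Orth n) :=
  (dom2_isOpen_Orth n).measurableSet

theorem dom2_cont_k (y : R4) : Continuous fun k : R4 => Real.exp (-(qf k y) / 2) := by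
  unfold qf
  fun_prop

theorem dom2_cont_y (k : R4) : Continuous fun y : R4 => Real.exp (-(qf k y) / 2) := by
  unfold qf
  fun_prop

theorem Phi_continuousOn : ContinuousOn Phi {k : R4 | ∀ i, 1 ≤ k i} := by
  unfold Phi
  refine continuousOn_of_dominated
    (bound := fun y : R4 => Real.exp (-(2 * (y 0 * y 1 + y 0 * y 2 + y 0 * y 3 + y 1 * y 2
      + y 1 * y 3 + y 2 * y 3)))) ?_ ?_ integrable_one ?_
  · intro k _
    exact (dom2_cont_y k).aestronglyMeasurable
  · intro k hk
    filter_upwards [self_mem_ae_restrict (dom2_measurable_Orth 4)] with y hy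
    rw [Real.norm_of_nonneg (Real.exp_pos _).le]
    apply Real.exp_le_exp.2
    have h := qf_ge k y hk fun i => (hy i).le
    linarith
  · exact Filter.Eventually.of_forall fun y => (dom2_cont_k y).continuousOn

theorem Phi_pos (k : R4) (hk : ∀ i, 1 ≤ k i) : 0 < Phi k := by
  unfold Phi
  rw [setIntegral_pos_iff_support_of_nonneg_ae
    (Filter.Eventually.of_forall fun y => (Real.exp_pos _).le) (integrable_exp k hk)]
  have h : Function.support (fun y : R4 => Real.exp (-(qf k y) / 2)) = Set.univ := by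
    ext y
    simp [Real.exp_ne_zero]
  rw [h, Set.univ_inter]
  exact (dom2_isOpen_Orth 4).measure_pos volume ⟨fun _ => 1, fun _ => one_pos⟩

theorem dom2_qf_perm (k y : R4) (σ : Equiv.Perm (Fin 4)) :
    qf (fun i => k (σ i)) (fun i => y (σ i)) = qf k y := by
  unfold qf
  rw [Equiv.sum_comp σ (fun i => k i * y i), Equiv.sum_comp σ (fun i => y i),
    Equiv.sum_comp σ (fun i => y i ^ 2)]

theorem Phi_perm (k : R4) (σ : Equiv.Perm (Fin 4)) : Phi (fun i => k (σ i)) = Phi k := by
  have hmp := volume_measurePreserving_piCongrLeft (fun _ : Fin 4 => ℝ) σ.symm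
  have hE : ∀ (y : R4) (i : Fin 4),
      MeasurableEquiv.piCongrLeft (fun _ : Fin 4 => ℝ) σ.symm y i = y (σ i) := by
    intro y i
    have h := Equiv.piCongrLeft_apply_apply (fun _ : Fin 4 => ℝ) σ.symm y (σ i)
    rw [MeasurableEquiv.coe_piCongrLeft]
    simpa using h
  have h1 := hmp.setIntegral_preimage_emb
    (MeasurableEquiv.piCongrLeft (fun _ : Fin 4 => ℝ) σ.symm).measurableEmbedding
    (fun y => Real.exp (-(qf (fun i => k (σ i)) y) / 2)) (Orth 4)
  have h2 : (MeasurableEquiv.piCongrLeft (fun _ : Fin 4 => ℝ) σ.symm) ⁻¹' (Orth 4) = Orth 4 := by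
    ext y
    simp only [Set.mem_preimage, Orth, Set.mem_ofPred_eq, hE]
    constructor
    · intro h i
      simpa using h (σ.symm i)
    · intro h i
      exact h (σ i)
  have h3 : ∀ y : R4, (MeasurableEquiv.piCongrLeft (fun _ : Fin 4 => ℝ) σ.symm) y
      = fun i => y (σ i) := fun y => funext (hE y)
  unfold Phi
  rw [← h1, h2]
  simp only [h3, dom2_qf_perm]

end Pool.Agent.MidT
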