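import Pool.Agent.MidT.Dom2

/-!
# MidT module DOM3: decay of `Phi`

`Phi_small`: `Phi k ≤ Phi (update 1 m (k m))` for `k ≥ 1` (`qf` is monotone in `k` for `y ≥ 0`), `Phi (update 1 m x)` is antitone in `x` and
tends to `0` as `x → ∞` by dominated convergence (pointwise `qf (update 1 m x) y → ∞` for `y > 0`; bound `exp (-2 e2 y)`).

`Phi_decay2/3`: substitute `y_i ↦ y_i / x` in the coordinates with `k_i = x` (the linear map `y ↦ (y_0, y_1, x⁻¹ y_2, x⁻¹ y_3)` preserves the orthant; change of variables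
`MeasureTheory.Measure.addHaar_preimage_linearMap` / `integral_comp_...`, determinant `x⁻²`, resp. `x⁻³`): the factor `x^(-2)` (resp. `x^(-3)`) comes out
and the new form is `≥ 2 e2 y`: the coefficient of `2 y_i y_j` is `(k_i k_j + 1)/(x_i x_j) ≥ 1` (`x_i = 1` or `x`, `k_i k_j = x_i x_j`), the diagonal coefficients are `≥ 0`.
So `exp ≤ exp (-e2 y)`, integrable (rescale `integrable_one` by `√2`).
-/

set_option autoImplicit false

namespace Pool.Agent.MidT

open MeasureTheory

private theorem qf_mono (k k' y : R4) (h0 : ∀ i, 0 ≤ k' i) (h : ∀ i, k' i ≤ k i)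
    (hy : ∀ i, 0 ≤ y i) : qf k' y ≤ qf k y := by
  have h1 : (∑ i, k' i * y i) ≤ ∑ i, k i * y i :=
    Finset.sum_le_sum fun i _ => mul_le_mul_of_nonneg_right (h i) (hy i)
  have h2 : 0 ≤ ∑ i, k' i * y i := Finset.sum_nonneg fun i _ => mul_nonneg (h0 i) (hy i)
  have h3 : (∑ i, k' i * y i) ^ 2 ≤ (∑ i, k i * y i) ^ 2 := pow_le_pow_left₀ h2 h1 2
  unfold qf
  linarith

private theorem Phi_mono (k k' : R4) (h1 : ∀ i, 1 ≤ k' i) (h : ∀ i, k' i ≤ k i) :
    Phi k ≤ Phi k' := by
  unfold Phi
  refine setIntegral_mono_on (integrable_exp k fun i => (h1 i).trans (h i)) (integrable_exp k' h1)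
    (dom2_measurable_Orth 4) fun y hy => ?_
  rw [Real.exp_le_exp]
  have := qf_mono k k' y (fun i => zero_le_one.trans (h1 i)) h (fun i => (hy i).le)
  linarith

private theorem upd_one_le (m : Fin 4) (x : ℝ) (hx : 1 ≤ x) (i : Fin 4) :
    1 ≤ Function.update (fun _ => (1 : ℝ)) m x i := by
  by_cases h : i = m
  · subst h; simpa using hx
  · rw [Function.update_of_ne h]

private theorem tendsto_upd (m : Fin 4) : Filter.Tendsto
    (fun n : ℕ => Phi (Function.update (fun _ => (1 : ℝ)) m ((n : ℝ) + 1))) Filter.atTop (nhds 0) := by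
  have key : Filter.Tendsto
      (fun n : ℕ => ∫ y in Orth 4, Real.exp (-(qf (Function.update (fun _ => (1 : ℝ)) m ((n : ℝ) + 1)) y) / 2))
      Filter.atTop (nhds (∫ y in Orth 4, (0 : ℝ))) := by
    refine tendsto_integral_of_dominated_convergence
      (bound := fun y : R4 => Real.exp (-(2 * (y 0 * y 1 + y 0 * y 2 + y 0 * y 3 + y 1 * y 2
        + y 1 * y 3 + y 2 * y 3)))) ?_ integrable_one ?_ ?_
    · intro n
      exact (dom2_cont_y _).aestronglyMeasurable
    · intro n
      filter_upwards [self_mem_ae_restrict (dom2_measurable_Orth 4)] with y hy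
      rw [Real.norm_of_nonneg (Real.exp_pos _).le]
      apply Real.exp_le_exp.2
      have hn : (1 : ℝ) ≤ (n : ℝ) + 1 := by
        have : (0 : ℝ) ≤ (n : ℝ) := Nat.cast_nonneg n
        linarith
      have h := qf_ge (Function.update (fun _ => (1 : ℝ)) m ((n : ℝ) + 1)) y (upd_one_le m _ hn)
        fun i => (hy i).le
      linarith
    · filter_upwards [self_mem_ae_restrict (dom2_measurable_Orth 4)] with y hy
      have hym : 0 < y m := hy m
      -- lower bound of the form
      have hlow : ∀ n : ℕ, (n : ℝ) * (y m) ^ 2 + ((∑ i, y i) ^ 2 - 2 * ∑ i, y i ^ 2)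
          ≤ qf (Function.update (fun _ => (1 : ℝ)) m ((n : ℝ) + 1)) y := by
        intro n
        have hn : (0 : ℝ) ≤ (n : ℝ) := Nat.cast_nonneg n
        have e1 : ((n : ℝ) + 1) * y m
            ≤ ∑ i, Function.update (fun _ => (1 : ℝ)) m ((n : ℝ) + 1) i * y i := by
          have := Finset.single_le_sum
            (f := fun i => Function.update (fun _ => (1 : ℝ)) m ((n : ℝ) + 1) i * y i)
            (s := Finset.univ) (fun i _ => mul_nonneg
              (zero_le_one.trans (upd_one_le m _ (by linarith) i)) (hy i).le) (Finset.mem_univ m)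
          simpa using this
        have e2 : (((n : ℝ) + 1) * y m) ^ 2
            ≤ (∑ i, Function.update (fun _ => (1 : ℝ)) m ((n : ℝ) + 1) i * y i) ^ 2 :=
          pow_le_pow_left₀ (by positivity) e1 2
        have e3 : (n : ℝ) * (y m) ^ 2 ≤ (((n : ℝ) + 1) * y m) ^ 2 := by
          have : 0 ≤ (y m) ^ 2 := sq_nonneg _
          nlinarith [mul_nonneg hn this, mul_nonneg (mul_nonneg hn hn) this]
        unfold qf
        linarith
      have ht : Filter.Tendsto (fun n : ℕ => -(qf (Function.update (fun _ => (1 : ℝ)) m ((n : ℝ) + 1)) y) / 2)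
          Filter.atTop Filter.atBot := by
        have h1 : Filter.Tendsto (fun n : ℕ => (n : ℝ) * (y m) ^ 2
            + ((∑ i, y i) ^ 2 - 2 * ∑ i, y i ^ 2)) Filter.atTop Filter.atTop :=
          Filter.tendsto_atTop_add_const_right _ _
            (Filter.Tendsto.atTop_mul_const (by positivity) tendsto_natCast_atTop_atTop)
        have h2 := Filter.tendsto_atTop_mono hlow h1
        have h3 := (Filter.tendsto_neg_atTop_atBot.comp h2).atBot_div_const (show (0 : ℝ) < 2 by norm_num)
        exact h3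
      exact Real.tendsto_exp_atBot.comp ht
  simpa [Phi] using key

theorem Phi_small (ε : ℝ) (hε : 0 < ε) :
    ∃ K : ℝ, ∀ k : R4, (∀ i, 1 ≤ k i) → (∃ i, K ≤ k i) → Phi k < ε := by
  have h1 : ∀ m : Fin 4, ∃ n : ℕ, Phi (Function.update (fun _ => (1 : ℝ)) m ((n : ℝ) + 1)) < ε := by
    intro m
    exact ((tendsto_upd m).eventually (gt_mem_nhds hε)).exists
  choose n hn using h1
  refine ⟨∑ m, ((n m : ℝ) + 1), ?_⟩
  rintro k hk ⟨i, hi⟩
  refine lt_of_le_of_lt (Phi_mono k (Function.update (fun _ => (1 : ℝ)) i ((n i : ℝ) + 1))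
    (upd_one_le i _ ?_) ?_) (hn i)
  · have : (0 : ℝ) ≤ (n i : ℝ) := Nat.cast_nonneg _
    linarith
  · intro j
    by_cases h : j = i
    · subst h
      rw [Function.update_self]
      refine le_trans ?_ hi
      exact Finset.single_le_sum (f := fun m => ((n m : ℝ) + 1)) (fun m _ => by positivity)
        (Finset.mem_univ j)
    · rw [Function.update_of_ne h]
      exact hk j

/-- the diagonal map -/
private def dg (d : R4) : R4 → R4 := fun z i => d i * z i

private theorem dg_eq (d : R4) : dg d = ⇑(Matrix.toLin' (Matrix.diagonal d)) := by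
  funext z i
  simp [dg, Matrix.toLin'_apply, Matrix.mulVec_diagonal]

private theorem dg_det (d : R4) (hd : ∀ i, 0 < d i) : Matrix.det (Matrix.diagonal d) ≠ 0 := by
  rw [Matrix.det_diagonal]
  exact Finset.prod_ne_zero_iff.mpr fun i _ => (hd i).ne'

private theorem dg_map (d : R4) (hd : ∀ i, 0 < d i) :
    ENNReal.ofReal (∏ i, d i) • Measure.map (dg d) volume = (volume : Measure R4) := by
  have h := Real.smul_map_diagonal_volume_pi (dg_det d hd)
  rw [Matrix.det_diagonal, abs_of_pos (Finset.prod_pos fun i _ => hd i)] at h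
  rw [dg_eq]
  exact h

private theorem dg_emb (d : R4) (hd : ∀ i, 0 < d i) : MeasurableEmbedding (dg d) := by
  have hc : Continuous (dg d) := by
    unfold dg
    fun_prop
  refine hc.measurableEmbedding ?_
  intro a b hab
  funext i
  have := congrFun hab i
  exact mul_left_cancel₀ (hd i).ne' this

private theorem dg_pre (d : R4) (hd : ∀ i, 0 < d i) : dg d ⁻¹' Orth 4 = Orth 4 := by
  ext y
  simp only [Set.mem_preimage, Orth, Set.mem_ofPred_eq, dg]
  exact forall_congr' fun i => by
    constructor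
    · intro h
      exact (pos_iff_pos_of_mul_pos h).mp (hd i)
    · intro h
      exact mul_pos (hd i) h

private theorem dg_integral (d : R4) (hd : ∀ i, 0 < d i) (g : R4 → ℝ) :
    ∫ y in Orth 4, g y = (∏ i, d i) * ∫ z in Orth 4, g (dg d z) := by
  conv_lhs => rw [← dg_map d hd]
  rw [Measure.restrict_smul, integral_smul_measure,
    ENNReal.toReal_ofReal (Finset.prod_nonneg fun i _ => (hd i).le), (dg_emb d hd).setIntegral_map,
    dg_pre d hd, smul_eq_mul]

private theorem dg_integrable (d : R4) (hd : ∀ i, 0 < d i) (g : R4 → ℝ)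
    (hg : IntegrableOn g (Orth 4)) : IntegrableOn (fun z => g (dg d z)) (Orth 4) := by
  rw [← dg_map d hd] at hg
  unfold IntegrableOn at hg
  rw [Measure.restrict_smul, integrable_smul_measure] at hg
  · have := ((dg_emb d hd).integrableOn_map_iff (f := g) (μ := volume) (s := Orth 4)).mp hg
    rw [dg_pre d hd] at this
    exact this
  · rw [Ne, ENNReal.ofReal_eq_zero, not_le]
    exact Finset.prod_pos fun i _ => hd i
  · exact ENNReal.ofReal_ne_top

private theorem integrable_half : IntegrableOn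
    (fun y : R4 => Real.exp (-(y 0 * y 1 + y 0 * y 2 + y 0 * y 3 + y 1 * y 2 + y 1 * y 3 + y 2 * y 3)))
    (Orth 4) := by
  have h := dg_integrable (fun _ => 1 / Real.sqrt 2) (fun _ => by positivity) _ integrable_one
  refine h.congr_fun (fun y _ => ?_) (dom2_measurable_Orth 4)
  have h3 : (1 / Real.sqrt 2) * (1 / Real.sqrt 2) = 1 / 2 := by
    rw [div_mul_div_comm, Real.mul_self_sqrt (by norm_num)]; norm_num
  simp only [dg]
  congr 1
  have e : ∀ a b : ℝ, 1 / Real.sqrt 2 * a * (1 / Real.sqrt 2 * b) = a * b / 2 := by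
    intro a b
    calc 1 / Real.sqrt 2 * a * (1 / Real.sqrt 2 * b)
        = ((1 / Real.sqrt 2) * (1 / Real.sqrt 2)) * (a * b) := by ring
      _ = a * b / 2 := by rw [h3]; ring
  rw [e, e, e, e, e, e]
  ring

private theorem decay_gen (k d : R4) (hk : ∀ i, 1 ≤ k i) (hd : ∀ i, 0 < d i)
    (hkd : ∀ i, k i * d i = 1) :
    Phi k ≤ (∏ i, d i) * ∫ y in Orth 4, Real.exp (-(y 0 * y 1 + y 0 * y 2 + y 0 * y 3 + y 1 * y 2 + y 1 * y 3 + y 2 * y 3)) := by
  unfold Phi
  rw [dg_integral d hd]
  refine mul_le_mul_of_nonneg_left ?_ (Finset.prod_nonneg fun i _ => (hd i).le)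
  refine setIntegral_mono_on (dg_integrable d hd _ (integrable_exp k hk)) integrable_half
    (dom2_measurable_Orth 4) fun z hz => ?_
  rw [Real.exp_le_exp]
  have hd1 : ∀ i, d i ≤ 1 := by
    intro i
    by_contra hcon
    push Not at hcon
    have := hkd i
    nlinarith [hk i, hd i]
  have hz0 : ∀ i, 0 ≤ z i := fun i => (hz i).le
  have hS : (∑ i, k i * dg d z i) = ∑ i, z i := by
    refine Finset.sum_congr rfl fun i _ => ?_
    simp only [dg]
    rw [← mul_assoc, hkd i, one_mul]
  have key : 2 * (z 0 * z 1 + z 0 * z 2 + z 0 * z 3 + z 1 * z 2 + z 1 * z 3 + z 2 * z 3)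
      ≤ qf k (dg d z) := by
    unfold qf
    rw [hS]
    simp only [Fin.sum_univ_four, dg]
    have hsq : ∀ i, (d i * z i) ^ 2 ≤ z i ^ 2 := by
      intro i
      have h1 : d i * z i ≤ z i := by
        have := mul_le_mul_of_nonneg_right (hd1 i) (hz0 i)
        linarith
      exact pow_le_pow_left₀ (mul_nonneg (hd i).le (hz0 i)) h1 2
    have p : ∀ i j, 0 ≤ (d i * z i) * (d j * z j) := fun i j =>
      mul_nonneg (mul_nonneg (hd i).le (hz0 i)) (mul_nonneg (hd j).le (hz0 j))
    have := hsq 0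
    have := hsq 1
    have := hsq 2
    have := hsq 3
    have := p 0 1
    have := p 0 2
    have := p 0 3
    have := p 1 2
    have := p 1 3
    have := p 2 3
    nlinarith
  linarith

theorem Phi_decay2 : ∃ C : ℝ, ∀ x : ℝ, 1 ≤ x → Phi ![1, 1, x, x] ≤ C / x ^ 2 := by
  refine ⟨∫ y in Orth 4, Real.exp (-(y 0 * y 1 + y 0 * y 2 + y 0 * y 3 + y 1 * y 2 + y 1 * y 3
    + y 2 * y 3)), fun x hx => ?_⟩
  · have hx0 : 0 < x := by linarith
    have h := decay_gen ![1, 1, x, x] ![1, 1, 1 / x, 1 / x]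
      (by intro i; fin_cases i <;> simp [hx])
      (by intro i; fin_cases i <;> simp [hx0])
      (by intro i; fin_cases i <;> simp [hx0.ne'])
    refine h.trans (le_of_eq ?_)
    rw [Fin.prod_univ_four]
    simp only [Matrix.cons_val_zero, Matrix.cons_val_one, Matrix.cons_val]
    field_simp

theorem Phi_decay3 : ∃ C : ℝ, ∀ x : ℝ, 1 ≤ x → Phi ![1, x, x, x] ≤ C / x ^ 3 := by
  refine ⟨∫ y in Orth 4, Real.exp (-(y 0 * y 1 + y 0 * y 2 + y 0 * y 3 + y 1 * y 2 + y 1 * y 3
    + y 2 * y 3)), fun x hx => ?_⟩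
  · have hx0 : 0 < x := by linarith
    have h := decay_gen ![1, x, x, x] ![1, 1 / x, 1 / x, 1 / x]
      (by intro i; fin_cases i <;> simp [hx])
      (by intro i; fin_cases i <;> simp [hx0])
      (by intro i; fin_cases i <;> simp [hx0.ne'])
    refine h.trans (le_of_eq ?_)
    rw [Fin.prod_univ_four]
    simp only [Matrix.cons_val_zero, Matrix.cons_val_one, Matrix.cons_val]
    field_simp

end Pool.Agent.MidT
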