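import Pool.Agent.MidT.Ibp

/-!
# MidT module EDGE2: the two-dimensional integrals

`gauss2`: for `a, b > 1`:
`∫_{w > 0} exp (- ((a²-1) w_0² + 2 (a b + 1) w_0 w_1 + (b²-1) w_1²) / 2) dw = (tau a + tau b) / (a + b)`.
PROOF.  Substitute `w_0 = s w_1` (or use `integral` over `ℝ × ℝ`, `volume_preserving_finTwoArrow`):
`∫_0^∞ ∫_0^∞ w_1 e^{- w_1² (…)/2} dw_1 ds = ∫_0^∞ ds / ((a²-1) s² + 2 (a b + 1) s + (b²-1))`, and
`(a²-1) s² + 2 (ab+1) s + (b²-1) = ((a-1) s + (b+1)) ((a+1) s + (b-1))`, antiderivative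
`(log ((a+1) s + (b-1)) - log ((a-1) s + (b+1))) / (2 (a + b))`.  Value at `∞`: `log ((a+1)/(a-1)) / (2(a+b))`,
at `0`: `log ((b-1)/(b+1)) / (2(a+b))`.

`Af_eq`: for `i, j` the two indices different from `c` and `c.succAbove l'` (`i = c.succAbove (l'.succAbove 0)`,
`j = c.succAbove (l'.succAbove 1)`): `Af k c l' = (tau (k i) + tau (k j)) / (k i + k j)`: the form `qf` at the point
`insertNth c 0 (insertNth l' 0 w)` is the binary form above with `a = k i`, `b = k j` (`fin_cases` on `c`, `l'`).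
-/

set_option autoImplicit false

namespace Pool.Agent.MidT

open MeasureTheory

namespace Edge2Aux

open Filter Topology

theorem gint {c : ℝ} (hc : 0 < c) :
    IntegrableOn (fun x : ℝ => x * Real.exp (-(x ^ 2 * c / 2))) (Set.Ioi 0) ∧
      ∫ x in Set.Ioi (0 : ℝ), x * Real.exp (-(x ^ 2 * c / 2)) = 1 / c := by
  have hd : ∀ x : ℝ, HasDerivAt (fun x : ℝ => -(1 / c) * Real.exp (-(x ^ 2 * c / 2)))
      (x * Real.exp (-(x ^ 2 * c / 2))) x := by
    intro x
    have h0 : HasDerivAt (fun x : ℝ => x ^ 2 * c / 2) (2 * x * c / 2) x := by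
      simpa using ((hasDerivAt_pow 2 x).mul_const c).div_const 2
    have h1 : HasDerivAt (fun x : ℝ => -(x ^ 2 * c / 2)) (-(2 * x * c / 2)) x := h0.neg
    have h2 := (h1.exp).const_mul (-(1 / c))
    have h3 : -(1 / c) * (Real.exp (-(x ^ 2 * c / 2)) * -(2 * x * c / 2)) =
        x * Real.exp (-(x ^ 2 * c / 2)) := by
      field_simp
    rw [h3] at h2
    exact h2
  have ht : Tendsto (fun x : ℝ => -(1 / c) * Real.exp (-(x ^ 2 * c / 2))) atTop (𝓝 0) := by
    have h1 : Tendsto (fun x : ℝ => x ^ 2 * c / 2) atTop atTop := by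
      have h2 : Tendsto (fun x : ℝ => x ^ 2 * (c / 2)) atTop atTop :=
        (tendsto_pow_atTop two_ne_zero).atTop_mul_const (by positivity)
      simpa only [mul_div_assoc] using h2
    have h3 := (Real.tendsto_exp_neg_atTop_nhds_zero.comp h1).const_mul (-(1 / c))
    rw [mul_zero] at h3
    exact h3
  have hc0 : ContinuousWithinAt (fun x : ℝ => -(1 / c) * Real.exp (-(x ^ 2 * c / 2)))
      (Set.Ici 0) 0 := (hd 0).continuousAt.continuousWithinAt
  have hpos : ∀ x ∈ Set.Ioi (0 : ℝ), 0 ≤ x * Real.exp (-(x ^ 2 * c / 2)) := fun x hx =>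
    mul_nonneg (le_of_lt hx) (Real.exp_pos _).le
  refine ⟨integrableOn_Ioi_deriv_of_nonneg hc0 (fun x _ => hd x) hpos ht, ?_⟩
  rw [integral_Ioi_of_hasDerivAt_of_nonneg hc0 (fun x _ => hd x) hpos ht]
  simp

/-- the binary form on a ray -/
noncomputable def qs (a b s : ℝ) : ℝ := (a ^ 2 - 1) + 2 * (a * b + 1) * s + (b ^ 2 - 1) * s ^ 2

theorem qs_eq (a b s : ℝ) : qs a b s = ((b - 1) * s + (a + 1)) * ((b + 1) * s + (a - 1)) := by
  unfold qs
  ring

theorem qs_pos {a b s : ℝ} (ha : 1 < a) (hb : 1 < b) (hs : 0 ≤ s) : 0 < qs a b s := by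
  rw [qs_eq]
  have h1 := mul_nonneg (sub_nonneg.2 hb.le) hs
  have h2 : 0 ≤ (b + 1) * s := mul_nonneg (by linarith) hs
  exact mul_pos (by linarith) (by linarith)

theorem sint {a b : ℝ} (ha : 1 < a) (hb : 1 < b) :
    IntegrableOn (fun s : ℝ => 1 / qs a b s) (Set.Ioi 0) ∧
      ∫ s in Set.Ioi (0 : ℝ), 1 / qs a b s = (tau a + tau b) / (a + b) := by
  have hab : 0 < a + b := by linarith
  have hd : ∀ s : ℝ, 0 ≤ s → HasDerivAt (fun s : ℝ =>
      Real.log (((b + 1) * s + (a - 1)) / ((b - 1) * s + (a + 1))) / (2 * (a + b)))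
      (1 / qs a b s) s := by
    intro s hs
    have h1 := mul_nonneg (sub_nonneg.2 hb.le) hs
    have h2 : 0 ≤ (b + 1) * s := mul_nonneg (by linarith) hs
    have h3 : 0 < (b - 1) * s + (a + 1) := by linarith
    have h4 : 0 < (b + 1) * s + (a - 1) := by linarith
    have h5 : HasDerivAt (fun s : ℝ => (b + 1) * s + (a - 1)) (b + 1) s := by
      simpa using ((hasDerivAt_id s).const_mul (b + 1)).add_const (a - 1)
    have h6 : HasDerivAt (fun s : ℝ => (b - 1) * s + (a + 1)) (b - 1) s := by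
      simpa using ((hasDerivAt_id s).const_mul (b - 1)).add_const (a + 1)
    have h7 := ((h5.div h6 h3.ne').log (div_pos h4 h3).ne').div_const (2 * (a + b))
    have h8 : ((b + 1) * ((b - 1) * s + (a + 1)) - ((b + 1) * s + (a - 1)) * (b - 1)) /
        ((b - 1) * s + (a + 1)) ^ 2 / (((b + 1) * s + (a - 1)) / ((b - 1) * s + (a + 1))) /
        (2 * (a + b)) = 1 / qs a b s := by
      rw [qs_eq]
      field_simp
      ring
    rw [← h8]
    exact h7
  have ht : Tendsto (fun s : ℝ =>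
      Real.log (((b + 1) * s + (a - 1)) / ((b - 1) * s + (a + 1))) / (2 * (a + b))) atTop
      (𝓝 (Real.log ((b + 1) / (b - 1)) / (2 * (a + b)))) := by
    have hb1 : b - 1 ≠ 0 := by linarith
    have h1 : Tendsto (fun s : ℝ => ((b + 1) + (a - 1) * s⁻¹) / ((b - 1) + (a + 1) * s⁻¹)) atTop
        (𝓝 (((b + 1) + (a - 1) * 0) / ((b - 1) + (a + 1) * 0))) := by
      refine Tendsto.div (tendsto_const_nhds.add (tendsto_inv_atTop_zero.const_mul _))
        (tendsto_const_nhds.add (tendsto_inv_atTop_zero.const_mul _)) ?_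
      rw [mul_zero, add_zero]
      exact hb1
    rw [mul_zero, mul_zero, add_zero, add_zero] at h1
    have h2 : Tendsto (fun s : ℝ => ((b + 1) * s + (a - 1)) / ((b - 1) * s + (a + 1))) atTop
        (𝓝 ((b + 1) / (b - 1))) := by
      refine h1.congr' ?_
      filter_upwards [eventually_gt_atTop (0 : ℝ)] with s hs
      have h3 : (b + 1) * s + (a - 1) = ((b + 1) + (a - 1) * s⁻¹) * s := by
        field_simp
      have h4 : (b - 1) * s + (a + 1) = ((b - 1) + (a + 1) * s⁻¹) * s := by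
        field_simp
      rw [h3, h4, mul_div_mul_right _ _ hs.ne']
    have h5 : (b + 1) / (b - 1) ≠ 0 := (div_pos (by linarith) (by linarith)).ne'
    exact (h2.log h5).div_const _
  have hc0 : ContinuousWithinAt (fun s : ℝ =>
      Real.log (((b + 1) * s + (a - 1)) / ((b - 1) * s + (a + 1))) / (2 * (a + b)))
      (Set.Ici 0) 0 := (hd 0 le_rfl).continuousAt.continuousWithinAt
  have hpos : ∀ s ∈ Set.Ioi (0 : ℝ), 0 ≤ 1 / qs a b s := fun s hs =>
    (div_pos one_pos (qs_pos ha hb (le_of_lt hs))).le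
  have hd' : ∀ s ∈ Set.Ioi (0 : ℝ), HasDerivAt (fun s : ℝ =>
      Real.log (((b + 1) * s + (a - 1)) / ((b - 1) * s + (a + 1))) / (2 * (a + b)))
      (1 / qs a b s) s := fun s hs => hd s (le_of_lt hs)
  refine ⟨integrableOn_Ioi_deriv_of_nonneg hc0 hd' hpos ht, ?_⟩
  rw [integral_Ioi_of_hasDerivAt_of_nonneg hc0 hd' hpos ht]
  have h1 : ((b + 1) * 0 + (a - 1)) / ((b - 1) * 0 + (a + 1)) = ((a + 1) / (a - 1))⁻¹ := by
    rw [mul_zero, mul_zero, zero_add, zero_add, inv_div]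
  rw [h1, Real.log_inv]
  unfold tau
  field_simp
  ring

theorem swap {a b : ℝ} (ha : 1 < a) (hb : 1 < b) :
    ∫ x in Set.Ioi (0 : ℝ), ∫ s in Set.Ioi (0 : ℝ), x * Real.exp (-(x ^ 2 * qs a b s / 2)) =
      (tau a + tau b) / (a + b) := by
  rw [integral_integral_swap]
  · rw [← (sint ha hb).2]
    refine setIntegral_congr_fun measurableSet_Ioi fun s hs => ?_
    exact (gint (qs_pos ha hb (le_of_lt hs))).2
  · have hcont : Continuous (Function.uncurry fun x s : ℝ =>
        x * Real.exp (-(x ^ 2 * qs a b s / 2))) := by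
      unfold Function.uncurry qs
      fun_prop
    rw [integrable_prod_iff' hcont.aestronglyMeasurable]
    constructor
    · rw [ae_restrict_iff' measurableSet_Ioi]
      exact Eventually.of_forall fun s hs => (gint (qs_pos ha hb (le_of_lt hs))).1
    · refine (sint ha hb).1.congr_fun ?_ measurableSet_Ioi
      intro s hs
      simp only [Function.uncurry]
      rw [← (gint (qs_pos ha hb (le_of_lt hs))).2]
      refine setIntegral_congr_fun measurableSet_Ioi fun x hx => ?_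
      exact (Real.norm_of_nonneg (mul_nonneg (le_of_lt hx) (Real.exp_pos _).le)).symm

theorem qf_edge (k : R4) (c : Fin 4) (l' : Fin 3) (w : Fin 2 → ℝ) :
    qf k (Fin.insertNth c (0 : ℝ) (Fin.insertNth l' (0 : ℝ) w)) =
      ((k (c.succAbove (l'.succAbove 0))) ^ 2 - 1) * w 0 ^ 2 +
      2 * (k (c.succAbove (l'.succAbove 0)) * k (c.succAbove (l'.succAbove 1)) + 1) *
        (w 0 * w 1) + ((k (c.succAbove (l'.succAbove 1))) ^ 2 - 1) * w 1 ^ 2 := by
  unfold qf
  rw [Fin.sum_univ_succAbove _ c, Fin.sum_univ_succAbove _ l', Fin.sum_univ_succAbove _ c,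
    Fin.sum_univ_succAbove _ l', Fin.sum_univ_succAbove _ c, Fin.sum_univ_succAbove _ l']
  simp only [Fin.insertNth_apply_same, Fin.insertNth_apply_succAbove, Fin.sum_univ_two]
  ring

end Edge2Aux

open Edge2Aux in
theorem gauss2 (a b : ℝ) (ha : 1 < a) (hb : 1 < b) :
    ∫ w in Orth 2, Real.exp (-((a ^ 2 - 1) * w 0 ^ 2 + 2 * (a * b + 1) * (w 0 * w 1)
      + (b ^ 2 - 1) * w 1 ^ 2) / 2) = (tau a + tau b) / (a + b) := by
  have hA : 0 < (a ^ 2 - 1) / 2 := by nlinarith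
  have hC : 0 < (b ^ 2 - 1) / 2 := by nlinarith
  have hAB : 0 < a * b + 1 := by nlinarith
  have h1 : ∫ w in Orth 2, Real.exp (-((a ^ 2 - 1) * w 0 ^ 2 + 2 * (a * b + 1) * (w 0 * w 1)
      + (b ^ 2 - 1) * w 1 ^ 2) / 2) = ∫ p in Set.Ioi (0 : ℝ) ×ˢ Set.Ioi (0 : ℝ),
        Real.exp (-((a ^ 2 - 1) * p.1 ^ 2 + 2 * (a * b + 1) * (p.1 * p.2)
      + (b ^ 2 - 1) * p.2 ^ 2) / 2) := by
    rw [← (volume_preserving_finTwoArrow ℝ).setIntegral_preimage_emb
      (MeasurableEquiv.finTwoArrow (α := ℝ)).measurableEmbedding]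
    have h2 : (MeasurableEquiv.finTwoArrow (α := ℝ)) ⁻¹' (Set.Ioi (0 : ℝ) ×ˢ Set.Ioi (0 : ℝ)) =
        Orth 2 := by
      ext w
      constructor
      · rintro ⟨h3, h4⟩ i
        fin_cases i
        · exact h3
        · exact h4
      · intro h
        exact ⟨h 0, h 1⟩
    rw [h2]
    rfl
  rw [h1]
  have hint : IntegrableOn (fun p : ℝ × ℝ => Real.exp (-((a ^ 2 - 1) * p.1 ^ 2 +
      2 * (a * b + 1) * (p.1 * p.2) + (b ^ 2 - 1) * p.2 ^ 2) / 2))
      (Set.Ioi (0 : ℝ) ×ˢ Set.Ioi (0 : ℝ)) (volume.prod volume) := by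
    have h2 : Integrable (fun p : ℝ × ℝ => Real.exp (-((a ^ 2 - 1) / 2) * p.1 ^ 2) *
        Real.exp (-((b ^ 2 - 1) / 2) * p.2 ^ 2)) (volume.prod volume) :=
      (integrable_exp_neg_mul_sq hA).mul_prod (integrable_exp_neg_mul_sq hC)
    refine Integrable.mono' h2.integrableOn (Continuous.aestronglyMeasurable (by fun_prop)) ?_
    rw [ae_restrict_iff' (measurableSet_Ioi.prod measurableSet_Ioi)]
    refine Filter.Eventually.of_forall fun p hp => ?_
    rw [Real.norm_of_nonneg (Real.exp_pos _).le, ← Real.exp_add, Real.exp_le_exp]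
    have h3 : 0 < p.1 * p.2 := mul_pos hp.1 hp.2
    have h4 := mul_pos hAB h3
    nlinarith
  have h5 := setIntegral_prod _ hint
  rw [← Measure.volume_eq_prod] at h5
  rw [h5, ← swap ha hb]
  refine setIntegral_congr_fun measurableSet_Ioi fun x hx => ?_
  have hx0 : (0 : ℝ) < x := hx
  have h6 := integral_comp_mul_left_Ioi (fun y : ℝ => Real.exp (-((a ^ 2 - 1) * x ^ 2 +
      2 * (a * b + 1) * (x * y) + (b ^ 2 - 1) * y ^ 2) / 2)) 0 hx0
  rw [mul_zero, smul_eq_mul] at h6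
  simp only
  rw [integral_const_mul]
  have h7 : ∫ s in Set.Ioi (0 : ℝ), Real.exp (-(x ^ 2 * qs a b s / 2)) =
      ∫ s in Set.Ioi (0 : ℝ), Real.exp (-((a ^ 2 - 1) * x ^ 2 +
      2 * (a * b + 1) * (x * (x * s)) + (b ^ 2 - 1) * (x * s) ^ 2) / 2) := by
    congr 1
    funext s
    congr 1
    unfold qs
    ring
  rw [h7, h6, mul_inv_cancel_left₀ hx0.ne']

theorem Af_eq (k : R4) (hk : ∀ i, 1 < k i) (c : Fin 4) (l' : Fin 3) :
    Af k c l' = (tau (k (c.succAbove (l'.succAbove 0))) + tau (k (c.succAbove (l'.succAbove 1)))) /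
      (k (c.succAbove (l'.succAbove 0)) + k (c.succAbove (l'.succAbove 1))) := by
  unfold Af
  rw [← gauss2 _ _ (hk _) (hk _)]
  congr 1
  funext w
  rw [Edge2Aux.qf_edge]

end Pool.Agent.MidT
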