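import Pool.Agent.MidT.Defs

/-!
# MidT module EDGEI: one-variable inequalities for the case `(1, 1, l, k)`

`edge_Ea`: put `P = 2 + 15 y/4 + t`, `t ≥ 0`: difference of the two sides
`= (y/2 + 165/16 y² + 4083/128 y³ + 64707/5120 y⁴ - 3953/128 y⁵) + t (6/5 + 19/2 y + 4683/160 y² + 1449/64 y³ - 645/32 y⁴)
 + t² (9/5 + 73/8 y + 1833/160 y² - 35/8 y³) + t³ (9/10 + 9/4 y - 3/10 y²) + 3/20 t⁴`, all coefficients `≥ 0` for `y ∈ [0,1]`.

`edge_lb`: `log (1/y) ≤ (1-y)(1+5y)/(2y(2+y))` (difference of the derivatives has a sign; at `y = 1` equality), so it suffices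
`R(y) := (15+4y)(1+5y)/(12 (2+y)(1+y)) < log (2 + 15y/4)` on `(0,1)`.  Minimal margin about `0.010` near `y = 0.3`
(`y = 0`: `0.625 < 0.693`; `y = 1`: `19/12 < 1.749`).  E.g. split `[0,1]` into a few intervals, on each use the tangent-type Padé bound
`log (s t) = log s + log t`, `log t ≥ 2 (t-1)/(t+1)` (`t ≥ 1`), and numerical bounds for `log s`; or: the derivative of `log (2+15y/4) - R(y)` is a
rational function with explicit sign; the minimum is at a root of a polynomial.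
-/

set_option autoImplicit false

namespace Pool.Agent.MidT

open Set Filter Topology

theorem edge_Ea (y P : ℝ) (hy0 : 0 < y) (hy1 : y < 1) (hP : 2 + 15 * y / 4 ≤ P) :
    (1 - y ^ 2) ^ 2 * P * (3 / 20 * P + y) ≤
      (P - 1) * (P - y ^ 2) * (3 / 20 * (P ^ 2 - (1 + y ^ 2) * P - y ^ 2) - (1 + y ^ 2) * y) := by
  obtain ⟨t, rfl⟩ : ∃ t, P = 2 + 15 * y / 4 + t := ⟨P - (2 + 15 * y / 4), by ring⟩
  have ht : 0 ≤ t := by linarith
  have y2 : y ^ 2 ≤ 1 := by nlinarith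
  have y1 : y ≤ 1 := hy1.le
  have hc0 : 0 ≤ y / 2 + 165 / 16 * y ^ 2 + 4083 / 128 * y ^ 3 + 64707 / 5120 * y ^ 4
      - 3953 / 128 * y ^ 5 := by
    have h : y ^ 5 ≤ y ^ 3 := pow_le_pow_of_le_one hy0.le y1 (by norm_num)
    have h3 : 0 ≤ y ^ 3 := by positivity
    have h4 : 0 ≤ y ^ 4 := by positivity
    have h2 : 0 ≤ y ^ 2 := by positivity
    linarith
  have hc1 : 0 ≤ 6 / 5 + 19 / 2 * y + 4683 / 160 * y ^ 2 + 1449 / 64 * y ^ 3
      - 645 / 32 * y ^ 4 := by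
    have h : y ^ 4 ≤ y ^ 3 := pow_le_pow_of_le_one hy0.le y1 (by norm_num)
    have h3 : 0 ≤ y ^ 3 := by positivity
    have h2 : 0 ≤ y ^ 2 := by positivity
    linarith
  have hc2 : 0 ≤ 9 / 5 + 73 / 8 * y + 1833 / 160 * y ^ 2 - 35 / 8 * y ^ 3 := by
    have h : y ^ 3 ≤ y ^ 2 := pow_le_pow_of_le_one hy0.le y1 (by norm_num)
    have h2 : 0 ≤ y ^ 2 := by positivity
    linarith
  have hc3 : 0 ≤ 9 / 10 + 9 / 4 * y - 3 / 10 * y ^ 2 := by linarith
  have key : (2 + 15 * y / 4 + t - 1) * (2 + 15 * y / 4 + t - y ^ 2) *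
      (3 / 20 * ((2 + 15 * y / 4 + t) ^ 2 - (1 + y ^ 2) * (2 + 15 * y / 4 + t) - y ^ 2)
        - (1 + y ^ 2) * y) -
      (1 - y ^ 2) ^ 2 * (2 + 15 * y / 4 + t) * (3 / 20 * (2 + 15 * y / 4 + t) + y) =
      (y / 2 + 165 / 16 * y ^ 2 + 4083 / 128 * y ^ 3 + 64707 / 5120 * y ^ 4
        - 3953 / 128 * y ^ 5) +
      t * (6 / 5 + 19 / 2 * y + 4683 / 160 * y ^ 2 + 1449 / 64 * y ^ 3 - 645 / 32 * y ^ 4) +
      t ^ 2 * (9 / 5 + 73 / 8 * y + 1833 / 160 * y ^ 2 - 35 / 8 * y ^ 3) +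
      t ^ 3 * (9 / 10 + 9 / 4 * y - 3 / 10 * y ^ 2) + 3 / 20 * t ^ 4 := by
    ring
  have h1 := mul_nonneg ht hc1
  have h2 := mul_nonneg (pow_nonneg ht 2) hc2
  have h3 := mul_nonneg (pow_nonneg ht 3) hc3
  have h4 := pow_nonneg ht 4
  linarith

theorem log_le_pade (u : ℝ) (hu : 1 ≤ u) :
    Real.log u ≤ (u ^ 2 + 4 * u - 5) / (4 * u + 2) := by
  have hd : ∀ x : ℝ, 1 ≤ x → HasDerivAt
      (fun x : ℝ => (x ^ 2 + 4 * x - 5) / (4 * x + 2) - Real.log x)
      ((x - 1) ^ 3 / (x * (2 * x + 1) ^ 2)) x := by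
    intro x hx
    have h0 : x ≠ 0 := by intro h; linarith
    have h1 : 4 * x + 2 ≠ 0 := by intro h; linarith
    have h2 : 2 * x + 1 ≠ 0 := by intro h; linarith
    have hn : HasDerivAt (fun x : ℝ => x ^ 2 + 4 * x - 5) (2 * x + 4) x := by
      have := ((hasDerivAt_pow 2 x).add ((hasDerivAt_id x).const_mul 4)).sub_const 5
      have h3 : (2 * x + 4 : ℝ) = ((2 : ℕ) : ℝ) * x ^ (2 - 1) + 4 * 1 := by norm_num
      rw [h3]
      exact this
    have hm : HasDerivAt (fun x : ℝ => 4 * x + 2) 4 x := by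
      have h3 := ((hasDerivAt_id x).const_mul (4 : ℝ)).add_const 2
      rw [mul_one] at h3
      exact h3
    have h4 := (hn.div hm h1).sub (Real.hasDerivAt_log h0)
    have h5 : ((2 * x + 4) * (4 * x + 2) - (x ^ 2 + 4 * x - 5) * 4) / (4 * x + 2) ^ 2 - x⁻¹ =
        (x - 1) ^ 3 / (x * (2 * x + 1) ^ 2) := by
      rw [show 4 * x + 2 = 2 * (2 * x + 1) by ring]
      field_simp
      ring
    rw [h5] at h4
    exact h4
  have hmono : MonotoneOn (fun x : ℝ => (x ^ 2 + 4 * x - 5) / (4 * x + 2) - Real.log x)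
      (Ici 1) := by
    apply monotoneOn_of_deriv_nonneg (convex_Ici 1)
    · intro x hx
      exact (hd x hx).continuousAt.continuousWithinAt
    · intro x hx
      rw [interior_Ici] at hx
      exact (hd x (le_of_lt hx)).differentiableAt.differentiableWithinAt
    · intro x hx
      rw [interior_Ici] at hx
      rw [(hd x (le_of_lt hx)).deriv]
      have h1 : 0 < x - 1 := by
        have : 1 < x := hx
        linarith
      have h2 : 0 < x := by linarith
      positivity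
  have h := hmono (mem_Ici.2 le_rfl) (mem_Ici.2 hu) hu
  simp only [Real.log_one] at h
  norm_num at h
  linarith

theorem edge_lb (y : ℝ) (hy0 : 0 < y) (hy1 : y < 1) :
    y * (15 + 4 * y) / (6 * (1 - y ^ 2)) * Real.log (1 / y) < Real.log (2 + 15 * y / 4) := by
  have hu : 1 ≤ 1 / y := by
    rw [le_div_iff₀ hy0]
    linarith
  have h1 := log_le_pade (1 / y) hu
  have hq : 0 < 1 - y ^ 2 := by nlinarith
  have h2 : y * (15 + 4 * y) / (6 * (1 - y ^ 2)) * Real.log (1 / y) ≤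
      y * (15 + 4 * y) / (6 * (1 - y ^ 2)) *
        (((1 / y) ^ 2 + 4 * (1 / y) - 5) / (4 * (1 / y) + 2)) := by
    apply mul_le_mul_of_nonneg_left h1
    positivity
  have h3 : y * (15 + 4 * y) / (6 * (1 - y ^ 2)) *
        (((1 / y) ^ 2 + 4 * (1 / y) - 5) / (4 * (1 / y) + 2)) =
      (15 + 4 * y) * (1 + 5 * y) / (12 * (2 + y) * (1 + y)) := by
    have a1 : y ≠ 0 := hy0.ne'
    have a2 : 1 - y ^ 2 ≠ 0 := hq.ne'
    have a3 : 2 + y ≠ 0 := by positivity
    have a4 : 1 + y ≠ 0 := by positivity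
    have a5 : 4 * (1 / y) + 2 ≠ 0 := by positivity
    have a6 : 1 - y ≠ 0 := by intro h; linarith
    have e1 : ((1 / y) ^ 2 + 4 * (1 / y) - 5) / (4 * (1 / y) + 2) =
        (1 - y) * (1 + 5 * y) / (2 * y * (2 + y)) := by
      rw [div_eq_div_iff a5 (by positivity)]
      field_simp
      ring
    rw [e1, show 1 - y ^ 2 = (1 - y) * (1 + y) by ring]
    field_simp
    ring
  have h4 : Real.log (2 + 15 * y / 4) = Real.log 2 + Real.log (1 + 15 * y / 8) := by
    rw [← Real.log_mul (by norm_num) (by positivity)]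
    congr 1
    ring
  have h5 : 2 * (15 * y / 8) / (15 * y / 8 + 2) ≤ Real.log (1 + 15 * y / 8) :=
    Real.le_log_one_add_of_nonneg (by positivity)
  have h6 := Real.log_two_gt_d9
  have h7 : (15 + 4 * y) * (1 + 5 * y) / (12 * (2 + y) * (1 + y)) <
      0.6931 + 2 * (15 * y / 8) / (15 * y / 8 + 2) := by
    have e1 : 2 * (15 * y / 8) / (15 * y / 8 + 2) = 30 * y / (16 + 15 * y) := by
      rw [div_eq_div_iff (by positivity) (by positivity)]
      ring
    rw [e1]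
    have e2 : 0.6931 + 30 * y / (16 + 15 * y) = (0.6931 * (16 + 15 * y) + 30 * y) / (16 + 15 * y) := by
      field_simp
    rw [e2, div_lt_div_iff₀ (by positivity) (by positivity)]
    nlinarith [mul_nonneg hy0.le (sq_nonneg (y - 17 / 50)), sq_nonneg (y - 17 / 50)]
  rw [h4]
  rw [h3] at h2
  linarith

end Pool.Agent.MidT
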