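import Pool.Agent.MidT.CritF

/-!
# MidT module FACEA: critical points on the face `k 0 = 1`

`crit_face_pair` says `T_c - T_d = v (1/(1+k c) - 1/(1+k d))` for `c, d ≥ 1`, `v = T̂ Π/e_0 > 0`.  So the function
`f(x) = tau x - v/(x+1)` takes the same value at `k 1, k 2, k 3`.  `f'(x) = -1/(x²-1) + v/(x+1)² = (v (x-1) - (x+1))/((x-1)(x+1)²)` has at most one
zero on `(1,∞)` (the numerator is affine and nonzero at `x = 1`).  Rolle: `f` has no three different points with equal values.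
-/

set_option autoImplicit false

namespace Pool.Agent.MidT

open MeasureTheory Set Filter Topology

theorem ff_hasDerivAt (V x : ℝ) (hx : 1 < x) :
    HasDerivAt (fun x => tau x - V / (x + 1)) (-(1 / (x ^ 2 - 1)) + V / (x + 1) ^ 2) x := by
  have h1 : x + 1 ≠ 0 := by intro h; linarith
  have h2 : HasDerivAt (fun x : ℝ => V / (x + 1)) ((0 * (x + 1) - V * 1) / (x + 1) ^ 2) x :=
    (hasDerivAt_const x V).div ((hasDerivAt_id x).add_const 1) h1
  have h3 := (tau_hasDerivAt x hx).sub h2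
  have h4 : -(1 / (x ^ 2 - 1)) - (0 * (x + 1) - V * 1) / (x + 1) ^ 2 =
      -(1 / (x ^ 2 - 1)) + V / (x + 1) ^ 2 := by ring
  rw [h4] at h3
  exact h3

theorem ff_zero (V a b : ℝ) (ha : 1 < a) (hab : a < b)
    (h : tau a - V / (a + 1) = tau b - V / (b + 1)) :
    ∃ x, a < x ∧ x < b ∧ V * (x - 1) = x + 1 := by
  obtain ⟨x, hx, hx0⟩ := exists_hasDerivAt_eq_zero (f := fun x => tau x - V / (x + 1))
    (f' := fun x => -(1 / (x ^ 2 - 1)) + V / (x + 1) ^ 2) hab
    (fun y hy => (ff_hasDerivAt V y (lt_of_lt_of_le ha hy.1)).continuousAt.continuousWithinAt) h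
    (fun y hy => ff_hasDerivAt V y (ha.trans hy.1))
  refine ⟨x, hx.1, hx.2, ?_⟩
  have h1 : 1 < x := ha.trans hx.1
  have h2 : x - 1 ≠ 0 := by intro h; linarith
  have h3 : x + 1 ≠ 0 := by intro h; linarith
  rw [show x ^ 2 - 1 = (x - 1) * (x + 1) by ring] at hx0
  field_simp at hx0
  linarith

theorem no3 (V a b c : ℝ) (ha : 1 < a) (hab : a < b) (hbc : b < c)
    (h1 : tau a - V / (a + 1) = tau b - V / (b + 1))
    (h2 : tau b - V / (b + 1) = tau c - V / (c + 1)) : False := by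
  obtain ⟨x, hx1, hx2, hx⟩ := ff_zero V a b ha hab h1
  obtain ⟨y, hy1, hy2, hy⟩ := ff_zero V b c (ha.trans hab) hbc h2
  have h3 : (V - 1) * (y - x) = 0 := by linarith
  have h4 : y - x ≠ 0 := by intro h; linarith
  have h5 : V = 1 := by
    rcases mul_eq_zero.1 h3 with h | h
    · linarith
    · exact absurd h h4
  rw [h5] at hx
  linarith

theorem face_two_values (q : ℝ) (hq : 0 < q) (k : R4) (h0 : k 0 = 1) (hk : ∀ i, i ≠ 0 → 1 < k i)
    (hQ : Qk k = q) (h : IsLocalMaxOn VV (DD q) k) : k 1 = k 2 ∨ k 2 = k 3 ∨ k 1 = k 3 := by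
  have k1 : 1 < k 1 := hk 1 (by decide)
  have k2 : 1 < k 2 := hk 2 (by decide)
  have k3 : 1 < k 3 := hk 3 (by decide)
  have c12 := crit_face_pair q hq k h0 hk hQ h 1 2 (by decide) (by decide)
  have c23 := crit_face_pair q hq k h0 hk hQ h 2 3 (by decide) (by decide)
  have hE : 0 < 1 + k 1 * k 2 + k 1 * k 3 + k 2 * k 3 := by positivity
  obtain ⟨E, hEdef⟩ : ∃ E, E = 1 + k 1 * k 2 + k 1 * k 3 + k 2 * k 3 := ⟨_, rfl⟩
  obtain ⟨N, hN⟩ : ∃ N, N = (tau (k 1) + tau (k 2) + tau (k 3)) *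
      ((1 + k 1) * (1 + k 2) * (1 + k 3)) := ⟨_, rfl⟩
  rw [← hEdef] at hE c12 c23
  rw [← hN] at c12 c23
  have key : ∀ x y : ℝ, 1 < x → 1 < y →
      (tau x - tau y) * (1 + x) * (1 + y) * E = N * (y - x) →
      tau x - N / E / (x + 1) = tau y - N / E / (y + 1) := by
    intro x y hx hy hxy
    have h1 : x + 1 ≠ 0 := by intro h; linarith
    have h2 : y + 1 ≠ 0 := by intro h; linarith
    have h3 : E ≠ 0 := hE.ne'
    have h4 : tau x - tau y = N * (y - x) / ((1 + x) * (1 + y) * E) := by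
      rw [eq_div_iff (by positivity)]
      linarith
    have h5 : N / E / (x + 1) - N / E / (y + 1) = N * (y - x) / ((1 + x) * (1 + y) * E) := by
      have h1' : 1 + x ≠ 0 := by intro h; linarith
      have h2' : 1 + y ≠ 0 := by intro h; linarith
      field_simp
      ring
    linarith
  have e12 := key _ _ k1 k2 c12
  have e23 := key _ _ k2 k3 c23
  by_contra hcon
  push Not at hcon
  obtain ⟨n12, n23, n13⟩ := hcon
  rcases lt_or_gt_of_ne n12 with h12 | h12
  · rcases lt_or_gt_of_ne n23 with h23 | h23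
    · exact no3 _ _ _ _ k1 h12 h23 e12 e23
    · rcases lt_or_gt_of_ne n13 with h13 | h13
      · exact no3 _ _ _ _ k1 h13 h23 (e12.trans e23) e23.symm
      · exact no3 _ _ _ _ k3 h13 h12 (e12.trans e23).symm e12
  · rcases lt_or_gt_of_ne n23 with h23 | h23
    · rcases lt_or_gt_of_ne n13 with h13 | h13
      · exact no3 _ _ _ _ k2 h12 h13 e12.symm (e12.trans e23)
      · exact no3 _ _ _ _ k2 h23 h13 e23 (e12.trans e23).symm
    · exact no3 _ _ _ _ k3 h23 h12 e23.symm e12.symm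

end Pool.Agent.MidT
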