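import Pool.Agent.MidT.Defs
import Pool.Agent.Hhelper43.Mid.Defs

/-!
# MidT module GEOA: the tangent lengths of a midscribed tetrahedron (Klein model)

Let `ρ = tanh r`, `v` midscribed.  For `i ≠ j` let `P` be the tangency point of the edge `ij`: `P = v i + s (v j - v i)`,
`0 ≤ s ≤ 1`, `‖P‖ = ρ`, `⟪v j - v i, P⟫ = 0`.  Then `‖v i‖² = ρ² + ‖v i - P‖²`, `‖v j‖² = ρ² + ‖v j - P‖²`,
`‖v i - v j‖ = ‖v i - P‖ + ‖v j - P‖`.  So with `t i = √(‖v i‖² - ρ²)`: `‖v i - v j‖ = t i + t j`, i.e.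
`⟪v i, v j⟫ = ρ² - t i t j`.  `t i > 0`: otherwise `‖v i - P‖ = 0` for the tangency points of the three edges at `v i`, so
`v i = P` is orthogonal to the three (linearly independent) edge directions, so `v i = 0`, but `‖v i‖ ≥ ρ > 0`.
`t i < 1 / cosh r` from `‖v i‖ < 1`, `1 - ρ² = 1 / cosh² r`.  Put `k i = 1 / (cosh r * t i) > 1`.

`Qk k = 4 / sinh² r`: the four vectors `v i` of the three-dimensional space are linearly dependent: `∑ c_i v i = 0`, `c ≠ 0`.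
Inner product with `v j`: `ρ² C - t_j T + 2 c_j t_j² = 0`, `C = ∑ c_i`, `T = ∑ c_i t_i`; so
`2 c_j t_j = T - ρ² C / t_j` and `2 c_j = T / t_j - ρ² C / t_j²`.  Sum over `j`: `2 T = 4 T - ρ² C ∑ 1/t`, `2 C = T ∑ 1/t - ρ² C ∑ 1/t²`.
If `C = 0` then `T = 0` and all `c_j = 0`.  Otherwise `T = ρ² C (∑ 1/t)/2` and `4 = ρ² ((∑ 1/t)² - 2 ∑ 1/t²)`, i.e.
`Qk (1/t) = 4/ρ²`, and `Qk k = Qk (1/t) / cosh² r = 4 / sinh² r`.
-/

set_option autoImplicit false

namespace Pool.Agent.MidT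

open MeasureTheory Pool.Agent.Hhelper43.Mid
open scoped RealInnerProductSpace

/-- One tangent edge. -/
theorem geoA_edge {ρ : ℝ} {u w : E3} {P : E3} (hP : P ∈ segment ℝ u w) (hn : ‖P‖ = ρ)
    (ho : ⟪w - u, P⟫ = 0) :
    0 ≤ ⟪u, u⟫ - ρ ^ 2 ∧ (⟪u, u⟫ - ρ ^ 2) * (⟪w, w⟫ - ρ ^ 2) = (ρ ^ 2 - ⟪u, w⟫) ^ 2 ∧
      0 ≤ ρ ^ 2 - ⟪u, w⟫ ∧ (⟪u, u⟫ - ρ ^ 2 = 0 → P = u) := by
  obtain ⟨a, b, ha, hb, hab, rfl⟩ := hP
  have hwu : ⟪w, u⟫ = ⟪u, w⟫ := real_inner_comm _ _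
  have h1 : ⟪a • u + b • w, a • u + b • w⟫ = ρ ^ 2 := by rw [real_inner_self_eq_norm_sq, hn]
  simp only [inner_add_left, inner_add_right, real_inner_smul_left, real_inner_smul_right,
    hwu] at h1
  simp only [inner_sub_left, inner_add_right, real_inner_smul_right, hwu] at ho
  obtain rfl : b = 1 - a := by linarith
  -- the inner products of `P` with the ends are `ρ ^ 2`
  have e1 : a * ⟪u, u⟫ + (1 - a) * ⟪u, w⟫ = ρ ^ 2 := by
    linear_combination h1 - (1 - a) * ho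
  have e2 : a * ⟪u, w⟫ + (1 - a) * ⟪w, w⟫ = ρ ^ 2 := by
    linear_combination h1 + a * ho
  have hn2 : ‖(a • u + (1 - a) • w) - u‖ ^ 2 = ⟪u, u⟫ - ρ ^ 2 := by
    rw [← real_inner_self_eq_norm_sq]
    simp only [inner_add_left, inner_add_right, inner_sub_left, inner_sub_right,
      real_inner_smul_left, real_inner_smul_right, hwu]
    linear_combination h1 - 2 * e1
  have hn3 : 0 ≤ ‖w - u‖ ^ 2 := by positivity
  have hn4 : ‖w - u‖ ^ 2 = ⟪w, w⟫ + ⟪u, u⟫ - 2 * ⟪u, w⟫ := by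
    rw [← real_inner_self_eq_norm_sq]
    simp only [inner_sub_left, inner_sub_right, hwu]
    ring
  refine ⟨?_, ?_, ?_, ?_⟩
  · rw [← hn2]; positivity
  · have f1 : ⟪u, u⟫ - ρ ^ 2 = (1 - a) * (⟪u, u⟫ - ⟪u, w⟫) := by linear_combination e1
    have f2 : ρ ^ 2 - ⟪u, w⟫ = a * (⟪u, u⟫ - ⟪u, w⟫) := by linear_combination -e1
    have f3 : ⟪w, w⟫ - ρ ^ 2 = a * (⟪w, w⟫ - ⟪u, w⟫) := by linear_combination e2
    have f4 : ρ ^ 2 - ⟪u, w⟫ = (1 - a) * (⟪w, w⟫ - ⟪u, w⟫) := by linear_combination -e2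
    calc (⟪u, u⟫ - ρ ^ 2) * (⟪w, w⟫ - ρ ^ 2)
        = (a * (⟪u, u⟫ - ⟪u, w⟫)) * ((1 - a) * (⟪w, w⟫ - ⟪u, w⟫)) := by rw [f1, f3]; ring
      _ = (ρ ^ 2 - ⟪u, w⟫) ^ 2 := by rw [← f2, ← f4]; ring
  · have f5 : ρ ^ 2 - ⟪u, w⟫ = a * (1 - a) * ‖w - u‖ ^ 2 := by
      rw [hn4]
      linear_combination -(1 - a) * e1 - a * e2
    rw [f5]
    positivity
  · intro h
    rw [h] at hn2
    have h5 : ‖(a • u + (1 - a) • w) - u‖ = 0 := by
      rwa [sq_eq_zero_iff] at hn2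
    exact sub_eq_zero.mp (norm_eq_zero.mp h5)

theorem geoA (r : ℝ) (hr : 0 < r) (v : Fin 4 → E3) (hv : HypMidscribed r v) :
    ∃ k : R4, (∀ i, 1 < k i) ∧ Qk k = 4 / Real.sinh r ^ 2 ∧
      ∀ i j, ⟪v i, v j⟫ = Real.tanh r ^ 2 -
        (1 - if i = j then 2 else 0) / (Real.cosh r ^ 2 * k i * k j) := by
  have hC : 0 < Real.cosh r := Real.cosh_pos r
  have hS : 0 < Real.sinh r := Real.sinh_pos_iff.2 hr
  have hρ : 0 < Real.tanh r := by
    rw [Real.tanh_eq_sinh_div_cosh]; exact div_pos hS hC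
  have hρ2 : Real.tanh r ^ 2 = 1 - 1 / Real.cosh r ^ 2 := by
    rw [Real.tanh_eq_sinh_div_cosh]
    have h1 := Real.cosh_sq r
    field_simp
    linarith
  have hρS : Real.tanh r ^ 2 * Real.cosh r ^ 2 = Real.sinh r ^ 2 := by
    rw [Real.tanh_eq_sinh_div_cosh]
    field_simp
  obtain ⟨ρ, hρd⟩ : ∃ ρ, ρ = Real.tanh r := ⟨_, rfl⟩
  rw [← hρd] at hρ hρ2 hρS ⊢
  have hedge : ∀ i j, i ≠ j → 0 ≤ ⟪v i, v i⟫ - ρ ^ 2 ∧
      (⟪v i, v i⟫ - ρ ^ 2) * (⟪v j, v j⟫ - ρ ^ 2) = (ρ ^ 2 - ⟪v i, v j⟫) ^ 2 ∧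
      0 ≤ ρ ^ 2 - ⟪v i, v j⟫ ∧ (⟪v i, v i⟫ - ρ ^ 2 = 0 → ⟪v j - v i, v i⟫ = 0) := by
    intro i j hij
    obtain ⟨P, hP, hn, ho⟩ := hv.edges i j hij
    rw [← hρd] at hn
    obtain ⟨h1, h2, h3, h4⟩ := geoA_edge hP hn ho
    refine ⟨h1, h2, h3, fun h => ?_⟩
    rw [h4 h] at ho
    exact ho
  have hnn : ∀ i, 0 ≤ ⟪v i, v i⟫ - ρ ^ 2 := by
    intro i
    obtain ⟨j, hj⟩ := exists_ne i
    exact (hedge i j hj.symm).1
  have hpos : ∀ i, 0 < ⟪v i, v i⟫ - ρ ^ 2 := by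
    intro i
    refine lt_of_le_of_ne (hnn i) ?_
    intro h0
    have horth : ∀ j, ⟪v i, v j -ᵥ v i⟫ = 0 := by
      intro j
      by_cases hij : i = j
      · subst hij
        rw [vsub_self, inner_zero_right]
      · rw [real_inner_comm]
        exact (hedge i j hij).2.2.2 h0.symm
    have htop : vectorSpan ℝ (Set.range v) = ⊤ := by
      apply hv.indep.vectorSpan_eq_top_of_card_eq_finrank_add_one
      simp
    have h1 : v i ∈ vectorSpan ℝ (Set.range v) := by rw [htop]; exact Submodule.mem_top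
    rw [vectorSpan_range_eq_span_range_vsub_right ℝ v i] at h1
    have h2 : ∀ x ∈ Submodule.span ℝ (Set.range fun j => v j -ᵥ v i), ⟪v i, x⟫ = 0 := by
      intro x hx
      induction hx using Submodule.span_induction with
      | mem x hx =>
        obtain ⟨j, rfl⟩ := hx
        exact horth j
      | zero => exact inner_zero_right _
      | add x y _ _ hx hy => rw [inner_add_right, hx, hy, add_zero]
      | smul c x _ hx => rw [real_inner_smul_right, hx, mul_zero]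
    have h3 := h2 _ h1
    rw [h3] at h0
    nlinarith
  obtain ⟨t, ht⟩ : ∃ t : Fin 4 → ℝ, ∀ i, t i = Real.sqrt (⟪v i, v i⟫ - ρ ^ 2) := ⟨_, fun _ => rfl⟩
  have ht0 : ∀ i, 0 < t i := fun i => by rw [ht]; exact Real.sqrt_pos.mpr (hpos i)
  have ht2 : ∀ i, ⟪v i, v i⟫ = ρ ^ 2 + t i ^ 2 := by
    intro i
    rw [ht, Real.sq_sqrt (hnn i)]
    ring
  have hij : ∀ i j, i ≠ j → ⟪v i, v j⟫ = ρ ^ 2 - t i * t j := by
    intro i j h
    obtain ⟨h1, h2, h3, _⟩ := hedge i j h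
    rw [ht2, ht2] at h2
    have h4 : (t i * t j) ^ 2 = (ρ ^ 2 - ⟪v i, v j⟫) ^ 2 := by linear_combination h2
    have h5 := (sq_eq_sq₀ (mul_pos (ht0 i) (ht0 j)).le h3).mp h4
    linarith
  have htlt : ∀ i, t i < 1 / Real.cosh r := by
    intro i
    have h1 := hv.inside i
    have h2 := ht2 i
    rw [real_inner_self_eq_norm_sq, hρ2] at h2
    have h3 : ‖v i‖ ^ 2 < 1 := by nlinarith [norm_nonneg (v i)]
    have h4 : t i ^ 2 < (1 / Real.cosh r) ^ 2 := by rw [one_div_pow]; linarith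
    exact lt_of_pow_lt_pow_left₀ 2 (by positivity) h4
  refine ⟨fun i => 1 / (Real.cosh r * t i), ?_, ?_, ?_⟩
  · intro i
    have h1 := htlt i
    have h2 := ht0 i
    rw [lt_div_iff₀ hC] at h1
    rw [lt_div_iff₀ (by positivity)]
    linarith
  · -- linear dependence
    have hdep : ¬ LinearIndependent ℝ v := by
      intro h
      have := h.fintype_card_le_finrank
      simp at this
    rw [Fintype.not_linearIndependent_iff] at hdep
    obtain ⟨c, hc, i0, hi0⟩ := hdep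
    have hj : ∀ j, ρ ^ 2 * (∑ i, c i) - t j * (∑ i, c i * t i) + 2 * c j * t j ^ 2 = 0 := by
      intro j
      have h1 : ⟪∑ i, c i • v i, v j⟫ = 0 := by rw [hc, inner_zero_left]
      rw [sum_inner] at h1
      have h2 : ∀ e, ⟪c e • v e, v j⟫ = c e * ρ ^ 2 - t j * (c e * t e)
          + (if e = j then 2 * c j * t j ^ 2 else 0) := by
        intro e
        rw [real_inner_smul_left]
        by_cases hej : e = j
        · subst hej
          rw [ht2, if_pos rfl]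
          ring
        · rw [hij e j hej, if_neg hej]
          ring
      rw [Finset.sum_congr rfl (fun e _ => h2 e), Finset.sum_add_distrib,
        Finset.sum_sub_distrib, ← Finset.sum_mul, ← Finset.mul_sum,
        Finset.sum_ite_eq' Finset.univ j, if_pos (Finset.mem_univ j)] at h1
      linear_combination h1
    obtain ⟨x, hx⟩ : ∃ x : Fin 4 → ℝ, ∀ i, x i = 1 / t i := ⟨_, fun _ => rfl⟩
    have htx : ∀ i, t i * x i = 1 := by
      intro i
      rw [hx]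
      have := ht0 i
      field_simp
    obtain ⟨Cs, hCs⟩ : ∃ Cs, Cs = ∑ i, c i := ⟨_, rfl⟩
    obtain ⟨T, hT⟩ : ∃ T, T = ∑ i, c i * t i := ⟨_, rfl⟩
    rw [← hCs, ← hT] at hj
    have s1 : 2 * T = ρ ^ 2 * Cs * ∑ i, x i := by
      have h1 : ∀ j, ρ ^ 2 * Cs * x j - T + 2 * (c j * t j) = 0 := by
        intro j
        linear_combination x j * hj j + (T - 2 * c j * t j) * htx j
      have h2 : ∑ j, (ρ ^ 2 * Cs * x j - T + 2 * (c j * t j)) = 0 :=
        Finset.sum_eq_zero fun j _ => h1 j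
      rw [Finset.sum_add_distrib, Finset.sum_sub_distrib, ← Finset.mul_sum, ← Finset.mul_sum,
        ← hT, Finset.sum_const, Finset.card_univ, Fintype.card_fin, nsmul_eq_mul] at h2
      push_cast at h2
      linarith
    have s2 : ρ ^ 2 * Cs * (∑ i, x i ^ 2) - T * (∑ i, x i) + 2 * Cs = 0 := by
      have h1 : ∀ j, ρ ^ 2 * Cs * x j ^ 2 - T * x j + 2 * c j = 0 := by
        intro j
        linear_combination x j ^ 2 * hj j + (T * x j - 2 * c j * (t j * x j + 1)) * htx j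
      have h2 : ∑ j, (ρ ^ 2 * Cs * x j ^ 2 - T * x j + 2 * c j) = 0 :=
        Finset.sum_eq_zero fun j _ => h1 j
      rw [Finset.sum_add_distrib, Finset.sum_sub_distrib, ← Finset.mul_sum, ← Finset.mul_sum,
        ← Finset.mul_sum, ← hCs] at h2
      exact h2
    have hCs0 : Cs ≠ 0 := by
      intro h0
      rw [h0, mul_zero, zero_mul] at s1
      have hT0 : T = 0 := by linarith
      have h1 := hj i0
      rw [h0, hT0] at h1
      have h2 : c i0 * (2 * t i0 ^ 2) = 0 := by linear_combination h1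
      have h3 := ht0 i0
      exact hi0 ((mul_eq_zero.mp h2).resolve_right (by positivity))
    have hfin : ρ ^ 2 * ((∑ i, x i) ^ 2 - 2 * ∑ i, x i ^ 2) = 4 := by
      have h1 : Cs * (ρ ^ 2 * ((∑ i, x i) ^ 2 - 2 * ∑ i, x i ^ 2) - 4) = 0 := by
        linear_combination -2 * s2 - (∑ i, x i) * s1
      have h2 := (mul_eq_zero.mp h1).resolve_left hCs0
      linarith
    have hk : ∀ i, 1 / (Real.cosh r * t i) = x i / Real.cosh r := by
      intro i
      rw [hx]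
      have := ht0 i
      field_simp
    have hQ : Qk (fun i => 1 / (Real.cosh r * t i)) =
        ((∑ i, x i) ^ 2 - 2 * ∑ i, x i ^ 2) / Real.cosh r ^ 2 := by
      unfold Qk
      simp only [hk, div_pow]
      rw [← Finset.sum_div, ← Finset.sum_div]
      ring
    rw [hQ, ← hρS, div_eq_div_iff (by positivity) (by positivity)]
    linear_combination Real.cosh r ^ 2 * hfin
  · intro i j
    have hi := ht0 i
    have hj := ht0 j
    by_cases h : i = j
    · subst h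
      rw [if_pos rfl, ht2]
      field_simp
      ring
    · rw [if_neg h, hij i j h]
      field_simp
      ring

end Pool.Agent.MidT
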