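import Pool.Agent.MidT.Defs
import Pool.Agent.Hhelper43.Mid.Hyp

/-!
# MidT module GEOR: realisation of the parameters `(a, b, b, b)` and `(a, a, b, b)`

`ρ = tanh r`, `t_i = 1 / (cosh r k_i)`.  We need points with `⟪v i, v j⟫ = ρ² - t_i t_j` (`i ≠ j`), `‖v i‖² = ρ² + t_i²`;
then `‖v i‖ < 1` (as `k_i > 1`, `1 - ρ² = 1/cosh² r`), the edge `ij` is tangent: `P = (t_j v i + t_i v j)/(t_i + t_j)` has norm `ρ` and is
orthogonal to `v j - v i`.  Use `vec3`, `inner_vec3` of `Hhelper43/Mid/Hyp.lean`.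

`(a, b, b, b)`: `h = √(ρ² + t_0²)`, `v 0 = (0, 0, -h)`, `v j = (R cos θ_j, R sin θ_j, z)`, `θ_j = 0, 2π/3, 4π/3`
(`cos = 1, -1/2, -1/2`, `sin = 0, √3/2, -√3/2`), `R = 2 t / √3`, `z = (t_0 t - ρ²)/h`.  Then `⟪v i, v j⟫ = -R²/2 + z²`, `‖v j‖² = R² + z²`; both
conditions say `z² = ρ² - t²/3`, which is `(t_0 t - ρ²)² = (ρ² + t_0²)(ρ² - t²/3)`, i.e. `4/ρ² = (1/t_0 + 3/t)² - 2/t_0² - 6/t²`, the
hypothesis `Qk = 4/sinh² r`.
`(a, a, b, b)`: `v 0 = (t_a, 0, ρ)`, `v 1 = (-t_a, 0, ρ)`, `v 2 = (0, t_b, -ρ)`, `v 3 = (0, -t_b, -ρ)`; the condition is `t_a t_b = 2 ρ²`.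
Affine independence: the Gram matrix (`v i - v 0` linearly independent), or direct: for `(a,b,b,b)`: `z ≠ -h`, `R ≠ 0`.
(`z + h > 0` : `h² > ρ² - t_0 t`.)
-/

set_option autoImplicit false

namespace Pool.Agent.MidT

open MeasureTheory Pool.Agent.Hhelper43.Mid
open scoped RealInnerProductSpace

theorem geoR_gen (r : ℝ) (hr : 0 < r) (k : R4) (hk : ∀ i, 1 < k i) (v : Fin 4 → E3)
    (hv : ∀ i j, ⟪v i, v j⟫ = Real.tanh r ^ 2 -
      (1 - if i = j then 2 else 0) / (Real.cosh r ^ 2 * k i * k j)) : HypMidscribed r v := by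
  have hC : 0 < Real.cosh r := Real.cosh_pos r
  have hS : 0 < Real.sinh r := Real.sinh_pos_iff.2 hr
  have hρ : 0 < Real.tanh r := by
    rw [Real.tanh_eq_sinh_div_cosh]; exact div_pos hS hC
  have hρ2 : Real.tanh r ^ 2 = 1 - 1 / Real.cosh r ^ 2 := by
    rw [Real.tanh_eq_sinh_div_cosh]
    have h1 := Real.cosh_sq r
    field_simp
    linarith
  -- the tangent lengths
  obtain ⟨t, ht⟩ : ∃ t : Fin 4 → ℝ, ∀ i, t i = 1 / (Real.cosh r * k i) := ⟨_, fun _ => rfl⟩
  have ht0 : ∀ i, 0 < t i := by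
    intro i
    rw [ht]
    have := hk i
    positivity
  have hself : ∀ i, ⟪v i, v i⟫ = Real.tanh r ^ 2 + t i ^ 2 := by
    intro i
    rw [hv, if_pos rfl, ht]
    have := hk i
    field_simp
    ring
  have hne : ∀ i j, i ≠ j → ⟪v i, v j⟫ = Real.tanh r ^ 2 - t i * t j := by
    intro i j hij
    rw [hv, if_neg hij, ht, ht]
    have h1 := hk i
    have h2 := hk j
    field_simp
    ring
  refine ⟨?_, ?_, ?_⟩
  · intro i
    have h1 := hself i
    rw [real_inner_self_eq_norm_sq, hρ2] at h1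
    have h2 : t i ^ 2 < 1 / Real.cosh r ^ 2 := by
      rw [ht, one_div_pow, mul_pow]
      apply one_div_lt_one_div_of_lt (by positivity)
      have h3 : 1 < k i ^ 2 := by nlinarith [hk i]
      have h4 : 0 < Real.cosh r ^ 2 := by positivity
      nlinarith
    have h3 : ‖v i‖ ^ 2 < 1 := by linarith
    nlinarith [norm_nonneg (v i)]
  · rw [affineIndependent_iff]
    intro s w hw hwv i hi
    have key : ∀ j ∈ s, 2 * (w j * t j) = ∑ e ∈ s, w e * t e := by
      intro j hj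
      have h1 : ⟪∑ e ∈ s, w e • v e, v j⟫ = 0 := by rw [hwv, inner_zero_left]
      rw [sum_inner] at h1
      have h2 : ∀ e ∈ s, ⟪w e • v e, v j⟫ = w e * Real.tanh r ^ 2 - t j * (w e * t e)
          + (if e = j then 2 * (w j * t j ^ 2) else 0) := by
        intro e _
        rw [real_inner_smul_left]
        by_cases hej : e = j
        · subst hej
          rw [hself, if_pos rfl]
          ring
        · rw [hne e j hej, if_neg hej]
          ring
      rw [Finset.sum_congr rfl h2, Finset.sum_add_distrib, Finset.sum_sub_distrib,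
        ← Finset.sum_mul, hw, zero_mul, ← Finset.mul_sum, Finset.sum_ite_eq' s j, if_pos hj] at h1
      have h3 : t j * (2 * (w j * t j) - ∑ e ∈ s, w e * t e) = 0 := by
        linear_combination h1
      have h4 := (mul_eq_zero.mp h3).resolve_left (ht0 j).ne'
      linarith
    have hsum : 2 * (∑ e ∈ s, w e * t e) = s.card * ∑ e ∈ s, w e * t e := by
      rw [Finset.mul_sum, Finset.sum_congr rfl key, Finset.sum_const, nsmul_eq_mul]
    have hti := ht0 i
    by_cases hc : s.card = 2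
    · -- two points: `w` is constant up to `t`, and the sum of the weights vanishes
      obtain ⟨x, y, hxy, hs⟩ := Finset.card_eq_two.mp hc
      have kx := key x (by simp [hs])
      have ky := key y (by simp [hs])
      rw [hs, Finset.sum_pair hxy] at hw kx ky
      have h5 : w x * t x = w y * t y := by linarith
      have h6 : w x * (t x + t y) = 0 := by
        linear_combination h5 + t y * hw
      have h7 : w x = 0 := (mul_eq_zero.mp h6).resolve_right (by
        have := ht0 x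
        have := ht0 y
        linarith)
      have h8 : w y = 0 := by rw [h7, zero_add] at hw; exact hw
      rw [hs, Finset.mem_insert, Finset.mem_singleton] at hi
      rcases hi with rfl | rfl
      · exact h7
      · exact h8
    · have h5 : (∑ e ∈ s, w e * t e) = 0 := by
        have h6 : ((s.card : ℝ) - 2) * ∑ e ∈ s, w e * t e = 0 := by linarith
        refine (mul_eq_zero.mp h6).resolve_left ?_
        intro h7
        apply hc
        have h8 : (s.card : ℝ) = 2 := by linarith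
        exact_mod_cast h8
      have h6 := key i hi
      rw [h5] at h6
      have h7 : w i * t i = 0 := by linarith
      exact (mul_eq_zero.mp h7).resolve_right hti.ne'
  · intro i j hij
    have hi := ht0 i
    have hj := ht0 j
    have hji := hne j i hij.symm
    have hij' := hne i j hij
    refine ⟨(t j / (t i + t j)) • v i + (t i / (t i + t j)) • v j, ?_, ?_, ?_⟩
    · refine ⟨t j / (t i + t j), t i / (t i + t j), by positivity, by positivity, ?_, rfl⟩
      field_simp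
      ring
    · have h1 : ‖(t j / (t i + t j)) • v i + (t i / (t i + t j)) • v j‖ ^ 2
          = Real.tanh r ^ 2 := by
        rw [← real_inner_self_eq_norm_sq]
        simp only [inner_add_left, inner_add_right, real_inner_smul_left, real_inner_smul_right]
        rw [hself i, hself j, hji, hij']
        field_simp
        ring
      have h2 := norm_nonneg ((t j / (t i + t j)) • v i + (t i / (t i + t j)) • v j)
      nlinarith
    · simp only [inner_sub_left, inner_add_right, real_inner_smul_right]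
      rw [hself i, hself j, hji, hij']
      field_simp
      ring

theorem geoR_abbb (r : ℝ) (hr : 0 < r) (a b : ℝ) (ha : 1 < a) (hb : 1 < b)
    (hQ : Qk ![a, b, b, b] = 4 / Real.sinh r ^ 2) :
    ∃ v : Fin 4 → E3, HypMidscribed r v ∧ ∀ i j, ⟪v i, v j⟫ = Real.tanh r ^ 2 -
      (1 - if i = j then 2 else 0) / (Real.cosh r ^ 2 * (![a, b, b, b] : R4) i * (![a, b, b, b] : R4) j) := by
  have hC : 0 < Real.cosh r := Real.cosh_pos r
  have hS : 0 < Real.sinh r := Real.sinh_pos_iff.2 hr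
  have hs3 : Real.sqrt 3 ^ 2 = 3 := Real.sq_sqrt (by norm_num)
  have hs3p : 0 < Real.sqrt 3 := Real.sqrt_pos.mpr (by norm_num)
  obtain ⟨ρ, hρ⟩ : ∃ ρ, ρ = Real.tanh r := ⟨_, rfl⟩
  obtain ⟨t0, ht0⟩ : ∃ t0, t0 = 1 / (Real.cosh r * a) := ⟨_, rfl⟩
  obtain ⟨t, ht⟩ : ∃ t, t = 1 / (Real.cosh r * b) := ⟨_, rfl⟩
  have ht0p : 0 < t0 := by rw [ht0]; positivity
  have htp : 0 < t := by rw [ht]; positivity
  have hQ' : 4 = Real.sinh r ^ 2 * (6 * a * b - a ^ 2 + 3 * b ^ 2) := by
    unfold Qk at hQ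
    simp only [Fin.sum_univ_four, Matrix.cons_val_zero, Matrix.cons_val_one, Matrix.cons_val] at hQ
    rw [eq_div_iff (by positivity)] at hQ
    linear_combination -hQ
  have hmain : 4 * (t0 ^ 2 * t ^ 2) - 6 * (t0 * t * ρ ^ 2) + ρ ^ 2 * t ^ 2
      - 3 * (t0 ^ 2 * ρ ^ 2) = 0 := by
    rw [ht0, ht, hρ, Real.tanh_eq_sinh_div_cosh]
    field_simp
    linear_combination hQ'
  obtain ⟨h, hh⟩ : ∃ h, h = Real.sqrt (ρ ^ 2 + t0 ^ 2) := ⟨_, rfl⟩
  have hh2 : h ^ 2 = ρ ^ 2 + t0 ^ 2 := by rw [hh]; exact Real.sq_sqrt (by positivity)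
  have hhp : 0 < h := by rw [hh]; exact Real.sqrt_pos.mpr (by positivity)
  obtain ⟨z, hz⟩ : ∃ z, z = (t0 * t - ρ ^ 2) / h := ⟨_, rfl⟩
  have hzh : h * z = t0 * t - ρ ^ 2 := by rw [hz]; field_simp
  have hz2 : z ^ 2 = ρ ^ 2 - t ^ 2 / 3 := by
    have h1 : h ^ 2 * (z ^ 2 - (ρ ^ 2 - t ^ 2 / 3)) = 0 := by
      have h2 : h ^ 2 * z ^ 2 = (t0 * t - ρ ^ 2) ^ 2 := by rw [← hzh]; ring
      rw [mul_sub, h2, hh2]
      linear_combination hmain / 3
    have h2 := (mul_eq_zero.mp h1).resolve_left (by positivity)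
    linarith
  have hin : ∀ i j, ⟪(![vec3 0 0 (-h), vec3 (2 * t / Real.sqrt 3) 0 z,
      vec3 (-(t / Real.sqrt 3)) t z, vec3 (-(t / Real.sqrt 3)) (-t) z] : Fin 4 → E3) i,
      (![vec3 0 0 (-h), vec3 (2 * t / Real.sqrt 3) 0 z,
      vec3 (-(t / Real.sqrt 3)) t z, vec3 (-(t / Real.sqrt 3)) (-t) z] : Fin 4 → E3) j⟫ =
      Real.tanh r ^ 2 - (1 - if i = j then 2 else 0) /
        (Real.cosh r ^ 2 * (![a, b, b, b] : R4) i * (![a, b, b, b] : R4) j) := by
    have e00 : 1 / (Real.cosh r ^ 2 * a * a) = t0 ^ 2 := by rw [ht0]; field_simp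
    have e01 : 1 / (Real.cosh r ^ 2 * a * b) = t0 * t := by rw [ht0, ht]; field_simp
    have e10 : 1 / (Real.cosh r ^ 2 * b * a) = t0 * t := by rw [ht0, ht]; field_simp
    have e11 : 1 / (Real.cosh r ^ 2 * b * b) = t ^ 2 := by rw [ht]; field_simp
    have n00 : (1 - 2) / (Real.cosh r ^ 2 * a * a) = -t0 ^ 2 := by rw [← e00]; ring
    have n11 : (1 - 2) / (Real.cosh r ^ 2 * b * b) = -t ^ 2 := by rw [← e11]; ring
    have q : (t / Real.sqrt 3) * (t / Real.sqrt 3) = t ^ 2 / 3 := by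
      rw [div_mul_div_comm, ← pow_two, ← pow_two, hs3]
    rw [← hρ]
    intro i j
    fin_cases i <;> fin_cases j <;> simp only [Fin.zero_eta, Fin.mk_one, Fin.reduceFinMk,
      Matrix.cons_val, Matrix.cons_val_zero, Matrix.cons_val_one, inner_vec3, Fin.reduceEq,
      if_true, if_false, sub_zero, e01, e10, e11, n00, n11] <;>
      first
      | linear_combination hh2
      | linear_combination -hzh
      | linear_combination hz2 + 4 * q
      | linear_combination hz2 - 2 * q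
      | linear_combination hz2 + q
  exact ⟨_, geoR_gen r hr _ (by
    intro i
    fin_cases i <;> simpa) _ hin, hin⟩

theorem geoR_aabb (r : ℝ) (hr : 0 < r) (a b : ℝ) (ha : 1 < a) (hb : 1 < b)
    (hQ : Qk ![a, a, b, b] = 4 / Real.sinh r ^ 2) :
    ∃ v : Fin 4 → E3, HypMidscribed r v ∧ ∀ i j, ⟪v i, v j⟫ = Real.tanh r ^ 2 -
      (1 - if i = j then 2 else 0) / (Real.cosh r ^ 2 * (![a, a, b, b] : R4) i * (![a, a, b, b] : R4) j) := by
  have hC : 0 < Real.cosh r := Real.cosh_pos r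
  have hS : 0 < Real.sinh r := Real.sinh_pos_iff.2 hr
  obtain ⟨ρ, hρ⟩ : ∃ ρ, ρ = Real.tanh r := ⟨_, rfl⟩
  obtain ⟨t0, ht0⟩ : ∃ t0, t0 = 1 / (Real.cosh r * a) := ⟨_, rfl⟩
  obtain ⟨t, ht⟩ : ∃ t, t = 1 / (Real.cosh r * b) := ⟨_, rfl⟩
  have hQ' : 1 = Real.sinh r ^ 2 * (2 * a * b) := by
    unfold Qk at hQ
    simp only [Fin.sum_univ_four, Matrix.cons_val_zero, Matrix.cons_val_one, Matrix.cons_val] at hQ
    rw [eq_div_iff (by positivity)] at hQ
    linear_combination -hQ / 4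
  have hmain : t0 * t = 2 * ρ ^ 2 := by
    rw [ht0, ht, hρ, Real.tanh_eq_sinh_div_cosh]
    field_simp
    linear_combination hQ'
  have hin : ∀ i j, ⟪(![vec3 t0 0 ρ, vec3 (-t0) 0 ρ, vec3 0 t (-ρ), vec3 0 (-t) (-ρ)] :
      Fin 4 → E3) i, (![vec3 t0 0 ρ, vec3 (-t0) 0 ρ, vec3 0 t (-ρ), vec3 0 (-t) (-ρ)] :
      Fin 4 → E3) j⟫ =
      Real.tanh r ^ 2 - (1 - if i = j then 2 else 0) /
        (Real.cosh r ^ 2 * (![a, a, b, b] : R4) i * (![a, a, b, b] : R4) j) := by
    have e00 : 1 / (Real.cosh r ^ 2 * a * a) = t0 ^ 2 := by rw [ht0]; field_simp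
    have e01 : 1 / (Real.cosh r ^ 2 * a * b) = 2 * ρ ^ 2 := by rw [← hmain, ht0, ht]; field_simp
    have e10 : 1 / (Real.cosh r ^ 2 * b * a) = 2 * ρ ^ 2 := by rw [← hmain, ht0, ht]; field_simp
    have e11 : 1 / (Real.cosh r ^ 2 * b * b) = t ^ 2 := by rw [ht]; field_simp
    have n00 : (1 - 2) / (Real.cosh r ^ 2 * a * a) = -t0 ^ 2 := by rw [← e00]; ring
    have n11 : (1 - 2) / (Real.cosh r ^ 2 * b * b) = -t ^ 2 := by rw [← e11]; ring
    rw [← hρ]
    intro i j
    fin_cases i <;> fin_cases j <;> simp only [Fin.zero_eta, Fin.mk_one, Fin.reduceFinMk,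
      Matrix.cons_val, Matrix.cons_val_zero, Matrix.cons_val_one, inner_vec3, Fin.reduceEq,
      if_true, if_false, sub_zero, e00, e01, e10, e11, n00, n11] <;> ring
  exact ⟨_, geoR_gen r hr _ (by
    intro i
    fin_cases i <;> simpa) _ hin, hin⟩

end Pool.Agent.MidT
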