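import Pool.Agent.MidT.Defs
import Pool.Agent.Hhelper43.Mid.Defs

/-!
# MidT module GEOC: the Gaussian integral over a cone of the Lorentz space `ℝ × E3`

`cone_integral`: for a measurable set `T` of the open unit ball:
`∫⁻_{(x₀, x) : x₀ > 0, x₀⁻¹ • x ∈ T} exp (-(x₀² - ‖x‖²)/2) = ∫⁻_{ξ ∈ T} 2/(1-‖ξ‖²)²`.
PROOF.  Tonelli (`lintegral_prod`); for fixed `x₀ > 0` substitute `x = x₀ • ξ` (`Measure.addHaar_smul`/`lintegral` under `x₀ • ·` : factor `x₀³`), exchange
the integrals, `∫_0^∞ x₀³ e^{-x₀² a/2} dx₀ = 2/a²`, `a = 1 - ‖ξ‖² > 0` (`integral_rpow_mul_exp_neg_mul_sq`-type lemma, or antiderivative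
`-(x²/a + 2/a²) e^{-a x²/2}`, `lintegral` by `ofReal_integral_eq_lintegral_ofReal`).

`hull_ae`: the convex hull of four affinely independent points and the set of the convex combinations with positive coefficients agree up to a null set:
the open simplex is the interior of the convex hull, and the frontier of a convex set is a null set.
-/

set_option autoImplicit false

namespace Pool.Agent.MidT

open MeasureTheory Pool.Agent.Hhelper43.Mid
open scoped RealInnerProductSpace ENNReal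

theorem radial_integral (a : ℝ) (ha : 0 < a) :
    ∫⁻ t in Set.Ioi (0 : ℝ), ENNReal.ofReal (t ^ 3) * ENNReal.ofReal (Real.exp (-(t ^ 2 * a) / 2)) =
      2 * ENNReal.ofReal ((a ^ 2)⁻¹) := by
  have h1 : ∫ t in Set.Ioi (0 : ℝ), t ^ (3 : ℝ) * Real.exp (-(a / 2) * t ^ (2 : ℝ)) =
      2 * (a ^ 2)⁻¹ := by
    rw [integral_rpow_mul_exp_neg_mul_rpow (by norm_num) (by norm_num) (by positivity)]
    have e1 : -((3 : ℝ) + 1) / 2 = -2 := by norm_num
    have e2 : ((3 : ℝ) + 1) / 2 = 2 := by norm_num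
    rw [e1, e2, Real.Gamma_two, Real.rpow_neg (by positivity), Real.rpow_two]
    field_simp
  have h2 : IntegrableOn (fun t : ℝ => t ^ (3 : ℝ) * Real.exp (-(a / 2) * t ^ (2 : ℝ)))
      (Set.Ioi 0) :=
    integrableOn_rpow_mul_exp_neg_mul_rpow (by norm_num) (by norm_num) (by positivity)
  have h3 := ofReal_integral_eq_lintegral_ofReal h2 (by
    filter_upwards [ae_restrict_mem measurableSet_Ioi] with t ht
    have ht' : (0 : ℝ) < t := ht
    show 0 ≤ _
    positivity)
  rw [h1] at h3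
  have h4 : (2 : ℝ≥0∞) * ENNReal.ofReal ((a ^ 2)⁻¹) = ENNReal.ofReal (2 * (a ^ 2)⁻¹) := by
    rw [ENNReal.ofReal_mul (by norm_num)]
    norm_num
  rw [h4, h3]
  refine setLIntegral_congr_fun measurableSet_Ioi fun t ht => ?_
  have ht' : (0 : ℝ) < t := ht
  rw [← ENNReal.ofReal_mul (by positivity)]
  congr 1
  have e3 : t ^ (3 : ℝ) = t ^ 3 := by
    rw [show (3 : ℝ) = ((3 : ℕ) : ℝ) by norm_num, Real.rpow_natCast]
  have e4 : t ^ (2 : ℝ) = t ^ 2 := Real.rpow_two t
  rw [e3, e4]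
  congr 2
  ring

theorem smul_lintegral (r : ℝ) (hr : 0 < r) (f : E3 → ℝ≥0∞) (hf : Measurable f) :
    ∫⁻ x, f (r⁻¹ • x) = ENNReal.ofReal (r ^ 3) * ∫⁻ x, f x := by
  have h1 : ∫⁻ x, f x ∂(Measure.map (fun x : E3 => r⁻¹ • x) volume) = ∫⁻ x, f (r⁻¹ • x) :=
    lintegral_map hf (measurable_const_smul _)
  rw [← h1, Measure.map_addHaar_smul volume (inv_ne_zero hr.ne'), lintegral_smul_measure]
  rw [smul_eq_mul]
  congr 2
  rw [finrank_euclideanSpace_fin, abs_of_pos (by positivity)]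
  field_simp

theorem cone_integral (T : Set E3) (hT : MeasurableSet T) (h1 : ∀ x ∈ T, ‖x‖ < 1) :
    ∫⁻ p in {p : ℝ × E3 | 0 < p.1 ∧ p.1⁻¹ • p.2 ∈ T},
      ENNReal.ofReal (Real.exp (-(p.1 ^ 2 - ‖p.2‖ ^ 2) / 2)) =
    2 * ∫⁻ x in T, ENNReal.ofReal (((1 - ‖x‖ ^ 2) ^ 2)⁻¹) := by
  classical
  have hm : Measurable (fun p : ℝ × E3 => p.1⁻¹ • p.2) := by fun_prop
  have hC : MeasurableSet {p : ℝ × E3 | 0 < p.1 ∧ p.1⁻¹ • p.2 ∈ T} :=
    (measurableSet_lt measurable_const measurable_fst).inter (hm hT)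
  have hg : Measurable (fun p : ℝ × E3 => ENNReal.ofReal (Real.exp (-(p.1 ^ 2 - ‖p.2‖ ^ 2) / 2))) := by
    fun_prop
  rw [← lintegral_indicator hC]
  rw [Measure.volume_eq_prod, lintegral_prod _ (hg.indicator hC).aemeasurable]
  -- the function of `(t, ξ)`
  set G : ℝ → E3 → ℝ≥0∞ := fun t ξ =>
    T.indicator (fun ξ => ENNReal.ofReal (Real.exp (-(t ^ 2 * (1 - ‖ξ‖ ^ 2)) / 2))) ξ with hG
  have hGm : Measurable (Function.uncurry G) := by
    have e1 : Function.uncurry G = (Prod.snd ⁻¹' T).indicator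
        (fun p : ℝ × E3 => ENNReal.ofReal (Real.exp (-(p.1 ^ 2 * (1 - ‖p.2‖ ^ 2)) / 2))) := by
      funext p
      rcases p with ⟨t, ξ⟩
      simp only [Function.uncurry, hG, Set.indicator, Set.mem_preimage]
    rw [e1]
    exact Measurable.indicator (by fun_prop) (measurable_snd hT)
  have h2 : ∀ t : ℝ, ∫⁻ x : E3, ({p : ℝ × E3 | 0 < p.1 ∧ p.1⁻¹ • p.2 ∈ T}.indicator
      (fun p : ℝ × E3 => ENNReal.ofReal (Real.exp (-(p.1 ^ 2 - ‖p.2‖ ^ 2) / 2))) (t, x)) =
      (Set.Ioi (0 : ℝ)).indicator (fun t => ENNReal.ofReal (t ^ 3) * ∫⁻ ξ, G t ξ) t := by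
    intro t
    by_cases ht : 0 < t
    · rw [Set.indicator_of_mem (show t ∈ Set.Ioi (0 : ℝ) from ht)]
      rw [← smul_lintegral t ht (G t) (hGm.comp (measurable_const.prodMk measurable_id))]
      refine lintegral_congr fun x => ?_
      by_cases hx : t⁻¹ • x ∈ T
      · rw [Set.indicator_of_mem (show (t, x) ∈ {p : ℝ × E3 | 0 < p.1 ∧ p.1⁻¹ • p.2 ∈ T} from ⟨ht, hx⟩)]
        simp only [hG]
        rw [Set.indicator_of_mem hx]
        congr 3
        rw [norm_smul, norm_inv, Real.norm_of_nonneg ht.le]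
        field_simp
      · rw [Set.indicator_of_notMem (show (t, x) ∉ {p : ℝ × E3 | 0 < p.1 ∧ p.1⁻¹ • p.2 ∈ T} from
          fun h => hx h.2)]
        simp only [hG]
        rw [Set.indicator_of_notMem hx]
    · rw [Set.indicator_of_notMem (show t ∉ Set.Ioi (0 : ℝ) from ht)]
      rw [← lintegral_zero (μ := (volume : Measure E3))]
      refine lintegral_congr fun x => ?_
      rw [Set.indicator_of_notMem (show (t, x) ∉ {p : ℝ × E3 | 0 < p.1 ∧ p.1⁻¹ • p.2 ∈ T} from
          fun h => ht h.1)]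
  rw [lintegral_congr h2, lintegral_indicator measurableSet_Ioi]
  have h3 : ∀ t : ℝ, ENNReal.ofReal (t ^ 3) * ∫⁻ ξ, G t ξ =
      ∫⁻ ξ, ENNReal.ofReal (t ^ 3) * G t ξ := by
    intro t
    have h4 : Measurable (G t) := hGm.comp (measurable_const.prodMk measurable_id)
    rw [lintegral_const_mul _ h4]
  rw [lintegral_congr h3]
  rw [lintegral_lintegral_swap (by
    apply Measurable.aemeasurable
    exact (by fun_prop : Measurable fun p : ℝ × E3 => ENNReal.ofReal (p.1 ^ 3)).mul hGm)]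
  rw [← lintegral_const_mul _ (by fun_prop), ← lintegral_indicator hT]
  refine lintegral_congr fun ξ => ?_
  by_cases hξ : ξ ∈ T
  · rw [Set.indicator_of_mem hξ]
    have h4 : 0 < 1 - ‖ξ‖ ^ 2 := by
      have := h1 ξ hξ
      have h0 := norm_nonneg ξ
      nlinarith
    rw [← radial_integral _ h4]
    refine lintegral_congr fun t => ?_
    simp only [hG]
    rw [Set.indicator_of_mem hξ]
  · rw [Set.indicator_of_notMem hξ]
    have h5 : ∀ t : ℝ, ENNReal.ofReal (t ^ 3) * G t ξ = 0 := by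
      intro t
      simp only [hG]
      rw [Set.indicator_of_notMem hξ, mul_zero]
    rw [lintegral_congr h5, lintegral_zero]

/-- the open simplex -/
def osimp (v : Fin 4 → E3) : Set E3 :=
  {x | ∃ w : Fin 4 → ℝ, (∀ i, 0 < w i) ∧ ∑ i, w i = 1 ∧ x = ∑ i, w i • v i}

theorem osimp_eq (v : Fin 4 → E3) (h : AffineIndependent ℝ v) :
    osimp v = interior (convexHull ℝ (Set.range v)) := by
  have h1 : affineSpan ℝ (Set.range v) = ⊤ := by
    rw [h.affineSpan_eq_top_iff_card_eq_finrank_add_one]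
    rw [finrank_euclideanSpace_fin]
    simp
  set b : AffineBasis (Fin 4) ℝ E3 := ⟨v, h, h1⟩ with hb
  have hbv : ∀ i, b i = v i := fun i => rfl
  have h2 : Set.range v = Set.range b := rfl
  rw [h2, b.interior_convexHull]
  ext x
  constructor
  · rintro ⟨w, hw0, hw1, hx⟩ i
    have h3 : x = Finset.univ.affineCombination ℝ b w := by
      rw [Finset.affineCombination_eq_linear_combination _ _ _ hw1, hx]
      rfl
    rw [h3, b.coord_apply_combination_of_mem (Finset.mem_univ i) hw1]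
    exact hw0 i
  · intro hx
    refine ⟨fun i => b.coord i x, hx, b.sum_coord_apply_eq_one x, ?_⟩
    exact (b.linear_combination_coord_eq_self x).symm

theorem osimp_isOpen (v : Fin 4 → E3) (h : AffineIndependent ℝ v) : IsOpen (osimp v) := by
  rw [osimp_eq v h]
  exact isOpen_interior

theorem hull_ae (v : Fin 4 → E3) (h : AffineIndependent ℝ v) :
    (convexHull ℝ (Set.range v) : Set E3) =ᵐ[volume] osimp v := by
  rw [osimp_eq v h]
  exact (interior_ae_eq_of_null_frontier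
    ((convex_convexHull ℝ (Set.range v)).addHaar_frontier volume)).symm

end Pool.Agent.MidT
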