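import Pool.Agent.MidT.Dom
import Pool.Agent.MidT.GeoC

/-!
# MidT module GEOV: the volume

Let `v : Fin 4 → E3` be affinely independent, `‖v i‖ < 1`, with `⟪v i, v j⟫ = ρ² - (1 - 2 δ_ij) / (cosh² r k_i k_j)` (`ρ = tanh r`).
Put `λ_i = k_i cosh r`.  As `1 - ρ² = 1/cosh² r`: `λ_i λ_j (1 - ⟪v i, v j⟫) = k_i k_j + 1 - 2 δ_ij`.
Linear map `L : R4 → ℝ × E3`, `L y = (∑ y_i λ_i, ∑ y_i λ_i v i)`; with `(x_0, x) = L y`: `x_0² - ‖x‖² = qf k y`.
`L` is injective (affine independence), and with an orthonormal basis of `E3` (matrix of `L`), `Lᵀ diag(1,-1,-1,-1) L = G = (k_i k_j + 1 - 2 δ_ij)`, so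
`(det L)² = |det G| = 16 (1 + Qk k / 4) = 4 (4 + Qk k)`, `|det L| = 2 √(4 + Qk k)`.
`L` maps the open orthant onto the cone `{(x_0, x) : x_0 > 0, x / x_0 ∈ osimp v}`.  Hence by `cone_integral` and `hull_ae`
`|det L| ∫_{Orth 4} e^{-qf/2} = ∫_{x_0>0, x/x_0 ∈ osimp v} e^{-(x_0²-‖x‖²)/2} = 2 hypVol v`.
So `hypVol v = |det L| Phi k / 2 = √(4 + Qk k) Phi k = VV k`.
Use lintegrals (`lintegral_image_eq_lintegral_abs_det_fderiv_mul` or `Measure.map_linearMap_addHaar_eq_smul_addHaar`), convert with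
`ofReal_integral_eq_lintegral_ofReal` and `integrable_exp`.
(Transport `ℝ × E3` to `Fin 4 → ℝ` by `EuclideanSpace.volume_preserving_measurableEquiv` / `volume_preserving_ofLp` and
`volume_preserving_piFinSuccAbove`, to have the same space on both sides.)
-/

set_option autoImplicit false

namespace Pool.Agent.MidT

open MeasureTheory Pool.Agent.Hhelper43.Mid
open scoped RealInnerProductSpace ENNReal

/-- coordinates on `ℝ × E3` -/
noncomputable def Psi : (Fin 4 → ℝ) ≃ᵐ ℝ × E3 :=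
  (MeasurableEquiv.piFinSuccAbove (fun _ => ℝ) 0).trans
    (MeasurableEquiv.prodCongr (MeasurableEquiv.refl ℝ) (MeasurableEquiv.toLp 2 (Fin 3 → ℝ)))

theorem Psi_apply (y : Fin 4 → ℝ) : Psi y = (y 0, WithLp.toLp 2 (fun j : Fin 3 => y j.succ)) := by
  rfl

theorem Psi_mp : MeasurePreserving (Psi : (Fin 4 → ℝ) → ℝ × E3) volume volume := by
  have h1 := volume_preserving_piFinSuccAbove (fun _ : Fin 4 => ℝ) 0
  have h2 : MeasurePreserving (Prod.map (id : ℝ → ℝ) (WithLp.toLp 2 : (Fin 3 → ℝ) → E3))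
      ((volume : Measure ℝ).prod (volume : Measure (Fin 3 → ℝ)))
      ((volume : Measure ℝ).prod (volume : Measure E3)) :=
    (MeasurePreserving.id volume).prod (PiLp.volume_preserving_toLp (Fin 3))
  exact h2.comp h1

/-- the matrix of the map `L` -/
noncomputable def Lmat (c : ℝ) (k : R4) (v : Fin 4 → E3) : Matrix (Fin 4) (Fin 4) ℝ :=
  fun a i => Fin.cases (k i * c) (fun j : Fin 3 => k i * c * v i j) a

theorem det_gram (k : R4) : (Matrix.of (fun i j : Fin 4 =>
    (k i * k j + 1 - if i = j then 2 else 0 : ℝ))).det = -4 * (4 + Qk k) := by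
  simp [Matrix.det_succ_row_zero, Fin.sum_univ_succ, Qk, Fin.succAbove]
  ring


theorem gram_entry (c : ℝ) (k : R4) (v : Fin 4 → E3) (i j : Fin 4) :
    Lmat c k v 0 i * Lmat c k v 0 j - ∑ b : Fin 3, Lmat c k v b.succ i * Lmat c k v b.succ j
      = (k i * c) * (k j * c) * (1 - ⟪v i, v j⟫) := by
  simp only [Lmat, Fin.cases_zero, Fin.cases_succ]
  rw [PiLp.inner_apply]
  simp only [Fin.sum_univ_three, RCLike.inner_apply, conj_trivial]
  ring

theorem gram_eq (r : ℝ) (v : Fin 4 → E3) (k : R4) (hk : ∀ i, 1 < k i)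
    (hG : ∀ i j, ⟪v i, v j⟫ = Real.tanh r ^ 2 -
      (1 - if i = j then 2 else 0) / (Real.cosh r ^ 2 * k i * k j)) (i j : Fin 4) :
    (k i * Real.cosh r) * (k j * Real.cosh r) * (1 - ⟪v i, v j⟫)
      = k i * k j + 1 - if i = j then 2 else 0 := by
  have hc := Real.cosh_pos r
  have hi : 0 < k i := by linarith [hk i]
  have hj : 0 < k j := by linarith [hk j]
  have h1 : 1 - Real.tanh r ^ 2 = 1 / Real.cosh r ^ 2 := by
    rw [Real.tanh_eq_sinh_div_cosh, div_pow, Real.sinh_sq]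
    field_simp
    ring
  rw [hG i j]
  have h2 : 1 - (Real.tanh r ^ 2 - (1 - if i = j then (2 : ℝ) else 0) /
      (Real.cosh r ^ 2 * k i * k j)) = 1 / Real.cosh r ^ 2 +
      (1 - if i = j then (2 : ℝ) else 0) / (Real.cosh r ^ 2 * k i * k j) := by
    rw [← h1]; ring
  rw [h2]
  field_simp
  ring

theorem det_L (c : ℝ) (k : R4) (v : Fin 4 → E3)
    (h : ∀ i j, (k i * c) * (k j * c) * (1 - ⟪v i, v j⟫) = k i * k j + 1 - if i = j then 2 else 0) :
    (Lmat c k v).det ^ 2 = 4 * (4 + Qk k) := by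
  have h1 : (Lmat c k v).transpose * Matrix.diagonal ![1, -1, -1, -1] * (Lmat c k v) =
      Matrix.of (fun i j : Fin 4 => (k i * k j + 1 - if i = j then 2 else 0 : ℝ)) := by
    ext i j
    rw [Matrix.of_apply, ← h i j, ← gram_entry c k v i j]
    simp only [Matrix.mul_apply, Matrix.transpose_apply, Fin.sum_univ_succ]
    simp
    ring
  have h2 := congrArg Matrix.det h1
  rw [det_gram, Matrix.det_mul, Matrix.det_mul, Matrix.det_transpose, Matrix.det_diagonal] at h2
  simp [Fin.prod_univ_succ] at h2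
  linarith


theorem mulVec_zero (c : ℝ) (k : R4) (v : Fin 4 → E3) (y : R4) :
    (Lmat c k v).mulVec y 0 = ∑ i, y i * (k i * c) := by
  simp only [Matrix.mulVec, dotProduct, Lmat, Fin.cases_zero]
  exact Finset.sum_congr rfl fun i _ => mul_comm _ _

theorem mulVec_succ (c : ℝ) (k : R4) (v : Fin 4 → E3) (y : R4) (j : Fin 3) :
    (Lmat c k v).mulVec y j.succ = (∑ i, (y i * (k i * c)) • v i : E3) j := by
  simp only [Matrix.mulVec, dotProduct, Lmat, Fin.cases_succ]
  simp only [WithLp.ofLp_sum, WithLp.ofLp_smul, Finset.sum_apply, Pi.smul_apply, smul_eq_mul]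
  exact Finset.sum_congr rfl fun i _ => by ring

theorem Psi_L (c : ℝ) (k : R4) (v : Fin 4 → E3) (y : R4) :
    Psi ((Lmat c k v).mulVec y) = (∑ i, y i * (k i * c), ∑ i, (y i * (k i * c)) • v i) := by
  rw [Psi_apply]
  refine Prod.ext (mulVec_zero c k v y) ?_
  ext j
  exact mulVec_succ c k v y j

theorem form_L (c : ℝ) (k : R4) (v : Fin 4 → E3) (y : R4)
    (h : ∀ i j, (k i * c) * (k j * c) * (1 - ⟪v i, v j⟫) = k i * k j + 1 - if i = j then 2 else 0) :
    (∑ i, y i * (k i * c)) ^ 2 - ‖(∑ i, (y i * (k i * c)) • v i : E3)‖ ^ 2 = qf k y := by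
  rw [qf_eq, ← real_inner_self_eq_norm_sq, sq, Finset.sum_mul_sum, sum_inner,
    ← Finset.sum_sub_distrib]
  refine Finset.sum_congr rfl fun i _ => ?_
  rw [inner_sum, ← Finset.sum_sub_distrib]
  refine Finset.sum_congr rfl fun j _ => ?_
  rw [inner_smul_left, inner_smul_right, ← h i j]
  simp only [conj_trivial]
  ring

theorem image_L (c : ℝ) (hc : 0 < c) (k : R4) (hk : ∀ i, 0 < k i) (v : Fin 4 → E3) :
    (fun y : R4 => Psi ((Lmat c k v).mulVec y)) '' (Orth 4) =
      {p : ℝ × E3 | 0 < p.1 ∧ p.1⁻¹ • p.2 ∈ osimp v} := by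
  have hl : ∀ i, 0 < k i * c := fun i => mul_pos (hk i) hc
  ext p
  constructor
  · rintro ⟨y, hy, rfl⟩
    simp only [Psi_L]
    have hy' : ∀ i, 0 < y i := hy
    have hs : 0 < ∑ i, y i * (k i * c) :=
      Finset.sum_pos (fun i _ => mul_pos (hy' i) (hl i)) Finset.univ_nonempty
    refine ⟨hs, fun i => (∑ i, y i * (k i * c))⁻¹ * (y i * (k i * c)), ?_, ?_, ?_⟩
    · intro i
      have := mul_pos (hy' i) (hl i)
      positivity
    · rw [← Finset.mul_sum, inv_mul_cancel₀ hs.ne']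
    · rw [Finset.smul_sum]
      exact Finset.sum_congr rfl fun i _ => by rw [smul_smul]
  · rintro ⟨hp, w, hw, hw1, hx⟩
    refine ⟨fun i => p.1 * w i / (k i * c), fun i => ?_, ?_⟩
    · have := hw i
      have := hl i
      positivity
    · have e : ∀ i, p.1 * w i / (k i * c) * (k i * c) = p.1 * w i := fun i =>
        div_mul_cancel₀ _ (hl i).ne'
      simp only [Psi_L, e]
      refine Prod.ext ?_ ?_
      · simp only [← Finset.mul_sum, hw1, mul_one]
      · have : p.2 = p.1 • ∑ i, w i • v i := by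
          rw [← hx, smul_smul, mul_inv_cancel₀ hp.ne', one_smul]
        simp only [this, Finset.smul_sum, smul_smul]

theorem Orth_meas (n : ℕ) : MeasurableSet (Orth n) := by
  have : Orth n = ⋂ i, {y : Fin n → ℝ | 0 < y i} := by ext; simp [Orth]
  rw [this]
  exact MeasurableSet.iInter fun i => measurableSet_lt measurable_const (measurable_pi_apply i)

theorem change (c : ℝ) (k : R4) (v : Fin 4 → E3) (hdet : (Lmat c k v).det ≠ 0)
    (g : ℝ × E3 → ℝ≥0∞) :
    ∫⁻ p in (fun y : R4 => Psi ((Lmat c k v).mulVec y)) '' (Orth 4), g p =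
      ENNReal.ofReal |(Lmat c k v).det| *
        ∫⁻ y in Orth 4, g (Psi ((Lmat c k v).mulVec y)) := by
  set A := (Matrix.toLin' (Lmat c k v)).toContinuousLinearMap with hA
  have hAy : ∀ y, A y = (Lmat c k v).mulVec y := fun y => by
    rw [hA]; simp
  have hAdet : A.det = (Lmat c k v).det := by
    rw [hA, ContinuousLinearMap.det]
    simp
  have hinj : Function.Injective A := by
    have : IsUnit (Lmat c k v) := (Matrix.isUnit_iff_isUnit_det _).2 (isUnit_iff_ne_zero.2 hdet)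
    intro x y hxy
    rw [hAy, hAy] at hxy
    exact Matrix.mulVec_injective_iff_isUnit.2 this hxy
  have h1 := lintegral_image_eq_lintegral_abs_det_fderiv_mul (volume : Measure (Fin 4 → ℝ))
    (Orth_meas 4) (f := A) (f' := fun _ => A)
    (fun x _ => A.hasFDerivAt.hasFDerivWithinAt) (hinj.injOn) (fun y => g (Psi y))
  rw [hAdet] at h1
  have himg : (fun y : R4 => Psi ((Lmat c k v).mulVec y)) '' (Orth 4) = Psi '' (A '' Orth 4) := by
    rw [Set.image_image]
    simp only [hAy]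
  rw [himg, ← Psi_mp.setLIntegral_comp_emb Psi.measurableEmbedding, h1,
    lintegral_const_mul']
  · simp only [hAy]
  · exact ENNReal.ofReal_ne_top

theorem geoV (r : ℝ) (hr : 0 < r) (v : Fin 4 → E3) (hin : ∀ i, ‖v i‖ < 1)
    (hind : AffineIndependent ℝ v) (k : R4) (hk : ∀ i, 1 < k i) (hQ : 0 < Qk k)
    (hG : ∀ i j, ⟪v i, v j⟫ = Real.tanh r ^ 2 -
      (1 - if i = j then 2 else 0) / (Real.cosh r ^ 2 * k i * k j)) :
    hypVol v = ENNReal.ofReal (VV k) := by
  have hc := Real.cosh_pos r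
  have h := gram_eq r v k hk hG
  have hd2 := det_L (Real.cosh r) k v h
  have hdet : (Lmat (Real.cosh r) k v).det ≠ 0 := by
    intro h0
    rw [h0] at hd2
    nlinarith
  have habs : |(Lmat (Real.cosh r) k v).det| = 2 * Real.sqrt (4 + Qk k) := by
    rw [← Real.sqrt_sq_eq_abs, hd2, Real.sqrt_mul (by norm_num)]
    congr 1
    rw [show (4 : ℝ) = 2 ^ 2 by norm_num, Real.sqrt_sq (by norm_num)]
  have hopen := osimp_isOpen v hind
  have hball : ∀ x ∈ osimp v, ‖x‖ < 1 := by
    rintro x ⟨w, hw, hw1, rfl⟩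
    calc ‖∑ i, w i • v i‖ ≤ ∑ i, ‖w i • v i‖ := norm_sum_le _ _
      _ = ∑ i, w i * ‖v i‖ := Finset.sum_congr rfl fun i _ => by
          rw [norm_smul, Real.norm_of_nonneg (hw i).le]
      _ < ∑ i, w i * 1 := Finset.sum_lt_sum_of_nonempty Finset.univ_nonempty fun i _ =>
          mul_lt_mul_of_pos_left (hin i) (hw i)
      _ = 1 := by simp [hw1]
  have hcone := cone_integral (osimp v) hopen.measurableSet hball
  rw [← image_L (Real.cosh r) hc k (fun i => by linarith [hk i]) v,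
    change (Real.cosh r) k v hdet, habs] at hcone
  have hint : ∫⁻ y in Orth 4, ENNReal.ofReal (Real.exp
      (-((Psi ((Lmat (Real.cosh r) k v).mulVec y)).1 ^ 2 -
        ‖(Psi ((Lmat (Real.cosh r) k v).mulVec y)).2‖ ^ 2) / 2)) = ENNReal.ofReal (Phi k) := by
    rw [Phi, ofReal_integral_eq_lintegral_ofReal (integrable_exp k fun i => (hk i).le)
      (Filter.Eventually.of_forall fun y => (Real.exp_pos _).le)]
    refine lintegral_congr fun y => ?_
    rw [Psi_L, form_L _ _ _ _ h]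
  rw [hint] at hcone
  have hhull : hypVol v = ∫⁻ x in osimp v, ENNReal.ofReal (((1 - ‖x‖ ^ 2) ^ 2)⁻¹) := by
    unfold hypVol
    exact setLIntegral_congr (hull_ae v hind)
  rw [← hhull, ← ENNReal.ofReal_mul (by positivity)] at hcone
  have h2 : (2 : ℝ≥0∞) * ENNReal.ofReal (VV k) = 2 * hypVol v := by
    rw [← hcone, VV, mul_assoc, ENNReal.ofReal_mul (by norm_num : (0 : ℝ) ≤ 2)]
    simp
  exact ((ENNReal.mul_right_inj (by norm_num) (by norm_num)).1 h2).symm

end Pool.Agent.MidT
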