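import Pool.Agent.MidT.Crit

/-!
# MidT module MAXEX: existence of the maximum

`S = {k ∈ DD q | k ≠ ones}`.  `S` is closed: for `q ≠ 8` (`ones ∉ DD q`) clear; for `q = 8` every `k ∈ S` has some `k_i ≥ 5`: `k_i = 1 + ε_i`, `s = ∑ ε_i > 0`,
`Qk k = 8 + 4 s + s² - 2 ∑ ε_i² = 8` gives `4 s + s² = 2 ∑ ε_i² ≤ 2 M s`, `M = max ε_i ≤ s`, so `4 + M ≤ 2M`; so `S = DD 8 ∩ {∃ i, 5 ≤ k i}`, closed.
Let `k₀ ∈ S`, `Phi k₀ > 0` (`Phi_pos`), `K` from `Phi_small` with `ε = Phi k₀`.  On `S`, `VV k = √(4+q) Phi k`, so `VV k < VV k₀` if some `k_i ≥ K`.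
The set `S ∩ {k_i ≤ max K (max k₀)}` is compact and nonempty, `VV` is continuous on it (`Phi_continuousOn`): `IsCompact.exists_isMaxOn`.  The maximum point `m` is a maximum
over `S`.  It is a local maximum on `DD q`, because `S` is relatively open in `DD q` (`{k | k ≠ ones}` is open).
-/

set_option autoImplicit false

namespace Pool.Agent.MidT

open MeasureTheory Set Filter Topology

theorem Qk_continuous : Continuous Qk := by
  unfold Qk
  fun_prop

theorem DD_isClosed (q : ℝ) : IsClosed (DD q) := by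
  have h1 : DD q = (⋂ i, {k : R4 | 1 ≤ k i}) ∩ {k | Qk k = q} := by
    ext k
    simp [DD]
  rw [h1]
  refine IsClosed.inter (isClosed_iInter fun i => ?_) (isClosed_eq Qk_continuous continuous_const)
  exact isClosed_le continuous_const (continuous_apply i)

theorem five_le (k : R4) (hk : k ∈ DD 8) (hne : k ≠ (fun _ => 1)) : ∃ i, 5 ≤ k i := by
  by_contra hcon
  push Not at hcon
  obtain ⟨h1, h2⟩ := hk
  have e2 : 4 * ((k 0 - 1) + (k 1 - 1) + (k 2 - 1) + (k 3 - 1))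
      + ((k 0 - 1) + (k 1 - 1) + (k 2 - 1) + (k 3 - 1)) ^ 2
      = 2 * ((k 0 - 1) ^ 2 + (k 1 - 1) ^ 2 + (k 2 - 1) ^ 2 + (k 3 - 1) ^ 2) := by
    have : Qk k = 8 := h2
    unfold Qk at this
    simp only [Fin.sum_univ_four] at this
    linarith
  have a0 := h1 0
  have a1 := h1 1
  have a2 := h1 2
  have a3 := h1 3
  have b0 := hcon 0
  have b1 := hcon 1
  have b2 := hcon 2
  have b3 := hcon 3
  -- `ε_i² ≤ (s/2 + 2) ε_i` with strictness unless `ε_i = 0`
  obtain ⟨a, ha⟩ : ∃ a, a = k 0 - 1 := ⟨_, rfl⟩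
  obtain ⟨b, hb⟩ : ∃ a, a = k 1 - 1 := ⟨_, rfl⟩
  obtain ⟨c, hc⟩ : ∃ a, a = k 2 - 1 := ⟨_, rfl⟩
  obtain ⟨d, hd⟩ : ∃ a, a = k 3 - 1 := ⟨_, rfl⟩
  rw [← ha, ← hb, ← hc, ← hd] at e2
  have key : ∀ x s : ℝ, 0 ≤ x → x < 4 → x ≤ s → 0 ≤ x * (4 + s - 2 * x) ∧
      (x * (4 + s - 2 * x) = 0 → x = 0) := by
    intro x s hx0 hx4 hxs
    have h3 : 0 < 4 + s - 2 * x := by linarith
    refine ⟨by positivity, fun h => ?_⟩
    rcases mul_eq_zero.mp h with h | h
    · exact h
    · linarith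
  have ka := key a (a + b + c + d) (by linarith) (by linarith) (by linarith)
  have kb := key b (a + b + c + d) (by linarith) (by linarith) (by linarith)
  have kc := key c (a + b + c + d) (by linarith) (by linarith) (by linarith)
  have kd := key d (a + b + c + d) (by linarith) (by linarith) (by linarith)
  have hsum : a * (4 + (a + b + c + d) - 2 * a) + b * (4 + (a + b + c + d) - 2 * b)
      + c * (4 + (a + b + c + d) - 2 * c) + d * (4 + (a + b + c + d) - 2 * d) = 0 := by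
    linarith
  have za := ka.2 (by linarith [kb.1, kc.1, kd.1, ka.1])
  have zb := kb.2 (by linarith [kb.1, kc.1, kd.1, ka.1])
  have zc := kc.2 (by linarith [kb.1, kc.1, kd.1, ka.1])
  have zd := kd.2 (by linarith [kb.1, kc.1, kd.1, ka.1])
  apply hne
  funext i
  fin_cases i
  · show k 0 = 1
    linarith
  · show k 1 = 1
    linarith
  · show k 2 = 1
    linarith
  · show k 3 = 1
    linarith

theorem S_isClosed (q : ℝ) : IsClosed (DD q ∩ {k | k ≠ (fun _ => 1)}) := by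
  by_cases hq : q = 8
  · subst hq
    have h1 : DD 8 ∩ {k | k ≠ (fun _ => 1)} = DD 8 ∩ (⋃ i, {k : R4 | 5 ≤ k i}) := by
      ext k
      constructor
      · rintro ⟨hk, hne⟩
        obtain ⟨i, hi⟩ := five_le k hk hne
        exact ⟨hk, mem_iUnion.mpr ⟨i, hi⟩⟩
      · rintro ⟨hk, hi⟩
        obtain ⟨i, hi⟩ := mem_iUnion.mp hi
        refine ⟨hk, fun h => ?_⟩
        rw [h] at hi
        simp only [mem_ofPred_eq] at hi
        norm_num at hi
    rw [h1]
    refine (DD_isClosed 8).inter (isClosed_iUnion_of_finite fun i => ?_)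
    exact isClosed_le continuous_const (continuous_apply i)
  · have h1 : DD q ∩ {k | k ≠ (fun _ => 1)} = DD q := by
      apply inter_eq_left.mpr
      intro k hk hne
      apply hq
      have h2 : Qk k = q := hk.2
      rw [← h2, hne]
      unfold Qk
      simp only [Fin.sum_univ_four]
      norm_num
    rw [h1]
    exact DD_isClosed q

theorem VV_continuousOn : ContinuousOn VV {k : R4 | ∀ i, 1 ≤ k i} := by
  unfold VV
  refine ContinuousOn.mul ?_ Phi_continuousOn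
  exact (Real.continuous_sqrt.comp (continuous_const.add Qk_continuous)).continuousOn

theorem exists_max (q : ℝ) (hq : 0 < q) (h : ∃ k ∈ DD q, k ≠ (fun _ => 1)) :
    ∃ m ∈ DD q, m ≠ (fun _ => 1) ∧ (∀ k ∈ DD q, k ≠ (fun _ => 1) → VV k ≤ VV m) ∧
      IsLocalMaxOn VV (DD q) m := by
  obtain ⟨k₀, hk₀, hne₀⟩ := h
  obtain ⟨K, hK⟩ := Phi_small (Phi k₀) (Phi_pos k₀ hk₀.1)
  set B : ℝ := max K (∑ i, k₀ i) with hB
  have hS := S_isClosed q
  set T : Set R4 := (DD q ∩ {k | k ≠ (fun _ => 1)}) ∩ Icc (fun _ => 1) (fun _ => B) with hT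
  have hTc : IsCompact T := isCompact_Icc.inter_left hS
  have hk₀T : k₀ ∈ T := by
    refine ⟨⟨hk₀, hne₀⟩, ?_, ?_⟩
    · intro i
      exact hk₀.1 i
    · intro i
      have h1 : k₀ i ≤ ∑ i, k₀ i :=
        Finset.single_le_sum (f := k₀) (fun j _ => by linarith [hk₀.1 j]) (Finset.mem_univ i)
      exact h1.trans (le_max_right _ _)
  obtain ⟨m, hmT, hmax⟩ := hTc.exists_isMaxOn ⟨k₀, hk₀T⟩
    (VV_continuousOn.mono (fun k hk => hk.1.1.1))
  have hall : ∀ k ∈ DD q, k ≠ (fun _ => 1) → VV k ≤ VV m := by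
    intro k hk hne
    by_cases hkB : ∀ i, k i ≤ B
    · exact hmax ⟨⟨hk, hne⟩, fun i => hk.1 i, hkB⟩
    · push Not at hkB
      obtain ⟨i, hi⟩ := hkB
      have h1 : Phi k < Phi k₀ := hK k hk.1 ⟨i, (le_max_left _ _).trans hi.le⟩
      have h2 : VV k ≤ VV k₀ := by
        unfold VV
        rw [hk.2, hk₀.2]
        exact mul_le_mul_of_nonneg_left h1.le (Real.sqrt_nonneg _)
      exact h2.trans (hmax hk₀T)
  refine ⟨m, hmT.1.1, hmT.1.2, hall, ?_⟩
  have hopen : {k : R4 | k ≠ (fun _ => 1)} ∈ 𝓝 m := isOpen_ne.mem_nhds hmT.1.2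
  have h3 : ∀ᶠ k in 𝓝[DD q] m, VV k ≤ VV m := by
    filter_upwards [self_mem_nhdsWithin, mem_nhdsWithin_of_mem_nhds hopen] with k hk hne
    exact hall k hk hne
  exact h3

end Pool.Agent.MidT
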