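import Pool.Agent.MidT.Defs

/-!
# MidT module INEQA: one-variable inequalities for `tau = arcoth`

`tau' = -1/(x²-1)` (`tau_hasDerivAt`), `tau → 0` at `∞`.

I1': `F(x) = x (3x²-1)/((3x²+1)(x²-1)) - tau x > 0` for `x > 1`: with `u = 1/x`, `artanh u < u (3-u²)/((1-u²)(3+u²))`; both sides vanish at `u = 0`,
the difference of the derivatives (in `u`) is `16 u⁴ /((1-u²)²(3+u²)²) > 0`
(please check: `d/du [u(3-u²)/((1-u²)(3+u²))] - 1/(1-u²)`).  In Lean: `F → 0` at `∞` and `F' < 0` (strict anti), or work with `u ∈ [0, x]` and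
`artanh u = log((1+u)/(1-u))/2`, `tau x = artanh (1/x)`.
I1: `3 (x²+1) tau x < x (3x²+1)/(x²-1)`: from I1', as `(3-u²)/(3+u²) ≤ (3+u²)/(3(1+u²))`.
`h_tangent`: `h x = x tau x`, `h' = tau x - x/(x²-1)`, `h'' = 2/(x²-1)² > 0`, so `h` is strictly convex on `(1, ∞)` and lies above its tangents.
G: for `1 < b < a`.  The function `u ↦ (3-u²) artanh u / u` is strictly increasing on `(0,1)` (derivative: exactly I1'), i.e.
`x ↦ (3 x - 1/x) tau x` is strictly decreasing on `(1, ∞)`; and `x tau x` is decreasing (`h' < 0`: `tau x < x/(x²-1)`, from I1'), so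
`tau b (3b - 1/b) > tau a (3a - 1/a)` and `tau b · 2/a > tau a · 2/b`.  Add, multiply by `a b`.
-/

set_option autoImplicit false

namespace Pool.Agent.MidT

open Set Filter Topology

theorem tau_strictAnti : StrictAntiOn tau (Ioi 1) := by
  apply strictAntiOn_of_deriv_neg (convex_Ioi 1)
  · intro x hx
    exact (tau_hasDerivAt x hx).continuousAt.continuousWithinAt
  · intro x hx
    rw [interior_Ioi] at hx
    have hx' : (1 : ℝ) < x := hx
    rw [(tau_hasDerivAt x hx').deriv]
    have : 0 < x ^ 2 - 1 := by nlinarith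
    have h2 : 0 < 1 / (x ^ 2 - 1) := by positivity
    linarith

theorem tau_tendsto : Tendsto tau atTop (𝓝 0) := by
  have h1 : Tendsto (fun x : ℝ => (x + 1) / (x - 1)) atTop (𝓝 1) := by
    have h2 : Tendsto (fun x : ℝ => 1 + 2 / (x - 1)) atTop (𝓝 (1 + 0)) := by
      apply Tendsto.add tendsto_const_nhds
      apply Tendsto.div_atTop tendsto_const_nhds
      exact tendsto_atTop_add_const_right atTop (-1 : ℝ) tendsto_id
    rw [add_zero] at h2
    apply h2.congr'
    filter_upwards [eventually_gt_atTop (1 : ℝ)] with x hx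
    have : x - 1 ≠ 0 := by intro h; linarith
    field_simp
    ring
  have h3 : Tendsto (fun x : ℝ => Real.log ((x + 1) / (x - 1)) / 2) atTop
      (𝓝 (Real.log 1 / 2)) :=
    ((Real.continuousAt_log one_ne_zero).tendsto.comp h1).div_const 2
  rw [Real.log_one, zero_div] at h3
  exact h3

/-- a function with negative derivative on `(1, ∞)` that tends to `0` at `∞` is positive -/
theorem pos_of_anti (F F' : ℝ → ℝ) (hd : ∀ x, 1 < x → HasDerivAt F (F' x) x)
    (hn : ∀ x, 1 < x → F' x < 0) (hl : Tendsto F atTop (𝓝 0)) (x : ℝ) (hx : 1 < x) :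
    0 < F x := by
  have hanti : StrictAntiOn F (Ioi 1) := by
    apply strictAntiOn_of_deriv_neg (convex_Ioi 1)
    · intro y hy
      exact (hd y hy).continuousAt.continuousWithinAt
    · intro y hy
      rw [interior_Ioi] at hy
      rw [(hd y hy).deriv]
      exact hn y hy
  have h1 : F (x + 1) < F x := hanti hx (show (1 : ℝ) < x + 1 by linarith) (by linarith)
  have h2 : 0 ≤ F (x + 1) := by
    apply le_of_tendsto hl
    filter_upwards [eventually_ge_atTop (x + 1)] with y hy
    rcases eq_or_lt_of_le hy with h | h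
    · rw [h]
    · exact (hanti (show (1 : ℝ) < x + 1 by linarith) (show (1 : ℝ) < y by linarith) h).le
  linarith

theorem tau_lt' (x : ℝ) (hx : 1 < x) :
    tau x < x * (3 * x ^ 2 - 1) / ((3 * x ^ 2 + 1) * (x ^ 2 - 1)) := by
  have key := pos_of_anti
    (fun x => x * (3 * x ^ 2 - 1) / ((3 * x ^ 2 + 1) * (x ^ 2 - 1)) - tau x)
    (fun x => -(16 * x ^ 2 / ((3 * x ^ 2 + 1) ^ 2 * (x ^ 2 - 1) ^ 2))) ?_ ?_ ?_ x hx
  · have key2 := key
    linarith
  · intro y hy
    have h1 : (0 : ℝ) < y ^ 2 - 1 := by nlinarith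
    have h2 : (0 : ℝ) < 3 * y ^ 2 + 1 := by positivity
    have hN : HasDerivAt (fun x : ℝ => x * (3 * x ^ 2 - 1)) (9 * y ^ 2 - 1) y := by
      have h := (hasDerivAt_id y).mul (((hasDerivAt_pow 2 y).const_mul 3).sub_const 1)
      refine HasDerivAt.congr_deriv h ?_
      simp
      ring
    have hD : HasDerivAt (fun x : ℝ => (3 * x ^ 2 + 1) * (x ^ 2 - 1)) (12 * y ^ 3 - 4 * y) y := by
      have h := (((hasDerivAt_pow 2 y).const_mul 3).add_const 1).mul
        ((hasDerivAt_pow 2 y).sub_const 1)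
      refine HasDerivAt.congr_deriv h ?_
      simp
      ring
    have h := (hN.div hD (by positivity)).sub (tau_hasDerivAt y hy)
    refine HasDerivAt.congr_deriv h ?_
    field_simp
    ring
  · intro y hy
    have h1 : (0 : ℝ) < y ^ 2 - 1 := by nlinarith
    have h3 : 0 < y := by linarith
    have : 0 < 16 * y ^ 2 / ((3 * y ^ 2 + 1) ^ 2 * (y ^ 2 - 1) ^ 2) := by positivity
    linarith
  · have h0 : Tendsto (fun x : ℝ => x * (3 * x ^ 2 - 1) / ((3 * x ^ 2 + 1) * (x ^ 2 - 1)))
        atTop (𝓝 0) := by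
      have hz : Tendsto (fun x : ℝ => 2 / x) atTop (𝓝 0) :=
        Tendsto.div_atTop tendsto_const_nhds tendsto_id
      apply squeeze_zero' _ _ hz
      · filter_upwards [eventually_gt_atTop (2 : ℝ)] with y hy
        have h1 : (0 : ℝ) < y ^ 2 - 1 := by nlinarith
        have h2 : (0 : ℝ) < 3 * y ^ 2 - 1 := by nlinarith
        positivity
      · filter_upwards [eventually_gt_atTop (2 : ℝ)] with y hy
        have h1 : (0 : ℝ) < y ^ 2 - 1 := by nlinarith
        have h2 : (0 : ℝ) < 3 * y ^ 2 - 1 := by nlinarith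
        have h3 : (0 : ℝ) < y := by linarith
        rw [div_le_div_iff₀ (by positivity) h3]
        nlinarith [sq_nonneg (y ^ 2), mul_pos h1 h2, mul_pos h1 h1]
    have := h0.sub tau_tendsto
    simpa using this

theorem tau_lt (x : ℝ) (hx : 1 < x) :
    3 * (x ^ 2 + 1) * tau x < x * (3 * x ^ 2 + 1) / (x ^ 2 - 1) := by
  have h := tau_lt' x hx
  have h1 : (0 : ℝ) < x ^ 2 - 1 := by nlinarith
  have h2 : (0 : ℝ) < 3 * x ^ 2 + 1 := by positivity
  have h3 : (0 : ℝ) < x := by linarith
  calc 3 * (x ^ 2 + 1) * tau x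
      < 3 * (x ^ 2 + 1) * (x * (3 * x ^ 2 - 1) / ((3 * x ^ 2 + 1) * (x ^ 2 - 1))) := by
        apply mul_lt_mul_of_pos_left h
        positivity
    _ ≤ x * (3 * x ^ 2 + 1) / (x ^ 2 - 1) := by
        rw [← mul_div_assoc, div_le_div_iff₀ (by positivity) h1]
        have h4 : 0 < x * (x ^ 2 - 1) := by positivity
        nlinarith [h4]

/-- the derivative of `h x = x * tau x` -/
theorem h_hasDerivAt (x : ℝ) (hx : 1 < x) :
    HasDerivAt (fun x => x * tau x) (tau x - x / (x ^ 2 - 1)) x := by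
  have h := (hasDerivAt_id x).mul (tau_hasDerivAt x hx)
  refine HasDerivAt.congr_deriv h ?_
  simp
  ring

theorem h'_strictMono : StrictMonoOn (fun x => tau x - x / (x ^ 2 - 1)) (Ioi 1) := by
  have hd : ∀ x : ℝ, 1 < x → HasDerivAt (fun x => tau x - x / (x ^ 2 - 1))
      (2 / (x ^ 2 - 1) ^ 2) x := by
    intro x hx
    have h1 : (0 : ℝ) < x ^ 2 - 1 := by nlinarith
    have h := (tau_hasDerivAt x hx).sub ((hasDerivAt_id x).div
      ((hasDerivAt_pow 2 x).sub_const 1) h1.ne')
    refine HasDerivAt.congr_deriv h ?_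
    simp
    field_simp
    ring
  apply strictMonoOn_of_deriv_pos (convex_Ioi 1)
  · intro y hy
    exact (hd y hy).continuousAt.continuousWithinAt
  · intro y hy
    rw [interior_Ioi] at hy
    have hy' : (1 : ℝ) < y := hy
    have h1 : (0 : ℝ) < y ^ 2 - 1 := by nlinarith
    rw [(hd y hy).deriv]
    positivity

theorem h_tangent (x y : ℝ) (hx : 1 < x) (hy : 1 < y) (hxy : x ≠ y) :
    x * tau x + (tau x - x / (x ^ 2 - 1)) * (y - x) < y * tau y := by
  rcases lt_or_gt_of_ne hxy with h | h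
  · obtain ⟨c, hc, hc2⟩ := exists_hasDerivAt_eq_slope (fun x => x * tau x)
      (fun x => tau x - x / (x ^ 2 - 1)) h
      (fun z hz => (h_hasDerivAt z (lt_of_lt_of_le hx hz.1)).continuousAt.continuousWithinAt)
      (fun z hz => h_hasDerivAt z (lt_trans hx hz.1))
    have h3 := h'_strictMono hx (show (1 : ℝ) < c from lt_trans hx hc.1) hc.1
    simp only at hc2 h3
    rw [hc2, lt_div_iff₀ (by linarith)] at h3
    linarith
  · obtain ⟨c, hc, hc2⟩ := exists_hasDerivAt_eq_slope (fun x => x * tau x)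
      (fun x => tau x - x / (x ^ 2 - 1)) h
      (fun z hz => (h_hasDerivAt z (lt_of_lt_of_le hy hz.1)).continuousAt.continuousWithinAt)
      (fun z hz => h_hasDerivAt z (lt_trans hy hz.1))
    have h3 := h'_strictMono (show (1 : ℝ) < c from lt_trans hy hc.1) hx hc.2
    simp only at hc2 h3
    rw [hc2, div_lt_iff₀ (by linarith)] at h3
    linarith

theorem G_ineq (a b : ℝ) (hb : 1 < b) (hab : b < a) :
    tau a * (2 * a - b + 3 * a ^ 2 * b) < tau b * (2 * b - a + 3 * a * b ^ 2) := by
  have ha : 1 < a := by linarith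
  have e1 : StrictAntiOn (fun x => x * tau x) (Ioi 1) := by
    apply strictAntiOn_of_deriv_neg (convex_Ioi 1)
    · intro y hy
      exact (h_hasDerivAt y hy).continuousAt.continuousWithinAt
    · intro y hy
      rw [interior_Ioi] at hy
      have hy' : (1 : ℝ) < y := hy
      rw [(h_hasDerivAt y hy).deriv]
      have h1 : (0 : ℝ) < y ^ 2 - 1 := by nlinarith
      have h2 : (0 : ℝ) < 3 * y ^ 2 + 1 := by positivity
      have h3 : (0 : ℝ) < y := by linarith
      have h4 := tau_lt' y hy'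
      have h5 : y * (3 * y ^ 2 - 1) / ((3 * y ^ 2 + 1) * (y ^ 2 - 1)) ≤ y / (y ^ 2 - 1) := by
        rw [div_le_div_iff₀ (by positivity) h1]
        have : 0 < y * (y ^ 2 - 1) := by positivity
        nlinarith [this]
      linarith
  have e2 : StrictAntiOn (fun x => (3 * x - 1 / x) * tau x) (Ioi 1) := by
    have hd : ∀ y : ℝ, 1 < y → HasDerivAt (fun x => (3 * x - 1 / x) * tau x)
        ((3 + 1 / y ^ 2) * tau y - (3 * y - 1 / y) / (y ^ 2 - 1)) y := by
      intro y hy
      have h3 : y ≠ 0 := by intro h; linarith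
      have hi : HasDerivAt (fun x : ℝ => 3 * x - 1 / x) (3 + 1 / y ^ 2) y := by
        have h := ((hasDerivAt_id y).const_mul 3).sub (hasDerivAt_inv h3)
        have e : (fun x : ℝ => 3 * x - 1 / x) = ((fun x : ℝ => 3 * id x) - fun x => x⁻¹) := by
          funext z
          simp
        rw [e]
        refine HasDerivAt.congr_deriv h ?_
        simp
      have h := hi.mul (tau_hasDerivAt y hy)
      refine HasDerivAt.congr_deriv h ?_
      ring
    apply strictAntiOn_of_deriv_neg (convex_Ioi 1)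
    · intro y hy
      exact (hd y hy).continuousAt.continuousWithinAt
    · intro y hy
      rw [interior_Ioi] at hy
      have hy' : (1 : ℝ) < y := hy
      rw [(hd y hy).deriv]
      have h1 : (0 : ℝ) < y ^ 2 - 1 := by nlinarith
      have h2 : (0 : ℝ) < 3 * y ^ 2 + 1 := by positivity
      have h3 : (0 : ℝ) < y := by linarith
      have h4 := tau_lt' y hy'
      have h5 : (3 + 1 / y ^ 2) * tau y
          < (3 + 1 / y ^ 2) * (y * (3 * y ^ 2 - 1) / ((3 * y ^ 2 + 1) * (y ^ 2 - 1))) :=
        mul_lt_mul_of_pos_left h4 (by positivity)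
      have h6 : (3 + 1 / y ^ 2) * (y * (3 * y ^ 2 - 1) / ((3 * y ^ 2 + 1) * (y ^ 2 - 1)))
          = (3 * y - 1 / y) / (y ^ 2 - 1) := by
        field_simp
      linarith
  have f1 := e1 hb ha hab
  have f2 := e2 hb ha hab
  simp only at f1 f2
  have hb0 : 0 < b := by linarith
  have ha0 : 0 < a := by linarith
  have f3 : (3 * a - 1 / a) * tau a * (a * b) < (3 * b - 1 / b) * tau b * (a * b) :=
    mul_lt_mul_of_pos_right f2 (by positivity)
  have g1 : (3 * a - 1 / a) * tau a * (a * b) = tau a * (3 * a ^ 2 * b - b) := by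
    field_simp
  have g2 : (3 * b - 1 / b) * tau b * (a * b) = tau b * (3 * a * b ^ 2 - a) := by
    field_simp
  rw [g1, g2] at f3
  nlinarith [f1, f3]

end Pool.Agent.MidT
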