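import Pool.Agent.MidT.SchlFace
import Pool.Agent.MidT.IneqA

/-!
# MidT module VAL1: the volume for the parameters `(1, x, x, x)`

`schl_face` for `k t = ![1, t, t, t]`, `v = ![0, 1, 1, 1]`, `Z = {0}` on `(1, R)`: `Qk = 3t²+6t-1`, `4 + Qk = 3(t+1)²`, `nn v = (3, 1, 1, 1)`,
`nn k = (3t-1, t+1, t+1, t+1)`, `∑ v_i n_i = 3(1+t)`, `om 0 = 3(t+1)/(3t²+1)`, `om c = 0` for `c ≥ 1`, so `V' = -3√3 tau t/(3t²+1)`.
`VV → 0` at `∞`: `Phi_decay3`, `√(4+Q) = √3 (t+1)`.  `integral_Ioi_of_hasDerivAt_of_nonpos` gives the formula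
(it only needs continuity from the right at the left end point, `Phi_continuousOn`).
-/

set_option autoImplicit false

namespace Pool.Agent.MidT

open MeasureTheory Set Filter Topology

theorem four_add_Qk_111 (t : ℝ) : 4 + Qk ![1, t, t, t] = 3 * (t + 1) ^ 2 := by
  simp [Qk, Fin.sum_univ_four]
  ring

theorem VV_111 (t : ℝ) (ht : 1 ≤ t) : VV ![1, t, t, t] = Real.sqrt 3 * (t + 1) * Phi ![1, t, t, t] := by
  unfold VV
  rw [four_add_Qk_111, Real.sqrt_mul (by norm_num), Real.sqrt_sq (by linarith)]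

theorem dV_111 (t : ℝ) (ht : 1 < t) :
    dV (fun i => if i ∈ ({0} : Finset (Fin 4)) then 0 else tau ((![1, t, t, t] : R4) i)) ![1, t, t, t]
      ![0, 1, 1, 1] = -(3 * Real.sqrt 3 * (tau t / (3 * t ^ 2 + 1))) := by
  have hs : Real.sqrt 3 * Real.sqrt 3 = 3 := Real.mul_self_sqrt (by norm_num)
  have hs0 : Real.sqrt 3 ≠ 0 := by positivity
  have ht1 : t + 1 ≠ 0 := by linarith
  have h3 : 3 * t ^ 2 + 1 ≠ 0 := by positivity
  have hq : Real.sqrt (4 + Qk ![1, t, t, t]) = Real.sqrt 3 * (t + 1) := by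
    rw [four_add_Qk_111, Real.sqrt_mul (by norm_num), Real.sqrt_sq (by linarith)]
  have hn0 : nn ![1, t, t, t] 0 = 3 * t - 1 := by
    simp [nn, Fin.sum_univ_four]; ring
  have hn1 : nn ![1, t, t, t] 1 = t + 1 := by
    simp [nn, Fin.sum_univ_four]; ring
  have hn2 : nn ![1, t, t, t] 2 = t + 1 := by
    simp [nn, Fin.sum_univ_four]; ring
  have hn3 : nn ![1, t, t, t] 3 = t + 1 := by
    simp [nn, Fin.sum_univ_four]; ring
  have hv0 : nn ![0, 1, 1, 1] 0 = 3 := by
    simp [nn, Fin.sum_univ_four]; norm_num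
  have hv1 : nn ![0, 1, 1, 1] 1 = 1 := by
    simp [nn, Fin.sum_univ_four]; norm_num
  have hv2 : nn ![0, 1, 1, 1] 2 = 1 := by
    simp [nn, Fin.sum_univ_four]; norm_num
  have hv3 : nn ![0, 1, 1, 1] 3 = 1 := by
    simp [nn, Fin.sum_univ_four]; norm_num
  have hS : (∑ i, (![0, 1, 1, 1] : R4) i * nn ![1, t, t, t] i) = 3 * (t + 1) := by
    simp only [Fin.sum_univ_four, hn0, hn1, hn2, hn3]
    simp
    ring
  have ho0 : om ![1, t, t, t] ![0, 1, 1, 1] 0 = 3 * (t + 1) / (3 * t ^ 2 + 1) := by
    unfold om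
    rw [hS, hn0, hv0, four_add_Qk_111]
    have hd : 3 * (t + 1) ^ 2 + (3 * t - 1) ^ 2 = 4 * (3 * t ^ 2 + 1) := by ring
    rw [hd]
    field_simp
    ring
  have ho1 : om ![1, t, t, t] ![0, 1, 1, 1] 1 = 0 := by
    unfold om
    rw [hS, hn1, hv1, four_add_Qk_111]
    have : 3 * (t + 1) ^ 2 * 1 - 3 * (t + 1) * (t + 1) = 0 := by ring
    rw [this, zero_div]
  have ho2 : om ![1, t, t, t] ![0, 1, 1, 1] 2 = 0 := by
    unfold om
    rw [hS, hn2, hv2, four_add_Qk_111]
    have : 3 * (t + 1) ^ 2 * 1 - 3 * (t + 1) * (t + 1) = 0 := by ring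
    rw [this, zero_div]
  have ho3 : om ![1, t, t, t] ![0, 1, 1, 1] 3 = 0 := by
    unfold om
    rw [hS, hn3, hv3, four_add_Qk_111]
    have : 3 * (t + 1) ^ 2 * 1 - 3 * (t + 1) * (t + 1) = 0 := by ring
    rw [this, zero_div]
  unfold dV
  rw [hq]
  simp only [Fin.sum_univ_four, ho0, ho1, ho2, ho3]
  simp
  field_simp
  rw [Real.sq_sqrt (by norm_num : (0 : ℝ) ≤ 3)]
  ring

theorem VV_111_hasDerivAt (t : ℝ) (ht : 1 < t) :
    HasDerivAt (fun s => VV ![1, s, s, s]) (-(3 * Real.sqrt 3 * (tau t / (3 * t ^ 2 + 1)))) t := by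
  have h := schl_face (fun s => ![1, s, s, s]) (fun _ => ![0, 1, 1, 1]) 1 (t + 1) {0}
    (by
      intro s _
      rw [hasDerivAt_pi]
      intro i
      fin_cases i
      · exact hasDerivAt_const s (1 : ℝ)
      · exact hasDerivAt_id s
      · exact hasDerivAt_id s
      · exact hasDerivAt_id s)
    continuousOn_const
    (by
      intro s _ i hi
      rw [Finset.mem_singleton] at hi
      subst hi
      rfl)
    (by
      intro s hs i hi
      rw [Finset.mem_singleton] at hi
      fin_cases i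
      · exact absurd rfl hi
      · exact hs.1
      · exact hs.1
      · exact hs.1)
    (by
      intro s hs
      rw [four_add_Qk_111]
      have : 0 < s + 1 := by linarith [hs.1]
      positivity)
    t ⟨ht, by linarith⟩
  rw [dV_111 t ht] at h
  exact h

theorem val1 (x : ℝ) (hx : 1 ≤ x) : VV ![1, x, x, x] = W1 x := by
  have hcont : ContinuousWithinAt (fun s => VV ![1, s, s, s]) (Ici x) x := by
    have hk : Continuous (fun s : ℝ => (![1, s, s, s] : R4)) := by
      rw [continuous_pi_iff]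
      intro i
      fin_cases i
      · exact continuous_const
      · exact continuous_id
      · exact continuous_id
      · exact continuous_id
    have h1 : ContinuousOn (fun s : ℝ => Phi ![1, s, s, s]) (Ici 1) := by
      refine Phi_continuousOn.comp hk.continuousOn ?_
      intro s hs i
      fin_cases i
      · exact le_refl _
      · exact hs
      · exact hs
      · exact hs
    have h2 : ContinuousOn (fun s : ℝ => Real.sqrt (3 * (s + 1) ^ 2)) (Ici 1) := by
      fun_prop
    have h3 : ContinuousOn (fun s => VV ![1, s, s, s]) (Ici 1) := by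
      refine (h2.mul h1).congr ?_
      intro s _
      show VV ![1, s, s, s] = _
      unfold VV
      rw [four_add_Qk_111]
      rfl
    exact (h3 x hx).mono (Ici_subset_Ici.2 hx)
  have hlim : Tendsto (fun s => VV ![1, s, s, s]) atTop (𝓝 0) := by
    obtain ⟨C, hC⟩ := Phi_decay3
    have hup : Tendsto (fun s : ℝ => Real.sqrt 3 * 2 * C * (1 / s ^ 2)) atTop (𝓝 0) := by
      have h0 : Tendsto (fun s : ℝ => 1 / s ^ 2) atTop (𝓝 0) := by
        have := (tendsto_pow_atTop (α := ℝ) (n := 2) (by norm_num)).inv_tendsto_atTop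
        refine this.congr ?_
        intro s
        simp
      simpa using h0.const_mul (Real.sqrt 3 * 2 * C)
    have hk1 : ∀ s : ℝ, 1 ≤ s → ∀ i, (1 : ℝ) ≤ (![1, s, s, s] : R4) i := by
      intro s hs i
      fin_cases i
      · exact le_refl _
      · exact hs
      · exact hs
      · exact hs
    refine squeeze_zero' ?_ ?_ hup
    · filter_upwards [eventually_ge_atTop 1] with s hs
      unfold VV
      exact mul_nonneg (Real.sqrt_nonneg _) (Phi_pos _ (hk1 s hs)).le
    · filter_upwards [eventually_ge_atTop 1] with s hs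
      rw [VV_111 s hs]
      have hp := Phi_pos _ (hk1 s hs)
      have h3 := hC s hs
      have hs0 : 0 < s := by linarith
      calc Real.sqrt 3 * (s + 1) * Phi ![1, s, s, s]
          ≤ Real.sqrt 3 * (2 * s) * Phi ![1, s, s, s] := by
            apply mul_le_mul_of_nonneg_right _ hp.le
            apply mul_le_mul_of_nonneg_left _ (Real.sqrt_nonneg _)
            linarith
        _ ≤ Real.sqrt 3 * (2 * s) * (C / s ^ 3) := by
            apply mul_le_mul_of_nonneg_left h3
            positivity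
        _ = Real.sqrt 3 * 2 * C * (1 / s ^ 2) := by
            field_simp
  have h := integral_Ioi_of_hasDerivAt_of_nonpos hcont
    (fun t ht => VV_111_hasDerivAt t (lt_of_le_of_lt hx ht))
    (fun t ht => by
      have ht1 : 1 < t := lt_of_le_of_lt hx ht
      have := tau_pos t ht1
      have h0 : 0 ≤ 3 * Real.sqrt 3 * (tau t / (3 * t ^ 2 + 1)) := by positivity
      linarith) hlim
  rw [integral_neg, integral_const_mul] at h
  unfold W1
  linarith

end Pool.Agent.MidT
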