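import Pool.Agent.MidT.Val2

/-!
# MidT module VAL3: the volume for the parameters `(1, 1, 1, x)`, `1 ≤ x < 7`

`schl_face` for `k t = ![1, 1, 1, t]`, `v = ![0, 0, 0, 1]`, `Z = {0, 1, 2}` on `(1, 7)`: `Qk = 3+6t-t²`, `4 + Qk = (7-t)(1+t)`, `nn v = (1, 1, 1, -1)`,
`nn k = (1+t, 1+t, 1+t, 3-t)`, `∑ v_i n_i = 3-t`, `om 0 = om 1 = om 2 = 1/2`, `om 3 = -1`, `N_0 = N_1 = N_2 = tau t`, `N_3 = 0`, so
`V' = -(3/2) tau t/√((7-t)(1+t))`.  `VV` is continuous on `[1, 7)` (`Phi_continuousOn`), so by the fundamental theorem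
(`intervalIntegral.integral_eq_sub_of_hasDerivAt_of_tendsto` or the version with continuity on `[a,b]` and derivative on `(a, b)`:
`integral_eq_sub_of_hasDeriv_right`; integrability of `V'`, of constant sign: `intervalIntegrable_deriv_of_nonneg`)
`VV ![1,1,1,x] = VV ![1,1,1,1] - 3/2 ∫_1^x`, and `VV ![1,1,1,1] = W2 1` (`val2` at `1`).
`W3_anti`: the integrand is nonnegative (`tau > 0`; at `t = 1` the Lean value of `tau 1 = log (2/0)/2 = log 0/2 = 0`).
-/

set_option autoImplicit false

namespace Pool.Agent.MidT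

open MeasureTheory Set Filter Topology

theorem Qk_111x (t : ℝ) : Qk ![1, 1, 1, t] = (7 - t) * (1 + t) - 4 := by
  simp only [Qk, Fin.sum_univ_four, Matrix.cons_val_zero, Matrix.cons_val_one, Matrix.cons_val]
  ring

theorem dV_111x (t : ℝ) (ht : 1 < t) (ht7 : t < 7) :
    dV (fun i => if i ∈ ({0, 1, 2} : Finset (Fin 4)) then 0 else tau ((![1, 1, 1, t] : R4) i))
      ![1, 1, 1, t] ![0, 0, 0, 1] = -(3 / 2 * (tau t / Real.sqrt ((7 - t) * (1 + t)))) := by
  have hs : Real.sqrt (4 + Qk ![1, 1, 1, t]) = Real.sqrt ((7 - t) * (1 + t)) := by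
    rw [Qk_111x, show (4 : ℝ) + ((7 - t) * (1 + t) - 4) = (7 - t) * (1 + t) by ring]
  have hp : 0 < (7 - t) * (1 + t) := mul_pos (by linarith) (by linarith)
  have hspos : 0 < Real.sqrt ((7 - t) * (1 + t)) := Real.sqrt_pos.2 hp
  have n0 : nn ![1, 1, 1, t] 0 = 1 + t := by
    simp only [nn, Fin.sum_univ_four, Matrix.cons_val_zero, Matrix.cons_val_one, Matrix.cons_val]
    ring
  have n1 : nn ![1, 1, 1, t] 1 = 1 + t := by
    simp only [nn, Fin.sum_univ_four, Matrix.cons_val_zero, Matrix.cons_val_one, Matrix.cons_val]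
    ring
  have n2 : nn ![1, 1, 1, t] 2 = 1 + t := by
    simp only [nn, Fin.sum_univ_four, Matrix.cons_val_zero, Matrix.cons_val_one, Matrix.cons_val]
    ring
  have n3 : nn ![1, 1, 1, t] 3 = 3 - t := by
    simp only [nn, Fin.sum_univ_four, Matrix.cons_val_zero, Matrix.cons_val_one, Matrix.cons_val]
    ring
  have v0 : nn ![0, 0, 0, 1] 0 = 1 := by
    simp only [nn, Fin.sum_univ_four, Matrix.cons_val_zero, Matrix.cons_val_one, Matrix.cons_val]
    ring
  have v1 : nn ![0, 0, 0, 1] 1 = 1 := by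
    simp only [nn, Fin.sum_univ_four, Matrix.cons_val_zero, Matrix.cons_val_one, Matrix.cons_val]
    ring
  have v2 : nn ![0, 0, 0, 1] 2 = 1 := by
    simp only [nn, Fin.sum_univ_four, Matrix.cons_val_zero, Matrix.cons_val_one, Matrix.cons_val]
    ring
  have v3 : nn ![0, 0, 0, 1] 3 = -1 := by
    simp only [nn, Fin.sum_univ_four, Matrix.cons_val_zero, Matrix.cons_val_one, Matrix.cons_val]
    ring
  have hk0 : (∑ i, (![0, 0, 0, 1] : R4) i * nn ![1, 1, 1, t] i) = 3 - t := by
    rw [Fin.sum_univ_four, n0, n1, n2, n3]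
    simp only [Matrix.cons_val_zero, Matrix.cons_val_one, Matrix.cons_val]
    ring
  have t0 : (if (0 : Fin 4) ∈ ({0, 1, 2} : Finset (Fin 4)) then (0 : ℝ)
      else tau ((![1, 1, 1, t] : R4) 0)) = 0 := by simp
  have t1 : (if (1 : Fin 4) ∈ ({0, 1, 2} : Finset (Fin 4)) then (0 : ℝ)
      else tau ((![1, 1, 1, t] : R4) 1)) = 0 := by simp
  have t2 : (if (2 : Fin 4) ∈ ({0, 1, 2} : Finset (Fin 4)) then (0 : ℝ)
      else tau ((![1, 1, 1, t] : R4) 2)) = 0 := by simp
  have t3 : (if (3 : Fin 4) ∈ ({0, 1, 2} : Finset (Fin 4)) then (0 : ℝ)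
      else tau ((![1, 1, 1, t] : R4) 3)) = tau t := by
    rw [if_neg (by decide)]
    rfl
  unfold dV om
  rw [hk0, hs]
  simp only [Fin.sum_univ_four]
  rw [t0, t1, t2, t3, n0, n1, n2, n3, v0, v1, v2, v3, Qk_111x]
  have e1 : (4 : ℝ) + ((7 - t) * (1 + t) - 4) + (1 + t) ^ 2 = 8 * (1 + t) := by ring
  have e2 : (4 : ℝ) + ((7 - t) * (1 + t) - 4) + (3 - t) ^ 2 = 16 := by ring
  rw [e1, e2]
  have h1t : 0 < 1 + t := by linarith
  field_simp
  ring

theorem hasDerivAt_111x (t : ℝ) (ht : 1 < t) (ht7 : t < 7) :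
    HasDerivAt (fun s : ℝ => VV ![1, 1, 1, s])
      (-(3 / 2 * (tau t / Real.sqrt ((7 - t) * (1 + t))))) t := by
  have h := schl_face (fun s => ![1, 1, 1, s]) (fun _ => ![0, 0, 0, 1]) 1 7 {0, 1, 2}
    (by
      intro s _
      rw [hasDerivAt_pi]
      intro i
      fin_cases i
      · exact hasDerivAt_const s 1
      · exact hasDerivAt_const s 1
      · exact hasDerivAt_const s 1
      · exact hasDerivAt_id s)
    continuousOn_const
    (by
      intro s _ i hi
      fin_cases i
      · rfl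
      · rfl
      · rfl
      · exact absurd hi (by decide))
    (by
      intro s hs i hi
      fin_cases i
      · exact absurd (by decide) hi
      · exact absurd (by decide) hi
      · exact absurd (by decide) hi
      · exact hs.1)
    (by
      intro s hs
      rw [Qk_111x]
      have : 0 < (7 - s) * (1 + s) := mul_pos (by linarith [hs.2]) (by linarith [hs.1])
      linarith)
    t ⟨ht, ht7⟩
  rw [dV_111x t ht ht7] at h
  exact h

theorem cont_111x : ContinuousOn (fun s : ℝ => VV ![1, 1, 1, s]) (Ici 1) := by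
  have hmap : Continuous (fun s : ℝ => (![1, 1, 1, s] : R4)) := by
    apply continuous_pi
    intro i
    fin_cases i
    · exact continuous_const
    · exact continuous_const
    · exact continuous_const
    · exact continuous_id
  apply VV_continuousOn.comp hmap.continuousOn
  intro s hs i
  have hs' : 1 ≤ s := hs
  fin_cases i
  · exact le_rfl
  · exact le_rfl
  · exact le_rfl
  · exact hs'

theorem val3 (x : ℝ) (hx : 1 ≤ x) (hx7 : x < 7) : VV ![1, 1, 1, x] = W3 x := by
  have hc : ContinuousOn (fun s : ℝ => VV ![1, 1, 1, s]) (Icc 1 x) :=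
    cont_111x.mono fun s hs => hs.1
  have hint : IntervalIntegrable (fun t => 3 / 2 * (tau t / Real.sqrt ((7 - t) * (1 + t))))
      volume 1 x := by
    apply intervalIntegral.intervalIntegrable_deriv_of_nonneg (g := fun s => -VV ![1, 1, 1, s])
    · rw [uIcc_of_le hx]
      exact hc.neg
    · intro t ht
      rw [min_eq_left hx, max_eq_right hx] at ht
      have := (hasDerivAt_111x t ht.1 (by linarith [ht.2])).neg
      rw [neg_neg] at this
      exact this
    · intro t ht
      rw [min_eq_left hx, max_eq_right hx] at ht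
      have := tau_pos t ht.1
      positivity
  have h := intervalIntegral.integral_eq_sub_of_hasDerivAt_of_le hx hc
    (fun t ht => hasDerivAt_111x t ht.1 (by linarith [ht.2])) hint.neg
  rw [intervalIntegral.integral_neg, intervalIntegral.integral_const_mul] at h
  have h1 := val2 1 le_rfl
  unfold W3
  rw [← h1]
  linarith

theorem W3_anti (x y : ℝ) (hx : 1 ≤ x) (hxy : x ≤ y) (hy : y < 7) : W3 y ≤ W3 x := by
  rw [← val3 x hx (by linarith), ← val3 y (by linarith) hy]
  have hanti : AntitoneOn (fun s : ℝ => VV ![1, 1, 1, s]) (Ico 1 7) := by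
    apply antitoneOn_of_deriv_nonpos (convex_Ico _ _)
    · exact cont_111x.mono fun s hs => hs.1
    · rw [interior_Ico]
      intro t ht
      exact (hasDerivAt_111x t ht.1 ht.2).differentiableAt.differentiableWithinAt
    · rw [interior_Ico]
      intro t ht
      rw [(hasDerivAt_111x t ht.1 ht.2).deriv]
      have := tau_pos t ht.1
      have h2 : 0 ≤ tau t / Real.sqrt ((7 - t) * (1 + t)) := by positivity
      linarith
  exact hanti ⟨hx, by linarith⟩ ⟨by linarith, hy⟩ hxy

end Pool.Agent.MidT
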