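import Pool.Agent.MidT.Cls
import Pool.Agent.MidT.MaxEx
import Pool.Agent.MidT.Val1
import Pool.Agent.MidT.Val3
import Pool.Agent.MidT.GeoA
import Pool.Agent.MidT.GeoR
import Pool.Agent.MidT.GeoV

/-!
# MidT module FINAL: the supremum
-/

set_option autoImplicit false

namespace Pool.Agent.MidT

open MeasureTheory Set Filter Topology Pool.Agent.Hhelper43.Mid
open scoped RealInnerProductSpace ENNReal

theorem Qk1 (x : ℝ) : Qk ![1, x, x, x] = 3 * x ^ 2 + 6 * x - 1 := by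
  simp [Qk, Fin.sum_univ_four]; ring

theorem Qk2 (x : ℝ) : Qk ![1, 1, x, x] = 8 * x := by
  simp [Qk, Fin.sum_univ_four]; ring

theorem Qk3 (x : ℝ) : Qk ![1, 1, 1, x] = 3 + 6 * x - x ^ 2 := by
  simp [Qk, Fin.sum_univ_four]; ring

theorem max_le (q : ℝ) (hq : 0 < q) (B : ℝ)
    (h1 : ∀ x, 1 < x → Qk ![1, x, x, x] = q → VV ![1, x, x, x] ≤ B)
    (h2 : ∀ x, 1 < x → Qk ![1, 1, x, x] = q → VV ![1, 1, x, x] ≤ B)
    (h3 : ∀ x, 1 < x → Qk ![1, 1, 1, x] = q → VV ![1, 1, 1, x] ≤ B)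
    (k : R4) (hk : k ∈ DD q) (hne : k ≠ (fun _ => 1)) : VV k ≤ B := by
  obtain ⟨m, hm, hmne, hmax, hloc⟩ := exists_max q hq ⟨k, hk, hne⟩
  refine (hmax k hk hne).trans ?_
  obtain ⟨x, hx, h⟩ := cls q hq m hm hmne hloc
  rcases h with ⟨h, hQ⟩ | ⟨h, hQ⟩ | ⟨h, hQ⟩
  · rw [h]; exact h1 x hx hQ
  · rw [h]; exact h2 x hx hQ
  · rw [h]; exact h3 x hx hQ

theorem upper (r : ℝ) (hr : 0 < r) (B : ℝ)
    (hB : ∀ k ∈ DD (4 / Real.sinh r ^ 2), k ≠ (fun _ => 1) → VV k ≤ B) :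
    ENNReal.ofReal B ∈ upperBounds (hypVolumes r) := by
  rintro _ ⟨v, hv, rfl⟩
  obtain ⟨k, hk, hQ, hG⟩ := geoA r hr v hv
  have hs : 0 < Real.sinh r := Real.sinh_pos_iff.2 hr
  have hq : 0 < Qk k := by rw [hQ]; positivity
  rw [geoV r hr v hv.inside hv.indep k hk hq hG]
  apply ENNReal.ofReal_le_ofReal
  refine hB k ⟨fun i => (hk i).le, hQ⟩ ?_
  intro h
  have := hk 0
  rw [h] at this
  exact absurd this (lt_irrefl _)

theorem lower_of_family (M : ℝ≥0∞) (f : ℝ → R4) (k : R4)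
    (hk : ∀ i, 1 ≤ k i)
    (hf : Tendsto f (𝓝[>] 1) (𝓝 k))
    (h1 : ∀ᶠ t in 𝓝[>] (1 : ℝ), ∀ i, 1 ≤ f t i)
    (hM : ∀ᶠ t in 𝓝[>] (1 : ℝ), ENNReal.ofReal (VV (f t)) ≤ M) :
    ENNReal.ofReal (VV k) ≤ M := by
  have h2 : Tendsto f (𝓝[>] 1) (𝓝[{k : R4 | ∀ i, 1 ≤ k i}] k) :=
    tendsto_nhdsWithin_iff.2 ⟨hf, h1⟩
  have h3 : Tendsto (fun t => VV (f t)) (𝓝[>] 1) (𝓝 (VV k)) := (VV_continuousOn k hk).tendsto.comp h2
  exact le_of_tendsto (ENNReal.tendsto_ofReal h3) hM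

theorem lower_abbb (r : ℝ) (hr : 0 < r) (M : ℝ≥0∞) (hM : M ∈ upperBounds (hypVolumes r))
    (a b : ℝ → ℝ) (a0 b0 : ℝ) (ha0 : 1 ≤ a0) (hb0 : 1 ≤ b0)
    (ha : Tendsto a (𝓝[>] 1) (𝓝 a0)) (hb : Tendsto b (𝓝[>] 1) (𝓝 b0))
    (h : ∀ᶠ t in 𝓝[>] (1 : ℝ), 1 < a t ∧ 1 < b t ∧
      Qk ![a t, b t, b t, b t] = 4 / Real.sinh r ^ 2) :
    ENNReal.ofReal (VV ![a0, b0, b0, b0]) ≤ M := by
  refine lower_of_family M (fun t => ![a t, b t, b t, b t]) _ ?_ ?_ ?_ ?_
  · intro i; fin_cases i <;> simp [ha0, hb0]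
  · rw [tendsto_pi_nhds]
    intro i; fin_cases i <;> simpa
  · filter_upwards [h] with t ht i
    fin_cases i <;> simp [ht.1.le, ht.2.1.le]
  · filter_upwards [h] with t ht
    obtain ⟨v, hv, hG⟩ := geoR_abbb r hr (a t) (b t) ht.1 ht.2.1 ht.2.2
    have hs : 0 < Real.sinh r := Real.sinh_pos_iff.2 hr
    have hk : ∀ i, 1 < (![a t, b t, b t, b t] : R4) i := by
      intro i; fin_cases i <;> simp [ht.1, ht.2.1]
    have hq : 0 < Qk ![a t, b t, b t, b t] := by rw [ht.2.2]; positivity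
    have := geoV r hr v hv.inside hv.indep _ hk hq hG
    rw [← this]
    exact hM ⟨v, hv, rfl⟩

theorem lower_aabb (r : ℝ) (hr : 0 < r) (M : ℝ≥0∞) (hM : M ∈ upperBounds (hypVolumes r))
    (a b : ℝ → ℝ) (a0 b0 : ℝ) (ha0 : 1 ≤ a0) (hb0 : 1 ≤ b0)
    (ha : Tendsto a (𝓝[>] 1) (𝓝 a0)) (hb : Tendsto b (𝓝[>] 1) (𝓝 b0))
    (h : ∀ᶠ t in 𝓝[>] (1 : ℝ), 1 < a t ∧ 1 < b t ∧
      Qk ![a t, a t, b t, b t] = 4 / Real.sinh r ^ 2) :
    ENNReal.ofReal (VV ![a0, a0, b0, b0]) ≤ M := by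
  refine lower_of_family M (fun t => ![a t, a t, b t, b t]) _ ?_ ?_ ?_ ?_
  · intro i; fin_cases i <;> simp [ha0, hb0]
  · rw [tendsto_pi_nhds]
    intro i; fin_cases i <;> simpa
  · filter_upwards [h] with t ht i
    fin_cases i <;> simp [ht.1.le, ht.2.1.le]
  · filter_upwards [h] with t ht
    obtain ⟨v, hv, hG⟩ := geoR_aabb r hr (a t) (b t) ht.1 ht.2.1 ht.2.2
    have hs : 0 < Real.sinh r := Real.sinh_pos_iff.2 hr
    have hk : ∀ i, 1 < (![a t, a t, b t, b t] : R4) i := by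
      intro i; fin_cases i <;> simp [ht.1, ht.2.1]
    have hq : 0 < Qk ![a t, a t, b t, b t] := by rw [ht.2.2]; positivity
    have := geoV r hr v hv.inside hv.indep _ hk hq hG
    rw [← this]
    exact hM ⟨v, hv, rfl⟩

section lower

variable (r : ℝ) (hr : 0 < r) (M : ℝ≥0∞) (hM : M ∈ upperBounds (hypVolumes r))

include hr hM

theorem lower1 (hq : 8 < 4 / Real.sinh r ^ 2) :
    ENNReal.ofReal (VV ![1, -1 + Real.sqrt ((4 / Real.sinh r ^ 2 + 4) / 3),
      -1 + Real.sqrt ((4 / Real.sinh r ^ 2 + 4) / 3),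
      -1 + Real.sqrt ((4 / Real.sinh r ^ 2 + 4) / 3)]) ≤ M := by
  set q := 4 / Real.sinh r ^ 2 with hqdef
  have hb0 : 1 < -1 + Real.sqrt ((q + 4) / 3) := by
    have : (2 : ℝ) < Real.sqrt ((q + 4) / 3) := by
      apply Real.lt_sqrt_of_sq_lt; linarith
    linarith
  have hcont : Continuous (fun t : ℝ => -t + Real.sqrt ((q + 4 * t ^ 2) / 3)) := by fun_prop
  have hb : Tendsto (fun t : ℝ => -t + Real.sqrt ((q + 4 * t ^ 2) / 3)) (𝓝[>] 1)
      (𝓝 (-1 + Real.sqrt ((q + 4) / 3))) := by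
    have := (hcont.tendsto 1).mono_left (nhdsWithin_le_nhds (s := Ioi 1))
    simpa using this
  refine lower_abbb r hr M hM (fun t => t) (fun t => -t + Real.sqrt ((q + 4 * t ^ 2) / 3))
    1 _ le_rfl hb0.le ?_ hb ?_
  · exact (continuous_id.tendsto 1).mono_left nhdsWithin_le_nhds
  · filter_upwards [self_mem_nhdsWithin, hb.eventually (lt_mem_nhds hb0)] with t ht ht2
    refine ⟨ht, ht2, ?_⟩
    have hs := Real.sq_sqrt (show 0 ≤ (q + 4 * t ^ 2) / 3 by positivity)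
    simp only [Qk, Fin.sum_univ_four, Matrix.cons_val_zero, Matrix.cons_val_one,
      Matrix.cons_val]
    rw [← hqdef]
    nlinarith [hs]

theorem lower2 (hq : 8 < 4 / Real.sinh r ^ 2) :
    ENNReal.ofReal (VV ![1, 1, 4 / Real.sinh r ^ 2 / 8, 4 / Real.sinh r ^ 2 / 8]) ≤ M := by
  set q := 4 / Real.sinh r ^ 2 with hqdef
  have hb0 : 1 < q / 8 := by linarith
  have hb : Tendsto (fun t : ℝ => q / (8 * t)) (𝓝[>] 1) (𝓝 (q / 8)) := by
    have hc : ContinuousAt (fun t : ℝ => q / (8 * t)) 1 := by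
      apply ContinuousAt.div <;> first | fun_prop | norm_num
    have := hc.tendsto.mono_left (nhdsWithin_le_nhds (s := Ioi 1))
    simpa using this
  refine lower_aabb r hr M hM (fun t => t) (fun t => q / (8 * t))
    1 _ le_rfl hb0.le ?_ hb ?_
  · exact (continuous_id.tendsto 1).mono_left nhdsWithin_le_nhds
  · filter_upwards [self_mem_nhdsWithin, hb.eventually (lt_mem_nhds hb0)] with t ht ht2
    refine ⟨ht, ht2, ?_⟩
    have ht0 : (t : ℝ) ≠ 0 := by
      have : (1 : ℝ) < t := ht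
      positivity
    simp only [Qk, Fin.sum_univ_four, Matrix.cons_val_zero, Matrix.cons_val_one,
      Matrix.cons_val]
    rw [← hqdef]
    field_simp
    ring

omit hr hM in
theorem VV_1113 (x : ℝ) : VV ![x, 1, 1, 1] = VV ![1, 1, 1, x] := by
  have := VV_perm ![1, 1, 1, x] (Equiv.swap 0 3)
  rw [← this]
  congr 1
  ext i
  fin_cases i <;> simp [Equiv.swap_apply_def]

theorem lower3 (ε : ℝ) (hε : ε = 1 ∨ ε = -1) (hq : 4 / Real.sinh r ^ 2 ≤ 12)
    (h8 : 1 < 3 + ε * Real.sqrt (12 - 4 / Real.sinh r ^ 2)) :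
    ENNReal.ofReal (VV ![1, 1, 1, 3 + ε * Real.sqrt (12 - 4 / Real.sinh r ^ 2)]) ≤ M := by
  set q := 4 / Real.sinh r ^ 2 with hqdef
  have hcont : Continuous (fun t : ℝ => 3 * t + ε * Real.sqrt (12 * t ^ 2 - q)) := by fun_prop
  have hb : Tendsto (fun t : ℝ => 3 * t + ε * Real.sqrt (12 * t ^ 2 - q)) (𝓝[>] 1)
      (𝓝 (3 + ε * Real.sqrt (12 - q))) := by
    have := (hcont.tendsto 1).mono_left (nhdsWithin_le_nhds (s := Ioi 1))
    simpa using this
  rw [← VV_1113]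
  refine lower_abbb r hr M hM (fun t => 3 * t + ε * Real.sqrt (12 * t ^ 2 - q)) (fun t => t)
    _ 1 h8.le le_rfl hb ?_ ?_
  · exact (continuous_id.tendsto 1).mono_left nhdsWithin_le_nhds
  · filter_upwards [self_mem_nhdsWithin, hb.eventually (lt_mem_nhds h8)] with t ht ht2
    refine ⟨ht2, ht, ?_⟩
    have ht1 : (1 : ℝ) < t := ht
    have hs := Real.sq_sqrt (show 0 ≤ 12 * t ^ 2 - q by nlinarith)
    have hε2 : ε ^ 2 = 1 := by rcases hε with h | h <;> rw [h] <;> norm_num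
    simp only [Qk, Fin.sum_univ_four, Matrix.cons_val_zero, Matrix.cons_val_one,
      Matrix.cons_val]
    rw [← hqdef]
    linear_combination (-Real.sqrt (12 * t ^ 2 - q) ^ 2) * hε2 - hs

end lower

theorem sinh_tanh (r : ℝ) (hr : 0 < r) :
    -1 + Real.sqrt ((4 / Real.sinh r ^ 2 + 4) / 3) = 2 / (Real.sqrt 3 * Real.tanh r) - 1 := by
  have hs : 0 < Real.sinh r := Real.sinh_pos_iff.2 hr
  have hc : 0 < Real.cosh r := Real.cosh_pos r
  have h3 : 0 < Real.sqrt 3 := by positivity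
  have h33 : Real.sqrt 3 ^ 2 = 3 := Real.sq_sqrt (by norm_num)
  have hcs := Real.cosh_sq r
  have : Real.sqrt ((4 / Real.sinh r ^ 2 + 4) / 3) = 2 / (Real.sqrt 3 * Real.tanh r) := by
    have h0 : 0 < 2 / (Real.sqrt 3 * Real.tanh r) := by
      rw [Real.tanh_eq_sinh_div_cosh]; positivity
    rw [← Real.sqrt_sq h0.le]
    congr 1
    rw [Real.tanh_eq_sinh_div_cosh]
    field_simp
    rw [h33, hcs]
    ring
  rw [this]
  ring

theorem ofReal_max_le {a b : ℝ} {M : ℝ≥0∞} (ha : ENNReal.ofReal a ≤ M)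
    (hb : ENNReal.ofReal b ≤ M) : ENNReal.ofReal (max a b) ≤ M := by
  rcases le_total a b with h | h
  · rwa [max_eq_right h]
  · rwa [max_eq_left h]

/-- the value of the supremum for `sinh² r < 1/2` -/
noncomputable def supSmall (r : ℝ) : ℝ :=
  max (max (W1 (2 / (Real.sqrt 3 * Real.tanh r) - 1)) (W2 (1 / (2 * Real.sinh r ^ 2))))
    (if 1 / 3 ≤ Real.sinh r ^ 2 then W3 (3 - Real.sqrt (12 - 4 / Real.sinh r ^ 2)) else 0)

/-- the value of the supremum for `sinh² r ≥ 1/2` -/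
noncomputable def supLarge (r : ℝ) : ℝ := W3 (3 + Real.sqrt (12 - 4 / Real.sinh r ^ 2))

theorem le_small (r : ℝ) (hr : 0 < r) (h : Real.sinh r ^ 2 < 1 / 2) (k : R4)
    (hk : k ∈ DD (4 / Real.sinh r ^ 2)) (hne : k ≠ (fun _ => 1)) : VV k ≤ supSmall r := by
  unfold supSmall
  have hs : 0 < Real.sinh r := Real.sinh_pos_iff.2 hr
  have hs2 : 0 < Real.sinh r ^ 2 := by positivity
  set q := 4 / Real.sinh r ^ 2 with hqdef
  have hq8 : 8 < q := by rw [hqdef, lt_div_iff₀ hs2]; linarith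
  have e1 := sinh_tanh r hr
  rw [← hqdef] at e1
  have e2 : 1 / (2 * Real.sinh r ^ 2) = q / 8 := by rw [hqdef]; field_simp; norm_num
  have e3 : 1 / 3 ≤ Real.sinh r ^ 2 ↔ q ≤ 12 := by
    rw [hqdef, div_le_iff₀ hs2]; constructor <;> intro h <;> linarith
  rw [← e1, e2]
  refine max_le q (by linarith) _ ?_ ?_ ?_ k hk hne
  · intro x hx hQ
    rw [Qk1] at hQ
    have : x = -1 + Real.sqrt ((q + 4) / 3) := by
      have h1 : (x + 1) ^ 2 = (q + 4) / 3 := by linarith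
      rw [← h1, Real.sqrt_sq (by linarith)]
      ring
    rw [← this, val1 x hx.le]
    exact (le_max_left _ _).trans (le_max_left _ _)
  · intro x hx hQ
    rw [Qk2] at hQ
    have : x = q / 8 := by linarith
    rw [← this, val2 x hx.le]
    exact (le_max_right _ _).trans (le_max_left _ _)
  · intro x hx hQ
    rw [Qk3] at hQ
    have hq12 : q ≤ 12 := by nlinarith [sq_nonneg (x - 3)]
    have hx7 : x < 7 := by nlinarith
    rw [if_pos (e3.2 hq12)]
    refine le_trans ?_ (le_max_right _ _)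
    rw [val3 x hx.le hx7]
    have hsq : Real.sqrt (12 - q) ^ 2 = 12 - q := Real.sq_sqrt (by linarith)
    have hs0 := Real.sqrt_nonneg (12 - q)
    have hs2 : Real.sqrt (12 - q) < 2 := by
      by_contra hcon
      push Not at hcon
      nlinarith
    apply W3_anti _ _ _ _ hx7
    · linarith
    · have h1 : (3 - x) ^ 2 = 12 - q := by linarith
      have : 3 - x ≤ Real.sqrt (12 - q) := by
        rw [← h1]; exact Real.le_sqrt_of_sq_le le_rfl |>.trans' (by linarith)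
      linarith

/-- the supremum in hyperbolic space for small radii -/
theorem isLUB_small (r : ℝ) (hr : 0 < r) (h : Real.sinh r ^ 2 < 1 / 2) :
    IsLUB (hypVolumes r) (ENNReal.ofReal (supSmall r)) := by
  refine ⟨upper r hr _ (le_small r hr h), ?_⟩
  unfold supSmall
  have hs : 0 < Real.sinh r := Real.sinh_pos_iff.2 hr
  have hs2 : 0 < Real.sinh r ^ 2 := by positivity
  set q := 4 / Real.sinh r ^ 2 with hqdef
  have hq8 : 8 < q := by rw [hqdef, lt_div_iff₀ hs2]; linarith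
  have e1 := sinh_tanh r hr
  rw [← hqdef] at e1
  have e2 : 1 / (2 * Real.sinh r ^ 2) = q / 8 := by rw [hqdef]; field_simp; norm_num
  have e3 : 1 / 3 ≤ Real.sinh r ^ 2 ↔ q ≤ 12 := by
    rw [hqdef, div_le_iff₀ hs2]; constructor <;> intro h <;> linarith
  have hx1 : 1 < -1 + Real.sqrt ((q + 4) / 3) := by
    have : (2 : ℝ) < Real.sqrt ((q + 4) / 3) := by
      apply Real.lt_sqrt_of_sq_lt; linarith
    linarith
  rw [← e1, e2]
  intro M hM
  have l1 := lower1 r hr M hM hq8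
  have l2 := lower2 r hr M hM hq8
  rw [← hqdef] at l1 l2
  rw [val1 _ hx1.le] at l1
  rw [val2 _ (by linarith)] at l2
  refine ofReal_max_le (ofReal_max_le l1 l2) ?_
  split_ifs with h12
  · have hq12 : q ≤ 12 := e3.1 h12
    have hsq : Real.sqrt (12 - q) ^ 2 = 12 - q := Real.sq_sqrt (by linarith)
    have hs0 := Real.sqrt_nonneg (12 - q)
    have hs2 : Real.sqrt (12 - q) < 2 := by
      by_contra hcon
      push Not at hcon
      nlinarith
    have h8 : 1 < 3 + (-1) * Real.sqrt (12 - q) := by linarith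
    have l3 := lower3 r hr M hM (-1) (Or.inr rfl) hq12 h8
    rw [← hqdef, val3 _ h8.le (by linarith)] at l3
    rw [show 3 - Real.sqrt (12 - q) = 3 + (-1) * Real.sqrt (12 - q) by ring]
    exact l3
  · simp

theorem le_large (r : ℝ) (hr : 0 < r) (h : 1 / 2 ≤ Real.sinh r ^ 2) (k : R4)
    (hk : k ∈ DD (4 / Real.sinh r ^ 2)) (hne : k ≠ (fun _ => 1)) : VV k ≤ supLarge r := by
  unfold supLarge
  have hs : 0 < Real.sinh r := Real.sinh_pos_iff.2 hr
  have hs2 : 0 < Real.sinh r ^ 2 := by positivity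
  set q := 4 / Real.sinh r ^ 2 with hqdef
  have hq0 : 0 < q := by positivity
  have hq8 : q ≤ 8 := by rw [hqdef, div_le_iff₀ hs2]; linarith
  refine max_le q hq0 _ ?_ ?_ ?_ k hk hne
  · intro x hx hQ
    rw [Qk1] at hQ
    nlinarith
  · intro x hx hQ
    rw [Qk2] at hQ
    linarith
  · intro x hx hQ
    rw [Qk3] at hQ
    have hx5 : 5 ≤ x := by nlinarith
    have hx7 : x < 7 := by nlinarith
    have hxe : x = 3 + Real.sqrt (12 - q) := by
      have h1 : (x - 3) ^ 2 = 12 - q := by linarith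
      rw [← h1, Real.sqrt_sq (by linarith)]
      ring
    rw [← hxe, val3 x hx.le hx7]

/-- the supremum in hyperbolic space for the other radii -/
theorem isLUB_large (r : ℝ) (hr : 0 < r) (h : 1 / 2 ≤ Real.sinh r ^ 2) :
    IsLUB (hypVolumes r) (ENNReal.ofReal (supLarge r)) := by
  refine ⟨upper r hr _ (le_large r hr h), ?_⟩
  unfold supLarge
  have hs : 0 < Real.sinh r := Real.sinh_pos_iff.2 hr
  have hs2 : 0 < Real.sinh r ^ 2 := by positivity
  set q := 4 / Real.sinh r ^ 2 with hqdef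
  have hq0 : 0 < q := by positivity
  have hq8 : q ≤ 8 := by rw [hqdef, div_le_iff₀ hs2]; linarith
  have hsq : Real.sqrt (12 - q) ^ 2 = 12 - q := Real.sq_sqrt (by linarith)
  have hs0 := Real.sqrt_nonneg (12 - q)
  have hslt : Real.sqrt (12 - q) < 4 := by
    by_contra hcon
    push Not at hcon
    nlinarith
  intro M hM
  have h8 : 1 < 3 + 1 * Real.sqrt (12 - q) := by linarith
  have l3 := lower3 r hr M hM 1 (Or.inl rfl) (by linarith : q ≤ 12) h8
  rw [← hqdef, val3 _ h8.le (by linarith), one_mul] at l3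
  exact l3

/-- an interior point is not a maximum -/
theorem int_lt (q : ℝ) (hq : 0 < q) (B : ℝ)
    (hB : ∀ k ∈ DD q, k ≠ (fun _ => 1) → VV k ≤ B) (k : R4) (hk : ∀ i, 1 < k i)
    (hQ : Qk k = q) : VV k < B := by
  have hkD : k ∈ DD q := ⟨fun i => (hk i).le, hQ⟩
  have hne : ∀ k : R4, (∀ i, 1 < k i) → k ≠ (fun _ => 1) := by
    intro k hk h
    have := hk 0
    rw [h] at this
    exact absurd this (lt_irrefl _)
  refine lt_of_le_of_ne (hB k hkD (hne k hk)) fun heq => ?_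
  apply int_not_max q hq k hk hQ
  have hev : ∀ᶠ x in 𝓝[DD q] k, ∀ i, 1 < x i := by
    apply mem_nhdsWithin_of_mem_nhds
    have : IsOpen {x : R4 | ∀ i, 1 < x i} := by
      have e : {x : R4 | ∀ i, 1 < x i} = ⋂ i, {x : R4 | 1 < x i} := by ext; simp
      rw [e]
      exact isOpen_iInter_of_finite fun i => isOpen_lt continuous_const (continuous_apply i)
    exact this.mem_nhds hk
  filter_upwards [hev, self_mem_nhdsWithin] with x hx hxD
  rw [heq]
  exact hB x hxD (hne x hx)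

/-- the supremum is not attained -/
theorem not_attained (r : ℝ) (hr : 0 < r) (B : ℝ)
    (hB : ∀ k ∈ DD (4 / Real.sinh r ^ 2), k ≠ (fun _ => 1) → VV k ≤ B)
    (v : Fin 4 → E3) (hv : HypMidscribed r v) : hypVol v < ENNReal.ofReal B := by
  obtain ⟨k, hk, hQ, hG⟩ := geoA r hr v hv
  have hs : 0 < Real.sinh r := Real.sinh_pos_iff.2 hr
  have hq : 0 < Qk k := by rw [hQ]; positivity
  rw [geoV r hr v hv.inside hv.indep k hk hq hG]
  have hVpos : 0 < VV k := by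
    unfold VV
    exact mul_pos (Real.sqrt_pos.2 (by linarith)) (Phi_pos k fun i => (hk i).le)
  have hlt := int_lt _ (by positivity : 0 < 4 / Real.sinh r ^ 2) B hB k hk hQ
  exact (ENNReal.ofReal_lt_ofReal_iff (hVpos.trans hlt)).2 hlt

end Pool.Agent.MidT
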