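import Pool.Agent.MidT.Diff

/-!
# MidT: definitions for the integration by parts on the orthants

`G_{ij} = k_i k_j + 1 - 2 δ_{ij}`, `qf k y = ∑ G_{ij} y_i y_j`, `∂_c (qf k y / 2) = ∑_j G_{cj} y_j`.
-/

set_option autoImplicit false

namespace Pool.Agent.MidT

open MeasureTheory

/-- the entries of the Gram form -/
noncomputable def Gm (k : R4) (i j : Fin 4) : ℝ := k i * k j + 1 - if i = j then 2 else 0

/-- first moments of the facets -/
noncomputable def Bf (k : R4) (c i : Fin 4) : ℝ :=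
  ∫ z in Orth 3, (Fin.insertNth c (0 : ℝ) z : R4) i *
    Real.exp (-(qf k (Fin.insertNth c (0 : ℝ) z)) / 2)

/-- the integrals over the edges -/
noncomputable def Af (k : R4) (c : Fin 4) (l' : Fin 3) : ℝ :=
  ∫ w in Orth 2, Real.exp (-(qf k (Fin.insertNth c (0 : ℝ) (Fin.insertNth l' (0 : ℝ) w))) / 2)

end Pool.Agent.MidT
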