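import Pool.Agent.MidT.Ibp

/-!
# MidT module IBP3: integration by parts on the facets

`ibp3`: for `c` and `l = c.succAbove l'`: `∑_j G_{lj} Bf k c j =` integral of `exp (- qf k y / 2)` over `y_c = y_l = 0`.
PROOF.  `Bf k c j` for `j = c` is `0`; for `j = c.succAbove j'`: `∫_{z ∈ Orth 3} z_{j'} e^{-qf/2}`, so the left side is
`∫_{z ∈ Orth 3} (∂_{l'} (qf (insertNth c 0 z)/2)) e^{-qf/2} dz`.  Write `z = insertNth l' x w` (`volume_preserving_piFinSuccAbove`, Fubini; integrable because
`qf k (insertNth c 0 z) ≥ δ ∑ z_i²`, `qf_ge_sq`).  The inner integral over `x` is `e^{-qf/2}` at `x = 0` (`integral_Ioi_of_hasDerivAt_of_tendsto`).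
-/

set_option autoImplicit false

namespace Pool.Agent.MidT

open MeasureTheory

namespace Ibp3Aux

theorem exists_delta (k : R4) (hk : ∀ i, 1 < k i) : ∃ δ : ℝ, 0 < δ ∧ ∀ i, 1 + δ ≤ k i := by
  obtain ⟨i0, hi0⟩ := Finite.exists_min k
  exact ⟨k i0 - 1, by linarith [hk i0], fun i => by linarith [hi0 i]⟩

theorem measurableSet_Orth (n : ℕ) : MeasurableSet (Orth n) := by
  have : Orth n = ⋂ i, {y : Fin n → ℝ | 0 < y i} := by
    ext y
    simp [Orth]
  rw [this]
  exact MeasurableSet.iInter fun i => measurableSet_lt measurable_const (measurable_pi_apply i)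

/-- integration by parts in one coordinate of an orthant -/
theorem ibp_orth {n : ℕ} (l : Fin (n + 1)) (F F' : (Fin (n + 1) → ℝ) → ℝ)
    (hd : ∀ w : Fin n → ℝ, ∀ x : ℝ, HasDerivAt (fun x => F (Fin.insertNth l x w))
      (F' (Fin.insertNth l x w)) x)
    (hi : IntegrableOn F' (Orth (n + 1)))
    (ht : ∀ w ∈ Orth n, Filter.Tendsto (fun x => F (Fin.insertNth l x w)) Filter.atTop
      (nhds 0)) :
    ∫ z in Orth (n + 1), F' z = - ∫ w in Orth n, F (Fin.insertNth l (0 : ℝ) w) := by
  set e := (MeasurableEquiv.piFinSuccAbove (fun _ : Fin (n + 1) => ℝ) l).symm with he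
  have hmp : MeasurePreserving e (volume.prod volume) volume :=
    (volume_preserving_piFinSuccAbove (fun _ : Fin (n + 1) => ℝ) l).symm
  have hee : ∀ q : ℝ × (Fin n → ℝ), e q = Fin.insertNth l q.1 q.2 := fun q => rfl
  have hpre : e ⁻¹' (Orth (n + 1)) = Set.Ioi (0 : ℝ) ×ˢ Orth n := by
    ext q
    simp only [Set.mem_preimage, hee, Orth, Set.mem_ofPred_eq, Set.mem_prod, Set.mem_Ioi]
    rw [Fin.forall_iff_succAbove l]
    simp
  have h1 : ∫ z in Orth (n + 1), F' z = ∫ q in Set.Ioi (0 : ℝ) ×ˢ Orth n, F' (e q)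
      ∂(volume.prod volume) := by
    rw [← hpre]
    exact (hmp.setIntegral_preimage_emb e.measurableEmbedding F' (Orth (n + 1))).symm
  have h2 : IntegrableOn (fun q => F' (e q)) (Set.Ioi (0 : ℝ) ×ˢ Orth n)
      (volume.prod volume) := by
    rw [← hpre]
    exact (hmp.integrableOn_comp_preimage e.measurableEmbedding).2 hi
  have h3 : Integrable (fun q : ℝ × (Fin n → ℝ) => F' (e q))
      ((volume.restrict (Set.Ioi (0 : ℝ))).prod (volume.restrict (Orth n))) := by
    rw [Measure.prod_restrict]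
    exact h2
  rw [h1, ← Measure.prod_restrict, integral_prod_symm _ h3, ← integral_neg]
  refine integral_congr_ae ?_
  filter_upwards [h3.prod_left_ae, ae_restrict_mem (measurableSet_Orth n)] with w hw1 hw2
  have h4 : ∀ x : ℝ, HasDerivAt (fun x => F (Fin.insertNth l x w))
    (F' (Fin.insertNth l x w)) x := hd w
  have := integral_Ioi_of_hasDerivAt_of_tendsto (a := 0) (m := 0)
    (f := fun x => F (Fin.insertNth l x w)) (f' := fun x => F' (Fin.insertNth l x w))
    (h4 0).continuousAt.continuousWithinAt (fun x _ => h4 x) hw1 (ht w hw2)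
  simp only [hee]
  rw [this, zero_sub]

theorem int_gauss (δ : ℝ) (hδ : 0 < δ) : Integrable (fun x : ℝ => Real.exp (-(δ * x ^ 2) / 2)) := by
  have := integrable_exp_neg_mul_sq (b := δ / 2) (by linarith)
  refine this.congr (Filter.Eventually.of_forall fun x => ?_)
  show Real.exp (-(δ / 2) * x ^ 2) = _
  congr 1
  ring

theorem int_gauss1 (δ : ℝ) (hδ : 0 < δ) :
    Integrable (fun x : ℝ => |x| * Real.exp (-(δ * x ^ 2) / 2)) := by
  have := (integrable_mul_exp_neg_mul_sq (b := δ / 2) (by linarith)).norm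
  refine this.congr (Filter.Eventually.of_forall fun x => ?_)
  show ‖x * Real.exp (-(δ / 2) * x ^ 2)‖ = _
  rw [norm_mul, Real.norm_eq_abs, Real.norm_eq_abs, Real.abs_exp]
  congr 2
  ring

/-- first absolute moments of the standard product Gaussian -/
theorem int_prod {n : ℕ} (δ : ℝ) (hδ : 0 < δ) (j : Fin n) :
    Integrable (fun z : Fin n → ℝ => |z j| * Real.exp (-(δ * ∑ i, z i ^ 2) / 2)) := by
  have h1 : Integrable (fun z : Fin n → ℝ => ∏ i, ((if i = j then (fun x : ℝ =>
      |x| * Real.exp (-(δ * x ^ 2) / 2)) else (fun x : ℝ => Real.exp (-(δ * x ^ 2) / 2))) (z i))) := by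
    refine Integrable.fintype_prod (f := fun i => if i = j then (fun x : ℝ =>
      |x| * Real.exp (-(δ * x ^ 2) / 2)) else (fun x : ℝ => Real.exp (-(δ * x ^ 2) / 2))) ?_
    intro i
    by_cases hij : i = j
    · simp only [hij, if_true]
      exact int_gauss1 δ hδ
    · simp only [hij, if_false]
      exact int_gauss δ hδ
  refine h1.congr (Filter.Eventually.of_forall fun z => ?_)
  have h2 : ∀ i, ((if i = j then (fun x : ℝ =>
      |x| * Real.exp (-(δ * x ^ 2) / 2)) else (fun x : ℝ => Real.exp (-(δ * x ^ 2) / 2))) (z i))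
      = (if i = j then |z i| else 1) * Real.exp (-(δ * z i ^ 2) / 2) := by
    intro i
    by_cases hij : i = j
    · simp [hij]
    · simp [hij]
  show ∏ i, _ = _
  simp only [h2]
  rw [Finset.prod_mul_distrib, Finset.prod_ite_eq' Finset.univ j, ← Real.exp_sum]
  simp only [Finset.mem_univ, if_true]
  congr 2
  rw [Finset.mul_sum, ← Finset.sum_neg_distrib, Finset.sum_div]

end Ibp3Aux

open Ibp3Aux

theorem ibp3 (k : R4) (hk : ∀ i, 1 < k i) (c : Fin 4) (l' : Fin 3) :
    ∑ j, Gm k (c.succAbove l') j * Bf k c j = Af k c l' := by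
  obtain ⟨δ, hδ, hδk⟩ := exists_delta k hk
  -- the facet
  have hsum : ∀ z : Fin 3 → ℝ, ∑ i, (Fin.insertNth c (0 : ℝ) z : R4) i ^ 2 = ∑ i, z i ^ 2 := by
    intro z
    rw [Fin.sum_univ_succAbove _ c]
    simp
  have hq : ∀ z : Fin 3 → ℝ, (∀ i, 0 ≤ z i) →
      δ * ∑ i, z i ^ 2 ≤ qf k (Fin.insertNth c (0 : ℝ) z) := by
    intro z hz
    rw [← hsum]
    refine qf_ge_sq k _ δ hδ.le hδk ?_
    intro i
    rcases Fin.eq_self_or_eq_succAbove c i with rfl | ⟨j, rfl⟩
    · simp
    · simpa using hz j
  have hcont : Continuous fun z : Fin 3 → ℝ => (Fin.insertNth c (0 : ℝ) z : R4) := by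
    refine continuous_pi fun i => ?_
    rcases Fin.eq_self_or_eq_succAbove c i with rfl | ⟨j, rfl⟩
    · simpa using continuous_const
    · simpa using continuous_apply j
  have hqc : Continuous (qf k) := by
    unfold qf
    fun_prop
  have hI : ∀ j : Fin 4, IntegrableOn (fun z : Fin 3 → ℝ => (Fin.insertNth c (0 : ℝ) z : R4) j *
      Real.exp (-(qf k (Fin.insertNth c (0 : ℝ) z)) / 2)) (Orth 3) := by
    intro j
    rcases Fin.eq_self_or_eq_succAbove c j with rfl | ⟨j, rfl⟩
    · simp
    · simp only [Fin.insertNth_apply_succAbove]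
      refine Integrable.mono' (int_prod (n := 3) δ hδ j).integrableOn ?_ ?_
      · refine Continuous.aestronglyMeasurable ?_
        exact (continuous_apply j).mul (Real.continuous_exp.comp
          ((hqc.comp hcont).neg.div_const 2))
      · filter_upwards [ae_restrict_mem (measurableSet_Orth 3)] with z hz
        rw [norm_mul, Real.norm_eq_abs, Real.norm_eq_abs, Real.abs_exp]
        refine mul_le_mul_of_nonneg_left (Real.exp_le_exp.2 ?_) (abs_nonneg _)
        have := hq z (fun i => (hz i).le)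
        linarith
  -- the derivative
  have hy : ∀ w : Fin 2 → ℝ, ∀ x : ℝ, ∀ i : Fin 4, HasDerivAt (fun x : ℝ =>
      (Fin.insertNth c (0 : ℝ) (Fin.insertNth l' x w : Fin 3 → ℝ) : R4) i)
      (if i = c.succAbove l' then 1 else 0) x := by
    intro w x i
    rcases Fin.eq_self_or_eq_succAbove c i with rfl | ⟨j, rfl⟩
    · rw [if_neg (Fin.succAbove_ne i l').symm]
      simp only [Fin.insertNth_apply_same]
      exact hasDerivAt_const x (0 : ℝ)
    · simp only [Fin.insertNth_apply_succAbove]
      rcases Fin.eq_self_or_eq_succAbove l' j with rfl | ⟨m, rfl⟩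
      · rw [if_pos rfl]
        simp only [Fin.insertNth_apply_same]
        exact hasDerivAt_id x
      · rw [if_neg (fun h => Fin.succAbove_ne l' m (Fin.succAbove_right_injective h))]
        simp only [Fin.insertNth_apply_succAbove]
        exact hasDerivAt_const x (w m)
  have hd : ∀ w : Fin 2 → ℝ, ∀ x : ℝ, HasDerivAt (fun x : ℝ =>
      Real.exp (-(qf k (Fin.insertNth c (0 : ℝ) (Fin.insertNth l' x w : Fin 3 → ℝ))) / 2))
      (-(∑ j, Gm k (c.succAbove l') j * ((Fin.insertNth c (0 : ℝ)
        (Fin.insertNth l' x w : Fin 3 → ℝ) : R4) j *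
        Real.exp (-(qf k (Fin.insertNth c (0 : ℝ) (Fin.insertNth l' x w : Fin 3 → ℝ))) / 2)))) x := by
    intro w x
    obtain ⟨Y, hY⟩ : ∃ Y : ℝ → R4, Y = fun x => Fin.insertNth c (0 : ℝ)
      (Fin.insertNth l' x w : Fin 3 → ℝ) := ⟨_, rfl⟩
    have hy' : ∀ i, HasDerivAt (fun x => Y x i) (if i = c.succAbove l' then 1 else 0) x := by
      intro i
      rw [hY]
      exact hy w x i
    have h1 : HasDerivAt (fun x => ∑ i, k i * Y x i)
        (∑ i, k i * (if i = c.succAbove l' then 1 else 0)) x :=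
      HasDerivAt.fun_sum fun i _ => (hy' i).const_mul (k i)
    have h2 : HasDerivAt (fun x => ∑ i, Y x i)
        (∑ i, (if i = c.succAbove l' then (1 : ℝ) else 0)) x :=
      HasDerivAt.fun_sum fun i _ => hy' i
    have h3 : HasDerivAt (fun x => ∑ i, Y x i ^ 2)
        (∑ i, (2 * Y x i * (if i = c.succAbove l' then (1 : ℝ) else 0))) x := by
      refine HasDerivAt.fun_sum fun i _ => ?_
      have := (hy' i).fun_pow 2
      simpa using this
    have e1 : ∑ i, k i * (if i = c.succAbove l' then (1 : ℝ) else 0) = k (c.succAbove l') := by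
      simp
    have e2 : ∑ i, (if i = c.succAbove l' then (1 : ℝ) else 0) = 1 := by simp
    have e3 : ∑ i, (2 * Y x i * (if i = c.succAbove l' then (1 : ℝ) else 0))
        = 2 * Y x (c.succAbove l') := by simp
    rw [e1] at h1
    rw [e2] at h2
    rw [e3] at h3
    have h4 : HasDerivAt (fun x => qf k (Y x)) (2 * (∑ i, k i * Y x i) * k (c.succAbove l')
        + 2 * (∑ i, Y x i) * 1 - 2 * (2 * Y x (c.succAbove l'))) x := by
      have h5 := ((h1.pow 2).add (h2.pow 2)).sub (h3.const_mul 2)
      refine h5.congr_deriv ?_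
      simp
    have h6 := (h4.fun_neg.div_const 2).exp
    have h7 : ∑ j, Gm k (c.succAbove l') j * (Y x j * Real.exp (-(qf k (Y x)) / 2))
        = (k (c.succAbove l') * (∑ i, k i * Y x i) + (∑ i, Y x i) - 2 * Y x (c.succAbove l')) *
          Real.exp (-(qf k (Y x)) / 2) := by
      have h8 : ∀ j, Gm k (c.succAbove l') j * (Y x j * Real.exp (-(qf k (Y x)) / 2)) =
          (k (c.succAbove l') * (k j * Y x j) + Y x j
            - (if j = c.succAbove l' then 2 * Y x j else 0)) * Real.exp (-(qf k (Y x)) / 2) := by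
        intro j
        unfold Gm
        by_cases hj : j = c.succAbove l'
        · subst hj
          simp only [if_true]
          ring
        · rw [if_neg (fun h => hj h.symm), if_neg hj]
          ring
      simp only [h8]
      rw [← Finset.sum_mul, Finset.sum_sub_distrib, Finset.sum_add_distrib, ← Finset.mul_sum,
        Finset.sum_ite_eq' Finset.univ (c.succAbove l')]
      simp
    have h9 : HasDerivAt (fun x => Real.exp (-(qf k (Y x)) / 2))
        (-(∑ j, Gm k (c.succAbove l') j * (Y x j * Real.exp (-(qf k (Y x)) / 2)))) x := by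
      rw [h7]
      refine h6.congr_deriv ?_
      ring
    rw [hY] at h9
    exact h9
  have hIF : IntegrableOn (fun z : Fin 3 → ℝ => ∑ j, Gm k (c.succAbove l') j *
      ((Fin.insertNth c (0 : ℝ) z : R4) j *
        Real.exp (-(qf k (Fin.insertNth c (0 : ℝ) z)) / 2))) (Orth 3) := by
    refine integrable_finsetSum _ fun j _ => ?_
    exact (hI j).const_mul _
  have key := ibp_orth l' (fun z => Real.exp (-(qf k (Fin.insertNth c (0 : ℝ) z)) / 2))
    (fun z => -(∑ j, Gm k (c.succAbove l') j * ((Fin.insertNth c (0 : ℝ) z : R4) j *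
        Real.exp (-(qf k (Fin.insertNth c (0 : ℝ) z)) / 2)))) hd hIF.neg ?_
  · unfold Af Bf
    rw [integral_neg, neg_inj] at key
    rw [← key, integral_finsetSum _ (fun j _ => (hI j).const_mul _)]
    refine Finset.sum_congr rfl fun j _ => ?_
    rw [integral_const_mul]
  · intro w hw
    have hb : ∀ᶠ x in Filter.atTop, Real.exp (-(qf k (Fin.insertNth c (0 : ℝ)
        (Fin.insertNth l' x w : Fin 3 → ℝ))) / 2) ≤ Real.exp (-(δ * x ^ 2) / 2) := by
      filter_upwards [Filter.eventually_ge_atTop (0 : ℝ)] with x hx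
      refine Real.exp_le_exp.2 ?_
      have h1 := hq (Fin.insertNth l' x w) (fun i => by
        rcases Fin.eq_self_or_eq_succAbove l' i with rfl | ⟨m, rfl⟩
        · simpa using hx
        · simpa using (hw m).le)
      have h2 : x ^ 2 ≤ ∑ i, (Fin.insertNth l' x w : Fin 3 → ℝ) i ^ 2 := by
        have := Finset.single_le_sum (f := fun i => (Fin.insertNth l' x w : Fin 3 → ℝ) i ^ 2)
          (fun i _ => sq_nonneg _) (Finset.mem_univ l')
        simpa using this
      have h3 := mul_le_mul_of_nonneg_left h2 hδ.le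
      linarith
    refine squeeze_zero' (Filter.Eventually.of_forall fun x => (Real.exp_pos _).le) hb ?_
    refine Real.tendsto_exp_atBot.comp ?_
    have h4 : Filter.Tendsto (fun x : ℝ => (δ / 2) * x ^ 2) Filter.atTop Filter.atTop :=
      (Filter.tendsto_pow_atTop (by norm_num)).const_mul_atTop (by linarith)
    have h5 := Filter.tendsto_neg_atTop_atBot.comp h4
    refine h5.congr fun x => ?_
    show -((δ / 2) * x ^ 2) = -(δ * x ^ 2) / 2
    ring

end Pool.Agent.MidT
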