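import Pool.Agent.MidT.Ibp
import Pool.Agent.MidT.Ibp3

/-!
# MidT module IBP4: integration by parts on the orthant of `ℝ⁴`

`ibp4`: for all `c, i`: `∑_j G_{cj} Mm k i j = δ_{ic} Phi k + Bf k c i`, where `Bf k c i` is the integral of
`y_i exp (- qf k y / 2)` over the face `y_c = 0` of the orthant (it is `0` for `i = c`).
PROOF.  Write `y = insertNth c x z` (`volume_preserving_piFinSuccAbove`, Fubini `integral_prod`; everything is integrable
since `k_i > 1`: `integrable_mul`, `integrable_exp`).  For fixed `z > 0`: if `i ≠ c`, `∫_0^∞ y_i (∂_c qf/2) e^{-qf/2} dx = y_i e^{-qf/2} |_{x = 0}`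
(`integral_Ioi_of_hasDerivAt_of_tendsto`); if `i = c`, `∫_0^∞ x (∂_c qf/2) e^{-qf/2} dx = ∫_0^∞ e^{-qf/2} dx`
(derivative of `-x e^{-qf/2}`).
-/

set_option autoImplicit false

namespace Pool.Agent.MidT

open MeasureTheory

namespace Ibp4Aux

theorem tendsto_aux (a b δ : ℝ) (hδ : 0 < δ) :
    Filter.Tendsto (fun x : ℝ => (a * x + b) * Real.exp (-(δ * x ^ 2) / 2)) Filter.atTop
      (nhds 0) := by
  have h1 : Filter.Tendsto (fun x : ℝ => (1 / x) + (1 / x ^ 2)) Filter.atTop (nhds 0) := by
    have h2 : Filter.Tendsto (fun x : ℝ => 1 / x) Filter.atTop (nhds 0) := by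
      simpa using tendsto_inv_atTop_zero (𝕜 := ℝ)
    have h3 : Filter.Tendsto (fun x : ℝ => 1 / x ^ 2) Filter.atTop (nhds 0) := by
      have := (h2.mul h2)
      rw [mul_zero] at this
      refine this.congr fun x => ?_
      ring
    simpa using h2.add h3
  have h4 : Filter.Tendsto (fun x : ℝ => (2 / δ) * (|a| + |b|) * ((1 / x) + (1 / x ^ 2)))
      Filter.atTop (nhds 0) := by
    simpa using h1.const_mul ((2 / δ) * (|a| + |b|))
  refine squeeze_zero_norm' ?_ h4
  filter_upwards [Filter.eventually_gt_atTop (0 : ℝ)] with x hx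
  rw [Real.norm_eq_abs, abs_mul, Real.abs_exp]
  have h5 : |a * x + b| ≤ (|a| + |b|) * (x + 1) := by
    calc |a * x + b| ≤ |a * x| + |b| := abs_add_le _ _
      _ = |a| * x + |b| := by rw [abs_mul, abs_of_pos hx]
      _ ≤ (|a| + |b|) * (x + 1) := by
          have := mul_nonneg (abs_nonneg b) hx.le
          have := abs_nonneg a
          nlinarith
  have h6 : Real.exp (-(δ * x ^ 2) / 2) ≤ 2 / (δ * x ^ 2) := by
    have h7 : δ * x ^ 2 / 2 ≤ Real.exp (δ * x ^ 2 / 2) := by
      have := Real.add_one_le_exp (δ * x ^ 2 / 2)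
      linarith
    have h8 : 0 < δ * x ^ 2 := by positivity
    rw [show -(δ * x ^ 2) / 2 = -(δ * x ^ 2 / 2) by ring, Real.exp_neg,
      inv_eq_one_div, div_le_div_iff₀ (Real.exp_pos _) h8]
    linarith
  calc |a * x + b| * Real.exp (-(δ * x ^ 2) / 2) ≤ ((|a| + |b|) * (x + 1)) * (2 / (δ * x ^ 2)) := by
        gcongr
    _ = (2 / δ) * (|a| + |b|) * ((1 / x) + (1 / x ^ 2)) := by
        field_simp

end Ibp4Aux

open Ibp3Aux Ibp4Aux

theorem ibp4 (k : R4) (hk : ∀ i, 1 < k i) (c i : Fin 4) :
    ∑ j, Gm k c j * Mm k i j = (if i = c then Phi k else 0) + Bf k c i := by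
  obtain ⟨δ, hδ, hδk⟩ := exists_delta k hk
  have hI : ∀ j : Fin 4, IntegrableOn (fun y : R4 => y i * y j * Real.exp (-(qf k y) / 2))
      (Orth 4) := fun j => integrable_mul k hk i j
  have hE : IntegrableOn (fun y : R4 => Real.exp (-(qf k y) / 2)) (Orth 4) :=
    integrable_exp k fun i => (hk i).le
  -- the derivative
  have hy : ∀ w : Fin 3 → ℝ, ∀ x : ℝ, ∀ m : Fin 4, HasDerivAt (fun x : ℝ =>
      (Fin.insertNth c x w : R4) m) (if m = c then 1 else 0) x := by
    intro w x m
    rcases Fin.eq_self_or_eq_succAbove c m with rfl | ⟨j, rfl⟩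
    · rw [if_pos rfl]
      simp only [Fin.insertNth_apply_same]
      exact hasDerivAt_id x
    · rw [if_neg (Fin.succAbove_ne c j)]
      simp only [Fin.insertNth_apply_succAbove]
      exact hasDerivAt_const x (w j)
  have hd : ∀ w : Fin 3 → ℝ, ∀ x : ℝ, HasDerivAt (fun x : ℝ =>
      (Fin.insertNth c x w : R4) i * Real.exp (-(qf k (Fin.insertNth c x w)) / 2))
      ((if i = c then 1 else 0) * Real.exp (-(qf k (Fin.insertNth c x w)) / 2) -
        ∑ j, Gm k c j * ((Fin.insertNth c x w : R4) i * (Fin.insertNth c x w : R4) j *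
        Real.exp (-(qf k (Fin.insertNth c x w)) / 2))) x := by
    intro w x
    obtain ⟨Y, hY⟩ : ∃ Y : ℝ → R4, Y = fun x => (Fin.insertNth c x w : R4) := ⟨_, rfl⟩
    have hy' : ∀ m, HasDerivAt (fun x => Y x m) (if m = c then 1 else 0) x := by
      intro m
      rw [hY]
      exact hy w x m
    have h1 : HasDerivAt (fun x => ∑ m, k m * Y x m)
        (∑ m, k m * (if m = c then 1 else 0)) x :=
      HasDerivAt.fun_sum fun m _ => (hy' m).const_mul (k m)
    have h2 : HasDerivAt (fun x => ∑ m, Y x m)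
        (∑ m, (if m = c then (1 : ℝ) else 0)) x :=
      HasDerivAt.fun_sum fun m _ => hy' m
    have h3 : HasDerivAt (fun x => ∑ m, Y x m ^ 2)
        (∑ m, (2 * Y x m * (if m = c then (1 : ℝ) else 0))) x := by
      refine HasDerivAt.fun_sum fun m _ => ?_
      have := (hy' m).fun_pow 2
      simpa using this
    have e1 : ∑ m, k m * (if m = c then (1 : ℝ) else 0) = k c := by
      simp
    have e2 : ∑ m, (if m = c then (1 : ℝ) else 0) = 1 := by simp
    have e3 : ∑ m, (2 * Y x m * (if m = c then (1 : ℝ) else 0))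
        = 2 * Y x c := by simp
    rw [e1] at h1
    rw [e2] at h2
    rw [e3] at h3
    have h4 : HasDerivAt (fun x => qf k (Y x)) (2 * (∑ m, k m * Y x m) * k c
        + 2 * (∑ m, Y x m) * 1 - 2 * (2 * Y x c)) x := by
      have h5 := ((h1.pow 2).add (h2.pow 2)).sub (h3.const_mul 2)
      refine h5.congr_deriv ?_
      simp
    have h6 := (hy' i).mul (h4.fun_neg.div_const 2).exp
    have h7 : ∑ j, Gm k c j * (Y x i * Y x j * Real.exp (-(qf k (Y x)) / 2))
        = Y x i * ((k c * (∑ m, k m * Y x m) + (∑ m, Y x m) - 2 * Y x c) *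
          Real.exp (-(qf k (Y x)) / 2)) := by
      have h8 : ∀ j, Gm k c j * (Y x i * Y x j * Real.exp (-(qf k (Y x)) / 2)) =
          (k c * (k j * Y x j) + Y x j
            - (if j = c then 2 * Y x j else 0)) * (Y x i * Real.exp (-(qf k (Y x)) / 2)) := by
        intro j
        unfold Gm
        by_cases hj : j = c
        · subst hj
          simp only [if_true]
          ring
        · rw [if_neg (fun h => hj h.symm), if_neg hj]
          ring
      simp only [h8]
      rw [← Finset.sum_mul, Finset.sum_sub_distrib, Finset.sum_add_distrib, ← Finset.mul_sum,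
        Finset.sum_ite_eq' Finset.univ c]
      simp
      ring
    have h9 : HasDerivAt (fun x => Y x i * Real.exp (-(qf k (Y x)) / 2))
        ((if i = c then 1 else 0) * Real.exp (-(qf k (Y x)) / 2) -
          ∑ j, Gm k c j * (Y x i * Y x j * Real.exp (-(qf k (Y x)) / 2))) x := by
      rw [h7]
      refine h6.congr_deriv ?_
      ring
    rw [hY] at h9
    exact h9
  have hIF : IntegrableOn (fun y : R4 => (if i = c then 1 else 0) * Real.exp (-(qf k y) / 2) -
      ∑ j, Gm k c j * (y i * y j * Real.exp (-(qf k y) / 2))) (Orth 4) := by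
    refine (hE.const_mul _).sub ?_
    refine integrable_finsetSum _ fun j _ => ?_
    exact (hI j).const_mul _
  have key := ibp_orth c (fun y => y i * Real.exp (-(qf k y) / 2))
    (fun y => (if i = c then 1 else 0) * Real.exp (-(qf k y) / 2) -
      ∑ j, Gm k c j * (y i * y j * Real.exp (-(qf k y) / 2))) hd hIF ?_
  · have h10 : ∫ y in Orth 4, ((if i = c then 1 else 0) * Real.exp (-(qf k y) / 2) -
        ∑ j, Gm k c j * (y i * y j * Real.exp (-(qf k y) / 2))) =
        (if i = c then Phi k else 0) - ∑ j, Gm k c j * Mm k i j := by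
      rw [integral_sub (hE.const_mul _) (integrable_finsetSum _ fun j _ => (hI j).const_mul _),
        integral_const_mul, integral_finsetSum _ (fun j _ => (hI j).const_mul _)]
      congr 1
      · unfold Phi
        split_ifs <;> simp
      · refine Finset.sum_congr rfl fun j _ => ?_
        rw [integral_const_mul]
        rfl
    rw [h10] at key
    have h11 : Bf k c i = ∫ w in Orth 3, (Fin.insertNth c (0 : ℝ) w : R4) i *
        Real.exp (-(qf k (Fin.insertNth c (0 : ℝ) w)) / 2) := rfl
    rw [← h11] at key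
    linarith
  · intro w hw
    have hq : ∀ x : ℝ, 0 ≤ x → δ * x ^ 2 ≤ qf k (Fin.insertNth c x w) := by
      intro x hx
      have h1 := qf_ge_sq k (Fin.insertNth c x w) δ hδ.le hδk (fun m => by
        rcases Fin.eq_self_or_eq_succAbove c m with rfl | ⟨j, rfl⟩
        · simpa using hx
        · simpa using (hw j).le)
      have h2 : x ^ 2 ≤ ∑ m, (Fin.insertNth c x w : R4) m ^ 2 := by
        have := Finset.single_le_sum (f := fun m => (Fin.insertNth c x w : R4) m ^ 2)
          (fun m _ => sq_nonneg _) (Finset.mem_univ c)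
        simpa using this
      have h3 := mul_le_mul_of_nonneg_left h2 hδ.le
      linarith
    obtain ⟨a, b, hab⟩ : ∃ a b : ℝ, ∀ x : ℝ, (Fin.insertNth c x w : R4) i = a * x + b := by
      rcases Fin.eq_self_or_eq_succAbove c i with h | ⟨j, h⟩
      · exact ⟨1, 0, fun x => by rw [h]; simp⟩
      · exact ⟨0, w j, fun x => by rw [h]; simp⟩
    refine squeeze_zero_norm' (a := fun x : ℝ => |(a * x + b) * Real.exp (-(δ * x ^ 2) / 2)|) ?_ ?_
    · filter_upwards [Filter.eventually_ge_atTop (0 : ℝ)] with x hx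
      rw [Real.norm_eq_abs, abs_mul, abs_mul, hab x, Real.abs_exp, Real.abs_exp]
      refine mul_le_mul_of_nonneg_left (Real.exp_le_exp.2 ?_) (abs_nonneg _)
      have := hq x hx
      linarith
    · simpa using (tendsto_aux a b δ hδ).abs

end Pool.Agent.MidT
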