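import Pool.Agent.MidT.CritI
import Pool.Agent.MidT.IneqA

/-!
# MidT module INTB: `(a, a, b, b)` (also the regular `a = b`) is never a local maximum

Let `a ≥ b > 1` (`q = 8 a b`).  Curve `c(t) = (a eᵗ, a eᵗ, b e⁻ᵗ, b e⁻ᵗ) ∈ DD (8ab)` (for small `|t|` the coordinates are `> 1`).
`schl`: with `A = a eᵗ`, `B = b e⁻ᵗ`, `v = (A, A, -B, -B)`, `nn v = (-2B, -2B, 2A, 2A)`, `n = (2B, 2B, 2A, 2A)`, `∑ v_i n_i = 0`,
`4 + q + n_a² = 4 (1 + 2AB + B²)`, `4 + q + n_b² = 4 (1 + 2AB + A²)`, `N_a = tau A + 2 tau B`, `N_b = 2 tau A + tau B`.  So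
`V' = √(4+q) [B N_a/(1+2AB+B²) - A N_b/(1+2AB+A²)]`, and `V' > 0` iff `B (tau A + 2 tau B)(1+2AB+A²) > A (2 tau A + tau B)(1+2AB+B²)` iff
`tau B (2B - A + 3AB²) > tau A (2A - B + 3A²B)`: `G_ineq` for `A > B`.  For `t > 0` small `A > B > 1`.  So `V ∘ c` is strictly increasing on
`[0, ε]`: contradiction to `isLocalMax_of_curve`.
-/

set_option autoImplicit false

namespace Pool.Agent.MidT

open MeasureTheory Set Filter Topology

/-- the curve -/
noncomputable def cB (a b t : ℝ) : R4 :=
  ![a * Real.exp t, a * Real.exp t, b * Real.exp (-t), b * Real.exp (-t)]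

theorem cB_hasDerivAt (a b t : ℝ) : HasDerivAt (cB a b)
    ![a * Real.exp t, a * Real.exp t, -(b * Real.exp (-t)), -(b * Real.exp (-t))] t := by
  rw [hasDerivAt_pi]
  have h1 : HasDerivAt (fun s : ℝ => a * Real.exp s) (a * Real.exp t) t :=
    (Real.hasDerivAt_exp t).const_mul a
  have h2 : HasDerivAt (fun s : ℝ => b * Real.exp (-s)) (-(b * Real.exp (-t))) t := by
    have := ((hasDerivAt_neg t).exp).const_mul b
    have e : b * (Real.exp (-t) * -1) = -(b * Real.exp (-t)) := by ring
    rw [e] at this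
    exact this
  intro i
  fin_cases i
  · simpa [cB] using h1
  · simpa [cB] using h1
  · simpa [cB] using h2
  · simpa [cB] using h2

theorem cB_Qk (a b t : ℝ) : Qk (cB a b t) = 8 * a * b := by
  have e : Real.exp t * Real.exp (-t) = 1 := by rw [← Real.exp_add]; simp
  simp only [Qk, cB, Fin.sum_univ_four]
  simp
  linear_combination (8 * a * b) * e

theorem cB_dV_pos (a b : ℝ) (hb : 1 < b) (hab : b ≤ a) (t : ℝ) (ht : 0 < t) (ht' : t < Real.log b) :
    0 < dV (fun i => tau (cB a b t i)) (cB a b t)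
      ![a * Real.exp t, a * Real.exp t, -(b * Real.exp (-t)), -(b * Real.exp (-t))] := by
  have hb0 : 0 < b := by linarith
  have ha0 : 0 < a := by linarith
  have e1 : 1 < Real.exp t := by
    have := Real.exp_lt_exp.mpr ht
    simpa using this
  have e2 : Real.exp (-t) < 1 := by
    have := Real.exp_lt_exp.mpr (show -t < 0 by linarith)
    simpa using this
  have e3 : 0 < Real.exp (-t) := Real.exp_pos _
  have hB1 : 1 < b * Real.exp (-t) := by
    have h3 : Real.exp t < b := by
      have := Real.exp_lt_exp.mpr ht'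
      rwa [Real.exp_log hb0] at this
    rw [Real.exp_neg, ← div_eq_mul_inv, one_lt_div (Real.exp_pos t)]
    exact h3
  have hAB : b * Real.exp (-t) < a * Real.exp t := by
    have h4 : b * Real.exp (-t) < b := by nlinarith
    have h5 : a < a * Real.exp t := by nlinarith
    linarith
  have hQ : 4 + Qk (cB a b t) = 4 + 8 * (a * Real.exp t) * (b * Real.exp (-t)) := by
    rw [cB_Qk]
    have e : Real.exp t * Real.exp (-t) = 1 := by rw [← Real.exp_add]; simp
    linear_combination (-8 * a * b) * e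
  set A := a * Real.exp t with hA
  set B := b * Real.exp (-t) with hB
  have hA1 : 1 < A := by linarith
  have hG := G_ineq A B hB1 hAB
  have hQpos : 0 < 4 + 8 * A * B := by positivity
  have hs : 0 < Real.sqrt (4 + 8 * A * B) := Real.sqrt_pos.mpr hQpos
  have hcB : cB a b t = ![A, A, B, B] := by simp [cB, hA, hB]
  have key : dV (fun i => tau (cB a b t i)) (cB a b t) ![A, A, -B, -B] =
      (1 / Real.sqrt (4 + 8 * A * B)) * (4 + 8 * A * B) *
        ((tau B * (2 * B - A + 3 * A * B ^ 2) - tau A * (2 * A - B + 3 * A ^ 2 * B)) /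
          ((1 + 2 * A * B + B ^ 2) * (1 + 2 * A * B + A ^ 2))) := by
    unfold dV om
    rw [hQ]
    rw [hcB]
    simp only [nn, Fin.sum_univ_four]
    have d1 : (1 + 2 * A * B + B ^ 2) ≠ 0 := by positivity
    have d2 : (1 + 2 * A * B + A ^ 2) ≠ 0 := by positivity
    simp only [Matrix.cons_val_zero, Matrix.cons_val_one, Matrix.cons_val, Matrix.head_cons]
    have f1 : 4 + 8 * A * B + (A + A + B + B - 2 * A) ^ 2 = 4 * (1 + 2 * A * B + B ^ 2) := by ring
    have f2 : 4 + 8 * A * B + (A + A + B + B - 2 * B) ^ 2 = 4 * (1 + 2 * A * B + A ^ 2) := by ring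
    rw [f1, f2]
    field_simp
    ring
  rw [key]
  have d1 : 0 < (1 + 2 * A * B + B ^ 2) := by positivity
  have d2 : 0 < (1 + 2 * A * B + A ^ 2) := by positivity
  have hnum : 0 < tau B * (2 * B - A + 3 * A * B ^ 2) - tau A * (2 * A - B + 3 * A ^ 2 * B) := by
    linarith
  positivity

theorem aabb_not_max (a b : ℝ) (hb : 1 < b) (hab : b ≤ a) (q : ℝ) (hq : q = 8 * a * b) :
    ¬ IsLocalMaxOn VV (DD q) ![a, a, b, b] := by
  intro h
  have hb0 : 0 < b := by linarith
  have ha0 : 0 < a := by linarith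
  have hlog : 0 < Real.log b := Real.log_pos hb
  have h0 : cB a b 0 = ![a, a, b, b] := by simp [cB]
  have hcont : ∀ t, ContinuousAt (cB a b) t := fun t => (cB_hasDerivAt a b t).continuousAt
  have hge : ∀ t : ℝ, |t| < Real.log b → ∀ i, 1 < cB a b t i := by
    intro t ht i
    have h3 : Real.exp (|t|) < b := by
      have := Real.exp_lt_exp.mpr ht
      rwa [Real.exp_log hb0] at this
    have h4 : Real.exp (-t) * Real.exp t = 1 := by rw [← Real.exp_add]; simp
    have h5 : Real.exp t ≤ Real.exp |t| := Real.exp_le_exp.mpr (le_abs_self t)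
    have h6 : Real.exp (-t) ≤ Real.exp |t| := Real.exp_le_exp.mpr (neg_le_abs t)
    have h7 : 0 < Real.exp t := Real.exp_pos _
    have h8 : 0 < Real.exp (-t) := Real.exp_pos _
    have hA : 1 < a * Real.exp t := by nlinarith
    have hB : 1 < b * Real.exp (-t) := by nlinarith
    fin_cases i
    · simpa [cB] using hA
    · simpa [cB] using hA
    · simpa [cB] using hB
    · simpa [cB] using hB
  have hD : ∀ᶠ s in 𝓝 (0 : ℝ), cB a b s ∈ DD q := by
    have : ∀ᶠ s in 𝓝 (0 : ℝ), |s| < Real.log b := by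
      have := Metric.ball_mem_nhds (0 : ℝ) hlog
      filter_upwards [this] with s hs
      simpa [Real.dist_eq] using hs
    filter_upwards [this] with s hs
    refine ⟨fun i => (hge s hs i).le, ?_⟩
    rw [cB_Qk, hq]
  have hmax := isLocalMax_of_curve q _ h (cB a b) 0 (hcont 0) h0 hD
  have hder : ∀ t : ℝ, |t| < Real.log b → HasDerivAt (fun s => VV (cB a b s))
      (dV (fun i => tau (cB a b t i)) (cB a b t)
        ![a * Real.exp t, a * Real.exp t, -(b * Real.exp (-t)), -(b * Real.exp (-t))]) t := by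
    intro t ht
    refine schl (cB a b) _ t (cB_hasDerivAt a b t) (hge t ht) ?_
    rw [cB_Qk]
    positivity
  have hmono : StrictMonoOn (fun s => VV (cB a b s)) (Icc 0 (Real.log b / 2)) := by
    apply strictMonoOn_of_deriv_pos (convex_Icc _ _)
    · intro t ht
      have : |t| < Real.log b := by
        rw [abs_of_nonneg ht.1]
        have := ht.2
        linarith
      exact (hder t this).continuousAt.continuousWithinAt
    · intro t ht
      rw [interior_Icc] at ht
      have h1 : |t| < Real.log b := by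
        rw [abs_of_pos ht.1]
        have := ht.2
        linarith
      rw [(hder t h1).deriv]
      exact cB_dV_pos a b hb hab t ht.1 (by have := ht.2; linarith)
  have hev : ∀ᶠ s in 𝓝[>] (0 : ℝ), VV (cB a b s) ≤ VV (cB a b 0) :=
    hmax.filter_mono nhdsWithin_le_nhds
  have hev2 : ∀ᶠ s in 𝓝[>] (0 : ℝ), s ∈ Ioo (0 : ℝ) (Real.log b / 2) :=
    Ioo_mem_nhdsGT (by linarith)
  obtain ⟨s, hs1, hs2⟩ := (hev.and hev2).exists
  have := hmono (show (0 : ℝ) ∈ Icc 0 (Real.log b / 2) from ⟨le_refl _, by linarith⟩)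
    (show s ∈ Icc 0 (Real.log b / 2) from ⟨hs2.1.le, hs2.2.le⟩) hs2.1
  simp only at this
  linarith

end Pool.Agent.MidT
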