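import Pool.Agent.MidT.CritI
import Pool.Agent.MidT.IneqA

/-!
# MidT module INTC: `(k, k, k, l)`, `l ≠ k`, both `> 1`, is never a local maximum

`q = Qk ![k,k,k,l]` (`> 0` is a hypothesis).  `crit_pair` for `c = 0, d = 3` with `e_k = 1 + k² + 2kl`, `e_l = 1 + 3k²` (`e_c = (4+q+n_c²)/4`):
`(2 tau k + tau l) l (1+3k²) = 3 tau k · k (1+k²+2kl)`, i.e. (*) `l tau l (1+3k²) = tau k (3k³ + 3k - 2l)`.
1. `l > k`: suppose `l < k`.  `h_tangent` (`x = k`, `y = l`): `l tau l > k tau k + (k-l)(k/(k²-1) - tau k) = l tau k + (k - l) k/(k²-1)`.  So by (*)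
   `tau k (3k³+3k-2l) > (1+3k²)(l tau k + (k-l)k/(k²-1))`, i.e. `3 tau k (k-l)(k²+1) > (1+3k²)(k-l) k/(k²-1)`: contradicts `tau_lt`.
2. Curve `c(a) = ((u+a)/2, (u-a)/2, k, l)`, `w = k + l`, `u = (a² + c₀)/(2w)`, `c₀ = q - w² + 2(k²+l²)` (`c(0) = (k,k,k,l)`, `u(0) = 2k`), in `DD q`
   (`Qk = 2uw + w² - 2(k²+l²) - a²`).  `v = ((u'+1)/2, (u'-1)/2, 0, 0)`, `u' = a/w`, `nn v = (-1, 1, u', u')`, `∑ v_i n_i = 0`.  With `k₁ = (u+a)/2`,
   `k₂ = (u-a)/2`, `φ x = (tau x + tau k + tau l)/(1 + kl + w x)`: `e_1 = 1 + kl + w k₂`, `e_2 = 1 + kl + w k₁`, `N_2/e_2 - N_1/e_1 = φ(k₁) - φ(k₂)`,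
   `V' = -(√(4+q)/4) [φ k₁ - φ k₂ + (a/w)(N_3/e_3 + N_4/e_4)]`, `N_3 = tau k₁ + tau k₂ + tau l`, `N_4 = tau k₁ + tau k₂ + tau k`,
   `e_3 = 1 + k₁k₂ + (k₁+k₂) l`, `e_4 = 1 + k₁k₂ + (k₁+k₂)k`.
   The bracket vanishes at `a = 0` and has there the derivative `φ'(k) + (1/w)(N_k/e_k + N_l/e_l)`, `N_k/e_k = μ k`, `N_l/e_l = μ l`,
   `μ = 3 tau k/(l (1+3k²))`: `= -1/((k²-1)e_k) - μ k w/e_k + μ = -[1/(k²-1) - μ (1 + kl)]/e_k`.
   `μ (1+kl) = 3 tau k (k + 1/l)/(1+3k²) < 3 tau k (k²+1)/(k(1+3k²)) < 1/(k²-1)` (`l > k`, `tau_lt`).  So `-bracket` has a positive derivative at `0`: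
   `not_localMax_of_deriv2`, `isLocalMax_of_curve`.
-/

set_option autoImplicit false

namespace Pool.Agent.MidT

open MeasureTheory Set Filter Topology

namespace IntCAux

theorem scal (r N z D s : ℝ) (hr : r ≠ 0) (hs : r * r = s) :
    1 / r * (N * (s * z / D)) = r * (N * z / D) := by
  have h1 : 1 / r * (N * (r * r * z / D)) = (1 / r * r) * (r * (N * z / D)) := by ring
  rw [← hs, h1, one_div_mul_cancel hr, one_mul]

theorem dV_sum (T k v : R4) (q : ℝ) (hQ : Qk k = q) (h4 : 0 < 4 + q)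
    (h0 : ∑ i, v i * nn k i = 0) : dV T k v =
      -(Real.sqrt (4 + q) * ∑ c, ((∑ j, T j) - T c) * nn v c / (4 + Qk k + nn k c ^ 2)) := by
  unfold dV om
  rw [h0, hQ, neg_mul, Finset.mul_sum, Finset.mul_sum]
  congr 1
  refine Finset.sum_congr rfl fun c _ => ?_
  rw [zero_mul, sub_zero]
  exact scal _ _ _ _ _ (Real.sqrt_pos.2 h4).ne' (Real.mul_self_sqrt h4.le)

theorem e0 (x y k l : ℝ) : 4 + Qk ![x, y, k, l] + nn ![x, y, k, l] 0 ^ 2 =
    4 * (1 + k * l + (k + l) * y) := by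
  rw [four_add]
  simp [Fin.sum_univ_four]
  ring

theorem e1 (x y k l : ℝ) : 4 + Qk ![x, y, k, l] + nn ![x, y, k, l] 1 ^ 2 =
    4 * (1 + k * l + (k + l) * x) := by
  rw [four_add]
  simp [Fin.sum_univ_four]
  ring

theorem e2 (x y k l : ℝ) : 4 + Qk ![x, y, k, l] + nn ![x, y, k, l] 2 ^ 2 =
    4 * (1 + x * y + (x + y) * l) := by
  rw [four_add]
  simp [Fin.sum_univ_four]
  ring

theorem e3 (x y k l : ℝ) : 4 + Qk ![x, y, k, l] + nn ![x, y, k, l] 3 ^ 2 =
    4 * (1 + x * y + (x + y) * k) := by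
  rw [four_add]
  simp [Fin.sum_univ_four]
  ring

theorem fin_id (r A B C D E F G H p : ℝ) :
    -(r * (A * -1 / (4 * E) + B * 1 / (4 * F) + C * p / (4 * G) + D * p / (4 * H))) =
      r / 4 * -(B / F - A / E + p * (C / G + D / H)) := by
  ring

theorem dV_curve (x y k l p q : ℝ) (T : R4) (hQ : Qk ![x, y, k, l] = q) (h4 : 0 < 4 + q)
    (hp : p * (k + l) = x - y) :
    dV T ![x, y, k, l] ![(p + 1) / 2, (p - 1) / 2, 0, 0] = Real.sqrt (4 + q) / 4 *
      -((T 0 + T 2 + T 3) / (1 + k * l + (k + l) * x) -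
        (T 1 + T 2 + T 3) / (1 + k * l + (k + l) * y) +
        p * ((T 0 + T 1 + T 3) / (1 + x * y + (x + y) * l) +
          (T 0 + T 1 + T 2) / (1 + x * y + (x + y) * k))) := by
  have h0 : ∑ i, (![(p + 1) / 2, (p - 1) / 2, 0, 0] : R4) i * nn ![x, y, k, l] i = 0 := by
    simp [nn, Fin.sum_univ_four]
    linear_combination hp
  have n0 : nn ![(p + 1) / 2, (p - 1) / 2, 0, 0] 0 = -1 := by
    simp [nn, Fin.sum_univ_four]
    ring
  have n1 : nn ![(p + 1) / 2, (p - 1) / 2, 0, 0] 1 = 1 := by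
    simp [nn, Fin.sum_univ_four]
    ring
  have n2 : nn ![(p + 1) / 2, (p - 1) / 2, 0, 0] 2 = p := by
    simp [nn, Fin.sum_univ_four]
    ring
  have n3 : nn ![(p + 1) / 2, (p - 1) / 2, 0, 0] 3 = p := by
    simp [nn, Fin.sum_univ_four]
    ring
  have t0 : T 0 + T 1 + T 2 + T 3 - T 0 = T 1 + T 2 + T 3 := by ring
  have t1 : T 0 + T 1 + T 2 + T 3 - T 1 = T 0 + T 2 + T 3 := by ring
  have t2 : T 0 + T 1 + T 2 + T 3 - T 2 = T 0 + T 1 + T 3 := by ring
  have t3 : T 0 + T 1 + T 2 + T 3 - T 3 = T 0 + T 1 + T 2 := by ring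
  rw [dV_sum T _ _ q hQ h4 h0, Fin.sum_univ_four, e0, e1, e2, e3, n0, n1, n2, n3,
    Fin.sum_univ_four, t0, t1, t2, t3]
  exact fin_id _ _ _ _ _ _ _ _ _ _

end IntCAux

open IntCAux

theorem kkkl_lt (k l : ℝ) (hk : 1 < k) (hl : 1 < l) (hne : l ≠ k)
    (h : l * tau l * (1 + 3 * k ^ 2) = tau k * (3 * k ^ 3 + 3 * k - 2 * l)) : k < l := by
  by_contra hcon
  have hlt : l < k := lt_of_le_of_ne (not_lt.1 hcon) hne
  have h1 := h_tangent k l hk hl hlt.ne'
  have h2 := tau_lt k hk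
  have hk1 : 0 < k ^ 2 - 1 := by nlinarith
  have hD : 0 < 1 + 3 * k ^ 2 := by positivity
  obtain ⟨m, hm⟩ : ∃ m, k / (k ^ 2 - 1) = m := ⟨_, rfl⟩
  have h3 : k * (3 * k ^ 2 + 1) / (k ^ 2 - 1) = m * (3 * k ^ 2 + 1) := by
    rw [← hm]
    ring
  rw [h3] at h2
  rw [hm] at h1
  have h4 := mul_lt_mul_of_pos_right h1 hD
  rw [h] at h4
  have h5 : 0 < k - l := by linarith
  have h6 := mul_lt_mul_of_pos_left h2 h5
  nlinarith

theorem kkkl_not_max (k l : ℝ) (hk : 1 < k) (hl : 1 < l) (hne : l ≠ k) (q : ℝ) (hq : 0 < q)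
    (hQ : Qk ![k, k, k, l] = q) : ¬ IsLocalMaxOn VV (DD q) ![k, k, k, l] := by
  intro h
  have hk4 : ∀ i, 1 < (![k, k, k, l] : R4) i := by
    intro i
    fin_cases i
    · exact hk
    · exact hk
    · exact hk
    · exact hl
  have hw : 0 < k + l := by linarith
  have h4 : 0 < 4 + q := by linarith
  have hsum : ∑ j, tau ((![k, k, k, l] : R4) j) = 3 * tau k + tau l := by
    rw [Fin.sum_univ_four]
    change tau k + tau k + tau k + tau l = _
    ring
  have hcrit : (2 * tau k + tau l) * l * (1 + 3 * k ^ 2) =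
      3 * tau k * k * (1 + k ^ 2 + 2 * k * l) := by
    have h1 := crit_pair q hq _ hk4 hQ h 0 3
    have h2 := e0 k k k l
    have h3 := e3 k k k l
    rw [hQ] at h2 h3
    rw [hsum, h2, h3] at h1
    have h5 : (3 * tau k + tau l - tau k) * l * (4 * (1 + k * k + (k + k) * k)) =
      (3 * tau k + tau l - tau l) * k * (4 * (1 + k * l + (k + l) * k)) := h1
    linear_combination h5 / 4
  have hkl : k < l := kkkl_lt k l hk hl hne (by linear_combination hcrit)
  -- the curve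
  obtain ⟨X, hX⟩ : ∃ X : ℝ → ℝ, X = fun a => k + a ^ 2 / (4 * (k + l)) + a / 2 := ⟨_, rfl⟩
  obtain ⟨Y, hY⟩ : ∃ Y : ℝ → ℝ, Y = fun a => k + a ^ 2 / (4 * (k + l)) - a / 2 := ⟨_, rfl⟩
  have hX0 : X 0 = k := by rw [hX]; simp
  have hY0 : Y 0 = k := by rw [hY]; simp
  have hsq : ∀ a : ℝ, HasDerivAt (fun a : ℝ => k + a ^ 2 / (4 * (k + l)))
      (2 * a / (4 * (k + l))) a := by
    intro a
    have h1 := ((hasDerivAt_pow 2 a).div_const (4 * (k + l))).const_add k
    simpa using h1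
  have hXd : ∀ a, HasDerivAt X ((a / (k + l) + 1) / 2) a := by
    intro a
    have h1 := (hsq a).add ((hasDerivAt_id a).div_const 2)
    have h2 : 2 * a / (4 * (k + l)) + 1 / 2 = (a / (k + l) + 1) / 2 := by
      field_simp
      ring
    rw [h2] at h1
    rw [hX]
    exact h1
  have hYd : ∀ a, HasDerivAt Y ((a / (k + l) - 1) / 2) a := by
    intro a
    have h1 := (hsq a).sub ((hasDerivAt_id a).div_const 2)
    have h2 : 2 * a / (4 * (k + l)) - 1 / 2 = (a / (k + l) - 1) / 2 := by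
      field_simp
      ring
    rw [h2] at h1
    rw [hY]
    exact h1
  have hXY : ∀ a, X a - Y a = a := by
    intro a
    rw [hX, hY]
    ring
  have hQc : ∀ a, Qk ![X a, Y a, k, l] = q := by
    intro a
    rw [← hQ, hX, hY]
    simp only [Qk, Fin.sum_univ_four]
    change (k + a ^ 2 / (4 * (k + l)) + a / 2 + (k + a ^ 2 / (4 * (k + l)) - a / 2) + k + l) ^ 2 -
      2 * ((k + a ^ 2 / (4 * (k + l)) + a / 2) ^ 2 + (k + a ^ 2 / (4 * (k + l)) - a / 2) ^ 2 +
        k ^ 2 + l ^ 2) = (k + k + k + l) ^ 2 - 2 * (k ^ 2 + k ^ 2 + k ^ 2 + l ^ 2)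
    field_simp
    ring
  have hcv : ∀ a, HasDerivAt (fun a => (![X a, Y a, k, l] : R4))
      ![(a / (k + l) + 1) / 2, (a / (k + l) - 1) / 2, 0, 0] a := by
    intro a
    rw [hasDerivAt_pi]
    intro i
    fin_cases i
    · exact hXd a
    · exact hYd a
    · exact hasDerivAt_const a k
    · exact hasDerivAt_const a l
  have hX1 : ∀ᶠ a in 𝓝 (0 : ℝ), 1 < X a :=
    (hXd 0).continuousAt.eventually (lt_mem_nhds (by rw [hX0]; exact hk))
  have hY1 : ∀ᶠ a in 𝓝 (0 : ℝ), 1 < Y a :=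
    (hYd 0).continuousAt.eventually (lt_mem_nhds (by rw [hY0]; exact hk))
  have hcv1 : ∀ᶠ a in 𝓝 (0 : ℝ), ∀ i, 1 < (![X a, Y a, k, l] : R4) i := by
    filter_upwards [hX1, hY1] with a h1 h2 i
    fin_cases i
    · exact h1
    · exact h2
    · exact hk
    · exact hl
  have hmax := isLocalMax_of_curve q _ h (fun a => (![X a, Y a, k, l] : R4)) 0
    (hcv 0).continuousAt (by simp only [hX0, hY0])
    (by
      filter_upwards [hcv1] with a h1
      exact ⟨fun i => (h1 i).le, hQc a⟩)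
  revert hmax
  obtain ⟨H, hH⟩ : ∃ H : ℝ → ℝ, H = fun a =>
      (tau (X a) + tau (Y a) + tau l) / (1 + X a * Y a + (X a + Y a) * l) +
      (tau (X a) + tau (Y a) + tau k) / (1 + X a * Y a + (X a + Y a) * k) := ⟨_, rfl⟩
  obtain ⟨φ, hφ⟩ : ∃ φ : ℝ → ℝ, φ = fun x =>
      (tau x + tau k + tau l) / (1 + k * l + (k + l) * x) := ⟨_, rfl⟩
  obtain ⟨E, hE⟩ : ∃ E, 1 + k * l + (k + l) * k = E := ⟨_, rfl⟩
  have hEpos : 0 < E := by
    rw [← hE]
    have := mul_pos (by linarith : (0 : ℝ) < k) (by linarith : (0 : ℝ) < l)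
    nlinarith
  have hkk : 0 < k ^ 2 - 1 := by nlinarith
  obtain ⟨φ', hφ'⟩ : ∃ φ' : ℝ, φ' =
      (-(1 / (k ^ 2 - 1)) * E - (tau k + tau k + tau l) * (k + l)) / E ^ 2 := ⟨_, rfl⟩
  have hφd : HasDerivAt φ φ' k := by
    have h1 : HasDerivAt (fun x => tau x + tau k + tau l) (-(1 / (k ^ 2 - 1))) k :=
      ((tau_hasDerivAt k hk).add_const _).add_const _
    have h2 : HasDerivAt (fun x : ℝ => 1 + k * l + (k + l) * x) (k + l) k := by
      simpa using ((hasDerivAt_id k).const_mul (k + l)).const_add (1 + k * l)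
    have h3 := h1.div h2 (by rw [hE]; exact hEpos.ne')
    rw [hE] at h3
    rw [hφ, hφ']
    exact h3
  have hφX : HasDerivAt (fun a => φ (X a)) (φ' * (1 / 2)) 0 := by
    have h1 : HasDerivAt X (1 / 2) 0 := by
      have := hXd 0
      rwa [zero_div, zero_add] at this
    have h2 : HasDerivAt φ φ' (X 0) := by rw [hX0]; exact hφd
    exact h2.comp 0 h1
  have hφY : HasDerivAt (fun a => φ (Y a)) (φ' * (-1 / 2)) 0 := by
    have h1 : HasDerivAt Y (-1 / 2) 0 := by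
      have := hYd 0
      rwa [zero_div, zero_sub] at this
    have h2 : HasDerivAt φ φ' (Y 0) := by rw [hY0]; exact hφd
    exact h2.comp 0 h1
  have hHd : DifferentiableAt ℝ H 0 := by
    have x1 : DifferentiableAt ℝ X 0 := (hXd 0).differentiableAt
    have y1 : DifferentiableAt ℝ Y 0 := (hYd 0).differentiableAt
    have t1 : DifferentiableAt ℝ tau k := (tau_hasDerivAt k hk).differentiableAt
    have x2 : DifferentiableAt ℝ (fun a => tau (X a)) 0 :=
      DifferentiableAt.comp (g := tau) 0 (by rw [hX0]; exact t1) x1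
    have y2 : DifferentiableAt ℝ (fun a => tau (Y a)) 0 :=
      DifferentiableAt.comp (g := tau) 0 (by rw [hY0]; exact t1) y1
    have den : ∀ m : ℝ, DifferentiableAt ℝ (fun a => 1 + X a * Y a + (X a + Y a) * m) 0 :=
      fun m => ((x1.mul y1).const_add 1).add ((x1.add y1).mul_const m)
    have pos : ∀ m : ℝ, 0 < m → 1 + X 0 * Y 0 + (X 0 + Y 0) * m ≠ 0 := by
      intro m hm
      rw [hX0, hY0]
      have : 0 < k := by linarith
      positivity
    rw [hH]
    exact (((x2.add y2).add_const (tau l)).div (den l) (pos l (by linarith))).add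
      (((x2.add y2).add_const (tau k)).div (den k) (pos k (by linarith)))
  have hR : HasDerivAt (fun a => -(φ (X a) - φ (Y a) + a / (k + l) * H a))
      (-(φ' * (1 / 2) - φ' * (-1 / 2) + (1 / (k + l) * H 0 + 0 / (k + l) * deriv H 0))) 0 :=
    ((hφX.sub hφY).add (((hasDerivAt_id (0 : ℝ)).div_const (k + l)).mul
      hHd.hasDerivAt)).neg
  refine not_localMax_of_deriv2 (fun a => VV ![X a, Y a, k, l])
    (fun a => -(φ (X a) - φ (Y a) + a / (k + l) * H a)) (fun _ => Real.sqrt (4 + q) / 4) _ 0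
    ?_ ?_ ?_ hR ?_
  · filter_upwards [hcv1] with a h1
    have h2 := schl (fun a => ![X a, Y a, k, l]) _ a (hcv a) h1 (by rw [hQc]; exact h4)
    have h3 := dV_curve (X a) (Y a) k l (a / (k + l)) q
      (fun i => tau ((![X a, Y a, k, l] : R4) i)) (hQc a) h4
      (by rw [hXY, div_mul_cancel₀ _ hw.ne'])
    rw [h3] at h2
    rw [hφ, hH]
    exact h2
  · exact Eventually.of_forall fun _ => div_pos (Real.sqrt_pos.2 h4) (by norm_num)
  · change -(φ (X 0) - φ (Y 0) + 0 / (k + l) * H 0) = 0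
    rw [hX0, hY0, sub_self, zero_div, zero_mul, add_zero, neg_zero]
  · have hlpos : 0 < l := by linarith
    have hkpos : 0 < k := by linarith
    have hD : 0 < 1 + 3 * k ^ 2 := by positivity
    obtain ⟨μ, hμ⟩ : ∃ μ, μ = 3 * tau k / (l * (1 + 3 * k ^ 2)) := ⟨_, rfl⟩
    have hμ1 : 3 * tau k = μ * (l * (1 + 3 * k ^ 2)) := by
      rw [hμ]
      field_simp
    have hEE : 1 + k ^ 2 + 2 * k * l = E := by
      rw [← hE]
      ring
    have hN : tau k + tau k + tau l = μ * k * E := by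
      rw [hEE] at hcrit
      have h5 : (2 * tau k + tau l) * (l * (1 + 3 * k ^ 2)) =
          (μ * k * E) * (l * (1 + 3 * k ^ 2)) := by
        rw [hμ1] at hcrit
        linear_combination hcrit
      have h6 := mul_right_cancel₀ (mul_pos hlpos hD).ne' h5
      linear_combination h6
    have hH0 : H 0 = μ * (k + l) := by
      rw [hH]
      simp only [hX0, hY0]
      have h7 : 1 + k * k + (k + k) * l = E := by
        rw [← hE]
        ring
      have h8 : tau k + tau k + tau k = μ * l * (1 + k * k + (k + k) * k) := by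
        linear_combination hμ1
      have h9 : 1 + k * k + (k + k) * k ≠ 0 := by positivity
      rw [h7, hN, h8, mul_div_cancel_right₀ _ hEpos.ne', mul_div_cancel_right₀ _ h9]
      ring
    have hval : -(φ' * (1 / 2) - φ' * (-1 / 2) +
        (1 / (k + l) * H 0 + 0 / (k + l) * deriv H 0)) =
        1 / E * (1 / (k ^ 2 - 1) - μ * (1 + k * l)) := by
      rw [hφ', hN, hH0]
      have h10 : 1 / (k + l) * (μ * (k + l)) = μ := by
        field_simp
      rw [h10, zero_div, zero_mul, add_zero]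
      have h11 : μ * (1 + k * l) = μ * E - μ * ((k + l) * k) := by
        rw [← hE]
        ring
      rw [h11]
      field_simp
      ring
    rw [hval]
    refine mul_pos (one_div_pos.2 hEpos) (sub_pos.2 ?_)
    have h12 := tau_lt k hk
    rw [hμ, div_mul_eq_mul_div, div_lt_div_iff₀ (mul_pos hlpos hD) hkk, one_mul]
    have h13 : 3 * (k ^ 2 + 1) * tau k * (k ^ 2 - 1) < k * (3 * k ^ 2 + 1) := by
      rwa [lt_div_iff₀ hkk] at h12
    have h14 : 0 < tau k := tau_pos k hk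
    have h15 : k * (1 + k * l) ≤ (k ^ 2 + 1) * l := by nlinarith
    have h16 : k * (3 * tau k * (1 + k * l) * (k ^ 2 - 1)) < k * (l * (1 + 3 * k ^ 2)) := by
      calc k * (3 * tau k * (1 + k * l) * (k ^ 2 - 1))
          = 3 * tau k * (k ^ 2 - 1) * (k * (1 + k * l)) := by ring
        _ ≤ 3 * tau k * (k ^ 2 - 1) * ((k ^ 2 + 1) * l) :=
          mul_le_mul_of_nonneg_left h15 (by positivity)
        _ = (3 * (k ^ 2 + 1) * tau k * (k ^ 2 - 1)) * l := by ring
        _ < (k * (3 * k ^ 2 + 1)) * l := mul_lt_mul_of_pos_right h13 hlpos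
        _ = k * (l * (1 + 3 * k ^ 2)) := by ring
    exact lt_of_mul_lt_mul_left h16 hkpos.le

end Pool.Agent.MidT
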