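import Pool.Agent.MidT.IntA
import Pool.Agent.MidT.IntB
import Pool.Agent.MidT.IntC

/-!
# MidT module INT: no local maximum with all `k_i > 1`

By `crit_two_values` the four numbers take at most two values; so up to a permutation (`localMaxOn_perm`) `k` is `(a, a, b, b)` with `a ≥ b`
(`aabb_not_max`) or `(k, k, k, l)` with `l ≠ k` (`kkkl_not_max`).
-/

set_option autoImplicit false

namespace Pool.Agent.MidT

open MeasureTheory Set Filter Topology

theorem int_aabb (q : ℝ) (a b : ℝ) (ha : 1 < a) (hb : 1 < b)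
    (hQ : Qk ![a, a, b, b] = q) : ¬ IsLocalMaxOn VV (DD q) ![a, a, b, b] := by
  have hq : q = 8 * a * b := by
    rw [← hQ]
    simp only [Qk, Fin.sum_univ_four, Matrix.cons_val_zero, Matrix.cons_val_one, Matrix.cons_val]
    ring
  rcases le_total b a with h | h
  · exact aabb_not_max a b hb h q hq
  · intro hm
    refine aabb_not_max b a ha h q (by rw [hq]; ring) ?_
    have := localMaxOn_perm q _ ((Equiv.swap 0 2) * (Equiv.swap 1 3)) hm
    have e : (fun i => (![a, a, b, b] : R4) (((Equiv.swap 0 2) * (Equiv.swap 1 3) :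
        Equiv.Perm (Fin 4)) i)) = ![b, b, a, a] := by
      ext i; fin_cases i <;> simp [Equiv.swap_apply_def]
    rwa [e] at this

theorem int_perm2 (q : ℝ) (k : R4) (hk : ∀ i, 1 < k i) (hQ : Qk k = q)
    (h : IsLocalMaxOn VV (DD q) k) (σ : Equiv.Perm (Fin 4)) (h1 : k (σ 0) = k (σ 1))
    (h2 : k (σ 2) = k (σ 3)) : False := by
  have hp := localMaxOn_perm q k σ h
  have hQp := Qk_perm k σ
  have hk' : (fun i => k (σ i)) = ![k (σ 0), k (σ 0), k (σ 2), k (σ 2)] := by
    ext i; fin_cases i <;> simp [h1, h2]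
  rw [hk'] at hp hQp
  exact int_aabb q _ _ (hk _) (hk _) (hQp.trans hQ) hp

theorem int_perm1 (q : ℝ) (hq : 0 < q) (k : R4) (hk : ∀ i, 1 < k i) (hQ : Qk k = q)
    (h : IsLocalMaxOn VV (DD q) k) (σ : Equiv.Perm (Fin 4)) (h1 : k (σ 0) = k (σ 1))
    (h2 : k (σ 0) = k (σ 2)) : False := by
  by_cases h3 : k (σ 3) = k (σ 0)
  · exact int_perm2 q k hk hQ h σ h1 (by rw [h3, h2])
  have hp := localMaxOn_perm q k σ h
  have hQp := Qk_perm k σ
  have hk' : (fun i => k (σ i)) = ![k (σ 0), k (σ 0), k (σ 0), k (σ 3)] := by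
    ext i; fin_cases i <;> simp [h1, ← h2]
  rw [hk'] at hp hQp
  exact kkkl_not_max _ _ (hk _) (hk _) h3 q hq (hQp.trans hQ) hp

theorem int_not_max (q : ℝ) (hq : 0 < q) (k : R4) (hk : ∀ i, 1 < k i) (hQ : Qk k = q) :
    ¬ IsLocalMaxOn VV (DD q) k := by
  intro h
  have tv := crit_two_values q hq k hk hQ h
  by_cases e1 : k 0 = k 1 <;> by_cases e2 : k 0 = k 2 <;> by_cases e3 : k 0 = k 3
  · exact int_perm1 q hq k hk hQ h 1 e1 e2
  · exact int_perm1 q hq k hk hQ h 1 e1 e2
  · -- 0,1,3
    refine int_perm1 q hq k hk hQ h (Equiv.swap 2 3) ?_ ?_ <;> simpa [Equiv.swap_apply_def]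
  · -- {0,1},{2,3}
    have h23 : k 2 = k 3 := by
      rcases tv 0 2 3 with h | h | h
      · exact absurd h e2
      · exact h
      · exact absurd h e3
    exact int_perm2 q k hk hQ h 1 e1 h23
  · -- 0,2,3
    refine int_perm1 q hq k hk hQ h (Equiv.swap 1 3) ?_ ?_ <;> simpa [Equiv.swap_apply_def]
  · -- {0,2},{1,3}
    have h13 : k 1 = k 3 := by
      rcases tv 0 1 3 with h | h | h
      · exact absurd h e1
      · exact h
      · exact absurd h e3
    refine int_perm2 q k hk hQ h (Equiv.swap 1 2) ?_ ?_ <;> simpa [Equiv.swap_apply_def]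
  · -- {0,3},{1,2}
    have h12 : k 1 = k 2 := by
      rcases tv 0 1 2 with h | h | h
      · exact absurd h e1
      · exact h
      · exact absurd h e2
    refine int_perm2 q k hk hQ h (Equiv.swap 1 3) ?_ ?_
    · simpa [Equiv.swap_apply_def]
    · simpa [Equiv.swap_apply_def] using h12.symm
  · -- 1,2,3
    have h12 : k 1 = k 2 := by
      rcases tv 0 1 2 with h | h | h
      · exact absurd h e1
      · exact h
      · exact absurd h e2
    have h13 : k 1 = k 3 := by
      rcases tv 0 1 3 with h | h | h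
      · exact absurd h e1
      · exact h
      · exact absurd h e3
    refine int_perm1 q hq k hk hQ h (Equiv.swap 0 3) ?_ ?_
    · simpa [Equiv.swap_apply_def] using h13.symm
    · simpa [Equiv.swap_apply_def] using (h13.symm.trans h12)

end Pool.Agent.MidT
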