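import Pool.Agent.MidT.CritI
import Pool.Agent.MidT.IneqA

/-!
# MidT module INTA: at an interior critical point at most two different values of the `k_i`

From `crit_pair`: `N_c := ∑T - T_c = μ k_c e_c` with `μ > 0`, `e_c = (4 + q + nn k c ²)/4 = 1 + s2 - k_c s1 + k_c²` (`s1, ..., s4` the elementary
symmetric functions of `k`: `four_add`).  As `k_c⁴ - s1 k_c³ + s2 k_c² - s3 k_c + s4 = 0`: `k_c e_c = k_c + s3 - s4 / k_c`.  Sum over `c`:
`3 ∑T = μ (s1 + 4 s3 - s3)`, so `∑ T = μ (s1/3 + s3)` and `T_c = ∑T - N_c = μ (s1/3 - k_c + s4/k_c)`.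
`f(x) = tau x - μ (s1/3 - x + s4/x)` has `f'(x) = (-x² + μ (x² + s4)(x² - 1)) / (x² (x²-1))`; the numerator is the quadratic
`μ X² + (μ (s4 - 1) - 1) X - μ s4` in `X = x²`, with negative product of the roots, so at most one positive root.  If three of the `k_c` were
pairwise different zeros of `f`, `x₁ < x₂ < x₃`, Rolle (`exists_hasDerivAt_eq_zero`) gives two zeros of `f'`.  Contradiction.
So there are no three pairwise different values among the `k_c`.
-/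

set_option autoImplicit false

namespace Pool.Agent.MidT

open MeasureTheory Set Filter Topology

theorem intA_deriv (μ s1 s4 x : ℝ) (hx : 1 < x) :
    HasDerivAt (fun x => tau x - μ * (s1 / 3 - x + s4 / x))
      (-(1 / (x ^ 2 - 1)) - μ * (-1 + s4 * (-(x ^ 2)⁻¹))) x := by
  have hx0 : x ≠ 0 := by intro h; linarith
  have h1 := tau_hasDerivAt x hx
  have h2 : HasDerivAt (fun x : ℝ => s4 * x⁻¹) (s4 * (-(x ^ 2)⁻¹)) x :=
    (hasDerivAt_inv hx0).const_mul s4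
  have h3 : HasDerivAt (fun x : ℝ => s1 / 3 - x) (-1) x := by
    simpa using (hasDerivAt_id x).const_sub (s1 / 3)
  have h4 : HasDerivAt (fun x => tau x - μ * (s1 / 3 - x + s4 * x⁻¹))
      (-(1 / (x ^ 2 - 1)) - μ * (-1 + s4 * (-(x ^ 2)⁻¹))) x :=
    h1.sub ((h3.add h2).const_mul μ)
  have h5 : (fun x => tau x - μ * (s1 / 3 - x + s4 / x)) =
      (fun x => tau x - μ * (s1 / 3 - x + s4 * x⁻¹)) := by
    funext w
    rw [div_eq_mul_inv s4 w]
  rw [h5]
  exact h4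

theorem intA_quad (μ s4 x : ℝ) (hx : 1 < x)
    (h : -(1 / (x ^ 2 - 1)) - μ * (-1 + s4 * (-(x ^ 2)⁻¹)) = 0) :
    μ * (x ^ 2 + s4) * (x ^ 2 - 1) = x ^ 2 := by
  have hx0 : x ^ 2 ≠ 0 := by positivity
  have hx1 : x ^ 2 - 1 ≠ 0 := by
    intro h
    nlinarith
  field_simp at h
  linarith

theorem intA_three (μ s1 s4 x y z : ℝ) (hμ : 0 < μ) (hs : 0 < s4) (hx : 1 < x) (hxy : x < y)
    (hyz : y < z) (fx : tau x - μ * (s1 / 3 - x + s4 / x) = 0)
    (fy : tau y - μ * (s1 / 3 - y + s4 / y) = 0)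
    (fz : tau z - μ * (s1 / 3 - z + s4 / z) = 0) : False := by
  have hcont : ∀ u v : ℝ, 1 < u → ContinuousOn (fun x => tau x - μ * (s1 / 3 - x + s4 / x))
      (Icc u v) := by
    intro u v hu w hw
    exact (intA_deriv μ s1 s4 w (lt_of_lt_of_le hu hw.1)).continuousAt.continuousWithinAt
  obtain ⟨u, hu, hu0⟩ := exists_hasDerivAt_eq_zero (f := fun x => tau x - μ * (s1 / 3 - x + s4 / x))
    (f' := fun x => -(1 / (x ^ 2 - 1)) - μ * (-1 + s4 * (-(x ^ 2)⁻¹))) hxy (hcont x y hx)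
    (fx.trans fy.symm)
    (fun w hw => intA_deriv μ s1 s4 w (lt_trans hx hw.1))
  obtain ⟨v, hv, hv0⟩ := exists_hasDerivAt_eq_zero (f := fun x => tau x - μ * (s1 / 3 - x + s4 / x))
    (f' := fun x => -(1 / (x ^ 2 - 1)) - μ * (-1 + s4 * (-(x ^ 2)⁻¹))) hyz
    (hcont y z (lt_trans hx hxy))
    (fy.trans fz.symm)
    (fun w hw => intA_deriv μ s1 s4 w (lt_trans (lt_trans hx hxy) hw.1))
  have hu1 : 1 < u := lt_trans hx hu.1
  have hv1 : 1 < v := lt_trans (lt_trans hx hxy) hv.1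
  have huv : u < v := lt_trans hu.2 hv.1
  have qu := intA_quad μ s4 u hu1 hu0
  have qv := intA_quad μ s4 v hv1 hv0
  have hUV : u ^ 2 < v ^ 2 := by nlinarith
  have key : μ * ((v ^ 2 - u ^ 2) * (u ^ 2 * v ^ 2 + s4)) = 0 := by
    linear_combination u ^ 2 * qv - v ^ 2 * qu
  have hpos : 0 < μ * ((v ^ 2 - u ^ 2) * (u ^ 2 * v ^ 2 + s4)) := by
    have : 0 < v ^ 2 - u ^ 2 := by linarith
    positivity
  linarith

theorem crit_two_values (q : ℝ) (hq : 0 < q) (k : R4) (hk : ∀ i, 1 < k i) (hQ : Qk k = q)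
    (h : IsLocalMaxOn VV (DD q) k) (a b c : Fin 4) : k a = k b ∨ k b = k c ∨ k a = k c := by
  have hT : ∀ i, 0 < tau (k i) := fun i => tau_pos _ (hk i)
  have hkp : ∀ i, 0 < k i := fun i => lt_trans one_pos (hk i)
  obtain ⟨S, hS⟩ : ∃ S, S = ∑ j, tau (k j) := ⟨_, rfl⟩
  obtain ⟨s1, hs1⟩ : ∃ s1, s1 = k 0 + k 1 + k 2 + k 3 := ⟨_, rfl⟩
  obtain ⟨s3, hs3⟩ : ∃ s3, s3 = k 0 * k 1 * k 2 + k 0 * k 1 * k 3 + k 0 * k 2 * k 3
    + k 1 * k 2 * k 3 := ⟨_, rfl⟩
  obtain ⟨s4, hs4⟩ : ∃ s4, s4 = k 0 * k 1 * k 2 * k 3 := ⟨_, rfl⟩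
  have hs4p : 0 < s4 := by
    rw [hs4]
    have h0 := hkp 0
    have h1 := hkp 1
    have h2 := hkp 2
    have h3 := hkp 3
    positivity
  have hpair := crit_pair q hq k hk hQ h
  have hE : ∀ i, k i * ((4 + q + nn k i ^ 2) / 4) = k i + s3 - s4 / k i := by
    intro i
    have hki := (hkp i).ne'
    have h0 : k i * (k i * ((4 + q + nn k i ^ 2) / 4)) = k i * k i + s3 * k i - s4 := by
      rw [← hQ, hs3, hs4]
      unfold Qk nn
      fin_cases i <;> simp only [Fin.sum_univ_four] <;> simp <;> ring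
    have h1 : k i * (k i + s3 - s4 / k i) = k i * k i + s3 * k i - s4 := by
      field_simp
    exact mul_left_cancel₀ hki (h0.trans h1.symm)
  have hEp : ∀ i, 0 < k i * ((4 + q + nn k i ^ 2) / 4) := by
    intro i
    have := hkp i
    positivity
  have hN0 : 0 < S - tau (k 0) := by
    rw [hS, Fin.sum_univ_four]
    have h1 := hT 1
    have h2 := hT 2
    have h3 := hT 3
    linarith
  obtain ⟨μ, hμ⟩ : ∃ μ, μ = (S - tau (k 0)) / (k 0 * ((4 + q + nn k 0 ^ 2) / 4)) := ⟨_, rfl⟩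
  have hμp : 0 < μ := by
    rw [hμ]
    exact div_pos hN0 (hEp 0)
  have hNc : ∀ i, S - tau (k i) = μ * (k i + s3 - s4 / k i) := by
    intro i
    rw [← hE i, hμ, div_mul_eq_mul_div, eq_div_iff (hEp 0).ne']
    have := hpair i 0
    rw [← hS] at this
    linarith
  have hsum : 3 * S = μ * (s1 + 3 * s3) := by
    have h0 := hNc 0
    have h1 := hNc 1
    have h2 := hNc 2
    have h3 := hNc 3
    have hi : s4 / k 0 + s4 / k 1 + s4 / k 2 + s4 / k 3 = s3 := by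
      have e0 := (hkp 0).ne'
      have e1 := (hkp 1).ne'
      have e2 := (hkp 2).ne'
      have e3 := (hkp 3).ne'
      rw [hs3, hs4]
      field_simp
      ring
    have hSS : S = tau (k 0) + tau (k 1) + tau (k 2) + tau (k 3) := by
      rw [hS, Fin.sum_univ_four]
    have : 3 * S = μ * (k 0 + s3 - s4 / k 0) + μ * (k 1 + s3 - s4 / k 1)
        + μ * (k 2 + s3 - s4 / k 2) + μ * (k 3 + s3 - s4 / k 3) := by
      rw [← h0, ← h1, ← h2, ← h3]
      linarith
    rw [this, hs1]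
    linear_combination -μ * hi
  have hf : ∀ i, tau (k i) - μ * (s1 / 3 - k i + s4 / k i) = 0 := by
    intro i
    have := hNc i
    linear_combination -this + hsum / 3
  by_contra hcon
  push Not at hcon
  obtain ⟨hab, hbc, hac⟩ := hcon
  rcases lt_or_gt_of_ne hab with h1 | h1 <;> rcases lt_or_gt_of_ne hbc with h2 | h2 <;>
    rcases lt_or_gt_of_ne hac with h3 | h3
  · exact intA_three μ s1 s4 _ _ _ hμp hs4p (hk a) h1 h2 (hf a) (hf b) (hf c)
  · linarith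
  · exact intA_three μ s1 s4 _ _ _ hμp hs4p (hk a) h3 h2 (hf a) (hf c) (hf b)
  · exact intA_three μ s1 s4 _ _ _ hμp hs4p (hk c) h3 h1 (hf c) (hf a) (hf b)
  · exact intA_three μ s1 s4 _ _ _ hμp hs4p (hk b) h1 h3 (hf b) (hf a) (hf c)
  · exact intA_three μ s1 s4 _ _ _ hμp hs4p (hk b) h2 h3 (hf b) (hf c) (hf a)
  · linarith
  · exact intA_three μ s1 s4 _ _ _ hμp hs4p (hk c) h2 h1 (hf c) (hf b) (hf a)

end Pool.Agent.MidT
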