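import Pool.Agent.MidT.Edge2
import Pool.Agent.MidT.Ibp3
import Pool.Agent.MidT.Ibp4

/-!
# MidT module SCHL: the differential of the volume (Schläfli's formula for midscribed tetrahedra)

Put `E = J - 2 I` (`E n = 4 k` for `n = nn k`, i.e. `nn_nn`), `Q = Qk k = k · n`, `κ = v · n` (so `d Q = 2 κ`),
`T_i = tau (k i)`, `N_c = ∑ T - T_c`, `P_i = ∑_j k_j Mm k i j`.

1. `V' = κ / √(4+Q) Phi - √(4+Q) ∑ v_i P_i`   (`Phi_hasDerivAt`).
2. `ibp4` for all `c`: `k_c P_i + ∑_j E_{cj} Mm i j = δ_{ic} Phi + Bf c i`.  Multiply by `n_c` and sum over `c`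
   (`∑_c n_c E_{cj} = 4 k_j`): `Q P_i + 4 P_i = n_i Phi + ∑_c n_c Bf c i`.  Hence
   `V' = κ/√(4+Q) Phi - √(4+Q)/(4+Q) (κ Phi + ∑_c n_c ∑_i v_i Bf c i) = - (1/√(4+Q)) ∑_c n_c ∑_i v_i Bf c i`.
3. Fix `c`; `b_i = Bf c i`, `b_c = 0`, `β = k · b`.  `ibp3`: for `l ≠ c`: `k_l β + (E b)_l = A_l`,
   `A_l = (T_i + T_j)/(k_i + k_j)`, `{i, j, l, c} = {0,1,2,3}` (`Af_eq`); this is a linear system with
   the solution given in `face_sol`.
4. Sum over `c`.
-/

set_option autoImplicit false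

namespace Pool.Agent.MidT

open MeasureTheory

theorem face_sol (a b c va vb vc Ta Tb Tc x y z Aa Ab Ac : ℝ)
    (hAa : Aa * (b + c) = Tb + Tc) (hAb : Ab * (a + c) = Ta + Tc) (hAc : Ac * (a + b) = Ta + Tb)
    (ea : (a * a - 1) * x + (a * b + 1) * y + (a * c + 1) * z = Aa)
    (eb : (a * b + 1) * x + (b * b - 1) * y + (b * c + 1) * z = Ab)
    (ec : (a * c + 1) * x + (b * c + 1) * y + (c * c - 1) * z = Ac)
    (hD : 2 + (a + b + c) ^ 2 - (a ^ 2 + b ^ 2 + c ^ 2) ≠ 0) :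
    va * x + vb * y + vc * z = ((vb + vc) * Aa + (va + vc) * Ab + (va + vb) * Ac) / 2
      - (Ta + Tb + Tc) / (2 + (a + b + c) ^ 2 - (a ^ 2 + b ^ 2 + c ^ 2))
        * ((va + vb + vc) * (a + b + c) - (va * a + vb * b + vc * c)) := by
  have hβ : (a * x + b * y + c * z) * (2 + (a + b + c) ^ 2 - (a ^ 2 + b ^ 2 + c ^ 2))
      = 2 * (Ta + Tb + Tc) := by
    linear_combination (b + c) * ea + (a + c) * eb + (a + b) * ec + hAa + hAb + hAc
  have hβ' : (Ta + Tb + Tc) / (2 + (a + b + c) ^ 2 - (a ^ 2 + b ^ 2 + c ^ 2))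
      = (a * x + b * y + c * z) / 2 := by
    rw [div_eq_div_iff hD two_ne_zero]
    linear_combination -hβ
  rw [hβ']
  linear_combination ((vb + vc) / 2) * ea + ((va + vc) / 2) * eb + ((va + vb) / 2) * ec

theorem Mm_comm (k : R4) (i j : Fin 4) : Mm k i j = Mm k j i := by
  unfold Mm
  congr 1
  funext y
  ring

theorem Bf_self (k : R4) (c : Fin 4) : Bf k c c = 0 := by
  unfold Bf
  simp

theorem A_eq (k : R4) (hk : ∀ i, 1 < k i) (c : Fin 4) (l' : Fin 3) (i j : Fin 4)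
    (hi : c.succAbove (l'.succAbove 0) = i) (hj : c.succAbove (l'.succAbove 1) = j) :
    Af k c l' * (k i + k j) = tau (k i) + tau (k j) := by
  have h := Af_eq k hk c l'
  rw [hi, hj] at h
  rw [h]
  have h1 := hk i
  have h2 := hk j
  field_simp

theorem E_eq (k : R4) (hk : ∀ i, 1 < k i) (c : Fin 4) (l' : Fin 3) (l : Fin 4)
    (hl : c.succAbove l' = l) :
    ∑ j, Gm k l j * Bf k c j = Af k c l' := by
  rw [← hl]
  exact ibp3 k hk c l'

theorem Dc_ne (k : R4) (hQ : 0 < 4 + Qk k) (c : Fin 4) :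
    2 + ((∑ i, k i) - k c) ^ 2 - ((∑ i, k i ^ 2) - k c ^ 2) ≠ 0 := by
  have h := den_pos k hQ c
  rw [four_add] at h
  intro h0
  linarith

theorem om_eq (k v : R4) (hQ : 0 < 4 + Qk k) (c : Fin 4) (N : ℝ) :
    N * om k v c = N * nn v c - nn k c * (N / (2 + ((∑ i, k i) - k c) ^ 2
      - ((∑ i, k i ^ 2) - k c ^ 2)) * (((∑ i, v i) - v c) * ((∑ i, k i) - k c)
        - ((∑ i, v i * k i) - v c * k c))) := by
  have h0 := Dc_ne k hQ c
  have h1 : 4 + Qk k + nn k c ^ 2 = 2 * (2 + ((∑ i, k i) - k c) ^ 2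
      - ((∑ i, k i ^ 2) - k c ^ 2)) := by
    rw [four_add]
    ring
  have hκ : ∑ i, v i * nn k i = (∑ i, v i) * (∑ i, k i) - 2 * ∑ i, v i * k i := by
    unfold nn
    simp only [Fin.sum_univ_four]
    ring
  have h2 : 4 + Qk k = 2 * (2 + ((∑ i, k i) - k c) ^ 2
      - ((∑ i, k i ^ 2) - k c ^ 2)) - nn k c ^ 2 := by linarith
  unfold om
  rw [h1, h2, hκ]
  have h3 : nn k c = (∑ i, k i) - 2 * k c := rfl
  have h4 : nn v c = (∑ i, v i) - 2 * v c := rfl
  rw [h3, h4]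
  generalize (∑ i, k i) = σ at *
  generalize (∑ i, v i) = τ at *
  generalize (∑ i, k i ^ 2) = σ2 at *
  generalize (∑ i, v i * k i) = p at *
  field_simp
  ring

theorem step2 (k v : R4) (h1 : ∀ i, 1 < k i) :
    (4 + Qk k) * (∑ i, ∑ j, k i * v j * Mm k i j)
      = (∑ i, v i * nn k i) * Phi k
        + ∑ c, nn k c * ∑ i, v i * Bf k c i := by
  have hrow : ∀ i, (4 + Qk k) * (∑ j, k j * Mm k i j) = nn k i * Phi k
      + ∑ c, nn k c * Bf k c i := by
    intro i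
    have e : ∀ c, ∑ j, Gm k c j * Mm k i j = (if i = c then Phi k else 0) + Bf k c i :=
      fun c => ibp4 k h1 c i
    have e2 : ∑ c, nn k c * (∑ j, Gm k c j * Mm k i j)
        = nn k i * Phi k + ∑ c, nn k c * Bf k c i := by
      simp only [e, mul_add, Finset.sum_add_distrib, mul_ite, mul_zero]
      congr 1
      rw [Finset.sum_ite_eq]
      simp
    rw [← e2]
    simp only [Gm, Qk, nn, Fin.sum_univ_four]
    generalize Mm k i 0 = a
    generalize Mm k i 1 = b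
    generalize Mm k i 2 = c
    generalize Mm k i 3 = d
    simp only [Fin.reduceEq, if_true, if_false]
    ring
  have h2 : ∑ i, ∑ j, k i * v j * Mm k i j = ∑ i, v i * ∑ j, k j * Mm k i j := by
    rw [Finset.sum_comm]
    refine Finset.sum_congr rfl fun i _ => ?_
    rw [Finset.mul_sum]
    refine Finset.sum_congr rfl fun j _ => ?_
    rw [Mm_comm k i j]
    ring
  rw [h2, Finset.mul_sum]
  have h3 : ∀ i, (4 + Qk k) * (v i * ∑ j, k j * Mm k i j)
      = v i * nn k i * Phi k + ∑ c, nn k c * (v i * Bf k c i) := by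
    intro i
    have h := hrow i
    calc (4 + Qk k) * (v i * ∑ j, k j * Mm k i j)
        = v i * ((4 + Qk k) * ∑ j, k j * Mm k i j) := by ring
      _ = v i * (nn k i * Phi k + ∑ c, nn k c * Bf k c i) := by rw [h]
      _ = v i * nn k i * Phi k + ∑ c, nn k c * (v i * Bf k c i) := by
        rw [mul_add, Finset.mul_sum]
        congr 1
        · ring
        · refine Finset.sum_congr rfl fun c _ => ?_
          ring
  rw [Finset.sum_congr rfl (fun i _ => h3 i), Finset.sum_add_distrib, Finset.sum_mul]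
  congr 1
  rw [Finset.sum_comm]
  refine Finset.sum_congr rfl fun c _ => ?_
  rw [Finset.mul_sum]

theorem step3 (k v : R4) (h1 : ∀ i, 1 < k i) (hQ : 0 < 4 + Qk k) :
    ∑ c, nn k c * ∑ i, v i * Bf k c i
      = ∑ c, ((∑ j, tau (k j)) - tau (k c)) * om k v c := by
  have hom : ∀ c, ((∑ j, tau (k j)) - tau (k c)) * om k v c = _ :=
    fun c => om_eq k v hQ c ((∑ j, tau (k j)) - tau (k c))
  rw [Finset.sum_congr rfl (fun c _ => hom c)]
  -- the A's
  have A01 := A_eq k h1 0 0 2 3 rfl rfl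
  have A02 := A_eq k h1 0 1 1 3 rfl rfl
  have A03 := A_eq k h1 0 2 1 2 rfl rfl
  have A10 := A_eq k h1 1 0 2 3 rfl rfl
  have A12 := A_eq k h1 1 1 0 3 rfl rfl
  have A13 := A_eq k h1 1 2 0 2 rfl rfl
  have A20 := A_eq k h1 2 0 1 3 rfl rfl
  have A21 := A_eq k h1 2 1 0 3 rfl rfl
  have A23 := A_eq k h1 2 2 0 1 rfl rfl
  have A30 := A_eq k h1 3 0 1 2 rfl rfl
  have A31 := A_eq k h1 3 1 0 2 rfl rfl
  have A32 := A_eq k h1 3 2 0 1 rfl rfl
  have E01 := E_eq k h1 0 0 1 rfl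
  have E02 := E_eq k h1 0 1 2 rfl
  have E03 := E_eq k h1 0 2 3 rfl
  have E10 := E_eq k h1 1 0 0 rfl
  have E12 := E_eq k h1 1 1 2 rfl
  have E13 := E_eq k h1 1 2 3 rfl
  have E20 := E_eq k h1 2 0 0 rfl
  have E21 := E_eq k h1 2 1 1 rfl
  have E23 := E_eq k h1 2 2 3 rfl
  have E30 := E_eq k h1 3 0 0 rfl
  have E31 := E_eq k h1 3 1 1 rfl
  have E32 := E_eq k h1 3 2 2 rfl
  have B0 := Bf_self k 0
  have B1 := Bf_self k 1
  have B2 := Bf_self k 2
  have B3 := Bf_self k 3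
  have D0 := Dc_ne k hQ 0
  have D1 := Dc_ne k hQ 1
  have D2 := Dc_ne k hQ 2
  have D3 := Dc_ne k hQ 3
  have q01 : Af k 1 0 = Af k 0 0 :=
    mul_right_cancel₀ (by have := h1 2; have := h1 3; positivity) (A10.trans A01.symm)
  have q02 : Af k 2 0 = Af k 0 1 :=
    mul_right_cancel₀ (by have := h1 1; have := h1 3; positivity) (A20.trans A02.symm)
  have q03 : Af k 3 0 = Af k 0 2 :=
    mul_right_cancel₀ (by have := h1 1; have := h1 2; positivity) (A30.trans A03.symm)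
  have q12 : Af k 2 1 = Af k 1 1 :=
    mul_right_cancel₀ (by have := h1 0; have := h1 3; positivity) (A21.trans A12.symm)
  have q13 : Af k 3 1 = Af k 1 2 :=
    mul_right_cancel₀ (by have := h1 0; have := h1 2; positivity) (A31.trans A13.symm)
  have q23 : Af k 3 2 = Af k 2 2 :=
    mul_right_cancel₀ (by have := h1 0; have := h1 1; positivity) (A32.trans A23.symm)
  rw [q01] at A10 E10
  rw [q02] at A20 E20
  rw [q03] at A30 E30
  rw [q12] at A21 E21
  rw [q13] at A31 E31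
  rw [q23] at A32 E32
  clear q01 q02 q03 q12 q13 q23 hom
  simp only [Gm, Fin.sum_univ_four, B0, B1, B2, B3, Fin.reduceEq, if_true, if_false, mul_zero,
    add_zero, zero_add] at *
  clear B0 B1 B2 B3
  generalize Bf k 0 1 = b01 at *
  generalize Bf k 0 2 = b02 at *
  generalize Bf k 0 3 = b03 at *
  generalize Bf k 1 0 = b10 at *
  generalize Bf k 1 2 = b12 at *
  generalize Bf k 1 3 = b13 at *
  generalize Bf k 2 0 = b20 at *
  generalize Bf k 2 1 = b21 at *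
  generalize Bf k 2 3 = b23 at *
  generalize Bf k 3 0 = b30 at *
  generalize Bf k 3 1 = b31 at *
  generalize Bf k 3 2 = b32 at *
  generalize Af k 0 0 = a01 at *
  generalize Af k 0 1 = a02 at *
  generalize Af k 0 2 = a03 at *
  generalize Af k 1 1 = a12 at *
  generalize Af k 1 2 = a13 at *
  generalize Af k 2 2 = a23 at *
  generalize tau (k 0) = t0 at *
  generalize tau (k 1) = t1 at *
  generalize tau (k 2) = t2 at *
  generalize tau (k 3) = t3 at *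
  simp only [nn, Fin.sum_univ_four]
  clear h1 hQ
  generalize k 0 = k0 at *
  generalize k 1 = k1 at *
  generalize k 2 = k2 at *
  generalize k 3 = k3 at *
  generalize v 0 = v0 at *
  generalize v 1 = v1 at *
  generalize v 2 = v2 at *
  generalize v 3 = v3 at *
  have d0 : 2 + (k0 + k1 + k2 + k3 - k0) ^ 2 - (k0 ^ 2 + k1 ^ 2 + k2 ^ 2 + k3 ^ 2 - k0 ^ 2)
      = 2 + (k1 + k2 + k3) ^ 2 - (k1 ^ 2 + k2 ^ 2 + k3 ^ 2) := by ring
  have d1 : 2 + (k0 + k1 + k2 + k3 - k1) ^ 2 - (k0 ^ 2 + k1 ^ 2 + k2 ^ 2 + k3 ^ 2 - k1 ^ 2)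
      = 2 + (k0 + k2 + k3) ^ 2 - (k0 ^ 2 + k2 ^ 2 + k3 ^ 2) := by ring
  have d2 : 2 + (k0 + k1 + k2 + k3 - k2) ^ 2 - (k0 ^ 2 + k1 ^ 2 + k2 ^ 2 + k3 ^ 2 - k2 ^ 2)
      = 2 + (k0 + k1 + k3) ^ 2 - (k0 ^ 2 + k1 ^ 2 + k3 ^ 2) := by ring
  have d3 : 2 + (k0 + k1 + k2 + k3 - k3) ^ 2 - (k0 ^ 2 + k1 ^ 2 + k2 ^ 2 + k3 ^ 2 - k3 ^ 2)
      = 2 + (k0 + k1 + k2) ^ 2 - (k0 ^ 2 + k1 ^ 2 + k2 ^ 2) := by ring
  rw [d0] at D0
  rw [d1] at D1
  rw [d2] at D2
  rw [d3] at D3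
  rw [d0, d1, d2, d3]
  have F0 := face_sol k1 k2 k3 v1 v2 v3 t1 t2 t3 b01 b02 b03 a01 a02 a03 A01 A02 A03
    (by linear_combination E01) (by linear_combination E02) (by linear_combination E03) D0
  have F1 := face_sol k0 k2 k3 v0 v2 v3 t0 t2 t3 b10 b12 b13 a01 a12 a13 A10 A12 A13
    (by linear_combination E10) (by linear_combination E12) (by linear_combination E13) D1
  have F2 := face_sol k0 k1 k3 v0 v1 v3 t0 t1 t3 b20 b21 b23 a02 a12 a23 A20 A21 A23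
    (by linear_combination E20) (by linear_combination E21) (by linear_combination E23) D2
  have F3 := face_sol k0 k1 k2 v0 v1 v2 t0 t1 t2 b30 b31 b32 a03 a13 a23 A30 A31 A32
    (by linear_combination E30) (by linear_combination E31) (by linear_combination E32) D3
  rw [F0, F1, F2, F3]
  have n0 : t0 + t1 + t2 + t3 - t0 = t1 + t2 + t3 := by ring
  have n1 : t0 + t1 + t2 + t3 - t1 = t0 + t2 + t3 := by ring
  have n2 : t0 + t1 + t2 + t3 - t2 = t0 + t1 + t3 := by ring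
  have n3 : t0 + t1 + t2 + t3 - t3 = t0 + t1 + t2 := by ring
  rw [n0, n1, n2, n3]
  generalize (t1 + t2 + t3) / (2 + (k1 + k2 + k3) ^ 2 - (k1 ^ 2 + k2 ^ 2 + k3 ^ 2)) = x0
  generalize (t0 + t2 + t3) / (2 + (k0 + k2 + k3) ^ 2 - (k0 ^ 2 + k2 ^ 2 + k3 ^ 2)) = x1
  generalize (t0 + t1 + t3) / (2 + (k0 + k1 + k3) ^ 2 - (k0 ^ 2 + k1 ^ 2 + k3 ^ 2)) = x2
  generalize (t0 + t1 + t2) / (2 + (k0 + k1 + k2) ^ 2 - (k0 ^ 2 + k1 ^ 2 + k2 ^ 2)) = x3
  linear_combination (v2 + v3) * A01 + (v1 + v3) * A02 + (v1 + v2) * A03 + (v0 + v3) * A12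
    + (v0 + v2) * A13 + (v0 + v1) * A23

theorem schl (k : ℝ → R4) (v : R4) (t : ℝ) (hk : HasDerivAt k v t)
    (h1 : ∀ i, 1 < k t i) (hQ : 0 < 4 + Qk (k t)) :
    HasDerivAt (fun s => VV (k s)) (dV (fun i => tau (k t i)) (k t) v) t := by
  have hk' : ∀ i, HasDerivAt (fun s => k s i) (v i) t := fun i => (hasDerivAt_pi.1 hk) i
  have hQd : HasDerivAt (fun s => 4 + Qk (k s)) (2 * ∑ i, v i * nn (k t) i) t := by
    have h2 : HasDerivAt (fun s => 4 + ((k s 0 + k s 1 + k s 2 + k s 3) ^ 2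
        - 2 * (k s 0 ^ 2 + k s 1 ^ 2 + k s 2 ^ 2 + k s 3 ^ 2)))
        (2 * ∑ i, v i * nn (k t) i) t := by
      refine HasDerivAt.congr_deriv ((((((hk' 0).add (hk' 1)).add (hk' 2)).add (hk' 3)).pow 2).sub
        ((((((hk' 0).pow 2).add ((hk' 1).pow 2)).add ((hk' 2).pow 2)).add
          ((hk' 3).pow 2)).const_mul 2) |>.const_add 4) ?_
      simp only [nn, Fin.sum_univ_four, Pi.add_apply]
      push_cast
      ring
    have h3 : (fun s => 4 + Qk (k s)) = fun s => 4 + ((k s 0 + k s 1 + k s 2 + k s 3) ^ 2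
        - 2 * (k s 0 ^ 2 + k s 1 ^ 2 + k s 2 ^ 2 + k s 3 ^ 2)) := by
      funext s
      simp only [Qk, Fin.sum_univ_four]
    rw [h3]
    exact h2
  have hS : 0 < Real.sqrt (4 + Qk (k t)) := Real.sqrt_pos.2 hQ
  have hSd := hQd.sqrt hQ.ne'
  have hΦ := Phi_hasDerivAt k v t hk h1
  have hV := hSd.mul hΦ
  have hfun : (fun s => VV (k s)) = (fun s => Real.sqrt (4 + Qk (k s))) * fun s => Phi (k s) := by
    funext s
    rfl
  rw [hfun]
  refine hV.congr_deriv ?_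
  have hSS : Real.sqrt (4 + Qk (k t)) * Real.sqrt (4 + Qk (k t)) = 4 + Qk (k t) :=
    Real.mul_self_sqrt hQ.le
  have hP := step2 (k t) v h1
  have hR := step3 (k t) v h1 hQ
  rw [hR] at hP
  have hdV : dV (fun i => tau (k t i)) (k t) v
      = -(1 / Real.sqrt (4 + Qk (k t))) * ∑ c, ((∑ j, tau (k t j)) - tau (k t c)) * om (k t) v c := rfl
  rw [hdV]
  generalize (∑ c, ((∑ j, tau (k t j)) - tau (k t c)) * om (k t) v c) = R at *
  generalize (∑ i, ∑ j, k t i * v j * Mm (k t) i j) = P at *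
  generalize (∑ i, v i * nn (k t) i) = κ at *
  generalize Phi (k t) = Φ at *
  have hP' : Real.sqrt (4 + Qk (k t)) * Real.sqrt (4 + Qk (k t)) * P = κ * Φ + R := by
    rw [hSS]
    exact hP
  generalize Real.sqrt (4 + Qk (k t)) = S at *
  have hS' : S ≠ 0 := hS.ne'
  field_simp
  linear_combination -hP'

end Pool.Agent.MidT
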