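import Pool.Agent.MidT.Schl
import Pool.Agent.MidT.Dom2

/-!
# MidT module SCHLFACE: the same formula when some vertices are ideal

`Z` = the set of the indices with `k_i ≡ 1`.  Put `k_ε = k + ε 1_Z` (all coordinates `> 1`), same velocity
(`v_i = 0` for `i ∈ Z`).  `schl` gives `V(k_ε(t₂)) - V(k_ε(t₁)) = ∫ dV (tau ∘ k_ε) k_ε v`.  Now
`dV T k v = - (1/√(4+Q)) ∑_j T_j S_j(k, v)`, `S_j = ∑_{c≠j} om k v c`.  KEY (`S_zero`): `S_j(k, v) = 0` if `k_j = 1`, `v_j = 0`: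
with `e_c = (4 + Q + n_c²)/4 = ∏_{i ≠ c,j} (1 + k_i)` for `c ≠ j` one has `om k v c = (1 + k_c) ((4+Q) nn v c - κ n_c) / (4 Π)`,
`Π = ∏_{i≠j} (1 + k_i)`, and `∑_{c≠j} (1+k_c) nn v c = κ`, `∑_{c≠j} (1+k_c) n_c = Q + 4`.
For `j ∉ Z` the term `tau(k_j) S_j(k_ε, v)` converges uniformly on compact intervals.  For `j ∈ Z`:
`|S_j(k_ε, v)| ≤ C ε` on a compact interval (`S_j` is smooth in `k_j` and vanishes at `k_j = 1` for the other
coordinates `k_ε`; Lipschitz continuity), and `tau (1 + ε) ε → 0`.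
So the derivatives converge locally uniformly to `dV (T restricted) k v` and `V(k_ε) → V(k)` by `Phi_continuousOn`.
-/

set_option autoImplicit false

namespace Pool.Agent.MidT

open MeasureTheory Set Filter Topology

theorem SF_zero_aux (a b c x y z : ℝ) (ha : 1 ≤ a) (hb : 1 ≤ b) (hc : 1 ≤ c)
    (Q κ : ℝ) (hQ : Q = (1 + a + b + c) ^ 2 - 2 * (1 + a ^ 2 + b ^ 2 + c ^ 2))
    (hκ : κ = x * (1 + b + c - a) + y * (1 + a + c - b) + z * (1 + a + b - c)) :
    ((4 + Q) * (y + z - x) - κ * (1 + b + c - a)) / (4 + Q + (1 + b + c - a) ^ 2)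
      + ((4 + Q) * (x + z - y) - κ * (1 + a + c - b)) / (4 + Q + (1 + a + c - b) ^ 2)
      + ((4 + Q) * (x + y - z) - κ * (1 + a + b - c)) / (4 + Q + (1 + a + b - c) ^ 2) = 0 := by
  have h1 : 4 + Q + (1 + b + c - a) ^ 2 = 4 * ((1 + b) * (1 + c)) := by rw [hQ]; ring
  have h2 : 4 + Q + (1 + a + c - b) ^ 2 = 4 * ((1 + a) * (1 + c)) := by rw [hQ]; ring
  have h3 : 4 + Q + (1 + a + b - c) ^ 2 = 4 * ((1 + a) * (1 + b)) := by rw [hQ]; ring
  rw [h1, h2, h3]
  have ha' : 1 + a ≠ 0 := by linarith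
  have hb' : 1 + b ≠ 0 := by linarith
  have hc' : 1 + c ≠ 0 := by linarith
  field_simp
  rw [hκ, hQ]
  ring

theorem S_zero (k v : R4) (j : Fin 4) (h1 : ∀ i, 1 ≤ k i) (hk : k j = 1) (hv : v j = 0)
    (hQ : 0 < 4 + Qk k) : (∑ c, om k v c) - om k v j = 0 := by
  have h10 := h1 0
  have h11 := h1 1
  have h12 := h1 2
  have h13 := h1 3
  fin_cases j
  · have hk' : k 0 = 1 := hk
    have hv' : v 0 = 0 := hv
    have e := SF_zero_aux (k 1) (k 2) (k 3) (v 1) (v 2) (v 3) h11 h12 h13 (Qk k)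
      (∑ i, v i * nn k i) (by simp only [Qk, Fin.sum_univ_four, hk']; ring)
      (by simp only [nn, Fin.sum_univ_four, hk', hv']; ring)
    have n1 : nn k 1 = 1 + k 2 + k 3 - k 1 := by simp only [nn, Fin.sum_univ_four, hk']; ring
    have n2 : nn k 2 = 1 + k 1 + k 3 - k 2 := by simp only [nn, Fin.sum_univ_four, hk']; ring
    have n3 : nn k 3 = 1 + k 1 + k 2 - k 3 := by simp only [nn, Fin.sum_univ_four, hk']; ring
    have m1 : nn v 1 = v 2 + v 3 - v 1 := by simp only [nn, Fin.sum_univ_four, hv']; ring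
    have m2 : nn v 2 = v 1 + v 3 - v 2 := by simp only [nn, Fin.sum_univ_four, hv']; ring
    have m3 : nn v 3 = v 1 + v 2 - v 3 := by simp only [nn, Fin.sum_univ_four, hv']; ring
    have g : (∑ c, om k v c) - om k v 0 = om k v 1 + om k v 2 + om k v 3 := by
      rw [Fin.sum_univ_four]; ring
    show (∑ c, om k v c) - om k v 0 = 0
    rw [g, ← e]
    unfold om
    rw [n1, n2, n3, m1, m2, m3]
  · have hk' : k 1 = 1 := hk
    have hv' : v 1 = 0 := hv
    have e := SF_zero_aux (k 0) (k 2) (k 3) (v 0) (v 2) (v 3) h10 h12 h13 (Qk k)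
      (∑ i, v i * nn k i) (by simp only [Qk, Fin.sum_univ_four, hk']; ring)
      (by simp only [nn, Fin.sum_univ_four, hk', hv']; ring)
    have n1 : nn k 0 = 1 + k 2 + k 3 - k 0 := by simp only [nn, Fin.sum_univ_four, hk']; ring
    have n2 : nn k 2 = 1 + k 0 + k 3 - k 2 := by simp only [nn, Fin.sum_univ_four, hk']; ring
    have n3 : nn k 3 = 1 + k 0 + k 2 - k 3 := by simp only [nn, Fin.sum_univ_four, hk']; ring
    have m1 : nn v 0 = v 2 + v 3 - v 0 := by simp only [nn, Fin.sum_univ_four, hv']; ring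
    have m2 : nn v 2 = v 0 + v 3 - v 2 := by simp only [nn, Fin.sum_univ_four, hv']; ring
    have m3 : nn v 3 = v 0 + v 2 - v 3 := by simp only [nn, Fin.sum_univ_four, hv']; ring
    have g : (∑ c, om k v c) - om k v 1 = om k v 0 + om k v 2 + om k v 3 := by
      rw [Fin.sum_univ_four]; ring
    show (∑ c, om k v c) - om k v 1 = 0
    rw [g, ← e]
    unfold om
    rw [n1, n2, n3, m1, m2, m3]
  · have hk' : k 2 = 1 := hk
    have hv' : v 2 = 0 := hv
    have e := SF_zero_aux (k 0) (k 1) (k 3) (v 0) (v 1) (v 3) h10 h11 h13 (Qk k)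
      (∑ i, v i * nn k i) (by simp only [Qk, Fin.sum_univ_four, hk']; ring)
      (by simp only [nn, Fin.sum_univ_four, hk', hv']; ring)
    have n1 : nn k 0 = 1 + k 1 + k 3 - k 0 := by simp only [nn, Fin.sum_univ_four, hk']; ring
    have n2 : nn k 1 = 1 + k 0 + k 3 - k 1 := by simp only [nn, Fin.sum_univ_four, hk']; ring
    have n3 : nn k 3 = 1 + k 0 + k 1 - k 3 := by simp only [nn, Fin.sum_univ_four, hk']; ring
    have m1 : nn v 0 = v 1 + v 3 - v 0 := by simp only [nn, Fin.sum_univ_four, hv']; ring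
    have m2 : nn v 1 = v 0 + v 3 - v 1 := by simp only [nn, Fin.sum_univ_four, hv']; ring
    have m3 : nn v 3 = v 0 + v 1 - v 3 := by simp only [nn, Fin.sum_univ_four, hv']; ring
    have g : (∑ c, om k v c) - om k v 2 = om k v 0 + om k v 1 + om k v 3 := by
      rw [Fin.sum_univ_four]; ring
    show (∑ c, om k v c) - om k v 2 = 0
    rw [g, ← e]
    unfold om
    rw [n1, n2, n3, m1, m2, m3]
  · have hk' : k 3 = 1 := hk
    have hv' : v 3 = 0 := hv
    have e := SF_zero_aux (k 0) (k 1) (k 2) (v 0) (v 1) (v 2) h10 h11 h12 (Qk k)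
      (∑ i, v i * nn k i) (by simp only [Qk, Fin.sum_univ_four, hk']; ring)
      (by simp only [nn, Fin.sum_univ_four, hk', hv']; ring)
    have n1 : nn k 0 = 1 + k 1 + k 2 - k 0 := by simp only [nn, Fin.sum_univ_four, hk']; ring
    have n2 : nn k 1 = 1 + k 0 + k 2 - k 1 := by simp only [nn, Fin.sum_univ_four, hk']; ring
    have n3 : nn k 2 = 1 + k 0 + k 1 - k 2 := by simp only [nn, Fin.sum_univ_four, hk']; ring
    have m1 : nn v 0 = v 1 + v 2 - v 0 := by simp only [nn, Fin.sum_univ_four, hv']; ring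
    have m2 : nn v 1 = v 0 + v 2 - v 1 := by simp only [nn, Fin.sum_univ_four, hv']; ring
    have m3 : nn v 2 = v 0 + v 1 - v 2 := by simp only [nn, Fin.sum_univ_four, hv']; ring
    have g : (∑ c, om k v c) - om k v 3 = om k v 0 + om k v 1 + om k v 2 := by
      rw [Fin.sum_univ_four]; ring
    show (∑ c, om k v c) - om k v 3 = 0
    rw [g, ← e]
    unfold om
    rw [n1, n2, n3, m1, m2, m3]

/-- the coefficient of `T_j` -/
noncomputable def SF_S (j : Fin 4) (p : R4 × R4) : ℝ := (∑ c, om p.1 p.2 c) - om p.1 p.2 j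

theorem SF_dV_eq (T k v : R4) :
    dV T k v = -(1 / Real.sqrt (4 + Qk k)) * ∑ j, T j * SF_S j (k, v) := by
  unfold dV SF_S
  congr 1
  simp only [Fin.sum_univ_four]
  ring

theorem SF_om_contDiffAt (k v : R4) (hQ : 0 < 4 + Qk k) (c : Fin 4) :
    ContDiffAt ℝ 1 (fun p : R4 × R4 => om p.1 p.2 c) (k, v) := by
  have h : (fun p : R4 × R4 => om p.1 p.2 c) = fun p : R4 × R4 =>
      ((4 + Qk p.1) * nn p.2 c - (∑ i, p.2 i * nn p.1 i) * nn p.1 c)
        / (4 + Qk p.1 + nn p.1 c ^ 2) := rfl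
  rw [h]
  refine ContDiffAt.div ?_ ?_ (den_pos k hQ c).ne'
  · simp only [Qk, nn]
    fun_prop
  · simp only [Qk, nn]
    fun_prop

theorem SF_SS_contDiffAt (k v : R4) (hQ : 0 < 4 + Qk k) (j : Fin 4) :
    ContDiffAt ℝ 1 (SF_S j) (k, v) := by
  have h : SF_S j = fun p : R4 × R4 => (∑ c, om p.1 p.2 c) - om p.1 p.2 j := rfl
  rw [h]
  exact (ContDiffAt.sum fun c _ => SF_om_contDiffAt k v hQ c).sub (SF_om_contDiffAt k v hQ j)

theorem SF_Qk_cont : Continuous Qk := by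
  unfold Qk
  fun_prop

theorem SF_VV_contOn : ContinuousOn VV {k : R4 | ∀ i, 1 ≤ k i} := by
  have h : VV = fun k => Real.sqrt (4 + Qk k) * Phi k := rfl
  rw [h]
  exact ((continuous_const.add SF_Qk_cont).sqrt.continuousOn).mul Phi_continuousOn

theorem SF_tau_bound (e : ℝ) (he : 0 < e) : 0 ≤ tau (1 + e) ∧ tau (1 + e) * e ≤ Real.sqrt ((2 + e) * e) := by
  constructor
  · exact (tau_pos (1 + e) (by linarith)).le
  · have h1 : (1 + e + 1) / (1 + e - 1) = (2 + e) / e := by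
      congr 1 <;> ring
    have hx : 0 < (2 + e) / e := by positivity
    have h2 : Real.log ((2 + e) / e) ≤ 2 * Real.sqrt ((2 + e) / e) := by
      have h3 := Real.log_sqrt hx.le
      have h4 := Real.log_le_sub_one_of_pos (Real.sqrt_pos.2 hx)
      linarith
    have h5 : tau (1 + e) ≤ Real.sqrt ((2 + e) / e) := by
      unfold tau
      rw [h1]
      linarith
    have h6 : Real.sqrt ((2 + e) / e) * e = Real.sqrt ((2 + e) * e) := by
      have h7 : e = Real.sqrt (e ^ 2) := (Real.sqrt_sq he.le).symm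
      calc Real.sqrt ((2 + e) / e) * e = Real.sqrt ((2 + e) / e) * Real.sqrt (e ^ 2) := by
            rw [← h7]
        _ = Real.sqrt ((2 + e) / e * e ^ 2) := (Real.sqrt_mul hx.le _).symm
        _ = Real.sqrt ((2 + e) * e) := by
            congr 1
            field_simp
    calc tau (1 + e) * e ≤ Real.sqrt ((2 + e) / e) * e := by
          exact mul_le_mul_of_nonneg_right h5 he.le
      _ = _ := h6

theorem SF_tau_tendsto : Tendsto (fun e : ℝ => tau (1 + e) * e) (𝓝[>] 0) (𝓝 0) := by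
  refine tendsto_of_tendsto_of_tendsto_of_le_of_le' (g := fun _ => (0 : ℝ))
    (h := fun e : ℝ => Real.sqrt ((2 + e) * e)) tendsto_const_nhds ?_ ?_ ?_
  · have h : Continuous fun e : ℝ => Real.sqrt ((2 + e) * e) := by fun_prop
    have h2 := h.tendsto 0
    have h3 : Real.sqrt ((2 + 0) * (0 : ℝ)) = 0 := by simp
    rw [h3] at h2
    exact h2.mono_left nhdsWithin_le_nhds
  · filter_upwards [self_mem_nhdsWithin] with e he
    have he' : 0 < e := he
    have := (SF_tau_bound e he').1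
    positivity
  · filter_upwards [self_mem_nhdsWithin] with e he
    exact (SF_tau_bound e he).2

/-- the point moved off the ideal boundary -/
def SF_ke (Z : Finset (Fin 4)) (e : ℝ) (k : R4) : R4 := fun i => k i + if i ∈ Z then e else 0

theorem SF_ke_zero (Z : Finset (Fin 4)) (k : R4) : SF_ke Z 0 k = k := by
  funext i
  simp [SF_ke]

theorem SF_ke_cont (Z : Finset (Fin 4)) : Continuous fun p : ℝ × R4 => SF_ke Z p.1 p.2 := by
  unfold SF_ke
  refine continuous_pi fun i => ?_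
  by_cases h : i ∈ Z
  · simp only [h, if_true]
    fun_prop
  · simp only [h, if_false]
    fun_prop

theorem SF_term_lim (k v : ℝ → R4) (Z : Finset (Fin 4)) (t : ℝ)
    (hk : ContinuousAt k t) (hv : ContinuousAt v t)
    (hkZ : ∀ᶠ s in 𝓝 t, ∀ i ∈ Z, k s i = 1) (hvZ : ∀ᶠ s in 𝓝 t, ∀ i ∈ Z, v s i = 0)
    (h1 : ∀ᶠ s in 𝓝 t, ∀ i, i ∉ Z → 1 < k s i) (hQ : 0 < 4 + Qk (k t)) (j : Fin 4) :
    Tendsto (fun p : ℝ × ℝ => tau (SF_ke Z p.1 (k p.2) j) * SF_S j (SF_ke Z p.1 (k p.2), v p.2))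
      ((𝓝[>] 0) ×ˢ (𝓝 t)) (𝓝 ((if j ∈ Z then 0 else tau (k t j)) * SF_S j (k t, v t))) := by
  have hsnd : Tendsto (fun p : ℝ × ℝ => p.2) ((𝓝[>] (0 : ℝ)) ×ˢ (𝓝 t)) (𝓝 t) := tendsto_snd
  have hfst : Tendsto (fun p : ℝ × ℝ => p.1) ((𝓝[>] (0 : ℝ)) ×ˢ (𝓝 t)) (𝓝[>] 0) := tendsto_fst
  have hfst' : Tendsto (fun p : ℝ × ℝ => p.1) ((𝓝[>] (0 : ℝ)) ×ˢ (𝓝 t)) (𝓝 0) :=
    hfst.mono_right nhdsWithin_le_nhds
  have hkk : Tendsto (fun p : ℝ × ℝ => k p.2) ((𝓝[>] (0 : ℝ)) ×ˢ (𝓝 t)) (𝓝 (k t)) :=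
    hk.tendsto.comp hsnd
  have hvv : Tendsto (fun p : ℝ × ℝ => v p.2) ((𝓝[>] (0 : ℝ)) ×ˢ (𝓝 t)) (𝓝 (v t)) :=
    hv.tendsto.comp hsnd
  have hke : Tendsto (fun p : ℝ × ℝ => SF_ke Z p.1 (k p.2)) ((𝓝[>] (0 : ℝ)) ×ˢ (𝓝 t)) (𝓝 (k t)) := by
    have h := (SF_ke_cont Z).tendsto ((0 : ℝ), k t)
    simp only [SF_ke_zero] at h
    exact h.comp (hfst'.prodMk_nhds hkk)
  have hpt : Tendsto (fun p : ℝ × ℝ => (SF_ke Z p.1 (k p.2), v p.2)) ((𝓝[>] (0 : ℝ)) ×ˢ (𝓝 t))
      (𝓝 (k t, v t)) := hke.prodMk_nhds hvv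
  by_cases hj : j ∈ Z
  · simp only [hj, if_true, zero_mul]
    obtain ⟨K, U, hU, hLip⟩ := (SF_SS_contDiffAt (k t) (v t) hQ j).exists_lipschitzOnWith
    -- the point with the `j`-th coordinate replaced by one
    set w : ℝ × ℝ → R4 := fun p => SF_ke (Z.erase j) p.1 (k p.2) with hw
    have hwt : Tendsto w ((𝓝[>] (0 : ℝ)) ×ˢ (𝓝 t)) (𝓝 (k t)) := by
      have h := (SF_ke_cont (Z.erase j)).tendsto ((0 : ℝ), k t)
      simp only [SF_ke_zero] at h
      exact h.comp (hfst'.prodMk_nhds hkk)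
    have hwpt : Tendsto (fun p : ℝ × ℝ => (w p, v p.2)) ((𝓝[>] (0 : ℝ)) ×ˢ (𝓝 t))
        (𝓝 (k t, v t)) := hwt.prodMk_nhds hvv
    have hQw : ∀ᶠ p in ((𝓝[>] (0 : ℝ)) ×ˢ (𝓝 t)), 0 < 4 + Qk (w p) := by
      have h : Tendsto (fun p => 4 + Qk (w p)) ((𝓝[>] (0 : ℝ)) ×ˢ (𝓝 t)) (𝓝 (4 + Qk (k t))) :=
        ((continuous_const.add SF_Qk_cont).tendsto (k t)).comp hwt
      exact h.eventually (lt_mem_nhds hQ)
    have hpos : ∀ᶠ p in ((𝓝[>] (0 : ℝ)) ×ˢ (𝓝 t)), 0 < p.1 :=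
      hfst.eventually self_mem_nhdsWithin
    have hT : Tendsto (fun p : ℝ × ℝ => tau (1 + p.1) * p.1 * K) ((𝓝[>] (0 : ℝ)) ×ˢ (𝓝 t))
        (𝓝 0) := by
      have h := (SF_tau_tendsto.comp hfst).mul_const (K : ℝ)
      rw [zero_mul] at h
      exact h
    refine squeeze_zero_norm' ?_ hT
    filter_upwards [hpt hU, hwpt hU, hQw, hpos, hsnd.eventually hkZ, hsnd.eventually hvZ,
      hsnd.eventually h1] with p hp1 hp2 hp3 hp4 hp5 hp6 hp7
    have hp1' : (SF_ke Z p.1 (k p.2), v p.2) ∈ U := hp1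
    have hp2' : (w p, v p.2) ∈ U := hp2
    have hz : SF_S j (w p, v p.2) = 0 := by
      refine S_zero (w p) (v p.2) j ?_ ?_ (hp6 j hj) hp3
      · intro i
        simp only [hw, SF_ke]
        by_cases hi : i ∈ Z
        · have := hp5 i hi
          split_ifs <;> linarith
        · have := hp7 i hi
          split_ifs <;> linarith
      · simp only [hw, SF_ke, Finset.mem_erase, ne_eq, not_true_eq_false, false_and, if_false,
          add_zero]
        exact hp5 j hj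
    have hd : dist (SF_ke Z p.1 (k p.2), v p.2) (w p, v p.2) ≤ p.1 := by
      rw [Prod.dist_eq]
      simp only [dist_self]
      refine max_le ?_ hp4.le
      rw [dist_pi_le_iff hp4.le]
      intro i
      simp only [hw, SF_ke, Real.dist_eq, Finset.mem_erase]
      by_cases hij : i = j
      · subst hij
        simp only [hj, if_true, ne_eq, not_true_eq_false, false_and, if_false, add_zero]
        rw [show k p.2 i + p.1 - k p.2 i = p.1 by ring, abs_of_pos hp4]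
      · by_cases hi : i ∈ Z
        · simp only [hi, hij, if_true, ne_eq, not_false_eq_true, true_and]
          simp [hp4.le]
        · simp only [hi, if_false, and_false]
          simp [hp4.le]
    have hL := hLip.dist_le_mul _ hp1' _ hp2'
    rw [hz, Real.dist_eq, sub_zero] at hL
    have hkj : SF_ke Z p.1 (k p.2) j = 1 + p.1 := by
      simp only [SF_ke, hj, if_true]
      rw [hp5 j hj]
    rw [hkj, norm_mul, Real.norm_eq_abs, Real.norm_eq_abs,
      abs_of_nonneg (SF_tau_bound p.1 hp4).1]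
    have hK : (0 : ℝ) ≤ K := K.2
    calc tau (1 + p.1) * |SF_S j (SF_ke Z p.1 (k p.2), v p.2)|
        ≤ tau (1 + p.1) * (K * p.1) := by
          refine mul_le_mul_of_nonneg_left ?_ (SF_tau_bound p.1 hp4).1
          exact hL.trans (mul_le_mul_of_nonneg_left hd hK)
      _ = tau (1 + p.1) * p.1 * K := by ring
  · simp only [hj, if_false]
    have hkt : 1 < k t j := h1.self_of_nhds j hj
    refine Tendsto.mul ?_ ?_
    · have h2 : Tendsto (fun p : ℝ × ℝ => SF_ke Z p.1 (k p.2) j) ((𝓝[>] (0 : ℝ)) ×ˢ (𝓝 t))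
          (𝓝 (k t j)) := ((continuous_apply j).tendsto (k t)).comp hke
      exact (tau_hasDerivAt (k t j) hkt).continuousAt.tendsto.comp h2
    · exact (SF_SS_contDiffAt (k t) (v t) hQ j).continuousAt.tendsto.comp hpt

theorem SF_dV_lim (k v : ℝ → R4) (Z : Finset (Fin 4)) (t : ℝ)
    (hk : ContinuousAt k t) (hv : ContinuousAt v t)
    (hkZ : ∀ᶠ s in 𝓝 t, ∀ i ∈ Z, k s i = 1) (hvZ : ∀ᶠ s in 𝓝 t, ∀ i ∈ Z, v s i = 0)
    (h1 : ∀ᶠ s in 𝓝 t, ∀ i, i ∉ Z → 1 < k s i) (hQ : 0 < 4 + Qk (k t)) :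
    Tendsto (fun p : ℝ × ℝ => dV (fun i => tau (SF_ke Z p.1 (k p.2) i)) (SF_ke Z p.1 (k p.2)) (v p.2))
      ((𝓝[>] 0) ×ˢ (𝓝 t)) (𝓝 (dV (fun i => if i ∈ Z then 0 else tau (k t i)) (k t) (v t))) := by
  simp only [SF_dV_eq]
  refine Tendsto.mul ?_ ?_
  · have hfst' : Tendsto (fun p : ℝ × ℝ => p.1) ((𝓝[>] (0 : ℝ)) ×ˢ (𝓝 t)) (𝓝 0) :=
      (tendsto_fst).mono_right nhdsWithin_le_nhds
    have hkk : Tendsto (fun p : ℝ × ℝ => k p.2) ((𝓝[>] (0 : ℝ)) ×ˢ (𝓝 t)) (𝓝 (k t)) :=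
      hk.tendsto.comp tendsto_snd
    have hke : Tendsto (fun p : ℝ × ℝ => SF_ke Z p.1 (k p.2)) ((𝓝[>] (0 : ℝ)) ×ˢ (𝓝 t))
        (𝓝 (k t)) := by
      have h := (SF_ke_cont Z).tendsto ((0 : ℝ), k t)
      simp only [SF_ke_zero] at h
      exact h.comp (hfst'.prodMk_nhds hkk)
    have h2 : Tendsto (fun x : R4 => -(1 / Real.sqrt (4 + Qk x))) (𝓝 (k t))
        (𝓝 (-(1 / Real.sqrt (4 + Qk (k t))))) := by
      refine Tendsto.neg (Tendsto.div tendsto_const_nhds ?_ (Real.sqrt_pos.2 hQ).ne')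
      exact ((continuous_const.add SF_Qk_cont).sqrt).tendsto (k t)
    exact h2.comp hke
  · refine tendsto_finsetSum _ fun j _ => ?_
    exact SF_term_lim k v Z t hk hv hkZ hvZ h1 hQ j

theorem SF_dV_cont (k v : ℝ → R4) (Z : Finset (Fin 4)) (t : ℝ)
    (hk : ContinuousAt k t) (hv : ContinuousAt v t)
    (h1 : ∀ i, i ∉ Z → 1 < k t i) (hQ : 0 < 4 + Qk (k t)) :
    Tendsto (fun y => dV (fun i => if i ∈ Z then 0 else tau (k y i)) (k y) (v y)) (𝓝 t)
      (𝓝 (dV (fun i => if i ∈ Z then 0 else tau (k t i)) (k t) (v t))) := by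
  simp only [SF_dV_eq]
  refine Tendsto.mul ?_ ?_
  · have h2 : Tendsto (fun x : R4 => -(1 / Real.sqrt (4 + Qk x))) (𝓝 (k t))
        (𝓝 (-(1 / Real.sqrt (4 + Qk (k t))))) := by
      refine Tendsto.neg (Tendsto.div tendsto_const_nhds ?_ (Real.sqrt_pos.2 hQ).ne')
      exact ((continuous_const.add SF_Qk_cont).sqrt).tendsto (k t)
    exact h2.comp hk.tendsto
  · refine tendsto_finsetSum _ fun j _ => ?_
    refine Tendsto.mul ?_ ?_
    · by_cases hj : j ∈ Z
      · simp only [hj, if_true]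
        exact tendsto_const_nhds
      · simp only [hj, if_false]
        exact (tau_hasDerivAt (k t j) (h1 j hj)).continuousAt.tendsto.comp
          (((continuous_apply j).tendsto (k t)).comp hk.tendsto)
    · exact (SF_SS_contDiffAt (k t) (v t) hQ j).continuousAt.tendsto.comp
        (hk.tendsto.prodMk_nhds hv.tendsto)

theorem schl_face (k v : ℝ → R4) (a b : ℝ) (Z : Finset (Fin 4))
    (hk : ∀ t ∈ Ioo a b, HasDerivAt k (v t) t) (hv : ContinuousOn v (Ioo a b))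
    (hZ : ∀ t ∈ Ioo a b, ∀ i ∈ Z, k t i = 1) (h1 : ∀ t ∈ Ioo a b, ∀ i, i ∉ Z → 1 < k t i)
    (hQ : ∀ t ∈ Ioo a b, 0 < 4 + Qk (k t)) (t : ℝ) (ht : t ∈ Ioo a b) :
    HasDerivAt (fun s => VV (k s))
      (dV (fun i => if i ∈ Z then 0 else tau (k t i)) (k t) (v t)) t := by
  have hmem : ∀ᶠ s in 𝓝 t, s ∈ Ioo a b := Ioo_mem_nhds ht.1 ht.2
  have hkc : ContinuousAt k t := (hk t ht).continuousAt
  have hvc : ContinuousAt v t := hv.continuousAt (Ioo_mem_nhds ht.1 ht.2)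
  have hkZ : ∀ᶠ s in 𝓝 t, ∀ i ∈ Z, k s i = 1 := hmem.mono hZ
  have h1' : ∀ᶠ s in 𝓝 t, ∀ i, i ∉ Z → 1 < k s i := hmem.mono h1
  have hvZ : ∀ᶠ s in 𝓝 t, ∀ i ∈ Z, v s i = 0 := by
    filter_upwards [hmem] with s hs i hi
    have hd : HasDerivAt (fun x => k x i) (v s i) s := (hasDerivAt_pi.1 (hk s hs)) i
    have hc : HasDerivAt (fun x => k x i) 0 s := by
      refine (hasDerivAt_const s (1 : ℝ)).congr_of_eventuallyEq ?_
      filter_upwards [Ioo_mem_nhds hs.1 hs.2] with x hx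
      exact hZ x hx i hi
    exact hd.unique hc
  have hkZ0 := hZ t ht
  have hfst' : Tendsto (fun p : ℝ × ℝ => p.1) ((𝓝[>] (0 : ℝ)) ×ˢ (𝓝 t)) (𝓝 0) :=
    (tendsto_fst).mono_right nhdsWithin_le_nhds
  refine hasDerivAt_of_tendstoUniformlyOnFilter (l := 𝓝[>] (0 : ℝ))
    (f := fun e s => VV (SF_ke Z e (k s)))
    (f' := fun e s => dV (fun i => tau (SF_ke Z e (k s) i)) (SF_ke Z e (k s)) (v s))
    (g := fun s => VV (k s))
    (g' := fun s => dV (fun i => if i ∈ Z then 0 else tau (k s i)) (k s) (v s)) ?_ ?_ ?_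
  · rw [Metric.tendstoUniformlyOnFilter_iff]
    intro d hd
    have hA := SF_dV_lim k v Z t hkc hvc hkZ hvZ h1' (hQ t ht)
    have hB := SF_dV_cont k v Z t hkc hvc (h1 t ht) (hQ t ht)
    rw [Metric.tendsto_nhds] at hA hB
    have hA' := hA (d / 2) (by linarith)
    have hB' : ∀ᶠ p in ((𝓝[>] (0 : ℝ)) ×ˢ (𝓝 t)),
        dist (dV (fun i => if i ∈ Z then 0 else tau (k p.2 i)) (k p.2) (v p.2))
          (dV (fun i => if i ∈ Z then 0 else tau (k t i)) (k t) (v t)) < d / 2 :=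
      (tendsto_snd).eventually (hB (d / 2) (by linarith))
    filter_upwards [hA', hB'] with p hp1 hp2
    calc dist _ _ ≤ dist _ (dV (fun i => if i ∈ Z then 0 else tau (k t i)) (k t) (v t))
          + dist (dV (fun i => if i ∈ Z then 0 else tau (k t i)) (k t) (v t)) _ :=
          dist_triangle _ _ _
      _ < d / 2 + d / 2 := add_lt_add hp2 (by rw [dist_comm]; exact hp1)
      _ = d := by ring
  · have hpos : ∀ᶠ p in ((𝓝[>] (0 : ℝ)) ×ˢ (𝓝 t)), 0 < p.1 :=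
      (tendsto_fst).eventually self_mem_nhdsWithin
    have hke : Tendsto (fun p : ℝ × ℝ => SF_ke Z p.1 (k p.2)) ((𝓝[>] (0 : ℝ)) ×ˢ (𝓝 t))
        (𝓝 (k t)) := by
      have h := (SF_ke_cont Z).tendsto ((0 : ℝ), k t)
      simp only [SF_ke_zero] at h
      exact h.comp (hfst'.prodMk_nhds (hkc.tendsto.comp tendsto_snd))
    have hQw : ∀ᶠ p in ((𝓝[>] (0 : ℝ)) ×ˢ (𝓝 t)), 0 < 4 + Qk (SF_ke Z p.1 (k p.2)) := by
      have h : Tendsto (fun p : ℝ × ℝ => 4 + Qk (SF_ke Z p.1 (k p.2)))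
          ((𝓝[>] (0 : ℝ)) ×ˢ (𝓝 t)) (𝓝 (4 + Qk (k t))) :=
        ((continuous_const.add SF_Qk_cont).tendsto (k t)).comp hke
      exact h.eventually (lt_mem_nhds (hQ t ht))
    filter_upwards [hpos, hQw, (tendsto_snd (f := 𝓝[>] (0 : ℝ))).eventually hmem] with p hp1 hp2 hp3
    refine schl (fun s => SF_ke Z p.1 (k s)) (v p.2) p.2 ?_ ?_ hp2
    · rw [hasDerivAt_pi]
      intro i
      exact ((hasDerivAt_pi.1 (hk p.2 hp3)) i).add_const _
    · intro i
      simp only [SF_ke]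
      by_cases hi : i ∈ Z
      · simp only [hi, if_true]
        rw [hZ p.2 hp3 i hi]
        linarith
      · simp only [hi, if_false, add_zero]
        exact h1 p.2 hp3 i hi
  · filter_upwards [hmem] with y hy
    have hy1 : ∀ i, 1 ≤ k y i := by
      intro i
      by_cases hi : i ∈ Z
      · exact (hZ y hy i hi).ge
      · exact (h1 y hy i hi).le
    have h2 : Tendsto (fun e : ℝ => SF_ke Z e (k y)) (𝓝[>] 0) (𝓝[{k : R4 | ∀ i, 1 ≤ k i}] (k y)) := by
      rw [tendsto_nhdsWithin_iff]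
      constructor
      · have h3 : Continuous fun e : ℝ => SF_ke Z e (k y) :=
          (SF_ke_cont Z).comp (continuous_id.prodMk continuous_const)
        have h4 := h3.tendsto 0
        rw [SF_ke_zero] at h4
        exact h4.mono_left nhdsWithin_le_nhds
      · filter_upwards [self_mem_nhdsWithin] with e he i
        have he' : 0 < e := he
        simp only [SF_ke]
        have := hy1 i
        split_ifs <;> linarith
    exact (SF_VV_contOn (k y) hy1).tendsto.comp h2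

end Pool.Agent.MidT
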