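import Pool.Agent.MidT.SchlFace
import Pool.Agent.MidT.IneqA

/-!
# MidT module VAL2: the volume for the parameters `(1, 1, x, x)`

`schl_face` for `k t = ![1, 1, t, t]`, `v = ![0, 0, 1, 1]`, `Z = {0, 1}` on `(1, R)`: `Qk = 8t`, `4 + Qk = 4(1+2t)`, `nn v = (2, 2, 0, 0)`,
`nn k = (2t, 2t, 2, 2)`, `∑ v_i n_i = 4`, `om 0 = om 1 = 2/(1+t)`, `om 2 = om 3 = -1/(1+t)`, `N_0 = N_1 = 2 tau t`, `N_2 = N_3 = tau t`, so
`V' = -3 tau t/((1+t) √(1+2t))`.
`VV → 0` at `∞`: `Phi_decay2`, `√(4+Q) = 2 √(1+2t)`.  `integral_Ioi_of_hasDerivAt_of_tendsto` gives the formula for `x > 1`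
(integrable on `(1, ∞)`: nonnegative and an antiderivative with finite limits: `integrableOn_Ioi_deriv_of_nonpos`).
At `x = 1`: `integrableOn_Ioi_deriv_of_nonpos'` and the fundamental theorem need only right-continuity of `VV ![1,1,t,t]` at `1` (`Phi_continuousOn`).
-/

set_option autoImplicit false

namespace Pool.Agent.MidT

open MeasureTheory Set Filter Topology

theorem VV_continuousOn : ContinuousOn VV {k : R4 | ∀ i, 1 ≤ k i} := by
  unfold VV
  apply ContinuousOn.mul
  · apply Continuous.continuousOn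
    unfold Qk
    fun_prop
  · exact Phi_continuousOn

theorem Qk_11xx (t : ℝ) : Qk ![1, 1, t, t] = 8 * t := by
  simp only [Qk, Fin.sum_univ_four, Matrix.cons_val_zero, Matrix.cons_val_one, Matrix.cons_val]
  ring

theorem dV_11xx (t : ℝ) (ht : 1 < t) :
    dV (fun i => if i ∈ ({0, 1} : Finset (Fin 4)) then 0 else tau ((![1, 1, t, t] : R4) i))
      ![1, 1, t, t] ![0, 0, 1, 1] = -(3 * (tau t / ((1 + t) * Real.sqrt (1 + 2 * t)))) := by
  have hs : Real.sqrt (4 + Qk ![1, 1, t, t]) = 2 * Real.sqrt (1 + 2 * t) := by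
    rw [Qk_11xx, show (4 : ℝ) + 8 * t = 2 ^ 2 * (1 + 2 * t) by ring,
      Real.sqrt_mul (by positivity), Real.sqrt_sq (by norm_num)]
  have hspos : 0 < Real.sqrt (1 + 2 * t) := Real.sqrt_pos.2 (by linarith)
  have n0 : nn ![1, 1, t, t] 0 = 2 * t := by
    simp only [nn, Fin.sum_univ_four, Matrix.cons_val_zero, Matrix.cons_val_one, Matrix.cons_val]
    ring
  have n1 : nn ![1, 1, t, t] 1 = 2 * t := by
    simp only [nn, Fin.sum_univ_four, Matrix.cons_val_zero, Matrix.cons_val_one, Matrix.cons_val]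
    ring
  have n2 : nn ![1, 1, t, t] 2 = 2 := by
    simp only [nn, Fin.sum_univ_four, Matrix.cons_val_zero, Matrix.cons_val_one, Matrix.cons_val]
    ring
  have n3 : nn ![1, 1, t, t] 3 = 2 := by
    simp only [nn, Fin.sum_univ_four, Matrix.cons_val_zero, Matrix.cons_val_one, Matrix.cons_val]
    ring
  have v0 : nn ![0, 0, 1, 1] 0 = 2 := by
    simp only [nn, Fin.sum_univ_four, Matrix.cons_val_zero, Matrix.cons_val_one, Matrix.cons_val]
    ring
  have v1 : nn ![0, 0, 1, 1] 1 = 2 := by
    simp only [nn, Fin.sum_univ_four, Matrix.cons_val_zero, Matrix.cons_val_one, Matrix.cons_val]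
    ring
  have v2 : nn ![0, 0, 1, 1] 2 = 0 := by
    simp only [nn, Fin.sum_univ_four, Matrix.cons_val_zero, Matrix.cons_val_one, Matrix.cons_val]
    ring
  have v3 : nn ![0, 0, 1, 1] 3 = 0 := by
    simp only [nn, Fin.sum_univ_four, Matrix.cons_val_zero, Matrix.cons_val_one, Matrix.cons_val]
    ring
  have hk0 : (∑ i, (![0, 0, 1, 1] : R4) i * nn ![1, 1, t, t] i) = 4 := by
    rw [Fin.sum_univ_four, n0, n1, n2, n3]
    simp only [Matrix.cons_val_zero, Matrix.cons_val_one, Matrix.cons_val]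
    ring
  have t0 : (if (0 : Fin 4) ∈ ({0, 1} : Finset (Fin 4)) then (0 : ℝ)
      else tau ((![1, 1, t, t] : R4) 0)) = 0 := by simp
  have t1 : (if (1 : Fin 4) ∈ ({0, 1} : Finset (Fin 4)) then (0 : ℝ)
      else tau ((![1, 1, t, t] : R4) 1)) = 0 := by simp
  have t2 : (if (2 : Fin 4) ∈ ({0, 1} : Finset (Fin 4)) then (0 : ℝ)
      else tau ((![1, 1, t, t] : R4) 2)) = tau t := by
    rw [if_neg (by decide)]
    rfl
  have t3 : (if (3 : Fin 4) ∈ ({0, 1} : Finset (Fin 4)) then (0 : ℝ)
      else tau ((![1, 1, t, t] : R4) 3)) = tau t := by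
    rw [if_neg (by decide)]
    rfl
  unfold dV om
  rw [hk0, hs]
  simp only [Fin.sum_univ_four]
  rw [t0, t1, t2, t3, n0, n1, n2, n3, v0, v1, v2, v3, Qk_11xx]
  have e1 : (4 : ℝ) + 8 * t + (2 * t) ^ 2 = 4 * (1 + t) ^ 2 := by ring
  have e2 : (4 : ℝ) + 8 * t + 2 ^ 2 = 8 * (1 + t) := by ring
  rw [e1, e2]
  have h1t : 0 < 1 + t := by linarith
  field_simp
  ring

theorem hasDerivAt_11xx (t : ℝ) (ht : 1 < t) :
    HasDerivAt (fun s : ℝ => VV ![1, 1, s, s])
      (-(3 * (tau t / ((1 + t) * Real.sqrt (1 + 2 * t))))) t := by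
  have h := schl_face (fun s => ![1, 1, s, s]) (fun _ => ![0, 0, 1, 1]) 1 (t + 1) {0, 1}
    (by
      intro s _
      rw [hasDerivAt_pi]
      intro i
      fin_cases i
      · exact hasDerivAt_const s 1
      · exact hasDerivAt_const s 1
      · exact hasDerivAt_id s
      · exact hasDerivAt_id s)
    continuousOn_const
    (by
      intro s _ i hi
      fin_cases i
      · rfl
      · rfl
      · exact absurd hi (by decide)
      · exact absurd hi (by decide))
    (by
      intro s hs i hi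
      fin_cases i
      · exact absurd (by decide) hi
      · exact absurd (by decide) hi
      · exact hs.1
      · exact hs.1)
    (by
      intro s hs
      rw [Qk_11xx]
      linarith [hs.1])
    t ⟨ht, by linarith⟩
  rw [dV_11xx t ht] at h
  exact h

theorem tendsto_11xx : Tendsto (fun s : ℝ => VV ![1, 1, s, s]) atTop (𝓝 0) := by
  obtain ⟨C, hC⟩ := Phi_decay2
  have hup : ∀ s : ℝ, 1 ≤ s → VV ![1, 1, s, s] ≤ 4 * |C| / s := by
    intro s hs
    unfold VV
    rw [Qk_11xx]
    have h1 : Real.sqrt (4 + 8 * s) ≤ 4 * s := by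
      rw [Real.sqrt_le_left (by linarith)]
      nlinarith
    have h2 := hC s hs
    have h3 : C / s ^ 2 ≤ |C| / s ^ 2 := by
      apply div_le_div_of_nonneg_right (le_abs_self C) (by positivity)
    have h5 : 0 ≤ |C| / s ^ 2 := by positivity
    calc Real.sqrt (4 + 8 * s) * Phi ![1, 1, s, s]
        ≤ Real.sqrt (4 + 8 * s) * (|C| / s ^ 2) :=
          mul_le_mul_of_nonneg_left (h2.trans h3) (Real.sqrt_nonneg _)
      _ ≤ (4 * s) * (|C| / s ^ 2) := mul_le_mul_of_nonneg_right h1 h5
      _ = 4 * |C| / s := by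
          have : s ≠ 0 := by intro h; linarith
          field_simp
  have hlo : ∀ s : ℝ, 1 ≤ s → 0 ≤ VV ![1, 1, s, s] := by
    intro s hs
    unfold VV
    apply mul_nonneg (Real.sqrt_nonneg _)
    apply (Phi_pos _ _).le
    intro i
    fin_cases i
    · exact le_rfl
    · exact le_rfl
    · exact hs
    · exact hs
  apply tendsto_of_tendsto_of_tendsto_of_le_of_le' tendsto_const_nhds
    (tendsto_const_nhds.div_atTop tendsto_id : Tendsto (fun s : ℝ => 4 * |C| / s) atTop (𝓝 0))
  · filter_upwards [eventually_ge_atTop 1] with s hs using hlo s hs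
  · filter_upwards [eventually_ge_atTop 1] with s hs using hup s hs

theorem val2 (x : ℝ) (hx : 1 ≤ x) : VV ![1, 1, x, x] = W2 x := by
  have hmap : Continuous (fun s : ℝ => (![1, 1, s, s] : R4)) := by
    apply continuous_pi
    intro i
    fin_cases i
    · exact continuous_const
    · exact continuous_const
    · exact continuous_id
    · exact continuous_id
  have hcont : ContinuousWithinAt (fun s : ℝ => VV ![1, 1, s, s]) (Ici x) x := by
    have hon : ContinuousOn (fun s : ℝ => VV ![1, 1, s, s]) (Ici 1) := by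
      apply VV_continuousOn.comp hmap.continuousOn
      intro s hs i
      have hs' : 1 ≤ s := hs
      fin_cases i
      · exact le_rfl
      · exact le_rfl
      · exact hs'
      · exact hs'
    exact (hon x hx).mono fun s hs => hx.trans hs
  have h := integral_Ioi_of_hasDerivAt_of_nonpos hcont
    (fun t ht => hasDerivAt_11xx t (lt_of_le_of_lt hx ht))
    (fun t ht => by
      have ht1 : 1 < t := lt_of_le_of_lt hx ht
      have h1 := tau_pos t ht1
      have h2 : 0 ≤ tau t / ((1 + t) * Real.sqrt (1 + 2 * t)) := by positivity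
      linarith) tendsto_11xx
  rw [integral_neg, integral_const_mul] at h
  unfold W2
  linarith

end Pool.Agent.MidT
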